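import Mathlib
import Pool.Agent.H62.Decomp.Basic

/-! # SG.Def : definitions for MP_33a63d_co, graphs with chromatic surplus one

`C` is always the graph of the red edges of a colouring (colour 1), `Cᶜ` the blue graph. `T` is a tree on `Fin n`.
`dg F x S` = number of neighbours of `x` in `S`, `nd F x S` = number of non-neighbours of `x` in `S` (`x` itself is
counted if `x ∈ S`), so `dg F x S + nd F x S = S.card` and `nd Cᶜ x S = dg C x S + 1` for `x ∈ S`. -/

namespace H67.SG

open SimpleGraph Pool.Agent.H62.Decomp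

universe u v

open Classical in
/-- number of neighbours of `x` in `S` -/
noncomputable def dg {W : Type u} (F : SimpleGraph W) (x : W) (S : Finset W) : ℕ :=
  (S.filter (fun y => F.Adj x y)).card

open Classical in
/-- number of non-neighbours of `x` in `S` (`x` itself is counted when it lies in `S`) -/
noncomputable def nd {W : Type u} (F : SimpleGraph W) (x : W) (S : Finset W) : ℕ :=
  (S.filter (fun y => ¬ F.Adj x y)).card

/-- degree in a finite graph -/
noncomputable def deg {W : Type u} [Fintype W] (F : SimpleGraph W) (x : W) : ℕ :=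
  dg F x Finset.univ

/-- `S` contains `q` pairwise disjoint sets of `m` vertices, any two of them completely joined in `C` -/
def HasK {W : Type u} (q m : ℕ) (C : SimpleGraph W) (S : Finset W) : Prop :=
  ∃ P : Fin q → Finset W, (∀ i, P i ⊆ S) ∧ (∀ i, (P i).card = m) ∧
    ∀ i j, i ≠ j → ∀ x ∈ P i, ∀ y ∈ P j, C.Adj x y

/-- the same with one more vertex joined to everything: a complete `(q+1)`-partite graph with parts
`1, m, …, m` -/
def HasK1 {W : Type u} (q m : ℕ) (C : SimpleGraph W) : Prop :=
  ∃ (x : W) (P : Fin q → Finset W), (∀ i, (P i).card = m) ∧ (∀ i, ∀ y ∈ P i, C.Adj x y) ∧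
    ∀ i j, i ≠ j → ∀ y ∈ P i, ∀ z ∈ P j, C.Adj y z

/-- a rooted order of a tree: `rk` = rank, `par` = parent; every vertex except the root has exactly one
neighbour of smaller rank, its parent -/
structure Rooted {n : ℕ} (T : SimpleGraph (Fin n)) (r : Fin n) (rk : Fin n → ℕ) (par : Fin n → Fin n) :
    Prop where
  inj : Function.Injective rk
  adj : ∀ v, v ≠ r → T.Adj (par v) v
  lt : ∀ v, v ≠ r → rk (par v) < rk v
  uniq : ∀ u v, T.Adj u v → rk u < rk v → v ≠ r ∧ u = par v

/-- every nonempty set contains a vertex with at most `n - 1` non-neighbours (itself included): this is what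
the absence of blue trees with `n` vertices gives -/
def Thin {W : Type u} (n : ℕ) (C : SimpleGraph W) : Prop :=
  ∀ S : Finset W, S.Nonempty → ∃ v ∈ S, nd C v S ≤ n - 1

/-- distance at most `r` -/
def near {W : Type u} (T : SimpleGraph W) : ℕ → W → W → Prop
  | 0, x, y => x = y
  | r + 1, x, y => ∃ z, near T r x z ∧ (z = y ∨ T.Adj z y)

open Classical in
/-- the part with number `j` of a partition `c` -/
noncomputable def part {W : Type u} [Fintype W] {q : ℕ} (c : W → Fin q) (j : Fin q) : Finset W :=
  Finset.univ.filter (fun x => c x = j)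

/-- the structure of a colouring: parts of size at least `n - g`, at most `g` blue edges from a vertex to another
part, less than `m` red edges from a vertex to its own part -/
structure Str {W : Type u} [Fintype W] (C : SimpleGraph W) (q m n g : ℕ) (c : W → Fin q) : Prop where
  size : ∀ j, n ≤ (part c j).card + g
  cross : ∀ x j, j ≠ c x → nd C x (part c j) ≤ g
  inner : ∀ x, dg C x (part c (c x)) < m

/-- ordered cliques with `p` vertices inside `S` -/
def clq {W : Type u} (C : SimpleGraph W) (p : ℕ) (S : Finset W) : Set (Fin p → W) :=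
  {f | (∀ i, f i ∈ S) ∧ ∀ i j, i < j → C.Adj (f i) (f j)}

/-- stability statement with `p` parts: no red `K_(p+1)(m)`, no blue tree `T`, almost `p n` vertices: then there
are `p` disjoint sets of about `n` vertices, almost completely blue inside and almost completely red between -/
def StabAt (p : ℕ) : Prop :=
  ∀ m : ℕ, 1 ≤ m → ∀ δ : ℝ, 0 < δ → ∃ ε : ℝ, 0 < ε ∧ ∃ n₀ : ℕ, ∀ n : ℕ, n₀ ≤ n →
    ∀ T : SimpleGraph (Fin n), T.IsTree → ∀ (W : Type) (C : SimpleGraph W) (S : Finset W),
      ¬ T ⊑ Cᶜ → ((p : ℝ) - ε) * n ≤ S.card → ¬ HasK (p + 1) m C S →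
      ∃ P : Fin p → Finset W, (∀ i, P i ⊆ S) ∧ (∀ i j, i ≠ j → Disjoint (P i) (P j)) ∧
        (∀ i, (1 - δ) * n ≤ (P i).card) ∧ (∀ i, (P i).card ≤ n) ∧
        (∀ i, ∀ x ∈ P i, (dg C x (P i) : ℝ) ≤ δ * n) ∧
        (∀ i j, i ≠ j → ∀ x ∈ P i, (nd C x (P j) : ℝ) ≤ δ * n)

/-- `MJ G q c`: the vertices of `G` can be divided into `q` classes, the first `c` of which induce graphs of
maximum degree at most one, while the others are independent -/
def MJ {V : Type u} (G : SimpleGraph V) (q c : ℕ) : Prop :=
  ∃ lam : V → Fin q, ∀ x y, lam x = lam y → G.Adj x y →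
    (lam x : ℕ) < c ∧ ∀ z, lam z = lam x → G.Adj x z → z = y

/-- `ContainsPart G d C`: the graph `C` contains a copy of a graph `G[s]` such that `G - s` is `d`-colourable -/
def ContainsPart {V : Type u} {W : Type v} (G : SimpleGraph V) (d : ℕ) (C : SimpleGraph W) : Prop :=
  ∃ s : Set V, (G.induce sᶜ).Colorable d ∧ (G.induce s) ⊑ C

/-- the Ramsey number of the family of all `G[s]`, `χ(G - s) ≤ d`, versus `T` -/
noncomputable def partRamsey {V : Type u} {W : Type v} (G : SimpleGraph V) (d : ℕ) (T : SimpleGraph W) : ℕ :=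
  sInf {r : ℕ | ∀ C : SimpleGraph (Fin r), ContainsPart G d C ∨ T ⊑ Cᶜ}

theorem dg_add_nd {W : Type u} (F : SimpleGraph W) (x : W) (S : Finset W) : dg F x S + nd F x S = S.card := by
  classical
  unfold dg nd
  rw [Finset.card_filter_add_card_filter_not]

theorem dg_mono {W : Type u} (F : SimpleGraph W) (x : W) {S S' : Finset W} (h : S ⊆ S') :
    dg F x S ≤ dg F x S' := by
  classical
  unfold dg
  exact Finset.card_le_card (Finset.filter_subset_filter _ h)

theorem nd_mono {W : Type u} (F : SimpleGraph W) (x : W) {S S' : Finset W} (h : S ⊆ S') :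
    nd F x S ≤ nd F x S' := by
  classical
  unfold nd
  exact Finset.card_le_card (Finset.filter_subset_filter _ h)

theorem nd_compl_of_mem {W : Type u} (C : SimpleGraph W) (x : W) (S : Finset W) (hx : x ∈ S) :
    nd Cᶜ x S = dg C x S + 1 := by
  classical
  have h : nd Cᶜ x S = (insert x (S.filter (fun y => C.Adj x y))).card := by
    unfold nd
    congr 1
    ext y
    simp only [Finset.mem_filter, Finset.mem_insert, SimpleGraph.compl_adj, not_and, not_not]
    constructor
    · rintro ⟨h1, h2⟩
      by_cases hxy : x = y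
      · exact Or.inl hxy.symm
      · exact Or.inr ⟨h1, h2 hxy⟩
    · rintro (rfl | ⟨h1, h2⟩)
      · exact ⟨hx, fun h => absurd rfl h⟩
      · exact ⟨h1, fun _ => h2⟩
  rw [h, Finset.card_insert_of_notMem (by simp)]
  unfold dg
  congr 2

theorem nd_compl_of_notMem {W : Type u} (C : SimpleGraph W) (x : W) (S : Finset W) (hx : x ∉ S) :
    nd Cᶜ x S = dg C x S := by
  classical
  unfold nd dg
  congr 1
  ext y
  simp only [Finset.mem_filter, SimpleGraph.compl_adj, not_and, not_not]
  constructor
  · rintro ⟨h1, h2⟩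
    exact ⟨h1, h2 (fun h => hx (h ▸ h1))⟩
  · rintro ⟨h1, h2⟩
    exact ⟨h1, fun _ => h2⟩

theorem dg_compl_of_notMem {W : Type u} (C : SimpleGraph W) (x : W) (S : Finset W) (hx : x ∉ S) :
    dg Cᶜ x S = nd C x S := by
  have h1 := dg_add_nd Cᶜ x S
  have h2 := dg_add_nd C x S
  have h3 := nd_compl_of_notMem C x S hx
  omega

theorem dg_compl_of_mem {W : Type u} (C : SimpleGraph W) (x : W) (S : Finset W) (hx : x ∈ S) :
    dg Cᶜ x S + 1 = nd C x S := by
  have h1 := dg_add_nd Cᶜ x S
  have h2 := dg_add_nd C x S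
  have h3 := nd_compl_of_mem C x S hx
  omega

/-- a homomorphism which is injective is a copy -/
theorem contained_of_map {U : Type u} {W : Type v} {T : SimpleGraph U} {F : SimpleGraph W} (φ : U → W)
    (hinj : Function.Injective φ) (hadj : ∀ x y, T.Adj x y → F.Adj (φ x) (φ y)) : T ⊑ F :=
  ⟨⟨⟨φ, fun {a b} h => hadj a b h⟩, hinj⟩⟩

end H67.SG
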