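import Pool.Agent.H67.SG.Def

/-! # SG.Root : rooted order of a tree (about 120 lines)

Put `d v = T.dist r v`, `rk v = n * d v + v`. A tree is connected and has a unique path between two vertices
(`IsTree.existsUnique_path`, `IsTree.isAcyclic`). For `v ≠ r` let `par v` be the vertex before `v` on the path from `r` to
`v` (or: any neighbour `u` of `v` with `d u + 1 = d v`, it exists because `T` is connected). Facts: adjacent vertices have
`|d u - d v| ≤ 1`; in a tree they are never equal (otherwise two different paths / an odd closed walk), and the neighbour
with `d u + 1 = d v` is unique (two of them give two different paths from `r` to `v`, each a shortest path to `u`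
followed by the edge `u v`; `v` is not on the shortest path because of the distances). Hence `rk u < rk v`, `u ~ v` imply
`d u < d v` (the cases `d u = d v` and `d u > d v` are impossible), so `d u + 1 = d v`, `v ≠ r` (`d v ≥ 1`) and `u = par v`.
`rk` is injective because `v < n`. -/

namespace H67.SG

open SimpleGraph Pool.Agent.H62.Decomp

theorem tree_root {n : ℕ} (T : SimpleGraph (Fin n)) (hT : T.IsTree) (r : Fin n) :
    ∃ (rk : Fin n → ℕ) (par : Fin n → Fin n), Rooted T r rk par := by
  classical
  choose p hp hl using fun v => hT.connected.exists_path_of_dist r v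
  have hn : 0 < n := lt_of_le_of_lt (Nat.zero_le _) r.2
  refine ⟨fun v => n * T.dist r v + v, fun v => (p v).penultimate, ?_, ?_, ?_, ?_⟩
  · intro u v huv
    have h1 : (n * T.dist r u + (u : ℕ)) % n = (n * T.dist r v + (v : ℕ)) % n := congrArg (· % n) huv
    rw [Nat.mul_add_mod, Nat.mul_add_mod, Nat.mod_eq_of_lt u.2, Nat.mod_eq_of_lt v.2] at h1
    exact Fin.ext h1
  · intro v hv
    exact (p v).adj_penultimate (Walk.not_nil_of_ne (Ne.symm hv))
  · intro v hv
    have hnil : ¬ (p v).Nil := Walk.not_nil_of_ne (Ne.symm hv)
    have h1 : (p v).dropLast.length + 1 = (p v).length := by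
      rw [← Walk.length_concat _ ((p v).adj_penultimate hnil), Walk.concat_dropLast]
    have h2 := dist_le (p v).dropLast
    rw [hl v] at h1
    have h3 : T.dist r (p v).penultimate + 1 ≤ T.dist r v := by omega
    have h4 := Nat.mul_le_mul_left n h3
    rw [Nat.mul_add, mul_one] at h4
    have h5 : ((p v).penultimate : ℕ) < n := (p v).penultimate.2
    show n * T.dist r (p v).penultimate + ((p v).penultimate : ℕ) < n * T.dist r v + v
    omega
  · intro u v huv hlt
    have hlt' : n * T.dist r u + (u : ℕ) < n * T.dist r v + v := hlt
    have hu := u.2
    have hv := v.2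
    have h1 : T.dist r v = T.dist r u + 1 := by
      rcases hT.dist_eq_dist_add_one_of_adj r huv with h | h
      · exfalso
        rw [h, Nat.mul_add, mul_one] at hlt'
        omega
      · exact h
    have hvr : v ≠ r := by
      rintro rfl
      rw [SimpleGraph.dist_self] at h1
      omega
    refine ⟨hvr, ?_⟩
    have hns : v ∉ (p u).support := by
      intro hmem
      have h2 := dist_le ((p u).takeUntil v hmem)
      have h3 := (p u).length_takeUntil_le_length hmem
      rw [hl u] at h3
      omega
    exact hT.isAcyclic.eq_penultimate_of_adj_end (hp v) huv.symm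
      (hT.isAcyclic.mem_support_of_ne_mem_support_of_adj_of_isPath (hp v) (hp u) huv.symm hns)

end H67.SG
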