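import Pool.Agent.H67.SG.Def

/-! # SG.TDeg : degrees in a tree (about 120 lines)

`deg T v` is the usual degree (`dg T v univ`; relate it to `T.degree v` through `card_neighborFinset` or directly to
`sum_degrees_eq_twice_card_edges`). `IsTree.card_edgeFinset`: number of edges `+ 1 = n`. So `Σ_v deg T v = 2 (n - 1)`
(`sum_deg`). `deg_pos`: a connected graph with at least two vertices has no vertex of degree `0`.
`deg_bound`: `ℓ` = number of vertices of degree one, `B` = set of vertices of degree `≥ 3`. `Σ_v (deg v - 2) = -2` over the integers, vertices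
of degree `2` contribute `0`, leaves `-1`, so `Σ_B (deg - 2) = ℓ - 2`; every term is `≥ 1`, so `|B| ≤ ℓ`, and `Σ_B deg = ℓ - 2 + 2 |B| ≤ 3 ℓ`.
`deg_add_deg`: for `x ≠ y` in a tree `deg x + deg y ≤ n`: two vertices have at most one common neighbour, none if they are adjacent;
if they are adjacent the two neighbour sets are disjoint subsets of `univ`; if not, they have at most one common element and miss
`x` and `y`. (Common neighbours `a ≠ b` of `x`, `y` give a 4-cycle, adjacent `x`, `y` with common neighbour a triangle: use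
`IsAcyclic` / uniqueness of paths.) `two_col`: a tree is 2-colourable (colour by parity of the distance from a vertex, or
Mathlib). -/

namespace H67.SG

open SimpleGraph Pool.Agent.H62.Decomp

private theorem TDeg_mem {n : ℕ} (T : SimpleGraph (Fin n)) (v : Fin n) :
    ∃ N : Finset (Fin n), N.card = deg T v ∧ ∀ u, u ∈ N ↔ T.Adj v u := by
  classical
  exact ⟨Finset.univ.filter (fun y => T.Adj v y), by
    unfold deg dg
    congr, fun u => by simp⟩

private theorem TDeg_eq {n : ℕ} (T : SimpleGraph (Fin n)) (v : Fin n) [Fintype (T.neighborSet v)] :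
    deg T v = T.degree v := by
  obtain ⟨N, hN, hm⟩ := TDeg_mem T v
  rw [← hN, ← SimpleGraph.card_neighborFinset_eq_degree]
  congr 1
  ext u
  rw [hm, SimpleGraph.mem_neighborFinset]

theorem sum_deg {n : ℕ} (T : SimpleGraph (Fin n)) (hT : T.IsTree) :
    ∑ v, deg T v + 2 = 2 * n := by
  classical
  have h1 := T.sum_degrees_eq_twice_card_edges
  have h2 := hT.card_edgeFinset
  rw [Fintype.card_fin] at h2
  have h3 : ∑ v, deg T v = ∑ v, T.degree v := Finset.sum_congr rfl fun v _ => TDeg_eq T v
  omega

theorem deg_pos {n : ℕ} (T : SimpleGraph (Fin n)) (hT : T.IsTree) (hn : 2 ≤ n) (v : Fin n) :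
    1 ≤ deg T v := by
  classical
  have : Nontrivial (Fin n) := Fin.nontrivial_iff_two_le.2 hn
  rw [TDeg_eq]
  exact hT.connected.preconnected.degree_pos_of_nontrivial v

theorem deg_bound {n : ℕ} (T : SimpleGraph (Fin n)) (hT : T.IsTree) (hn : 2 ≤ n) :
    (Finset.univ.filter (fun v => 3 ≤ deg T v)).card +
      ∑ v ∈ Finset.univ.filter (fun v => 3 ≤ deg T v), deg T v ≤
      4 * (Finset.univ.filter (fun v => deg T v = 1)).card := by
  have h1 := sum_deg T hT
  have h2 : ∀ v, deg T v + (if deg T v = 1 then 1 else 0) =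
      2 + (if 3 ≤ deg T v then deg T v - 2 else 0) := by
    intro v
    have h3 := deg_pos T hT hn v
    split_ifs <;> omega
  have h4 : ∑ v, deg T v + ∑ v, (if deg T v = 1 then 1 else 0) =
      ∑ _v : Fin n, 2 + ∑ v, (if 3 ≤ deg T v then deg T v - 2 else 0) := by
    rw [← Finset.sum_add_distrib, ← Finset.sum_add_distrib]
    exact Finset.sum_congr rfl fun v _ => h2 v
  have h5 : ∑ _v : Fin n, 2 = 2 * n := by simp [mul_comm]
  have h6 : (Finset.univ.filter (fun v => deg T v = 1)).card = ∑ v, (if deg T v = 1 then 1 else 0) :=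
    Finset.card_filter _ _
  have h7 : (Finset.univ.filter (fun v => 3 ≤ deg T v)).card +
      ∑ v ∈ Finset.univ.filter (fun v => 3 ≤ deg T v), deg T v ≤
      4 * ∑ v, (if 3 ≤ deg T v then deg T v - 2 else 0) := by
    rw [Finset.card_filter, Finset.sum_filter, ← Finset.sum_add_distrib, Finset.mul_sum]
    refine Finset.sum_le_sum fun v _ => ?_
    split_ifs <;> omega
  omega

theorem deg_add_deg {n : ℕ} (T : SimpleGraph (Fin n)) (hT : T.IsTree) (x y : Fin n) (hxy : x ≠ y) :
    deg T x + deg T y ≤ n := by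
  classical
  obtain ⟨N, hN, hNm⟩ := TDeg_mem T x
  obtain ⟨N', hN', hNm'⟩ := TDeg_mem T y
  have hac := hT.isAcyclic
  -- a path with one inner vertex
  have hpath : ∀ a, ∀ h1 : T.Adj x a, ∀ h2 : T.Adj a y,
      (Walk.cons h1 (Walk.cons h2 Walk.nil)).IsPath := by
    intro a h1 h2
    rw [Walk.cons_isPath_iff, Walk.cons_isPath_iff]
    refine ⟨⟨Walk.IsPath.nil, ?_⟩, ?_⟩
    · simpa using h2.ne
    · simp only [Walk.support_cons, Walk.support_nil, List.mem_cons, List.not_mem_nil, or_false,
        not_or]
      exact ⟨h1.ne, hxy⟩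
  have hone : ∀ a b, T.Adj x a → T.Adj a y → T.Adj x b → T.Adj b y → a = b := by
    intro a b h1 h2 h3 h4
    have h5 := hac.path_unique ⟨_, hpath a h1 h2⟩ ⟨_, hpath b h3 h4⟩
    have h6 := congrArg (fun p : T.Path x y => p.1.support) h5
    simpa using h6
  rw [← hN, ← hN', ← Finset.card_union_add_card_inter]
  have hint : (N ∩ N').card ≤ 1 := by
    rw [Finset.card_le_one]
    intro a ha b hb
    rw [Finset.mem_inter, hNm, hNm'] at ha hb
    exact hone a b ha.1 ha.2.symm hb.1 hb.2.symm
  by_cases hadj : T.Adj x y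
  · have h0 : N ∩ N' = ∅ := by
      rw [Finset.eq_empty_iff_forall_notMem]
      intro a ha
      rw [Finset.mem_inter, hNm, hNm'] at ha
      have hp : (Walk.cons hadj Walk.nil).IsPath := by
        rw [Walk.cons_isPath_iff]
        refine ⟨Walk.IsPath.nil, ?_⟩
        simpa using hxy
      have h5 := hac.path_unique ⟨_, hpath a ha.1 ha.2.symm⟩ ⟨_, hp⟩
      have h6 := congrArg (fun p : T.Path x y => p.1.length) h5
      simp at h6
    rw [h0, Finset.card_empty, add_zero]
    have h1 := Finset.card_le_univ (N ∪ N')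
    rwa [Fintype.card_fin] at h1
  · have h1 : N ∪ N' ⊆ (Finset.univ.erase x).erase y := by
      intro a ha
      rw [Finset.mem_union, hNm, hNm'] at ha
      rw [Finset.mem_erase, Finset.mem_erase]
      rcases ha with ha | ha
      · refine ⟨?_, ha.ne', Finset.mem_univ _⟩
        rintro rfl
        exact hadj ha
      · refine ⟨ha.ne', ?_, Finset.mem_univ _⟩
        rintro rfl
        exact hadj ha.symm
    have h2 := Finset.card_le_card h1
    rw [Finset.card_erase_of_mem (Finset.mem_erase.2 ⟨hxy.symm, Finset.mem_univ _⟩),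
      Finset.card_erase_of_mem (Finset.mem_univ _), Finset.card_univ, Fintype.card_fin] at h2
    have h3 : 2 ≤ n := by
      have h4 := x.2
      have h5 := y.2
      have h6 : (x : ℕ) ≠ y := fun h => hxy (Fin.ext h)
      omega
    omega

theorem two_col {n : ℕ} (T : SimpleGraph (Fin n)) (hT : T.IsTree) :
    ∃ f : Fin n → Bool, ∀ x y, T.Adj x y → f x ≠ f y := by
  obtain ⟨c⟩ := hT.isAcyclic.colorable_two
  refine ⟨fun v => decide (c v = 0), fun x y hxy h => c.valid hxy ?_⟩
  have h1 : (c x = 0) ↔ (c y = 0) := by simpa using h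
  have h2 : ∀ a b : Fin 2, ((a = 0) ↔ (b = 0)) → a = b := by decide
  exact h2 _ _ h1

end H67.SG
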