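import Pool.Agent.H67.SG.Def

/-! # SG.Ram : bookkeeping for the three Ramsey numbers (about 200 lines)

All three sets `{r | ∀ C on Fin r, Prop C ∨ T ⊑ Cᶜ}` are nonempty (`ramsey_nonempty`; for the classes: `containsMember_of_contained`, and `ContainsPart G d C` follows from `G ⊑ C` with `s = univ`: `sᶜ` is empty, so the
induced graph is `0`-colourable and `Colorable.mono`) and upward closed: for a graph `C` on a finite type `W` with at least `r` elements (`r` in the set) choose an injection `Fin r ↪ W` and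
pull back: a copy in the pulled back graph gives a copy in `C`, a copy in its complement gives a copy in `Cᶜ` (the map is injective). So `spec` (with `Nat.sInf_mem`), `le` (`Nat.sInf_le`), `lt` (contraposition of `spec`).
`part_spec_finset`: apply `part_spec` to the type of elements of `S` and the induced graph; write the copy of `G.induce s` as a map `ψ : V → W` (arbitrary outside `s`; `S` is nonempty or `s` is empty, if `W` is empty
treat separately: `V` may be nonempty while `W` is empty only if `S = ∅`, `T` has a vertex, so choose: hypothesis `Nonempty W`). -/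

namespace H67.SG

open SimpleGraph Pool.Agent.H62.Decomp

private theorem ram_comap {A W : Type} (C : SimpleGraph W) (f : A ↪ W) : (C.comap f) ⊑ C :=
  contained_of_map f f.injective (fun _ _ h => h)

private theorem ram_comap_compl {A W : Type} (C : SimpleGraph W) (f : A ↪ W) : (C.comap f)ᶜ ⊑ Cᶜ := by
  refine contained_of_map f f.injective (fun x y h => ?_)
  rw [SimpleGraph.compl_adj] at h ⊢
  exact ⟨fun h1 => h.1 (f.injective h1), fun h1 => h.2 h1⟩

private theorem ram_emb {W : Type} [Fintype W] {r : ℕ} (h : r ≤ Fintype.card W) : Nonempty (Fin r ↪ W) :=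
  Function.Embedding.nonempty_of_card_le (by rwa [Fintype.card_fin])

private theorem part_mono {V W W' : Type} (G : SimpleGraph V) (d : ℕ) {C : SimpleGraph W} {C' : SimpleGraph W'}
    (h : C ⊑ C') (h1 : ContainsPart G d C) : ContainsPart G d C' := by
  obtain ⟨s, h2, h3⟩ := h1
  exact ⟨s, h2, h3.trans h⟩

private theorem member_mono {V W W' : Type} [Fintype V] (G : SimpleGraph V) {C : SimpleGraph W}
    {C' : SimpleGraph W'} (h : C ⊑ C') (h1 : ContainsMember G C) : ContainsMember G C' := by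
  obtain ⟨c, i, j, h2, h3, h4⟩ := h1
  exact ⟨c, i, j, h2, h3, h4.trans h⟩

private theorem part_nonempty {V : Type} [Fintype V] (G : SimpleGraph V) (d : ℕ) {n : ℕ}
    (T : SimpleGraph (Fin n)) : {r : ℕ | ∀ C : SimpleGraph (Fin r), ContainsPart G d C ∨ T ⊑ Cᶜ}.Nonempty := by
  obtain ⟨r, hr⟩ := ramsey_nonempty G T
  refine ⟨r, fun C => ?_⟩
  rcases hr C with h | h
  · refine Or.inl ⟨Set.univ, ?_, ?_⟩
    · refine SimpleGraph.Colorable.mono (Nat.zero_le d) ?_
      exact ⟨⟨fun v => absurd (Set.mem_univ v.1) v.2, fun {v} => absurd (Set.mem_univ v.1) v.2⟩⟩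
    · exact IsContained.trans ⟨Copy.induce G _⟩ h
  · exact Or.inr h

theorem ramsey_spec {V : Type} [Fintype V] (G : SimpleGraph V) {n : ℕ} (T : SimpleGraph (Fin n)) {W : Type}
    [Fintype W] (C : SimpleGraph W) (h : ramsey G T ≤ Fintype.card W) : G ⊑ C ∨ T ⊑ Cᶜ := by
  obtain ⟨f⟩ := ram_emb h
  have h1 : ramsey G T ∈ {r : ℕ | ∀ C : SimpleGraph (Fin r), G ⊑ C ∨ T ⊑ Cᶜ} := Nat.sInf_mem (ramsey_nonempty G T)
  rcases h1 (C.comap f) with h2 | h2
  · exact Or.inl (h2.trans (ram_comap C f))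
  · exact Or.inr (h2.trans (ram_comap_compl C f))

theorem ramsey_le {V : Type} [Fintype V] (G : SimpleGraph V) {n : ℕ} (T : SimpleGraph (Fin n)) (N : ℕ)
    (h : ∀ C : SimpleGraph (Fin N), G ⊑ C ∨ T ⊑ Cᶜ) : ramsey G T ≤ N := Nat.sInf_le h

theorem lt_ramsey {V : Type} [Fintype V] (G : SimpleGraph V) {n : ℕ} (T : SimpleGraph (Fin n)) {W : Type}
    [Fintype W] (C : SimpleGraph W) (h1 : ¬ G ⊑ C) (h2 : ¬ T ⊑ Cᶜ) : Fintype.card W < ramsey G T := by
  by_contra h
  exact (ramsey_spec G T C (not_lt.1 h)).elim h1 h2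

theorem class_spec {V : Type} [Fintype V] (G : SimpleGraph V) (hk : 2 ≤ G.chromaticNumber.toNat) {n : ℕ}
    (T : SimpleGraph (Fin n)) {W : Type} [Fintype W] (C : SimpleGraph W)
    (h : classRamsey G T ≤ Fintype.card W) : ContainsMember G C ∨ T ⊑ Cᶜ := by
  obtain ⟨f⟩ := ram_emb h
  have h1 : classRamsey G T ∈ {r : ℕ | ∀ C : SimpleGraph (Fin r), ContainsMember G C ∨ T ⊑ Cᶜ} :=
    Nat.sInf_mem (classRamsey_nonempty G hk T)
  rcases h1 (C.comap f) with h2 | h2
  · exact Or.inl (member_mono G (ram_comap C f) h2)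
  · exact Or.inr (h2.trans (ram_comap_compl C f))

theorem class_le {V : Type} [Fintype V] (G : SimpleGraph V) {n : ℕ} (T : SimpleGraph (Fin n)) (N : ℕ)
    (h : ∀ C : SimpleGraph (Fin N), ContainsMember G C ∨ T ⊑ Cᶜ) : classRamsey G T ≤ N := Nat.sInf_le h

theorem lt_class {V : Type} [Fintype V] (G : SimpleGraph V) (hk : 2 ≤ G.chromaticNumber.toNat) {n : ℕ}
    (T : SimpleGraph (Fin n)) {W : Type} [Fintype W] (C : SimpleGraph W) (h1 : ¬ ContainsMember G C)
    (h2 : ¬ T ⊑ Cᶜ) : Fintype.card W < classRamsey G T := by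
  by_contra h
  exact (class_spec G hk T C (not_lt.1 h)).elim h1 h2

theorem part_spec {V : Type} [Fintype V] (G : SimpleGraph V) (d : ℕ) {n : ℕ} (T : SimpleGraph (Fin n))
    {W : Type} [Fintype W] (C : SimpleGraph W) (h : partRamsey G d T ≤ Fintype.card W) :
    ContainsPart G d C ∨ T ⊑ Cᶜ := by
  obtain ⟨f⟩ := ram_emb h
  have h1 : partRamsey G d T ∈ {r : ℕ | ∀ C : SimpleGraph (Fin r), ContainsPart G d C ∨ T ⊑ Cᶜ} :=
    Nat.sInf_mem (part_nonempty G d T)
  rcases h1 (C.comap f) with h2 | h2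
  · exact Or.inl (part_mono G d (ram_comap C f) h2)
  · exact Or.inr (h2.trans (ram_comap_compl C f))

theorem part_le {V : Type} [Fintype V] (G : SimpleGraph V) (d : ℕ) {n : ℕ} (T : SimpleGraph (Fin n)) (N : ℕ)
    (h : ∀ C : SimpleGraph (Fin N), ContainsPart G d C ∨ T ⊑ Cᶜ) : partRamsey G d T ≤ N := Nat.sInf_le h

theorem lt_part {V : Type} [Fintype V] (G : SimpleGraph V) (d : ℕ) {n : ℕ} (T : SimpleGraph (Fin n))
    {W : Type} [Fintype W] (C : SimpleGraph W) (h1 : ¬ ContainsPart G d C) (h2 : ¬ T ⊑ Cᶜ) :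
    Fintype.card W < partRamsey G d T := by
  by_contra h
  exact (part_spec G d T C (not_lt.1 h)).elim h1 h2

theorem part_spec_finset {V : Type} [Fintype V] (G : SimpleGraph V) (d : ℕ) {n : ℕ}
    (T : SimpleGraph (Fin n)) {W : Type} [Fintype W] [Nonempty W] (C : SimpleGraph W) (S : Finset W)
    (h : partRamsey G d T ≤ S.card) :
    (∃ (s : Set V) (ψ : V → W), (G.induce sᶜ).Colorable d ∧ Set.InjOn ψ s ∧ (∀ x ∈ s, ψ x ∈ S) ∧
      ∀ x ∈ s, ∀ y ∈ s, G.Adj x y → C.Adj (ψ x) (ψ y)) ∨ T ⊑ Cᶜ := by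
  classical
  have h1 : partRamsey G d T ≤ Fintype.card S := by rwa [Fintype.card_coe]
  rcases part_spec G d T (C.comap (Function.Embedding.subtype (fun x => x ∈ S))) h1 with h2 | h2
  · obtain ⟨s, h3, ⟨φ⟩⟩ := h2
    refine Or.inl ⟨s, fun v => if hv : v ∈ s then ((φ ⟨v, hv⟩ : S) : W) else Classical.arbitrary W, h3, ?_, ?_, ?_⟩
    · intro x hx y hy hxy
      have h4 : (if hv : x ∈ s then ((φ ⟨x, hv⟩ : S) : W) else Classical.arbitrary W) =
        (if hv : y ∈ s then ((φ ⟨y, hv⟩ : S) : W) else Classical.arbitrary W) := hxy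
      rw [dif_pos hx, dif_pos hy] at h4
      exact congrArg Subtype.val (φ.injective (Subtype.ext h4))
    · intro x hx
      show (if hv : x ∈ s then ((φ ⟨x, hv⟩ : S) : W) else Classical.arbitrary W) ∈ S
      rw [dif_pos hx]
      exact (φ ⟨x, hx⟩).2
    · intro x hx y hy hxy
      show C.Adj (if hv : x ∈ s then ((φ ⟨x, hv⟩ : S) : W) else Classical.arbitrary W)
        (if hv : y ∈ s then ((φ ⟨y, hv⟩ : S) : W) else Classical.arbitrary W)
      rw [dif_pos hx, dif_pos hy]
      have h5 : (G.induce s).Adj ⟨x, hx⟩ ⟨y, hy⟩ := hxy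
      exact φ.toHom.map_adj h5
  · exact Or.inr (h2.trans (ram_comap_compl C _))

end H67.SG
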