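import Pool.Agent.H67.SG.Def

/-! # SG.GL : greedy embedding of a rooted tree with lists (about 150 lines)

Process the vertices by increasing rank. Formal version: for every `N`, by induction on `N`, there is `φ : Fin n → W`
which is correct on `{v | rk v < N}`: `φ v ∈ L v`, injective there, and `F.Adj (φ (par v)) (φ v)` for `v ≠ r` in this set
(its parent has smaller rank, so lies in the set). Step: at most one vertex `v` has rank `N` (`inj`); if `v = r` choose
any element of `L r`: no vertex of smaller rank exists (a vertex `u ≠ r` has a parent of smaller rank, so a vertex of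
minimal rank in `{rk < rk r}` would be `r`). If `v ≠ r`, put `a = φ (par v) ∈ L (par v)`. The neighbours of `a` in `L v` number
more than the vertices `u ≠ par v` of smaller rank with `L u ∩ L v ≠ ∅`; the used elements of `L v` are images of `par v` (this
is `a`, not a neighbour of `a`) or of such `u`. So a neighbour `b ∈ L v` of `a` is not used: `φ v = b` (`Function.update`).
At the end every edge `u v` has, say, `rk u < rk v`, so `u = par v` (`uniq`). -/

namespace H67.SG

open SimpleGraph Pool.Agent.H62.Decomp

open Classical in
theorem greedy_lists {n : ℕ} {T : SimpleGraph (Fin n)} {r : Fin n} {rk : Fin n → ℕ} {par : Fin n → Fin n}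
    (h : Rooted T r rk par) {W : Type} (F : SimpleGraph W) (L : Fin n → Finset W) (h0 : (L r).Nonempty)
    (hL : ∀ v, v ≠ r → ∀ a ∈ L (par v),
      (Finset.univ.filter (fun u => rk u < rk v ∧ u ≠ par v ∧ ¬ Disjoint (L u) (L v))).card < dg F a (L v)) :
    ∃ φ : Fin n → W, Function.Injective φ ∧ (∀ v, φ v ∈ L v) ∧ ∀ u v, T.Adj u v → F.Adj (φ u) (φ v) := by
  have hroot : ∀ u, rk r ≤ rk u := by
    have key : ∀ k, ∀ u, rk u = k → rk r ≤ rk u := by
      intro k
      induction k using Nat.strong_induction_on with
      | _ k ih =>
        intro u hu
        by_cases hur : u = r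
        · rw [hur]
        · have h1 := h.lt u hur
          have h2 := ih (rk (par u)) (by omega) (par u) rfl
          omega
    intro u
    exact key _ u rfl
  have main : ∀ N : ℕ, ∃ φ : Fin n → W, (∀ v, rk v < N → φ v ∈ L v) ∧
      (∀ u v, rk u < N → rk v < N → φ u = φ v → u = v) ∧
      (∀ v, rk v < N → v ≠ r → F.Adj (φ (par v)) (φ v)) := by
    intro N
    induction N with
    | zero =>
      obtain ⟨w, _⟩ := h0
      exact ⟨fun _ => w, fun v hv => absurd hv (Nat.not_lt_zero _),
        fun u v hu _ _ => absurd hu (Nat.not_lt_zero _), fun v hv => absurd hv (Nat.not_lt_zero _)⟩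
    | succ N ih =>
      obtain ⟨φ, h1, h2, h3⟩ := ih
      by_cases hex : ∃ v, rk v = N
      · obtain ⟨v, hv⟩ := hex
        have huniq : ∀ u, rk u < N + 1 → u ≠ v → rk u < N := by
          intro u hu huv
          have : rk u ≠ N := fun hh => huv (h.inj (hh.trans hv.symm))
          omega
        -- a value for `v`
        have hb : ∃ b ∈ L v, (∀ u, rk u < N → φ u ≠ b) ∧ (v ≠ r → F.Adj (φ (par v)) b) := by
          by_cases hvr : v = r
          · obtain ⟨w, hw⟩ := h0
            refine ⟨w, hvr ▸ hw, ?_, fun hne => absurd hvr hne⟩
            intro u hu
            have := hroot u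
            rw [← hvr, hv] at this
            omega
          · have hlt := h.lt v hvr
            rw [hv] at hlt
            have ha := h1 (par v) hlt
            have hcard := hL v hvr (φ (par v)) ha
            set U := Finset.univ.filter (fun u => rk u < rk v ∧ u ≠ par v ∧ ¬ Disjoint (L u) (L v)) with hU
            have hcard2 : (U.image φ).card < ((L v).filter (fun y => F.Adj (φ (par v)) y)).card := by
              refine lt_of_le_of_lt Finset.card_image_le ?_
              unfold dg at hcard
              convert hcard using 2
            obtain ⟨b, hb1, hb2⟩ := Finset.exists_mem_notMem_of_card_lt_card hcard2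
            rw [Finset.mem_filter] at hb1
            refine ⟨b, hb1.1, ?_, fun _ => hb1.2⟩
            intro u hu hub
            by_cases hup : u = par v
            · rw [hup] at hub
              rw [hub] at hb1
              exact F.loopless.irrefl b hb1.2
            · apply hb2
              rw [Finset.mem_image]
              refine ⟨u, ?_, hub⟩
              rw [hU, Finset.mem_filter]
              refine ⟨Finset.mem_univ _, by rw [hv]; exact hu, hup, ?_⟩
              rw [Finset.not_disjoint_iff]
              exact ⟨b, hub ▸ h1 u hu, hb1.1⟩
        obtain ⟨b, hbL, hbn, hba⟩ := hb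
        refine ⟨Function.update φ v b, ?_, ?_, ?_⟩
        · intro u hu
          by_cases huv : u = v
          · rw [huv, Function.update_self]; exact hbL
          · rw [Function.update_of_ne huv]; exact h1 u (huniq u hu huv)
        · intro u w hu hw huw
          by_cases huv : u = v
          · by_cases hwv : w = v
            · rw [huv, hwv]
            · rw [huv, Function.update_self, Function.update_of_ne hwv] at huw
              exact absurd huw.symm (hbn w (huniq w hw hwv))
          · by_cases hwv : w = v
            · rw [hwv, Function.update_self, Function.update_of_ne huv] at huw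
              exact absurd huw (hbn u (huniq u hu huv))
            · rw [Function.update_of_ne huv, Function.update_of_ne hwv] at huw
              exact h2 u w (huniq u hu huv) (huniq w hw hwv) huw
        · intro u hu hur
          have hpu := h.lt u hur
          by_cases huv : u = v
          · have hpv : par u ≠ v := by
              intro hh
              rw [hh, ← huv] at hpu
              exact lt_irrefl _ hpu
            rw [Function.update_of_ne hpv, huv, Function.update_self]
            exact hba (huv ▸ hur)
          · have hu' := huniq u hu huv
            have hpv : par u ≠ v := by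
              intro hh
              rw [hh, hv] at hpu
              omega
            rw [Function.update_of_ne hpv, Function.update_of_ne huv]
            exact h3 u hu' hur
      · refine ⟨φ, ?_, ?_, ?_⟩
        · intro u hu
          have : rk u ≠ N := fun hh => hex ⟨u, hh⟩
          exact h1 u (by omega)
        · intro u w hu hw
          have : rk u ≠ N := fun hh => hex ⟨u, hh⟩
          have : rk w ≠ N := fun hh => hex ⟨w, hh⟩
          exact h2 u w (by omega) (by omega)
        · intro u hu
          have : rk u ≠ N := fun hh => hex ⟨u, hh⟩
          exact h3 u (by omega)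
  obtain ⟨φ, h1, h2, h3⟩ := main (Finset.univ.sup rk + 1)
  have hall : ∀ v, rk v < Finset.univ.sup rk + 1 := fun v =>
    Nat.lt_succ_of_le (Finset.le_sup (f := rk) (Finset.mem_univ v))
  refine ⟨φ, fun u v huv => h2 u v (hall u) (hall v) huv, fun v => h1 v (hall v), ?_⟩
  intro u v huv
  have hne : rk u ≠ rk v := fun hh => huv.ne (h.inj hh)
  rcases Nat.lt_or_gt_of_ne hne with hlt | hlt
  · obtain ⟨hv, hu⟩ := h.uniq u v huv hlt
    rw [hu]
    exact h3 v (hall v) hv
  · obtain ⟨hv, hu⟩ := h.uniq v u huv.symm hlt
    rw [hu]
    exact (h3 u (hall u) hv).symm

end H67.SG
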