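import Pool.Agent.H67.SG.TDeg
import Pool.Agent.H67.SG.Root
import Pool.Agent.H67.SG.GL

/-! # SG.AbsL : absorption, trees with many leaves (about 180 lines)

Choose a set `Λ` of exactly `q` leaves (degree one), `P` = set of their neighbours, `1 ≤ |P| ≤ q`, `P ∩ Λ = ∅` (`n ≥ 3`, connected: two
adjacent leaves would be a component). Choose `Z ⊆ R` with `|Z| = |P| + e` (`≤ q + e ≤ |R|`). Root `r ∈ P`, rooted order. Lists: `L v = U`
for `v ∈ Λ`, `L v = Z` for `v ∈ P`, `L v = A \ Z` otherwise. The three lists are pairwise disjoint. Conditions of `greedy_lists` for `v ≠ r`, `a ∈ L (par v)`;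
the parent of a vertex is never in `Λ` (a leaf `λ ≠ r` has its parent as only neighbour; if `par v = λ` then `v` is a neighbour of `λ`, so
`v = par λ`, but ranks). So `a ∈ A`, `nd F a A ≤ e`.
* `v ∈ P`: only `u ∈ P`, `u ≠ v` count: `≤ |P| - 1`; `dg F a Z ≥ |Z| - e = |P|`.
* `v` other: only others `u ≠ v` count: `≤ n - q - |P| - 1`; `dg F a (A \ Z) ≥ |A| - |P| - e - e ≥ n - |P| - 3 e ≥ n - |P| - q`.
* `v ∈ Λ`: `par v ∈ P`, `a ∈ Z ⊆ R`, `dg F a U ≥ q`, and only `u ∈ Λ`, `u ≠ v` count: `≤ q - 1`. -/

namespace H67.SG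

open SimpleGraph Pool.Agent.H62.Decomp

private theorem absL_closed {V : Type} {T : SimpleGraph V} {S : Set V}
    (hS : ∀ x ∈ S, ∀ y, T.Adj x y → y ∈ S) {u w : V} (hu : u ∈ S) (h : T.Reachable u w) : w ∈ S := by
  obtain ⟨p⟩ := h
  induction p with
  | nil => exact hu
  | cons hadj _ ih => exact ih (hS _ hu _ hadj)

/-- a vertex of degree one has only one neighbour -/
private theorem absL_uniq {n : ℕ} {T : SimpleGraph (Fin n)} {u x y : Fin n} (hu : deg T u = 1)
    (hx : T.Adj u x) (hy : T.Adj u y) : x = y := by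
  classical
  unfold deg dg at hu
  obtain ⟨z, hz⟩ := Finset.card_eq_one.1 hu
  have h1 : x ∈ Finset.univ.filter (fun y => T.Adj u y) := Finset.mem_filter.2 ⟨Finset.mem_univ _, hx⟩
  have h2 : y ∈ Finset.univ.filter (fun y => T.Adj u y) := Finset.mem_filter.2 ⟨Finset.mem_univ _, hy⟩
  rw [hz, Finset.mem_singleton] at h1 h2
  rw [h1, h2]

/-- two leaves are not adjacent -/
private theorem absL_leaves {n : ℕ} {T : SimpleGraph (Fin n)} (hT : T.IsTree) (hn : 3 ≤ n)
    {u v : Fin n} (hu : deg T u = 1) (hv : deg T v = 1) (huv : T.Adj u v) : False := by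
  classical
  have h1 : ∀ w, w ∈ ({u, v} : Set (Fin n)) := by
    intro w
    refine absL_closed ?_ (Set.mem_insert u {v}) (hT.connected.preconnected u w)
    rintro x (rfl | rfl) y hy
    · exact Or.inr (absL_uniq hu hy huv)
    · exact Or.inl (absL_uniq hv hy huv.symm)
  have h2 : (Finset.univ : Finset (Fin n)) ⊆ {u, v} := by
    intro w _
    rcases h1 w with h | h
    · rw [h]
      exact Finset.mem_insert_self _ _
    · rw [h]
      exact Finset.mem_insert_of_mem (Finset.mem_singleton_self _)
  have h3 := Finset.card_le_card h2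
  rw [Finset.card_univ, Fintype.card_fin] at h3
  have h4 := Finset.card_le_two (a := u) (b := v)
  omega

theorem abs_leaf {n : ℕ} (T : SimpleGraph (Fin n)) (hT : T.IsTree) (hn : 3 ≤ n) (q e : ℕ) (hq1 : 1 ≤ q)
    (hq : q ≤ (Finset.univ.filter (fun v => deg T v = 1)).card) {W : Type}
    (F : SimpleGraph W) (A U R : Finset W) (hAU : Disjoint A U) (hA : ∀ a ∈ A, nd F a A ≤ e)
    (hsz : n ≤ A.card + e) (he : 3 * e ≤ q) (hRA : R ⊆ A) (hR : q + e ≤ R.card)
    (hRU : ∀ a ∈ R, q ≤ dg F a U) : T ⊑ F := by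
  classical
  obtain ⟨Λ, hΛ, hΛc⟩ := Finset.exists_subset_card_eq hq
  have hΛ1 : ∀ u ∈ Λ, deg T u = 1 := fun u hu => (Finset.mem_filter.1 (hΛ hu)).2
  set P : Finset (Fin n) := Λ.biUnion fun u => Finset.univ.filter (fun y => T.Adj u y) with hP
  have hPm : ∀ v, v ∈ P ↔ ∃ u ∈ Λ, T.Adj u v := by
    intro v
    rw [hP, Finset.mem_biUnion]
    simp only [Finset.mem_filter, Finset.mem_univ, true_and]
  have hPc : P.card ≤ q := by
    refine Finset.card_biUnion_le.trans ?_
    rw [← hΛc, Finset.card_eq_sum_ones]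
    exact Finset.sum_le_sum fun u hu => (hΛ1 u hu).le
  have hdis : ∀ v ∈ P, v ∉ Λ := by
    intro v hv hvΛ
    obtain ⟨u, hu, huv⟩ := (hPm v).1 hv
    exact absL_leaves hT hn (hΛ1 u hu) (hΛ1 v hvΛ) huv
  obtain ⟨r, hr⟩ : P.Nonempty := by
    have h1 : Λ.Nonempty := by
      rw [← Finset.card_pos]
      omega
    obtain ⟨u, hu⟩ := h1
    have h2 : 0 < (Finset.univ.filter (fun y => T.Adj u y)).card := by
      have h3 := hΛ1 u hu
      unfold deg dg at h3
      rw [h3]
      exact one_pos
    obtain ⟨v, hv⟩ := Finset.card_pos.1 h2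
    exact ⟨v, (hPm v).2 ⟨u, hu, (Finset.mem_filter.1 hv).2⟩⟩
  have hrΛ := hdis r hr
  have hPpos : 0 < P.card := Finset.card_pos.2 ⟨r, hr⟩
  obtain ⟨Z, hZR, hZc⟩ := Finset.exists_subset_card_eq (show P.card + e ≤ R.card by omega)
  have hZA : Z ⊆ A := hZR.trans hRA
  obtain ⟨rk, par, h⟩ := tree_root T hT r
  set L : Fin n → Finset W := fun v => if v ∈ Λ then U else if v ∈ P then Z else A \ Z with hL
  have L1 : ∀ v ∈ Λ, L v = U := fun v hv => if_pos hv
  have L2 : ∀ v ∈ P, L v = Z := fun v hv => by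
    rw [hL]
    simp only
    rw [if_neg (hdis v hv), if_pos hv]
  have L3 : ∀ v, v ∉ Λ → v ∉ P → L v = A \ Z := fun v hv hv' => by
    rw [hL]
    simp only
    rw [if_neg hv, if_neg hv']
  have LA : ∀ v, v ∉ Λ → L v ⊆ A := by
    intro v hv
    by_cases hv' : v ∈ P
    · rw [L2 v hv']
      exact hZA
    · rw [L3 v hv hv']
      exact Finset.sdiff_subset
  have hpar : ∀ v, v ≠ r → par v ∉ Λ := by
    intro v hv hpΛ
    have hne : par v ≠ r := fun h1 => hrΛ (h1 ▸ hpΛ)
    have h1 := absL_uniq (hΛ1 _ hpΛ) (h.adj _ hne).symm (h.adj v hv)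
    have h2 := h.lt _ hne
    have h3 := h.lt v hv
    rw [h1] at h2
    omega
  have h0 : (L r).Nonempty := by
    rw [L2 r hr, ← Finset.card_pos]
    omega
  suffices hgoal : ∀ v, v ≠ r → ∀ a ∈ L (par v),
      (Finset.univ.filter (fun u => rk u < rk v ∧ u ≠ par v ∧ ¬ Disjoint (L u) (L v))).card <
        dg F a (L v) by
    obtain ⟨φ, h1, -, h3⟩ := greedy_lists h F L h0 hgoal
    exact contained_of_map φ h1 h3
  · intro v hv a ha
    have haA : a ∈ A := LA _ (hpar v hv) ha
    have hnd := hA a haA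
    by_cases hvΛ : v ∈ Λ
    · -- leaves
      have hpP : par v ∈ P := (hPm _).2 ⟨v, hvΛ, (h.adj v hv).symm⟩
      rw [L2 _ hpP] at ha
      rw [L1 v hvΛ]
      refine lt_of_lt_of_le ?_ (hRU a (hZR ha))
      have hsub : Finset.univ.filter (fun u => rk u < rk v ∧ u ≠ par v ∧ ¬ Disjoint (L u) U) ⊆
          Λ.erase v := by
        intro u hu
        rw [Finset.mem_filter] at hu
        obtain ⟨-, h4, -, h5⟩ := hu
        rw [Finset.mem_erase]
        refine ⟨fun h6 => by rw [h6] at h4; exact lt_irrefl _ h4, ?_⟩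
        by_contra h6
        exact h5 (hAU.mono_left (LA u h6))
      have h6 := Finset.card_le_card hsub
      rw [Finset.card_erase_of_mem hvΛ, hΛc] at h6
      omega
    · by_cases hvP : v ∈ P
      · rw [L2 v hvP]
        have h7 := dg_add_nd F a Z
        have h8 := nd_mono F a hZA
        have hsub : Finset.univ.filter (fun u => rk u < rk v ∧ u ≠ par v ∧ ¬ Disjoint (L u) Z) ⊆
            P.erase v := by
          intro u hu
          rw [Finset.mem_filter] at hu
          obtain ⟨-, h4, -, h5⟩ := hu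
          rw [Finset.mem_erase]
          refine ⟨fun h6 => by rw [h6] at h4; exact lt_irrefl _ h4, ?_⟩
          by_contra h6
          apply h5
          by_cases huΛ : u ∈ Λ
          · rw [L1 u huΛ]
            exact (hAU.mono_left hZA).symm
          · rw [L3 u huΛ h6]
            exact Finset.sdiff_disjoint
        have h6 := Finset.card_le_card hsub
        rw [Finset.card_erase_of_mem hvP] at h6
        omega
      · rw [L3 v hvΛ hvP]
        have h7 := dg_add_nd F a (A \ Z)
        have h8 := nd_mono F a (Finset.sdiff_subset : A \ Z ⊆ A)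
        have h9 := Finset.card_sdiff_of_subset hZA
        have h10 := Finset.card_le_card hZA
        have hsub : Finset.univ.filter (fun u => rk u < rk v ∧ u ≠ par v ∧
            ¬ Disjoint (L u) (A \ Z)) ⊆ ((Λ ∪ P)ᶜ).erase v := by
          intro u hu
          rw [Finset.mem_filter] at hu
          obtain ⟨-, h4, -, h5⟩ := hu
          rw [Finset.mem_erase]
          refine ⟨fun h6 => by rw [h6] at h4; exact lt_irrefl _ h4, ?_⟩
          rw [Finset.mem_compl, Finset.mem_union]
          rintro (h6 | h6)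
          · apply h5
            rw [L1 u h6]
            exact (hAU.mono_left Finset.sdiff_subset).symm
          · apply h5
            rw [L2 u h6]
            exact Finset.disjoint_sdiff
        have h6 := Finset.card_le_card hsub
        have hvm : v ∈ (Λ ∪ P)ᶜ := by
          rw [Finset.mem_compl, Finset.mem_union]
          rintro (h11 | h11)
          · exact hvΛ h11
          · exact hvP h11
        have h12 : Disjoint Λ P := by
          rw [Finset.disjoint_left]
          intro x hx hxP
          exact hdis x hxP hx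
        rw [Finset.card_erase_of_mem hvm, Finset.card_compl, Fintype.card_fin,
          Finset.card_union_of_disjoint h12, hΛc] at h6
        have h13 := Finset.card_pos.2 ⟨v, hvm⟩
        rw [Finset.card_compl, Fintype.card_fin, Finset.card_union_of_disjoint h12, hΛc] at h13
        omega

end H67.SG
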