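import Pool.Agent.H67.SG.AbsP
import Pool.Agent.H67.SG.AbsL

/-! # SG.Absorb : the absorption lemma (about 120 lines)

`ε = γ² / 10000`. `e = ⌊ε n⌋₊`, `q = 3 e + 1`, `n₀` large. Then `nd F a A ≤ e`, `n ≤ |A| + e`, `3 e ≤ q`, `200 q ≤ n`, `q ≤ γ n ≤ |U|`,
`3 q ≤ γ n ≤ dg F u A`. If the number of leaves is `< q`: `abs_path`. Otherwise `abs_leaf` with `R = {a ∈ A | q ≤ dg F a U}`: counting the
edges between `A` and `U` twice, `γ n |U| ≤ Σ_{u ∈ U} dg F u A = Σ_{a ∈ A} dg F a U ≤ |R| |U| + |A| q ≤ |R| |U| + n q`, so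
`|R| ≥ γ n - n q / |U| ≥ γ n - q / γ ≥ q + e` (`|U| ≥ γ n`). -/

namespace H67.SG

open SimpleGraph Pool.Agent.H62.Decomp

private theorem dg_le_card {W : Type} (F : SimpleGraph W) (x : W) (S : Finset W) : dg F x S ≤ S.card := by
  classical
  unfold dg
  exact Finset.card_filter_le _ _

private theorem double_count {W : Type} (F : SimpleGraph W) (A U : Finset W) :
    ∑ u ∈ U, dg F u A = ∑ a ∈ A, dg F a U := by
  classical
  unfold dg
  simp only [Finset.card_filter]
  rw [Finset.sum_comm]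
  refine Finset.sum_congr rfl fun a _ => Finset.sum_congr rfl fun u _ => ?_
  simp only [F.adj_comm]

private theorem sum_bound {W : Type} (F : SimpleGraph W) (A U R : Finset W) (q : ℕ)
    (hR : ∀ a ∈ A, a ∉ R → dg F a U ≤ q) (hRA : R ⊆ A) :
    ∑ a ∈ A, dg F a U ≤ R.card * U.card + A.card * q := by
  classical
  rw [← Finset.sum_sdiff hRA]
  have h1 : ∑ a ∈ A \ R, dg F a U ≤ (A \ R).card * q := by
    have := Finset.sum_le_card_nsmul (A \ R) (fun a => dg F a U) q
      (fun a ha => hR a (Finset.mem_sdiff.1 ha).1 (Finset.mem_sdiff.1 ha).2)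
    simpa using this
  have h2 : ∑ a ∈ R, dg F a U ≤ R.card * U.card := by
    have := Finset.sum_le_card_nsmul R (fun a => dg F a U) U.card (fun a _ => dg_le_card F a U)
    simpa using this
  have h3 : (A \ R).card * q ≤ A.card * q :=
    Nat.mul_le_mul_right _ (Finset.card_le_card Finset.sdiff_subset)
  omega

theorem absorb (γ : ℝ) (h0 : 0 < γ) (h1 : γ ≤ 1) : ∃ ε : ℝ, 0 < ε ∧ ∃ n₀ : ℕ, ∀ n : ℕ, n₀ ≤ n →
    ∀ T : SimpleGraph (Fin n), T.IsTree → ∀ (W : Type) (F : SimpleGraph W) (A U : Finset W),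
      Disjoint A U → (1 - ε) * n ≤ A.card → A.card ≤ n → (∀ a ∈ A, (nd F a A : ℝ) ≤ ε * n) →
      γ * n ≤ U.card → (∀ u ∈ U, γ * n ≤ (dg F u A : ℝ)) → T ⊑ F := by
  classical
  have hg2 : 0 < γ ^ 2 := by positivity
  refine ⟨γ ^ 2 / 10000, by positivity, max 1000 ⌈10 / γ ^ 2⌉₊, ?_⟩
  intro n hn T hT W F A U hAU hA1 hA2 hnd hU hdg
  have hn1 : 1000 ≤ n := le_trans (le_max_left _ _) hn
  have hn2 : 10 / γ ^ 2 ≤ (n : ℝ) := le_trans (Nat.le_ceil _) (by exact_mod_cast le_trans (le_max_right _ _) hn)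
  have hn3 : 10 ≤ γ ^ 2 * (n : ℝ) := by
    rw [div_le_iff₀ hg2] at hn2; linarith
  have hn1' : (1000 : ℝ) ≤ n := by exact_mod_cast hn1
  have hgg : γ ^ 2 ≤ γ := by nlinarith
  have hg1 : γ ^ 2 ≤ 1 := le_trans hgg h1
  have hnpos : (0 : ℝ) < n := by linarith
  have hgn : γ ^ 2 * (n : ℝ) ≤ γ * n := mul_le_mul_of_nonneg_right hgg hnpos.le
  have hgn1 : γ ^ 2 * (n : ℝ) ≤ n := by nlinarith
  set ε : ℝ := γ ^ 2 / 10000 with hε
  set e : ℕ := ⌊ε * n⌋₊ with he
  have hεn : 0 ≤ ε * n := by positivity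
  have hεe : ε * n = γ ^ 2 * n / 10000 := by rw [hε]; ring
  have hele : (e : ℝ) ≤ γ ^ 2 * n / 10000 := by rw [← hεe]; exact Nat.floor_le hεn
  have hnd' : ∀ a ∈ A, nd F a A ≤ e := fun a ha => Nat.le_floor (hnd a ha)
  have hsz : n ≤ A.card + e := by
    have h2 : ((n - A.card : ℕ) : ℝ) ≤ ε * n := by
      rw [Nat.cast_sub hA2]; linarith
    have h3 : n - A.card ≤ e := Nat.le_floor h2
    omega
  set q : ℕ := 3 * e + 1 with hq
  have hqle : (q : ℝ) ≤ 3 * (γ ^ 2 * n / 10000) + 1 := by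
    rw [hq]; push_cast; linarith
  have h200 : 200 * q ≤ n := by
    have : (200 : ℝ) * q ≤ n := by nlinarith
    exact_mod_cast this
  have hqU : q ≤ U.card := by
    have : (q : ℝ) ≤ U.card := by nlinarith
    exact_mod_cast this
  have hUA : ∀ u ∈ U, 3 * q ≤ dg F u A := by
    intro u hu
    have h4 := hdg u hu
    have : ((3 * q : ℕ) : ℝ) ≤ dg F u A := by push_cast; nlinarith
    exact_mod_cast this
  by_cases hl : (Finset.univ.filter (fun v => deg T v = 1)).card < q
  · exact abs_path T hT q e hl h200 F A U hAU hnd' hsz (by omega) hqU hUA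
  · push Not at hl
    set R : Finset W := A.filter (fun a => q ≤ dg F a U) with hRdef
    have hRA : R ⊆ A := Finset.filter_subset _ _
    have hsum1 : γ * n * U.card ≤ ((∑ u ∈ U, dg F u A : ℕ) : ℝ) := by
      push_cast
      have := Finset.card_nsmul_le_sum U (fun u => (dg F u A : ℝ)) (γ * n) hdg
      simpa [nsmul_eq_mul, mul_comm, mul_left_comm, mul_assoc] using this
    have hsum2 := sum_bound F A U R q (fun a ha hn => by
      by_contra hc
      push Not at hc
      exact hn (Finset.mem_filter.2 ⟨ha, hc.le⟩)) hRA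
    rw [double_count] at hsum1
    have hsum3 : γ * n * U.card ≤ (R.card : ℝ) * U.card + n * q := by
      have h5 : ((∑ a ∈ A, dg F a U : ℕ) : ℝ) ≤ ((R.card * U.card + A.card * q : ℕ) : ℝ) := by
        exact_mod_cast hsum2
      have h6 : ((A.card : ℕ) : ℝ) * q ≤ (n : ℝ) * q := by
        have : ((A.card : ℕ) : ℝ) ≤ n := by exact_mod_cast hA2
        exact mul_le_mul_of_nonneg_right this (Nat.cast_nonneg _)
      push_cast at h5
      push_cast at hsum1
      linarith
    have hRcard : q + e ≤ R.card := by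
      by_contra hc
      push Not at hc
      have hc' : (R.card : ℝ) ≤ q + e := by exact_mod_cast hc.le
      -- (γ n - |R|) |U| ≤ n q
      have h7 : (γ * n - R.card) * U.card ≤ n * q := by linarith
      have h8 : γ * n / 2 ≤ γ * n - R.card := by nlinarith
      have h9 : γ * n / 2 * (γ * n) ≤ (γ * n - R.card) * U.card := by
        apply mul_le_mul h8 hU (by positivity)
        have : 0 ≤ γ * n / 2 := by positivity
        linarith
      have h10 : γ ^ 2 * n / 2 ≤ q := by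
        have h11 : n * (γ ^ 2 * n / 2) ≤ n * q := by nlinarith
        exact le_of_mul_le_mul_left h11 hnpos
      linarith
    exact abs_leaf T hT (by omega) q e (by omega) hl F A U R hAU hnd' hsz (by omega) hRA hRcard
      (fun a ha => (Finset.mem_filter.1 ha).2)

end H67.SG
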