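import Pool.Agent.H67.SG.Root
import Pool.Agent.H67.SG.GL

/-! # SG.GMin : minimum degree n - 1 gives every tree with n vertices (about 60 lines)

`greedy_min`: a tree has a vertex (`Nonempty`), choose any root (`tree_root`) and use `greedy_lists` with `L v = S` for all `v`:
the set `{u | rk u < rk v, u ≠ par v, …}` does not contain `v` and `par v ≠ v`, so it has at most `n - 2 < n - 1 ≤ dg F a S` elements
(`n ≥ 2` because `v ≠ par v`). Then `contained_of_map`.
`thin_of_free`: otherwise all `v ∈ S` have `nd C v S ≥ n`, so `dg Cᶜ v S = nd C v S - 1 ≥ n - 1` (`dg_compl_of_mem`), and `greedy_min`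
gives a blue `T`. -/

namespace H67.SG

open SimpleGraph Pool.Agent.H62.Decomp

theorem greedy_min {n : ℕ} (T : SimpleGraph (Fin n)) (hT : T.IsTree) {W : Type} (F : SimpleGraph W)
    (S : Finset W) (hS : S.Nonempty) (h : ∀ a ∈ S, n - 1 ≤ dg F a S) : T ⊑ F := by
  classical
  obtain ⟨r⟩ := hT.connected.nonempty
  obtain ⟨rk, par, hR⟩ := tree_root T hT r
  have hL : ∀ v, v ≠ r → ∀ a ∈ (fun _ : Fin n => S) (par v),
      (Finset.univ.filter (fun u => rk u < rk v ∧ u ≠ par v ∧
        ¬ Disjoint ((fun _ : Fin n => S) u) ((fun _ : Fin n => S) v))).card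
        < dg F a ((fun _ : Fin n => S) v) := by
    intro v hv a ha
    have hne : par v ≠ v := (hR.adj v hv).ne
    have hsub : Finset.univ.filter (fun u => rk u < rk v ∧ u ≠ par v ∧
        ¬ Disjoint ((fun _ : Fin n => S) u) ((fun _ : Fin n => S) v)) ⊆
        (Finset.univ.erase v).erase (par v) := by
      intro u hu
      rw [Finset.mem_filter] at hu
      rw [Finset.mem_erase, Finset.mem_erase]
      refine ⟨hu.2.2.1, ?_, Finset.mem_univ _⟩
      rintro rfl
      exact lt_irrefl _ hu.2.1
    have hc := Finset.card_le_card hsub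
    rw [Finset.card_erase_of_mem (Finset.mem_erase.mpr ⟨hne, Finset.mem_univ _⟩),
      Finset.card_erase_of_mem (Finset.mem_univ _), Finset.card_univ, Fintype.card_fin] at hc
    have h2 : 2 ≤ n := by
      have h3 : ({par v, v} : Finset (Fin n)).card ≤ Fintype.card (Fin n) := Finset.card_le_univ _
      rw [Finset.card_pair hne, Fintype.card_fin] at h3
      exact h3
    have h4 : n - 1 ≤ dg F a S := h a ha
    have h5 : n - 1 - 1 < n - 1 := by omega
    exact lt_of_le_of_lt hc (lt_of_lt_of_le h5 h4)
  obtain ⟨φ, h1, _, h3⟩ := greedy_lists hR F (fun _ : Fin n => S) hS hL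
  exact contained_of_map φ h1 h3

theorem thin_of_free {n : ℕ} (T : SimpleGraph (Fin n)) (hT : T.IsTree) {W : Type} (C : SimpleGraph W)
    (h : ¬ T ⊑ Cᶜ) : Thin n C := by
  intro S hS
  by_contra hcon
  push Not at hcon
  apply h
  refine greedy_min T hT Cᶜ S hS ?_
  intro a ha
  have h1 := hcon a ha
  have h2 := dg_compl_of_mem C a S ha
  omega

end H67.SG
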