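import Pool.Agent.H67.SG.FindA
import Pool.Agent.H67.SG.Absorb
import Pool.Agent.H67.SG.GMin

/-! # SG.Stab : the stability theorem (about 250 lines)

`stab_one`: `findA 1 m` with `ε' = δ` and `thin_of_free`; `P 0 = A`.
`stab_succ`: let `m ≥ 1`, `δ > 0` (assume `δ ≤ 1`). `StabAt p` for `m` and `δ` gives `ε₁`. Put
`γ = min (ε₁ / 4) (min (δ² / (4 (p+1))) (1 / (4 (p+1) m)))`, also `γ ≤ 1`; `absorb γ` gives `ε₂`; put `ε' = min (ε₂ / 2) (min (δ / 4) (1/4))`;
`findA (p+1) m` with `ε'` gives `ε₃`; `ε = min ε₃ (ε₁ / 4)`. Let `S` with `|S| ≥ (p + 1 - ε) n`, no `HasK (p+2) m C S`. `findA`: `A ⊆ S`. `F = Cᶜ`: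
`nd F a A = dg C a A + 1 ≤ ε' n + 1 ≤ ε₂ n`. `U = {w ∈ S \ A | γ n ≤ nd C w A}` (for `w ∉ A`: `dg F w A = nd C w A`). If `|U| ≥ γ n`, `absorb` gives
a blue `T`. So `|U| < γ n`, `S' = S \ A \ U` has `|S'| ≥ (p + 1 - ε) n - n - γ n ≥ (p - ε₁) n`. `HasK (p+1) m C S'` is false: the `(p+1) m` vertices
have each fewer than `γ n` non-neighbours in `A`, so at least `(1 - ε') n - (p+1) m γ n ≥ n/4 ≥ m` vertices of `A` are joined to all of them and give one more part:
`HasK (p+2) m C S`. `StabAt p` for `S'`: `P' : Fin p → Finset W`. Let `A' = A` minus the vertices `a` with `nd C a (P' j) > δ n` for some `j`; double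
counting of the blue pairs between `A` and `P' j` (`Σ_{a ∈ A} nd C a (P' j) = Σ_{b ∈ P' j} nd C b A ≤ n γ n`): at most `p γ n / δ ≤ δ n / 4` vertices are removed.
`P = Fin.cons A' P'` (or `Fin.snoc`). `nd C b A' ≤ γ n ≤ δ n` for `b ∈ P' j`. -/

namespace H67.SG

open SimpleGraph Pool.Agent.H62.Decomp

private lemma stab_double {W : Type} (C : SimpleGraph W) (A B : Finset W) :
    ∑ a ∈ A, nd C a B = ∑ b ∈ B, nd C b A := by
  classical
  unfold nd
  simp_rw [Finset.card_filter]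
  rw [Finset.sum_comm]
  refine Finset.sum_congr rfl fun b _ => Finset.sum_congr rfl fun a _ => ?_
  simp only [C.adj_comm a b]

open Classical in
private lemma stab_union {W : Type} (C : SimpleGraph W) (A B : Finset W) :
    (A.filter (fun a => ∃ w ∈ B, ¬ C.Adj w a)).card ≤ ∑ w ∈ B, nd C w A := by
  unfold nd
  refine le_trans (Finset.card_le_card ?_) Finset.card_biUnion_le
  intro a ha
  rw [Finset.mem_filter] at ha
  obtain ⟨h1, w, hw, h2⟩ := ha
  rw [Finset.mem_biUnion]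
  exact ⟨w, hw, Finset.mem_filter.2 ⟨h1, h2⟩⟩

private lemma stab_K {W : Type} {p m n : ℕ} {C : SimpleGraph W} {S A S' : Finset W} {γ ε' : ℝ}
    (hA : A ⊆ S) (hS' : S' ⊆ S) (hcard : (1 - ε') * n ≤ A.card)
    (hlow : ∀ w ∈ S', (nd C w A : ℝ) ≤ γ * n) (hγ : ((p : ℝ) + 1) * m * γ ≤ 1 / 4)
    (hγ0 : 0 ≤ γ) (hε' : ε' ≤ 1 / 4) (hn : 4 * m ≤ n) (hK : HasK (p + 1) m C S') :
    HasK (p + 2) m C S := by
  classical
  obtain ⟨P, hP1, hP2, hP3⟩ := hK
  set B : Finset W := Finset.univ.biUnion P with hB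
  have hBcard : B.card ≤ (p + 1) * m := by
    refine Finset.card_biUnion_le.trans ?_
    simp [hP2]
  have hBS : ∀ w ∈ B, w ∈ S' := by
    intro w hw
    rw [hB, Finset.mem_biUnion] at hw
    obtain ⟨i, _, hi⟩ := hw
    exact hP1 i hi
  set X : Finset W := A.filter (fun a => ∃ w ∈ B, ¬ C.Adj w a) with hX
  have hXcard : (X.card : ℝ) ≤ 1 / 4 * n := by
    have h1 : (X.card : ℝ) ≤ ∑ w ∈ B, (nd C w A : ℝ) := by
      exact_mod_cast stab_union C A B
    have h2 : ∑ w ∈ B, (nd C w A : ℝ) ≤ ∑ w ∈ B, γ * n :=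
      Finset.sum_le_sum fun w hw => hlow w (hBS w hw)
    rw [Finset.sum_const, nsmul_eq_mul] at h2
    have h3 : (B.card : ℝ) ≤ ((p : ℝ) + 1) * m := by exact_mod_cast hBcard
    have hn0 : (0 : ℝ) ≤ n := Nat.cast_nonneg _
    calc (X.card : ℝ) ≤ B.card * (γ * n) := h1.trans h2
      _ ≤ ((p : ℝ) + 1) * m * (γ * n) := by gcongr
      _ = (((p : ℝ) + 1) * m * γ) * n := by ring
      _ ≤ 1 / 4 * n := by gcongr
  have hXA : X ⊆ A := Finset.filter_subset _ _
  have hm : m ≤ (A \ X).card := by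
    have h1 : ((A \ X).card : ℝ) = A.card - X.card := by
      rw [Finset.card_sdiff_of_subset hXA, Nat.cast_sub (Finset.card_le_card hXA)]
    have hn0 : (0 : ℝ) ≤ n := Nat.cast_nonneg _
    have h2 : (4 : ℝ) * m ≤ n := by exact_mod_cast hn
    have h3 : (1 - 1 / 4) * (n : ℝ) ≤ (1 - ε') * n := by gcongr
    have h4 : (m : ℝ) ≤ ((A \ X).card : ℝ) := by
      rw [h1]
      linarith
    exact_mod_cast h4
  obtain ⟨Q, hQ1, hQ2⟩ := Finset.exists_subset_card_eq hm
  have hQadj : ∀ x ∈ Q, ∀ w ∈ B, C.Adj w x := by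
    intro x hx w hw
    have h1 := hQ1 hx
    rw [Finset.mem_sdiff] at h1
    by_contra h2
    exact h1.2 (Finset.mem_filter.2 ⟨h1.1, w, hw, h2⟩)
  have hPB : ∀ i, ∀ w ∈ P i, w ∈ B := by
    intro i w hw
    rw [hB, Finset.mem_biUnion]
    exact ⟨i, Finset.mem_univ _, hw⟩
  refine ⟨Fin.cons Q P, ?_, ?_, ?_⟩
  · intro i
    refine Fin.cases ?_ (fun i => ?_) i
    · rw [Fin.cons_zero]
      exact (hQ1.trans Finset.sdiff_subset).trans hA
    · rw [Fin.cons_succ]
      exact (hP1 i).trans hS'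
  · intro i
    refine Fin.cases ?_ (fun i => ?_) i
    · rw [Fin.cons_zero]; exact hQ2
    · rw [Fin.cons_succ]; exact hP2 i
  · intro i j
    refine Fin.cases ?_ (fun i => ?_) i
    · refine Fin.cases ?_ (fun j => ?_) j
      · intro h; exact absurd rfl h
      · intro _ x hx y hy
        rw [Fin.cons_zero] at hx
        rw [Fin.cons_succ] at hy
        exact (hQadj x hx y (hPB j y hy)).symm
    · refine Fin.cases ?_ (fun j => ?_) j
      · intro _ x hx y hy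
        rw [Fin.cons_succ] at hx
        rw [Fin.cons_zero] at hy
        exact hQadj y hy x (hPB i x hx)
      · intro h x hx y hy
        rw [Fin.cons_succ] at hx hy
        exact hP3 i j (fun h' => h (by rw [h'])) x hx y hy

/-- the set of the vertices of `A` with few non-neighbours in all `P j` is large -/
private lemma stab_A {W : Type} {p n : ℕ} {C : SimpleGraph W} {A : Finset W} {P : Fin p → Finset W}
    {γ δ ε' : ℝ} (hδ : 0 < δ) (hn : 0 < n) (hcard : (1 - ε') * n ≤ A.card) (hP : ∀ i, (P i).card ≤ n)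
    (hlow : ∀ i, ∀ w ∈ P i, (nd C w A : ℝ) ≤ γ * n) (hγ0 : 0 ≤ γ) (hγ : γ * (4 * ((p : ℝ) + 1)) ≤ δ ^ 2)
    (hε' : ε' ≤ δ / 4) :
    ∃ A' ⊆ A, (1 - δ) * n ≤ A'.card ∧ ∀ a ∈ A', ∀ j, (nd C a (P j) : ℝ) ≤ δ * n := by
  classical
  have hn0 : (0 : ℝ) < n := by exact_mod_cast hn
  set X : Fin p → Finset W := fun j => A.filter (fun a => δ * n < (nd C a (P j) : ℝ)) with hX
  have hXc : ∀ j, ((X j).card : ℝ) * δ ≤ γ * n := by
    intro j
    have h1 : ((X j).card : ℝ) * (δ * n) ≤ ∑ a ∈ X j, (nd C a (P j) : ℝ) := by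
      rw [← nsmul_eq_mul]
      refine Finset.card_nsmul_le_sum _ _ _ fun a ha => ?_
      rw [hX, Finset.mem_filter] at ha
      exact ha.2.le
    have h2 : ∑ a ∈ X j, (nd C a (P j) : ℝ) ≤ ∑ a ∈ A, (nd C a (P j) : ℝ) :=
      Finset.sum_le_sum_of_subset_of_nonneg (Finset.filter_subset _ _)
        fun _ _ _ => Nat.cast_nonneg _
    have h3 : ∑ a ∈ A, (nd C a (P j) : ℝ) = ∑ b ∈ P j, (nd C b A : ℝ) := by
      exact_mod_cast stab_double C A (P j)
    have h4 : ∑ b ∈ P j, (nd C b A : ℝ) ≤ ∑ b ∈ P j, γ * n :=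
      Finset.sum_le_sum fun w hw => hlow j w hw
    rw [Finset.sum_const, nsmul_eq_mul] at h4
    have h5 : ((P j).card : ℝ) ≤ n := by exact_mod_cast hP j
    have h6 : ((P j).card : ℝ) * (γ * n) ≤ n * (γ * n) := by gcongr
    have h7 : ((X j).card : ℝ) * δ * n ≤ γ * n * n := by
      calc ((X j).card : ℝ) * δ * n = ((X j).card : ℝ) * (δ * n) := by ring
        _ ≤ n * (γ * n) := by linarith
        _ = _ := by ring
    exact le_of_mul_le_mul_right h7 hn0
  set Y : Finset W := Finset.univ.biUnion X with hY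
  have hYA : Y ⊆ A := by
    intro a ha
    rw [hY, Finset.mem_biUnion] at ha
    obtain ⟨j, _, hj⟩ := ha
    exact (Finset.mem_filter.1 hj).1
  have hYc : (Y.card : ℝ) ≤ δ / 4 * n := by
    have h1 : (Y.card : ℝ) ≤ ∑ j : Fin p, ((X j).card : ℝ) := by
      exact_mod_cast Finset.card_biUnion_le
    have h2 : (Y.card : ℝ) * δ ≤ p * (γ * n) := by
      calc (Y.card : ℝ) * δ ≤ (∑ j : Fin p, ((X j).card : ℝ)) * δ := by gcongr
        _ = ∑ j : Fin p, ((X j).card : ℝ) * δ := by rw [Finset.sum_mul]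
        _ ≤ ∑ _j : Fin p, γ * n := Finset.sum_le_sum fun j _ => hXc j
        _ = p * (γ * n) := by simp
    have h3 : (p : ℝ) * (γ * n) ≤ δ / 4 * n * δ := by
      have : γ * (4 * (p : ℝ)) ≤ δ ^ 2 := by nlinarith
      calc (p : ℝ) * (γ * n) = (γ * (4 * (p : ℝ))) * n / 4 := by ring
        _ ≤ δ ^ 2 * n / 4 := by gcongr
        _ = _ := by ring
    exact le_of_mul_le_mul_right (h2.trans h3) hδ
  refine ⟨A \ Y, Finset.sdiff_subset, ?_, ?_⟩
  · have h1 : ((A \ Y).card : ℝ) = A.card - Y.card := by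
      rw [Finset.card_sdiff_of_subset hYA, Nat.cast_sub (Finset.card_le_card hYA)]
    rw [h1]
    have h2 : (1 - δ / 4) * (n : ℝ) ≤ (1 - ε') * n := by gcongr
    nlinarith
  · intro a ha j
    rw [Finset.mem_sdiff] at ha
    by_contra h
    refine ha.2 ?_
    rw [hY, Finset.mem_biUnion]
    exact ⟨j, Finset.mem_univ _, Finset.mem_filter.2 ⟨ha.1, not_le.1 h⟩⟩

theorem stab_one : StabAt 1 := by
  intro m hm δ hδ
  obtain ⟨ε, hε, n₀, h⟩ := findA 1 m le_rfl hm δ hδ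
  refine ⟨ε, hε, n₀, ?_⟩
  intro n hn T hT W C S hfree hS hK
  obtain ⟨A, hA, h1, h2, h3⟩ := h n hn W C S (thin_of_free T hT C hfree) hS hK
  refine ⟨fun _ => A, fun _ => hA, ?_, fun _ => h1, fun _ => h2, fun _ => h3, ?_⟩
  · intro i j hij
    exact absurd (Subsingleton.elim i j) hij
  · intro i j hij
    exact absurd (Subsingleton.elim i j) hij

private lemma stab_succ_aux (p : ℕ) (_hp : 1 ≤ p) (h : StabAt p) (m : ℕ) (hm : 1 ≤ m) (δ : ℝ)
    (hδ : 0 < δ) (hδ1 : δ ≤ 1) : ∃ ε : ℝ, 0 < ε ∧ ∃ n₀ : ℕ, ∀ n : ℕ, n₀ ≤ n →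
    ∀ T : SimpleGraph (Fin n), T.IsTree → ∀ (W : Type) (C : SimpleGraph W) (S : Finset W),
      ¬ T ⊑ Cᶜ → (((p + 1 : ℕ) : ℝ) - ε) * n ≤ S.card → ¬ HasK (p + 1 + 1) m C S →
      ∃ P : Fin (p + 1) → Finset W, (∀ i, P i ⊆ S) ∧ (∀ i j, i ≠ j → Disjoint (P i) (P j)) ∧
        (∀ i, (1 - δ) * n ≤ (P i).card) ∧ (∀ i, (P i).card ≤ n) ∧
        (∀ i, ∀ x ∈ P i, (dg C x (P i) : ℝ) ≤ δ * n) ∧
        (∀ i j, i ≠ j → ∀ x ∈ P i, (nd C x (P j) : ℝ) ≤ δ * n) := by
  classical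
  obtain ⟨ε₁, hε₁, n₁, h1⟩ := h m hm δ hδ
  have hm0 : (0 : ℝ) < m := by exact_mod_cast hm
  have hp0 : (0 : ℝ) < (p : ℝ) + 1 := by positivity
  obtain ⟨γ, hγ0, hγa, hγb, hγc, hγ1⟩ : ∃ γ : ℝ, 0 < γ ∧ γ ≤ ε₁ / 4 ∧
      γ * (4 * ((p : ℝ) + 1)) ≤ δ ^ 2 ∧ ((p : ℝ) + 1) * m * γ ≤ 1 / 4 ∧ γ ≤ 1 := by
    refine ⟨min (ε₁ / 4) (min (δ ^ 2 / (4 * ((p : ℝ) + 1)))
      (min (1 / (4 * (((p : ℝ) + 1) * m))) 1)), ?_, min_le_left _ _, ?_, ?_, ?_⟩
    · refine lt_min (by positivity) (lt_min (by positivity) (lt_min (by positivity) one_pos))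
    · rw [← le_div_iff₀ (by positivity)]
      exact (min_le_right _ _).trans (min_le_left _ _)
    · have h2 : min (ε₁ / 4) (min (δ ^ 2 / (4 * ((p : ℝ) + 1)))
          (min (1 / (4 * (((p : ℝ) + 1) * m))) 1)) ≤ 1 / (4 * (((p : ℝ) + 1) * m)) :=
        (min_le_right _ _).trans ((min_le_right _ _).trans (min_le_left _ _))
      rw [le_div_iff₀ (by positivity)] at h2
      linarith
    · exact (min_le_right _ _).trans ((min_le_right _ _).trans (min_le_right _ _))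
  obtain ⟨ε₂, hε₂, n₂, h2⟩ := absorb γ hγ0 hγ1
  obtain ⟨ε', hε'0, hε'a, hε'b, hε'c⟩ : ∃ ε' : ℝ, 0 < ε' ∧ ε' ≤ ε₂ / 2 ∧ ε' ≤ δ / 4 ∧ ε' ≤ 1 / 4 :=
    ⟨min (ε₂ / 2) (min (δ / 4) (1 / 4)), lt_min (by positivity) (lt_min (by positivity) (by norm_num)),
      min_le_left _ _, (min_le_right _ _).trans (min_le_left _ _),
      (min_le_right _ _).trans (min_le_right _ _)⟩
  obtain ⟨ε₃, hε₃, n₃, h3⟩ := findA (p + 1) m (by omega) hm ε' hε'0
  obtain ⟨k, hk⟩ := exists_nat_ge (2 / ε₂)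
  refine ⟨min ε₃ (ε₁ / 4), lt_min hε₃ (by positivity), max (max n₁ n₂) (max n₃ (max k (4 * m))), ?_⟩
  intro n hn T hT W C S hfree hS hK
  have hn1 : n₁ ≤ n := (le_max_left _ _).trans ((le_max_left _ _).trans hn)
  have hn2 : n₂ ≤ n := (le_max_right _ _).trans ((le_max_left _ _).trans hn)
  have hn3 : n₃ ≤ n := (le_max_left _ _).trans ((le_max_right _ _).trans hn)
  have hnk : k ≤ n := (le_max_left _ _).trans ((le_max_right _ _).trans ((le_max_right _ _).trans hn))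
  have hnm : 4 * m ≤ n :=
    (le_max_right _ _).trans ((le_max_right _ _).trans ((le_max_right _ _).trans hn))
  have hnpos : 0 < n := by omega
  have hn0 : (0 : ℝ) < n := by exact_mod_cast hnpos
  have hnk' : 1 ≤ ε₂ / 2 * n := by
    have : 2 / ε₂ ≤ n := hk.trans (by exact_mod_cast hnk)
    rw [div_le_iff₀ hε₂] at this
    linarith
  have hS3 : (((p + 1 : ℕ) : ℝ) - ε₃) * n ≤ S.card := by
    refine le_trans ?_ hS
    have := min_le_left ε₃ (ε₁ / 4)
    gcongr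
  obtain ⟨A, hAS, hA1, hA2, hA3⟩ := h3 n hn3 W C S (thin_of_free T hT C hfree) hS3 hK
  have hndA : ∀ a ∈ A, (nd Cᶜ a A : ℝ) ≤ ε₂ * n := by
    intro a ha
    rw [nd_compl_of_mem C a A ha]
    push_cast
    have h4 := hA3 a ha
    have h5 : ε' * (n : ℝ) ≤ ε₂ / 2 * n := by gcongr
    linarith
  set U : Finset W := (S \ A).filter (fun w => γ * n ≤ (nd C w A : ℝ)) with hU
  have hUmem : ∀ u ∈ U, u ∈ S ∧ u ∉ A ∧ γ * n ≤ (nd C u A : ℝ) := by
    intro u hu
    rw [hU, Finset.mem_filter, Finset.mem_sdiff] at hu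
    exact ⟨hu.1.1, hu.1.2, hu.2⟩
  have hUc : (U.card : ℝ) < γ * n := by
    by_contra hc
    rw [not_lt] at hc
    refine hfree (h2 n hn2 T hT W Cᶜ A U ?_ ?_ hA2 hndA hc ?_)
    · rw [Finset.disjoint_left]
      intro a ha hu
      exact (hUmem a hu).2.1 ha
    · refine le_trans ?_ hA1
      have : ε' ≤ ε₂ := by linarith
      gcongr
    · intro u hu
      rw [dg_compl_of_notMem C u A (hUmem u hu).2.1]
      exact (hUmem u hu).2.2
  set S' : Finset W := (S \ A) \ U with hS'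
  have hS'S : S' ⊆ S := Finset.sdiff_subset.trans Finset.sdiff_subset
  have hS'A : ∀ w ∈ S', w ∉ A := by
    intro w hw
    rw [hS', Finset.mem_sdiff, Finset.mem_sdiff] at hw
    exact hw.1.2
  have hlow : ∀ w ∈ S', (nd C w A : ℝ) ≤ γ * n := by
    intro w hw
    rw [hS', Finset.mem_sdiff] at hw
    by_contra hc
    exact hw.2 (Finset.mem_filter.2 ⟨hw.1, (not_le.1 hc).le⟩)
  have hS'c : ((p : ℝ) - ε₁) * n ≤ S'.card := by
    have c1 : S.card ≤ S'.card + U.card + A.card := by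
      have d1 : (S \ A).card ≤ S'.card + U.card := by
        have := Finset.card_le_card_sdiff_add_card (s := S \ A) (t := U)
        rw [hS']; exact this
      have d2 := Finset.card_le_card_sdiff_add_card (s := S) (t := A)
      omega
    have c2 : (S.card : ℝ) ≤ S'.card + U.card + A.card := by exact_mod_cast c1
    have c3 : (A.card : ℝ) ≤ n := by exact_mod_cast hA2
    have c4 : min ε₃ (ε₁ / 4) ≤ ε₁ / 4 := min_le_right _ _
    push_cast at hS
    have c5 : ((p : ℝ) + 1 - ε₁ / 4) * n ≤ ((p : ℝ) + 1 - min ε₃ (ε₁ / 4)) * n := by gcongr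
    have c6 : γ * (n : ℝ) ≤ ε₁ / 4 * n := by gcongr
    nlinarith
  have hK' : ¬ HasK (p + 1) m C S' := fun hK' =>
    hK (stab_K hAS hS'S hA1 hlow hγc hγ0.le hε'c hnm hK')
  obtain ⟨P, hP1, hP2, hP3, hP4, hP5, hP6⟩ := h1 n hn1 T hT W C S' hfree hS'c hK'
  obtain ⟨A', hA', hA'c, hA'n⟩ := stab_A (P := P) hδ hnpos hA1 hP4
    (fun i w hw => hlow w (hP1 i hw)) hγ0.le hγb hε'b
  have hγδ : γ ≤ δ := by
    have : δ ^ 2 ≤ δ := by nlinarith
    nlinarith
  refine ⟨Fin.cons A' P, ?_, ?_, ?_, ?_, ?_, ?_⟩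
  · intro i
    refine Fin.cases ?_ (fun i => ?_) i
    · rw [Fin.cons_zero]; exact hA'.trans hAS
    · rw [Fin.cons_succ]; exact (hP1 i).trans hS'S
  · have hd : ∀ j, Disjoint A' (P j) := by
      intro j
      rw [Finset.disjoint_left]
      intro a ha hj
      exact hS'A a (hP1 j hj) (hA' ha)
    intro i j
    refine Fin.cases ?_ (fun i => ?_) i
    · refine Fin.cases ?_ (fun j => ?_) j
      · intro h; exact absurd rfl h
      · intro _
        rw [Fin.cons_zero, Fin.cons_succ]; exact hd j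
    · refine Fin.cases ?_ (fun j => ?_) j
      · intro _
        rw [Fin.cons_zero, Fin.cons_succ]; exact (hd i).symm
      · intro h
        rw [Fin.cons_succ, Fin.cons_succ]
        exact hP2 i j (fun h' => h (by rw [h']))
  · intro i
    refine Fin.cases ?_ (fun i => ?_) i
    · rw [Fin.cons_zero]; exact hA'c
    · rw [Fin.cons_succ]; exact hP3 i
  · intro i
    refine Fin.cases ?_ (fun i => ?_) i
    · rw [Fin.cons_zero]; exact (Finset.card_le_card hA').trans hA2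
    · rw [Fin.cons_succ]; exact hP4 i
  · intro i
    refine Fin.cases ?_ (fun i => ?_) i
    · rw [Fin.cons_zero]
      intro x hx
      have e1 : (dg C x A' : ℝ) ≤ dg C x A := by exact_mod_cast dg_mono C x hA'
      have e2 := hA3 x (hA' hx)
      have e3 : ε' * (n : ℝ) ≤ δ * n := by
        have : ε' ≤ δ := by linarith
        gcongr
      linarith
    · rw [Fin.cons_succ]; exact hP5 i
  · intro i j
    refine Fin.cases ?_ (fun i => ?_) i
    · refine Fin.cases ?_ (fun j => ?_) j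
      · intro h; exact absurd rfl h
      · intro _ x hx
        rw [Fin.cons_zero] at hx
        rw [Fin.cons_succ]
        exact hA'n x hx j
    · refine Fin.cases ?_ (fun j => ?_) j
      · intro _ x hx
        rw [Fin.cons_succ] at hx
        rw [Fin.cons_zero]
        have e1 : (nd C x A' : ℝ) ≤ nd C x A := by exact_mod_cast nd_mono C x hA'
        have e2 := hlow x (hP1 i hx)
        have e3 : γ * (n : ℝ) ≤ δ * n := by gcongr
        linarith
      · intro h x hx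
        rw [Fin.cons_succ] at hx
        rw [Fin.cons_succ]
        exact hP6 i j (fun h' => h (by rw [h'])) x hx

theorem stab_succ (p : ℕ) (hp : 1 ≤ p) (h : StabAt p) : StabAt (p + 1) := by
  intro m hm δ hδ
  obtain ⟨ε, hε, n₀, h1⟩ := stab_succ_aux p hp h m hm (min δ 1) (lt_min hδ one_pos) (min_le_right _ _)
  refine ⟨ε, hε, n₀, ?_⟩
  intro n hn T hT W C S hfree hS hK
  obtain ⟨P, hP1, hP2, hP3, hP4, hP5, hP6⟩ := h1 n hn T hT W C S hfree hS hK
  have hle : min δ 1 ≤ δ := min_le_left _ _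
  have hn0 : (0 : ℝ) ≤ n := Nat.cast_nonneg _
  have hle' : min δ 1 * (n : ℝ) ≤ δ * n := by gcongr
  refine ⟨P, hP1, hP2, fun i => ?_, hP4, fun i x hx => (hP5 i x hx).trans hle',
    fun i j hij x hx => (hP6 i j hij x hx).trans hle'⟩
  refine le_trans ?_ (hP3 i)
  gcongr

theorem stab (p : ℕ) (hp : 1 ≤ p) : StabAt p := by
  induction p with
  | zero => omega
  | succ p ih =>
    rcases Nat.eq_zero_or_pos p with rfl | h
    · exact stab_one
    · exact stab_succ p h (ih h)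

end H67.SG
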