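import Pool.Agent.H67.SG.Root

/-! # SG.GD : greedy embedding with a preplaced set D (about 180 lines)

`D` is placed by `ψ`; the other vertices will be placed in `A`. Choose any root and the rooted order (`tree_root`). Process the
vertices `z ∉ D` by increasing rank; invariant for `N`: a map `φ : Fin n → W` which equals `ψ` on `D`, is injective on
`D ∪ {v | rk v < N}`, `φ z ∈ A` for `z ∉ D` with `rk z < N`, and all edges inside `D ∪ {rk < N}` go to edges of `F`. Step for `z ∉ D`,
`rk z = N`: the neighbours of `z` in `D ∪ {rk < N}` are its parent (if `rk (par z) < N`, always when `z ≠ r`) and at most one further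
vertex `y ∈ D` (`hD2`; if the parent lies in `D` it is the only one). So at most two neighbours are placed, all of them at
positions in `A` (`hD1` for those in `D`), each of which has at most `e` non-neighbours in `A` (`hA`). Used positions in `A`: at most
`(n - 1) - (number of y ∈ D with ψ y ∉ A)`. Free position wanted in `A`: `|A| > (n - 1) - out + 2 e`, which is `hsize`. -/

namespace H67.SG

open SimpleGraph Pool.Agent.H62.Decomp

open Classical in
theorem greedy_pre {n : ℕ} (T : SimpleGraph (Fin n)) (hT : T.IsTree) {W : Type} (F : SimpleGraph W)
    (D : Finset (Fin n)) (ψ : Fin n → W) (hinj : Set.InjOn ψ (D : Set (Fin n)))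
    (hadj : ∀ u ∈ D, ∀ v ∈ D, T.Adj u v → F.Adj (ψ u) (ψ v)) (A : Finset W) (e : ℕ)
    (hA : ∀ a ∈ A, nd F a A ≤ e)
    (hD1 : ∀ z, z ∉ D → ∀ y ∈ D, T.Adj z y → ψ y ∈ A)
    (hD2 : ∀ z, z ∉ D → ∀ y ∈ D, ∀ y' ∈ D, T.Adj z y → T.Adj z y' → y = y')
    (hsize : n + 2 * e ≤ A.card + (D.filter (fun y => ψ y ∉ A)).card) : T ⊑ F := by
  obtain ⟨r⟩ := hT.connected.nonempty
  obtain ⟨rk, par, hR⟩ := tree_root T hT r
  have main : ∀ N : ℕ, ∃ φ : Fin n → W, (∀ y ∈ D, φ y = ψ y) ∧
      (∀ z, z ∉ D → rk z < N → φ z ∈ A) ∧
      (∀ u v, (u ∈ D ∨ rk u < N) → (v ∈ D ∨ rk v < N) → φ u = φ v → u = v) ∧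
      (∀ u v, (u ∈ D ∨ rk u < N) → (v ∈ D ∨ rk v < N) → T.Adj u v → F.Adj (φ u) (φ v)) := by
    intro N
    induction N with
    | zero =>
      refine ⟨ψ, fun y _ => rfl, fun z _ hz => absurd hz (Nat.not_lt_zero _), ?_, ?_⟩
      · intro u v hu hv huv
        have hu' : u ∈ D := hu.resolve_right (Nat.not_lt_zero _)
        have hv' : v ∈ D := hv.resolve_right (Nat.not_lt_zero _)
        exact hinj hu' hv' huv
      · intro u v hu hv huv
        have hu' : u ∈ D := hu.resolve_right (Nat.not_lt_zero _)
        have hv' : v ∈ D := hv.resolve_right (Nat.not_lt_zero _)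
        exact hadj u hu' v hv' huv
    | succ N ih =>
      obtain ⟨φ, h1, h2, h3, h4⟩ := ih
      by_cases hex : ∃ z, rk z = N ∧ z ∉ D
      · obtain ⟨z, hzN, hzD⟩ := hex
        have huniq : ∀ u, (u ∈ D ∨ rk u < N + 1) → u ≠ z → (u ∈ D ∨ rk u < N) := by
          intro u hu huz
          rcases hu with hu | hu
          · exact Or.inl hu
          · right
            have hne : rk u ≠ N := fun hh => huz (hR.inj (hh.trans hzN.symm))
            omega
        -- placed vertices and placed neighbours
        set Q : Finset (Fin n) := Finset.univ.filter (fun u => u ∈ D ∨ rk u < N) with hQ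
        set O : Finset (Fin n) := D.filter (fun y => ψ y ∉ A) with hO
        set P : Finset (Fin n) := Q.filter (fun u => T.Adj z u) with hP
        have hzQ : z ∉ Q := by
          rw [hQ, Finset.mem_filter]
          rintro ⟨_, hh | hh⟩
          · exact hzD hh
          · omega
        have hOQ : O ⊆ Q := by
          intro u hu
          rw [hO, Finset.mem_filter] at hu
          rw [hQ, Finset.mem_filter]
          exact ⟨Finset.mem_univ _, Or.inl hu.1⟩
        have hQc : Q.card + 1 ≤ n := by
          have h5 : (insert z Q).card ≤ Fintype.card (Fin n) := Finset.card_le_univ _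
          rw [Finset.card_insert_of_notMem hzQ, Fintype.card_fin] at h5
          exact h5
        have hPc : P.card ≤ 2 := by
          have hsub : P ⊆ insert (par z) (D.filter (fun u => T.Adj z u)) := by
            intro u hu
            rw [hP, Finset.mem_filter, hQ, Finset.mem_filter] at hu
            obtain ⟨⟨_, hu1⟩, hu2⟩ := hu
            rw [Finset.mem_insert, Finset.mem_filter]
            by_cases huD : u ∈ D
            · exact Or.inr ⟨huD, hu2⟩
            · left
              have hlt : rk u < rk z := by
                rw [hzN]
                exact hu1.resolve_left huD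
              exact (hR.uniq u z hu2.symm hlt).2
          have h6 : (D.filter (fun u => T.Adj z u)).card ≤ 1 := by
            rw [Finset.card_le_one]
            intro a ha b hb
            rw [Finset.mem_filter] at ha hb
            exact hD2 z hzD a ha.1 b hb.1 ha.2 hb.2
          have h7 := Finset.card_le_card hsub
          have h8 := Finset.card_insert_le (par z) (D.filter (fun u => T.Adj z u))
          omega
        have hPA : ∀ u ∈ P, φ u ∈ A := by
          intro u hu
          rw [hP, Finset.mem_filter, hQ, Finset.mem_filter] at hu
          obtain ⟨⟨_, hu1⟩, hu2⟩ := hu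
          by_cases huD : u ∈ D
          · rw [h1 u huD]
            exact hD1 z hzD u huD hu2
          · exact h2 u huD (hu1.resolve_left huD)
        have hb : ∃ b ∈ A, (∀ u ∈ Q, φ u ≠ b) ∧ ∀ u ∈ P, F.Adj (φ u) b := by
          by_contra hcon
          push Not at hcon
          have hcov : A ⊆ (Q \ O).image φ ∪ P.biUnion (fun u => A.filter (fun y => ¬ F.Adj (φ u) y)) := by
            intro b hbA
            rw [Finset.mem_union]
            by_cases hb1 : ∀ u ∈ Q, φ u ≠ b
            · right
              obtain ⟨u, hu, hub⟩ := hcon b hbA hb1
              rw [Finset.mem_biUnion]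
              exact ⟨u, hu, Finset.mem_filter.mpr ⟨hbA, hub⟩⟩
            · left
              push Not at hb1
              obtain ⟨u, hu, hub⟩ := hb1
              rw [Finset.mem_image]
              refine ⟨u, ?_, hub⟩
              rw [Finset.mem_sdiff]
              refine ⟨hu, ?_⟩
              intro huO
              rw [hO, Finset.mem_filter] at huO
              apply huO.2
              rw [← h1 u huO.1, hub]
              exact hbA
          have h9 := (Finset.card_le_card hcov).trans (Finset.card_union_le _ _)
          have h10 : ((Q \ O).image φ).card ≤ Q.card - O.card := by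
            refine Finset.card_image_le.trans ?_
            rw [Finset.card_sdiff_of_subset hOQ]
          have h11 : (P.biUnion (fun u => A.filter (fun y => ¬ F.Adj (φ u) y))).card ≤ P.card * e := by
            refine Finset.card_biUnion_le_card_mul _ _ _ ?_
            intro u hu
            have h12 := hA (φ u) (hPA u hu)
            unfold nd at h12
            convert h12 using 2
          have h13 : P.card * e ≤ 2 * e := Nat.mul_le_mul_right e hPc
          have h14 : O.card ≤ Q.card := Finset.card_le_card hOQ
          omega
        obtain ⟨b, hbA, hbn, hba⟩ := hb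
        have hmemQ : ∀ u, (u ∈ D ∨ rk u < N) → u ∈ Q := by
          intro u hu
          rw [hQ, Finset.mem_filter]
          exact ⟨Finset.mem_univ _, hu⟩
        refine ⟨Function.update φ z b, ?_, ?_, ?_, ?_⟩
        · intro y hy
          have hyz : y ≠ z := fun hh => hzD (hh ▸ hy)
          rw [Function.update_of_ne hyz]
          exact h1 y hy
        · intro u huD hu
          by_cases huz : u = z
          · rw [huz, Function.update_self]
            exact hbA
          · rw [Function.update_of_ne huz]
            exact h2 u huD ((huniq u (Or.inr hu) huz).resolve_left huD)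
        · intro u v hu hv huv
          by_cases huz : u = z
          · by_cases hvz : v = z
            · rw [huz, hvz]
            · rw [huz, Function.update_self, Function.update_of_ne hvz] at huv
              exact absurd huv.symm (hbn v (hmemQ v (huniq v hv hvz)))
          · by_cases hvz : v = z
            · rw [hvz, Function.update_self, Function.update_of_ne huz] at huv
              exact absurd huv (hbn u (hmemQ u (huniq u hu huz)))
            · rw [Function.update_of_ne huz, Function.update_of_ne hvz] at huv
              exact h3 u v (huniq u hu huz) (huniq v hv hvz) huv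
        · intro u v hu hv huv
          by_cases huz : u = z
          · by_cases hvz : v = z
            · rw [huz, hvz] at huv
              exact absurd rfl huv.ne
            · rw [huz, Function.update_self, Function.update_of_ne hvz]
              rw [huz] at huv
              exact (hba v (by rw [hP, Finset.mem_filter]; exact ⟨hmemQ v (huniq v hv hvz), huv⟩)).symm
          · by_cases hvz : v = z
            · rw [hvz, Function.update_self, Function.update_of_ne huz]
              rw [hvz] at huv
              exact hba u (by rw [hP, Finset.mem_filter]; exact ⟨hmemQ u (huniq u hu huz), huv.symm⟩)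
            · rw [Function.update_of_ne huz, Function.update_of_ne hvz]
              exact h4 u v (huniq u hu huz) (huniq v hv hvz) huv
      · have hred : ∀ u, (u ∈ D ∨ rk u < N + 1) → (u ∈ D ∨ rk u < N) := by
          intro u hu
          by_cases huD : u ∈ D
          · exact Or.inl huD
          · right
            have h5 := hu.resolve_left huD
            have h6 : rk u ≠ N := fun hh => hex ⟨u, hh, huD⟩
            omega
        refine ⟨φ, h1, ?_, ?_, ?_⟩
        · intro z hzD hz
          exact h2 z hzD ((hred z (Or.inr hz)).resolve_left hzD)
        · intro u v hu hv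
          exact h3 u v (hred u hu) (hred v hv)
        · intro u v hu hv
          exact h4 u v (hred u hu) (hred v hv)
  obtain ⟨φ, _, _, h3, h4⟩ := main (Finset.univ.sup rk + 1)
  have hall : ∀ v, v ∈ D ∨ rk v < Finset.univ.sup rk + 1 := fun v =>
    Or.inr (Nat.lt_succ_of_le (Finset.le_sup (f := rk) (Finset.mem_univ v)))
  exact contained_of_map φ (fun u v huv => h3 u v (hall u) (hall v) huv)
    (fun u v huv => h4 u v (hall u) (hall v) huv)

end H67.SG
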