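import Pool.Agent.H67.SG.Far
import Pool.Agent.H67.SG.GD

/-! # SG.AbsP : absorption, trees with few leaves (about 200 lines)

`X` from `far_set`, `|X| = q`. `D = X ∪ N(X)`, `N(X)` = all neighbours of elements of `X`. From `¬ near T 4`: for `x ≠ x'` in `X` the sets
`{x} ∪ N(x)` and `{x'} ∪ N(x')` are disjoint and there is no edge between them; a vertex outside `D` has at most one neighbour in
`N(X)`: two neighbours `y ∈ N(x)`, `y' ∈ N(x')` with `x ≠ x'` give `near T 4 x x'`; two neighbours in the same `N(x)` give a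
4-cycle in a tree (two vertices `z ≠ x` with two common neighbours). No vertex outside `D` is adjacent to `X`. Inside one
`N(x)` (at most two vertices) there is no edge (triangle).
Placement `ψ`: an injection `x ↦ u_x` of `X` into `U` (`q ≤ |U|`); the at most `2 q` vertices of `N(X)` go injectively to `A`, each
`y ∈ N(x)` to a neighbour of `u_x` in `A` (one after the other: `3 q ≤ dg F (u_x) A` neighbours, fewer than `2 q` used). Then `greedy_pre` with
this `D`, `ψ`, `A`, `e`: `hD1` because a neighbour in `D` of an outside vertex lies in `N(X)`; the number of `y ∈ D` with `ψ y ∉ A` is at least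
`|X| = q` (`U` and `A` are disjoint), and `n + 2 e ≤ |A| + 3 e ≤ |A| + q`. -/

namespace H67.SG

open SimpleGraph Pool.Agent.H62.Decomp

private theorem absP_tri {V : Type} {T : SimpleGraph V} (hT : T.IsTree) {x u v : V} (h1 : T.Adj x u) (h2 : T.Adj u v)
    (h3 : T.Adj x v) : False := by
  have hp := (SimpleGraph.isAcyclic_iff_subsingleton_path.1 hT.isAcyclic x v)
  have e1 := hp.elim (⟨Walk.cons h3 Walk.nil, by simp [Walk.cons_isPath_iff, h3.ne]⟩ : T.Path x v)
    ⟨Walk.cons h1 (Walk.cons h2 Walk.nil), by simp [Walk.cons_isPath_iff, h1.ne, h2.ne, h3.ne]⟩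
  have e2 := congrArg (fun p : T.Path x v => p.1.length) e1
  simp at e2

private theorem absP_four {V : Type} {T : SimpleGraph V} (hT : T.IsTree) {x y z y' : V} (h1 : T.Adj x y) (h2 : T.Adj y z)
    (h3 : T.Adj x y') (h4 : T.Adj y' z) (hxz : x ≠ z) : y = y' := by
  have hp := (SimpleGraph.isAcyclic_iff_subsingleton_path.1 hT.isAcyclic x z)
  have e1 := hp.elim (⟨Walk.cons h1 (Walk.cons h2 Walk.nil), by simp [Walk.cons_isPath_iff, h1.ne, h2.ne, hxz]⟩ : T.Path x z)
    ⟨Walk.cons h3 (Walk.cons h4 Walk.nil), by simp [Walk.cons_isPath_iff, h3.ne, h4.ne, hxz]⟩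
  have e2 := congrArg (fun p : T.Path x z => p.1.support) e1
  simp at e2
  exact e2

private theorem absP_hall {Y W : Type} [Fintype Y] (S : Y → Finset W) (h : ∀ y, Fintype.card Y ≤ (S y).card) :
    ∃ g : Y → W, Function.Injective g ∧ ∀ y, g y ∈ S y := by
  classical
  refine (Finset.all_card_le_biUnion_card_iff_exists_injective S).1 fun s => ?_
  rcases s.eq_empty_or_nonempty with rfl | ⟨y, hy⟩
  · simp
  · calc s.card ≤ Fintype.card Y := Finset.card_le_univ s
      _ ≤ (S y).card := h y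
      _ ≤ _ := Finset.card_le_card (Finset.subset_biUnion_of_mem S hy)

theorem abs_path {n : ℕ} (T : SimpleGraph (Fin n)) (hT : T.IsTree) (q e : ℕ)
    (hq : (Finset.univ.filter (fun v => deg T v = 1)).card < q) (hn : 200 * q ≤ n) {W : Type}
    (F : SimpleGraph W) (A U : Finset W) (hAU : Disjoint A U) (hA : ∀ a ∈ A, nd F a A ≤ e)
    (hsz : n ≤ A.card + e) (he : 3 * e ≤ q) (hU : q ≤ U.card) (hUA : ∀ u ∈ U, 3 * q ≤ dg F u A) :
    T ⊑ F := by
  classical
  obtain ⟨X, hXc, hXd, hXn⟩ := far_set T hT q hq hn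
  -- distances
  have d1 : ∀ x ∈ X, ∀ x' ∈ X, T.Adj x x' → False := fun x hx x' hx' h =>
    hXn x hx x' hx' h.ne ⟨x', ⟨x', ⟨x', ⟨x, rfl, Or.inr h⟩, Or.inl rfl⟩, Or.inl rfl⟩, Or.inl rfl⟩
  have d2 : ∀ x ∈ X, ∀ x' ∈ X, ∀ y, T.Adj x y → T.Adj x' y → x = x' := fun x hx x' hx' y h h' => by
    by_contra hne
    exact hXn x hx x' hx' hne ⟨x', ⟨x', ⟨y, ⟨x, rfl, Or.inr h⟩, Or.inr h'.symm⟩, Or.inl rfl⟩, Or.inl rfl⟩
  have d3 : ∀ x ∈ X, ∀ x' ∈ X, ∀ y y', T.Adj x y → T.Adj x' y' → T.Adj y y' → x = x' := fun x hx x' hx' y y' h h' hy => by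
    by_contra hne
    exact hXn x hx x' hx' hne ⟨x', ⟨y', ⟨y, ⟨x, rfl, Or.inr h⟩, Or.inr hy⟩, Or.inr h'.symm⟩, Or.inl rfl⟩
  have d4 : ∀ x ∈ X, ∀ x' ∈ X, ∀ y y' z, T.Adj x y → T.Adj x' y' → T.Adj y z → T.Adj y' z → x = x' :=
    fun x hx x' hx' y y' z h h' hy hy' => by
      by_contra hne
      exact hXn x hx x' hx' hne ⟨y', ⟨z, ⟨y, ⟨x, rfl, Or.inr h⟩, Or.inr hy⟩, Or.inr hy'.symm⟩, Or.inr h'.symm⟩
  -- the neighbours
  let Y : Finset (Fin n) := X.biUnion fun x => Finset.univ.filter (fun y => T.Adj x y)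
  have hY : ∀ y, y ∈ Y ↔ ∃ x ∈ X, T.Adj x y := fun y => by
    simp only [Y, Finset.mem_biUnion, Finset.mem_filter, Finset.mem_univ, true_and]
  have hYX : ∀ y ∈ Y, y ∉ X := fun y hy hyX => by
    obtain ⟨x, hx, h⟩ := (hY y).1 hy
    exact d1 x hx y hyX h
  have hYc : Y.card ≤ 2 * q := by
    refine Finset.card_biUnion_le.trans ?_
    refine (Finset.sum_le_card_nsmul X _ 2 fun x hx => ?_).trans ?_
    · have h1 := hXd x hx
      unfold deg dg at h1
      exact h1
    · rw [hXc, smul_eq_mul, mul_comm]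
  have hc : ∀ y : Y, ∃ x ∈ X, T.Adj x y.1 := fun y => (hY y.1).1 y.2
  choose c hcX hcA using hc
  -- the placement of `X`
  obtain ⟨f, hfU, hfi⟩ : ∃ f : Fin n → W, (∀ x ∈ X, f x ∈ U) ∧ Set.InjOn f (X : Set (Fin n)) := by
    obtain ⟨U', hU', hU'c⟩ := Finset.exists_subset_card_eq (s := U) (n := q) hU
    have h1 : X.card = U'.card := by rw [hXc, hU'c]
    let eq1 := Finset.equivOfCardEq h1
    have hqp : 0 < q := lt_of_le_of_lt (Nat.zero_le _) hq
    have hne : U.Nonempty := Finset.card_pos.1 (lt_of_lt_of_le hqp hU)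
    obtain ⟨w0, -⟩ := hne
    refine ⟨fun x => if hx : x ∈ X then (eq1 ⟨x, hx⟩).1 else w0, fun x hx => ?_, fun x hx x' hx' h => ?_⟩
    · simp only [dif_pos hx]
      exact hU' (eq1 ⟨x, hx⟩).2
    · have hx1 : x ∈ X := hx
      have hx1' : x' ∈ X := hx'
      simp only [dif_pos hx1, dif_pos hx1'] at h
      exact congrArg Subtype.val (eq1.injective (Subtype.ext h))
  -- the placement of `Y`
  obtain ⟨g, hgi, hgS⟩ := absP_hall (Y := Y) (fun y => A.filter (fun a => F.Adj (f (c y)) a)) (fun y => by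
    rw [Fintype.card_coe]
    have h1 := hUA (f (c y)) (hfU _ (hcX y))
    unfold dg at h1
    refine hYc.trans (le_trans ?_ h1)
    omega)
  have hgA : ∀ y, g y ∈ A := fun y => (Finset.mem_filter.1 (hgS y)).1
  have hgF : ∀ y, F.Adj (f (c y)) (g y) := fun y => (Finset.mem_filter.1 (hgS y)).2
  let ψ : Fin n → W := fun v => if hv : v ∈ Y then g ⟨v, hv⟩ else f v
  have hψX : ∀ v ∈ X, ψ v = f v := fun v hv => dif_neg fun h => hYX v h hv
  have hψY : ∀ v (hv : v ∈ Y), ψ v = g ⟨v, hv⟩ := fun v hv => dif_pos hv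
  have hdis : ∀ a ∈ A, ∀ u ∈ U, a ≠ u := fun a ha u hu h => Finset.disjoint_left.1 hAU ha (h ▸ hu)
  -- adjacency between `X` and `Y`
  have hxy : ∀ u ∈ X, ∀ v (hv : v ∈ Y), T.Adj u v → F.Adj (ψ u) (ψ v) := fun u hu v hv h => by
    rw [hψX u hu, hψY v hv]
    have h1 : c ⟨v, hv⟩ = u := d2 _ (hcX ⟨v, hv⟩) u hu v (hcA ⟨v, hv⟩) h
    have h2 := hgF ⟨v, hv⟩
    rwa [h1] at h2
  refine greedy_pre T hT F (X ∪ Y) ψ ?_ ?_ A e hA ?_ ?_ ?_
  · intro u hu v hv h
    rw [Finset.mem_coe, Finset.mem_union] at hu hv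
    rcases hu with hu | hu <;> rcases hv with hv | hv
    · rw [hψX u hu, hψX v hv] at h
      exact hfi hu hv h
    · rw [hψX u hu, hψY v hv] at h
      exact absurd h.symm (hdis _ (hgA _) _ (hfU u hu))
    · rw [hψY u hu, hψX v hv] at h
      exact absurd h (hdis _ (hgA _) _ (hfU v hv))
    · rw [hψY u hu, hψY v hv] at h
      exact congrArg Subtype.val (hgi h)
  · intro u hu v hv h
    rw [Finset.mem_union] at hu hv
    rcases hu with hu | hu <;> rcases hv with hv | hv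
    · exact absurd h (fun h => d1 u hu v hv h)
    · exact hxy u hu v hv h
    · exact (hxy v hv u hu h.symm).symm
    · exfalso
      obtain ⟨x, hx, hxu⟩ := (hY u).1 hu
      obtain ⟨x', hx', hxv⟩ := (hY v).1 hv
      have h1 := d3 x hx x' hx' u v hxu hxv h
      rw [← h1] at hxv
      exact absP_tri hT hxu h hxv
  · intro z hz y hy h
    rw [Finset.mem_union, not_or] at hz
    rw [Finset.mem_union] at hy
    rcases hy with hy | hy
    · exact absurd ((hY z).2 ⟨y, hy, h.symm⟩) hz.2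
    · rw [hψY y hy]
      exact hgA _
  · intro z hz y hy y' hy' h h'
    rw [Finset.mem_union, not_or] at hz
    rw [Finset.mem_union] at hy hy'
    rcases hy with hy | hy
    · exact absurd ((hY z).2 ⟨y, hy, h.symm⟩) hz.2
    rcases hy' with hy' | hy'
    · exact absurd ((hY z).2 ⟨y', hy', h'.symm⟩) hz.2
    obtain ⟨x, hx, hxy1⟩ := (hY y).1 hy
    obtain ⟨x', hx', hxy2⟩ := (hY y').1 hy'
    have h1 := d4 x hx x' hx' y y' z hxy1 hxy2 h.symm h'.symm
    rw [← h1] at hxy2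
    exact absP_four hT hxy1 h.symm hxy2 h'.symm fun h2 => hz.1 (h2 ▸ hx)
  · have h1 : q ≤ ((X ∪ Y).filter (fun y => ψ y ∉ A)).card := by
      rw [← hXc]
      refine Finset.card_le_card fun x hx => ?_
      rw [Finset.mem_filter, Finset.mem_union]
      refine ⟨Or.inl hx, fun h => ?_⟩
      rw [hψX x hx] at h
      exact hdis _ h _ (hfU x hx) rfl
    have h2 : (((X ∪ Y).filter (fun y => ψ y ∉ A)).card : ℕ) = ((X ∪ Y).filter (fun y => ψ y ∉ A)).card := rfl
    omega

end H67.SG
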