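import Pool.Agent.H67.SG.TwoPart

/-! # SG.Assign : every vertex belongs to a part (about 180 lines)

For `x ∈ P i` put `c x = i` (the `P i` are disjoint). Let `x` be in no `P i`. Claim: `dg C x (P i) < t` for some `i`. Otherwise build `S_0, S_1, …` one after the
other, `S_i ⊆ P i` with `|S_i| = m`, all elements adjacent to `x` and to all elements of the earlier `S_j`: an earlier element `y ∈ P j` has at most `e`
non-neighbours in `P i`, so `t - q m e ≥ m` elements are available; this gives `HasK1 q m C`. Put `c x = i`. Let `j ≠ i`, `s = t + 2 e + 1`, and suppose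
`nd C x (P j) ≥ 2 s + 1`. `two_part` for `F = Cᶜ`, `P = P i`, `Q = P j`, `w = x`, with `e + 1` in place of `e`: `nd F a (P i) = dg C a (P i) + 1 ≤ e + 1`,
`dg F x (P j) = nd C x (P j)`, `|P j| ≥ n - e`, `dg F x (P i) = |P i| - dg C x (P i) ≥ n - e - t`, `|P i| + s ≥ n - e + s ≥ n + e + 1`. So `T ⊑ Cᶜ`,
contradiction. For `x ∈ P i` and `j ≠ i`: `nd C x (P j) ≤ e`. -/

namespace H67.SG

open SimpleGraph Pool.Agent.H62.Decomp

open Classical in
private theorem build {W : Type} (C : SimpleGraph W) (q m e t : ℕ) (P : Fin q → Finset W)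
    (hcr : ∀ i j, i ≠ j → ∀ x ∈ P i, nd C x (P j) ≤ e) (ht : q * m * e + m ≤ t) (x : W)
    (hx : ∀ i, t ≤ dg C x (P i)) (k : ℕ) (hk : k ≤ q) :
    ∃ S : Fin q → Finset W, (∀ i : Fin q, i.val < k → S i ⊆ P i ∧ (S i).card = m ∧
      ∀ y ∈ S i, C.Adj x y) ∧
      ∀ i j : Fin q, i.val < k → j.val < k → i ≠ j → ∀ y ∈ S i, ∀ z ∈ S j, C.Adj y z := by
  induction k with
  | zero => exact ⟨fun _ => ∅, fun i hi => absurd hi (Nat.not_lt_zero _),
      fun i j hi => absurd hi (Nat.not_lt_zero _)⟩
  | succ k ih =>
    obtain ⟨S, h1, h2⟩ := ih (by omega)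
    have hkq : k < q := by omega
    set i0 : Fin q := ⟨k, hkq⟩ with hi0
    set U : Finset W := (Finset.univ.filter (fun i : Fin q => i.val < k)).biUnion S with hU
    have hUc : U.card ≤ q * m := by
      calc U.card ≤ ∑ i ∈ Finset.univ.filter (fun i : Fin q => i.val < k), (S i).card :=
            Finset.card_biUnion_le
        _ = ∑ i ∈ Finset.univ.filter (fun i : Fin q => i.val < k), m :=
            Finset.sum_congr rfl fun i hi => (h1 i (Finset.mem_filter.1 hi).2).2.1
        _ = (Finset.univ.filter (fun i : Fin q => i.val < k)).card * m := by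
            rw [Finset.sum_const, smul_eq_mul]
        _ ≤ q * m := by
            refine Nat.mul_le_mul_right _ ?_
            calc (Finset.univ.filter (fun i : Fin q => i.val < k)).card
                ≤ (Finset.univ : Finset (Fin q)).card := Finset.card_filter_le _ _
              _ = q := by simp
    set B : Finset W := U.biUnion (fun y => (P i0).filter (fun z => ¬ C.Adj y z)) with hB
    have hBc : B.card ≤ q * m * e := by
      calc B.card ≤ ∑ y ∈ U, ((P i0).filter (fun z => ¬ C.Adj y z)).card := Finset.card_biUnion_le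
        _ ≤ ∑ y ∈ U, e := by
            refine Finset.sum_le_sum fun y hy => ?_
            rw [hU, Finset.mem_biUnion] at hy
            obtain ⟨i, hi, hyi⟩ := hy
            have hik : i.val < k := (Finset.mem_filter.1 hi).2
            have hne : i ≠ i0 := by
              intro h
              rw [h, hi0] at hik
              exact absurd hik (lt_irrefl _)
            have := hcr i i0 hne y ((h1 i hik).1 hyi)
            unfold nd at this
            exact this
        _ = U.card * e := by rw [Finset.sum_const, smul_eq_mul]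
        _ ≤ q * m * e := Nat.mul_le_mul_right _ hUc
    set A : Finset W := (P i0).filter (fun z => C.Adj x z) with hA
    have hAc : t ≤ A.card := by
      have := hx i0
      unfold dg at this
      exact this
    have hm : m ≤ (A \ B).card := by
      have h3 := Finset.le_card_sdiff B A
      omega
    obtain ⟨Z, hZs, hZc⟩ := Finset.exists_subset_card_eq hm
    have hZ : ∀ z ∈ Z, z ∈ P i0 ∧ C.Adj x z ∧ ∀ y ∈ U, C.Adj y z := by
      intro z hz
      have h4 := hZs hz
      rw [Finset.mem_sdiff] at h4
      have h5 := Finset.mem_filter.1 h4.1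
      refine ⟨h5.1, h5.2, fun y hy => ?_⟩
      by_contra hc
      exact h4.2 (Finset.mem_biUnion.2 ⟨y, hy, Finset.mem_filter.2 ⟨h5.1, hc⟩⟩)
    refine ⟨fun i => if i = i0 then Z else S i, ?_, ?_⟩
    · intro i hi
      by_cases hii : i = i0
      · simp only [hii, if_true]
        exact ⟨fun z hz => (hZ z hz).1, hZc, fun z hz => (hZ z hz).2.1⟩
      · have hik : i.val < k := by
          have : i.val ≠ k := fun h => hii (Fin.ext (by rw [hi0]; exact h))
          omega
        simp only [hii, if_false]
        exact h1 i hik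
    · have hlt : ∀ i : Fin q, i.val < k + 1 → i ≠ i0 → i.val < k := by
        intro i hi hii
        have : i.val ≠ k := fun h => hii (Fin.ext (by rw [hi0]; exact h))
        omega
      intro i j hi hj hij y hy z hz
      by_cases hii : i = i0
      · have hjj : j ≠ i0 := fun h => hij (hii.trans h.symm)
        simp only [hii, if_true] at hy
        simp only [hjj, if_false] at hz
        exact ((hZ y hy).2.2 z (Finset.mem_biUnion.2 ⟨j, Finset.mem_filter.2
          ⟨Finset.mem_univ _, hlt j hj hjj⟩, hz⟩)).symm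
      · by_cases hjj : j = i0
        · simp only [hii, if_false] at hy
          simp only [hjj, if_true] at hz
          exact (hZ z hz).2.2 y (Finset.mem_biUnion.2 ⟨i, Finset.mem_filter.2
            ⟨Finset.mem_univ _, hlt i hi hii⟩, hy⟩)
        · simp only [hii, if_false] at hy
          simp only [hjj, if_false] at hz
          exact h2 i j (hlt i hi hii) (hlt j hj hjj) hij y hy z hz

theorem assign {n : ℕ} (T : SimpleGraph (Fin n)) (hT : T.IsTree) {W : Type} [Fintype W] (C : SimpleGraph W)
    (hfree : ¬ T ⊑ Cᶜ) (q m e t : ℕ) (hK : ¬ HasK1 q m C) (P : Fin q → Finset W)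
    (hdis : ∀ i j, i ≠ j → Disjoint (P i) (P j)) (hsz : ∀ i, n ≤ (P i).card + e)
    (hin : ∀ i, ∀ x ∈ P i, dg C x (P i) ≤ e)
    (hcr : ∀ i j, i ≠ j → ∀ x ∈ P i, nd C x (P j) ≤ e) (ht : q * m * e + m ≤ t)
    (hn : 4 * (t + 3 * e + 3) ≤ n) :
    ∃ c : W → Fin q, (∀ i, ∀ x ∈ P i, c x = i) ∧
      ∀ x j, j ≠ c x → nd C x (P j) ≤ 2 * (t + 2 * e + 1) := by
  classical
  have hclaim : ∀ x : W, (∀ i, x ∉ P i) → ∃ i, dg C x (P i) < t := by
    intro x _
    by_contra hcon
    push Not at hcon
    obtain ⟨S, h1, h2⟩ := build C q m e t P hcr ht x hcon q le_rfl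
    exact hK ⟨x, S, fun i => (h1 i i.2).2.1, fun i y hy => (h1 i i.2).2.2 y hy,
      fun i j hij y hy z hz => h2 i j i.2 j.2 hij y hy z hz⟩
  have hex : ∀ x : W, ∃ i : Fin q, x ∈ P i ∨ ((∀ j, x ∉ P j) ∧ dg C x (P i) < t) := by
    intro x
    by_cases h : ∃ i, x ∈ P i
    · obtain ⟨i, hi⟩ := h
      exact ⟨i, Or.inl hi⟩
    · push Not at h
      obtain ⟨i, hi⟩ := hclaim x h
      exact ⟨i, Or.inr ⟨h, hi⟩⟩
  choose c hc using hex
  refine ⟨c, ?_, ?_⟩
  · intro i x hx
    rcases hc x with h | ⟨h, _⟩
    · by_contra hne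
      exact Finset.disjoint_left.1 (hdis _ _ hne) h hx
    · exact absurd hx (h i)
  · intro x j hj
    rcases hc x with h | ⟨h, hlt⟩
    · have h3 := hcr (c x) j (Ne.symm hj) x h
      omega
    · by_contra hcon
      push Not at hcon
      apply hfree
      have hdj : Disjoint (P (c x)) (P j) := hdis _ _ (Ne.symm hj)
      have e1 := dg_compl_of_notMem C x (P j) (h j)
      have e2 := dg_compl_of_notMem C x (P (c x)) (h (c x))
      have e3 := dg_add_nd C x (P (c x))
      have e4 := hsz (c x)
      have e5 := hsz j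
      refine two_part T hT Cᶜ (P (c x)) (P j) x (e + 1) (t + 2 * e + 1) hdj (h _) (h _) ?_ ?_ ?_ ?_
        ?_ ?_ ?_ ?_
      · omega
      · omega
      · intro a ha
        rw [nd_compl_of_mem C a _ ha]
        have := hin _ a ha
        omega
      · intro a ha
        rw [nd_compl_of_mem C a _ ha]
        have := hin _ a ha
        omega
      · omega
      · omega
      · omega
      · omega

end H67.SG
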