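import Pool.Agent.H67.SG.Def

/-! # SG.Box : the box theorem of Erdos (about 220 lines)

Induction on `p`. `p = 0`: `E` is nonempty (`c > 0`), it contains the empty function. Step: put `N = card W`. For `y : Fin p → W` let
`D y = {x | Fin.cons x y ∈ E}`; `Σ_y |D y| = |E| ≥ c N^(p+1)`. `Y = {y | |D y| ≥ (c/2) N}`; since `|D y| ≤ N`, `|Y| N + N^p (c/2) N ≥ c N^(p+1)`, so
`|Y| ≥ (c/2) N^p`. For `y ∈ Y` the set `D y` has at least `choose ⌈c N / 2⌉ m` subsets with `m` elements, and there are `choose N m ≤ N^m / m!`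
subsets of `W` with `m` elements; for `N ≥ 4 m / c` one has `choose ⌈cN/2⌉ m ≥ (cN/4)^m / m!` (`Nat.pow_sub_le_descFactorial` or similar). So some
`B` with `|B| = m` satisfies `B ⊆ D y` for at least `|Y| (c/4)^m` elements `y ∈ Y` (average). Induction hypothesis for
`E' = {y | B ⊆ D y}` and `c' = (c/2) (c/4)^m`: sets `S' : Fin p → Finset W`; take `S = Fin.cons B S'` and `f = Fin.cons (f 0) (Fin.tail f)`.
(Any constant works, choose whatever is convenient.) -/

namespace H67.SG

open SimpleGraph Pool.Agent.H62.Decomp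

private theorem ncard_le_sum {W : Type} [Fintype W] [DecidableEq W] {p : ℕ} (E : Set (Fin (p + 1) → W))
    (D : (Fin p → W) → Finset W) (hD : ∀ y x, x ∈ D y ↔ (Fin.cons x y : Fin (p + 1) → W) ∈ E) :
    E.ncard ≤ ∑ y : Fin p → W, (D y).card := by
  classical
  have hE : E.Finite := Set.toFinite _
  rw [Set.ncard_eq_toFinset_card _ hE, ← Finset.card_sigma]
  refine Finset.card_le_card_of_injOn (fun f => ⟨Fin.tail f, f 0⟩) ?_ ?_
  · intro f hf
    rw [Finset.mem_coe, Set.Finite.mem_toFinset] at hf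
    rw [Finset.mem_coe, Finset.mem_sigma]
    refine ⟨Finset.mem_univ _, ?_⟩
    rw [hD, Fin.cons_self_tail]
    exact hf
  · intro f _ g _ h
    simp only [Sigma.mk.injEq, heq_eq_eq] at h
    rw [← Fin.cons_self_tail f, ← Fin.cons_self_tail g, h.1, h.2]

private theorem choose_bound {N d m : ℕ} {c : ℝ} (hc : 0 < c) (hN : 4 * (m : ℝ) / c ≤ N)
    (hd : c / 2 * N ≤ d) : (c / 4 * N) ^ m / (m.factorial : ℝ) ≤ (d.choose m : ℝ) := by
  rw [div_le_iff₀ hc] at hN
  have h1 : (m : ℝ) ≤ c / 4 * N := by linarith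
  have h2 : (m : ℝ) ≤ d := by
    have h0 : 0 ≤ c * N := by positivity
    linarith
  have h3 : m ≤ d := by exact_mod_cast h2
  have h4 : (((d + 1 - m : ℕ) : ℝ) ^ m : ℝ) / (m.factorial : ℝ) ≤ (d.choose m : ℝ) :=
    Nat.pow_le_choose m d
  refine le_trans ?_ h4
  have h5 : c / 4 * N ≤ ((d + 1 - m : ℕ) : ℝ) := by
    rw [Nat.cast_sub (by omega)]
    push_cast
    linarith
  have h6 : 0 ≤ c / 4 * N := by positivity
  exact div_le_div_of_nonneg_right (pow_le_pow_left₀ h6 h5 m) (by positivity)

theorem box (p : ℕ) : ∀ (m : ℕ) (c : ℝ), 0 < c → ∃ N₀ : ℕ, ∀ (W : Type) [Fintype W] (E : Set (Fin p → W)),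
    N₀ ≤ Fintype.card W → c * (Fintype.card W : ℝ) ^ p ≤ E.ncard →
    ∃ S : Fin p → Finset W, (∀ i, (S i).card = m) ∧ ∀ f : Fin p → W, (∀ i, f i ∈ S i) → f ∈ E := by
  induction p with
  | zero =>
    intro m c hc
    refine ⟨0, fun W _ E _ hE => ?_⟩
    have h1 : 0 < E.ncard := by
      have h2 : (0 : ℝ) < E.ncard := by
        rw [pow_zero, mul_one] at hE
        linarith
      exact_mod_cast h2
    obtain ⟨g, hg⟩ := Set.nonempty_of_ncard_ne_zero h1.ne'
    refine ⟨fun i => i.elim0, fun i => i.elim0, fun f _ => ?_⟩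
    have : f = g := funext fun i => i.elim0
    rw [this]
    exact hg
  | succ p ih =>
    intro m c hc
    have hc' : 0 < c / 2 * (c / 4) ^ m := by positivity
    obtain ⟨N₁, hN₁⟩ := ih m (c / 2 * (c / 4) ^ m) hc'
    refine ⟨max N₁ (max (m + 1) ⌈4 * (m : ℝ) / c⌉₊), fun W _ E hW hE => ?_⟩
    classical
    obtain ⟨N, hNdef⟩ : ∃ N, N = Fintype.card W := ⟨_, rfl⟩
    rw [← hNdef] at hW hE
    have hW1 : N₁ ≤ N := (le_max_left _ _).trans hW
    have hW2 : m + 1 ≤ N := ((le_max_left _ _).trans (le_max_right _ _)).trans hW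
    have hW3 : 4 * (m : ℝ) / c ≤ N :=
      (Nat.le_ceil _).trans (by exact_mod_cast ((le_max_right _ _).trans (le_max_right _ _)).trans hW)
    have hN0 : (0 : ℝ) < N := by
      have : 0 < N := by omega
      exact_mod_cast this
    obtain ⟨D, hDdef⟩ : ∃ D : (Fin p → W) → Finset W,
        D = fun y => Finset.univ.filter (fun x => (Fin.cons x y : Fin (p + 1) → W) ∈ E) := ⟨_, rfl⟩
    have hD : ∀ y x, x ∈ D y ↔ (Fin.cons x y : Fin (p + 1) → W) ∈ E := by
      intro y x
      rw [hDdef]
      simp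
    have hsum := ncard_le_sum E D hD
    have hDN : ∀ y, (D y).card ≤ N := fun y => by
      rw [hNdef]
      exact Finset.card_le_univ _
    obtain ⟨Y, hYdef⟩ : ∃ Y : Finset (Fin p → W),
        Y = Finset.univ.filter (fun y => c / 2 * (N : ℝ) ≤ (D y).card) := ⟨_, rfl⟩
    have hY : ∀ y, y ∈ Y ↔ c / 2 * (N : ℝ) ≤ (D y).card := by
      intro y
      rw [hYdef]
      simp
    have hcardf : (Fintype.card (Fin p → W) : ℝ) = (N : ℝ) ^ p := by
      rw [Fintype.card_fun, Fintype.card_fin, ← hNdef]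
      push_cast
      rfl
    have hYc : c / 2 * (N : ℝ) ^ p ≤ Y.card := by
      have h1 : (E.ncard : ℝ) ≤ ∑ y : Fin p → W, ((D y).card : ℝ) := by exact_mod_cast hsum
      have h2 : ∑ y : Fin p → W, ((D y).card : ℝ) ≤
          ∑ y : Fin p → W, ((if y ∈ Y then (N : ℝ) else 0) + c / 2 * N) := by
        refine Finset.sum_le_sum fun y _ => ?_
        have h0 : 0 ≤ c / 2 * (N : ℝ) := by positivity
        by_cases hy : y ∈ Y
        · rw [if_pos hy]
          have : ((D y).card : ℝ) ≤ N := by exact_mod_cast hDN y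
          linarith
        · rw [if_neg hy]
          rw [hY] at hy
          push Not at hy
          linarith
      rw [Finset.sum_add_distrib, Finset.sum_const, Finset.card_univ, nsmul_eq_mul, hcardf,
        ← Finset.sum_filter, Finset.sum_const, nsmul_eq_mul] at h2
      have h3 : (Finset.univ.filter (fun y => y ∈ Y)).card = Y.card := by
        congr 1
        ext y
        simp
      rw [h3] at h2
      have h4 : c * (N : ℝ) ^ (p + 1) ≤ Y.card * N + N ^ p * (c / 2 * N) := by linarith
      have h5 : c / 2 * (N : ℝ) ^ p * N ≤ Y.card * N := by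
        have h6 : c * (N : ℝ) ^ (p + 1) = c * (N : ℝ) ^ p * N := by ring
        rw [h6] at h4
        nlinarith
      exact le_of_mul_le_mul_right h5 hN0
    obtain ⟨B, hB, hBc⟩ : ∃ B ∈ Finset.powersetCard m (Finset.univ : Finset W),
        (Y.card : ℝ) * (c / 4) ^ m ≤ (Y.filter (fun y => B ⊆ D y)).card := by
      by_contra hcon
      push Not at hcon
      have hne : (Finset.powersetCard m (Finset.univ : Finset W)).Nonempty := by
        rw [Finset.powersetCard_nonempty, Finset.card_univ, ← hNdef]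
        omega
      have h1 := Finset.sum_lt_sum_of_nonempty hne hcon
      rw [Finset.sum_const, Finset.card_powersetCard, Finset.card_univ, ← hNdef,
        nsmul_eq_mul] at h1
      have h2 : ∑ B ∈ Finset.powersetCard m (Finset.univ : Finset W),
          ((Y.filter (fun y => B ⊆ D y)).card : ℝ) = ∑ y ∈ Y, ((D y).card.choose m : ℝ) := by
        have h3 : ∑ B ∈ Finset.powersetCard m (Finset.univ : Finset W),
            (Y.filter (fun y => B ⊆ D y)).card = ∑ y ∈ Y, (D y).card.choose m := by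
          have e1 : ∀ B ∈ Finset.powersetCard m (Finset.univ : Finset W),
              (Y.filter (fun y => B ⊆ D y)).card = ∑ y ∈ Y, if B ⊆ D y then 1 else 0 := by
            intro B _
            rw [Finset.card_filter]
          rw [Finset.sum_congr rfl e1, Finset.sum_comm]
          refine Finset.sum_congr rfl fun y _ => ?_
          rw [← Finset.card_filter, ← Finset.card_powersetCard]
          congr 1
          ext B
          rw [Finset.mem_filter, Finset.mem_powersetCard, Finset.mem_powersetCard]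
          constructor
          · rintro ⟨⟨_, h⟩, h'⟩
            exact ⟨h', h⟩
          · rintro ⟨h', h⟩
            exact ⟨⟨Finset.subset_univ _, h⟩, h'⟩
        exact_mod_cast h3
      rw [h2] at h1
      have h3 : ∑ _y ∈ Y, ((c / 4 * N) ^ m / (m.factorial : ℝ)) ≤
          ∑ y ∈ Y, ((D y).card.choose m : ℝ) :=
        Finset.sum_le_sum fun y hy => choose_bound hc hW3 ((hY y).1 hy)
      rw [Finset.sum_const, nsmul_eq_mul] at h3
      have h4 : (N.choose m : ℝ) ≤ (N : ℝ) ^ m / (m.factorial : ℝ) := Nat.choose_le_pow_div m N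
      have h5 : 0 ≤ (Y.card : ℝ) * (c / 4) ^ m := by positivity
      have h6 := mul_le_mul_of_nonneg_right h4 h5
      have h7 : (N : ℝ) ^ m / (m.factorial : ℝ) * ((Y.card : ℝ) * (c / 4) ^ m) =
          Y.card * ((c / 4 * N) ^ m / (m.factorial : ℝ)) := by
        rw [mul_pow]
        ring
      rw [h7] at h6
      linarith
    have hE' : c / 2 * (c / 4) ^ m * (N : ℝ) ^ p ≤ (({y | B ⊆ D y} : Set (Fin p → W)).ncard : ℝ) := by
      have h1 : (Y.filter (fun y => B ⊆ D y)).card ≤ ({y | B ⊆ D y} : Set (Fin p → W)).ncard := by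
        rw [← Set.ncard_coe_finset]
        refine Set.ncard_le_ncard ?_ (Set.toFinite _)
        intro y hy
        rw [Finset.mem_coe, Finset.mem_filter] at hy
        exact hy.2
      have h2 : ((Y.filter (fun y => B ⊆ D y)).card : ℝ) ≤
          (({y | B ⊆ D y} : Set (Fin p → W)).ncard : ℝ) := by exact_mod_cast h1
      refine le_trans ?_ (hBc.trans h2)
      have h3 : 0 ≤ (c / 4) ^ m := by positivity
      calc c / 2 * (c / 4) ^ m * (N : ℝ) ^ p = c / 2 * (N : ℝ) ^ p * (c / 4) ^ m := by ring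
        _ ≤ Y.card * (c / 4) ^ m := mul_le_mul_of_nonneg_right hYc h3
    obtain ⟨S, hS1, hS2⟩ := hN₁ W {y | B ⊆ D y} (by rw [← hNdef]; exact hW1) (by
      rw [← hNdef]
      exact hE')
    refine ⟨Fin.cons B S, fun i => ?_, fun f hf => ?_⟩
    · refine Fin.cases ?_ (fun k => ?_) i
      · rw [Fin.cons_zero]
        exact (Finset.mem_powersetCard.1 hB).2
      · rw [Fin.cons_succ]
        exact hS1 k
    · have h0 : f 0 ∈ B := by
        have := hf 0
        rwa [Fin.cons_zero] at this
      have h1 : Fin.tail f ∈ ({y | B ⊆ D y} : Set (Fin p → W)) := by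
        refine hS2 _ fun k => ?_
        have := hf k.succ
        rwa [Fin.cons_succ] at this
      have h2 := (hD (Fin.tail f) (f 0)).1 (h1 h0)
      rwa [Fin.cons_self_tail] at h2

end H67.SG
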