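import Pool.Agent.H67.SG.Def

/-! # SG.Clq : a set with few red edges or many red cliques (about 180 lines)

Induction on `r` (for all `W`, `C`, `ε`, `S`). `r = 0`: if `Σ_{a ∈ S} dg C a S ≤ η n²` take `A = S`; otherwise the number of ordered red pairs
in `S`, which is the number of elements of `clq C 2 S`, is `> η n²`.
Step `r → r + 1`: `L = {v ∈ S | nd C v S ≤ n - 1 + μ n}`. `|L| ≥ μ n`: let `S' = S \ L`. If `S' = ∅`, `|L| = |S| ≥ (r + 2 - ε) n ≥ n ≥ μ n`. If not, `Thin`
gives `v ∈ S'` with `nd C v S' ≤ n - 1`, so `n - 1 + μ n < nd C v S ≤ n - 1 + |L|`. For `v ∈ L` put `S_v = {y ∈ S | C.Adj v y}`,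
`|S_v| = |S| - nd C v S ≥ (r + 1 - (ε + μ)) n`. Apply the induction hypothesis to `S_v` and `ε + μ`: if some `v` gives the first alternative
(`A ⊆ S_v ⊆ S`, `|A| ≥ (1 - ε - μ - r μ) n`) we are done. Otherwise `clq C (r+2) S_v` has at least `μ^r η n^(r+2)` elements for every `v ∈ L`, and
`(v, f) ↦ Fin.cons v f` is an injection of the disjoint union into `clq C (r+3) S`: at least `μ n · μ^r η n^(r+2)` elements. -/

namespace H67.SG

open SimpleGraph Pool.Agent.H62.Decomp

open Classical in
/-- the neighbours of `v` in `S` -/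
private noncomputable def nb {W : Type} (C : SimpleGraph W) (v : W) (S : Finset W) : Finset W :=
  S.filter (fun y => C.Adj v y)

private theorem mem_nb {W : Type} {C : SimpleGraph W} {v y : W} {S : Finset W} :
    y ∈ nb C v S ↔ y ∈ S ∧ C.Adj v y := by
  classical
  unfold nb
  rw [Finset.mem_filter]

private theorem card_nb {W : Type} (C : SimpleGraph W) (v : W) (S : Finset W) :
    (nb C v S).card = dg C v S := rfl

private theorem clq_cons {W : Type} [Fintype W] (C : SimpleGraph W) (p : ℕ) (S L : Finset W)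
    (hL : L ⊆ S) : ∑ v ∈ L, (clq C p (nb C v S)).ncard ≤ (clq C (p + 1) S).ncard := by
  classical
  have hf : ∀ v, (clq C p (nb C v S)).Finite := fun v => Set.toFinite _
  have hg : (clq C (p + 1) S).Finite := Set.toFinite _
  have e1 : ∀ v ∈ L, (clq C p (nb C v S)).ncard = ((hf v).toFinset).card := fun v _ =>
    Set.ncard_eq_toFinset_card _ (hf v)
  rw [Finset.sum_congr rfl e1, Set.ncard_eq_toFinset_card _ hg, ← Finset.card_sigma]
  refine Finset.card_le_card_of_injOn (fun x => (Fin.cons x.1 x.2 : Fin (p + 1) → W)) ?_ ?_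
  · rintro ⟨v, f⟩ hx
    rw [Finset.mem_coe, Finset.mem_sigma, Set.Finite.mem_toFinset] at hx
    obtain ⟨hv, hf1, hf2⟩ := hx
    have hm : ∀ i, f i ∈ S ∧ C.Adj v (f i) := fun i => mem_nb.1 (hf1 i)
    rw [Finset.mem_coe, Set.Finite.mem_toFinset]
    refine ⟨fun i => ?_, fun i j => ?_⟩
    · refine Fin.cases ?_ (fun k => ?_) i
      · exact hL hv
      · exact (hm k).1
    · refine Fin.cases ?_ (fun k => ?_) i
      · refine Fin.cases ?_ (fun l => ?_) j
        · intro h
          exact absurd h (lt_irrefl _)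
        · intro _
          exact (hm l).2
      · refine Fin.cases ?_ (fun l => ?_) j
        · intro h
          exact absurd h (Fin.not_lt_zero _)
        · intro h
          exact hf2 k l (Fin.succ_lt_succ_iff.1 h)
  · rintro ⟨v, f⟩ _ ⟨w, g⟩ _ h
    have h1 := Fin.cons_inj.1 h
    obtain ⟨h2, h3⟩ := h1
    simp only at h2 h3
    subst h2
    subst h3
    rfl

private theorem clq_one {W : Type} [Fintype W] (C : SimpleGraph W) (S : Finset W) :
    S.card ≤ (clq C 1 S).ncard := by
  classical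
  have hg : (clq C 1 S).Finite := Set.toFinite _
  rw [Set.ncard_eq_toFinset_card _ hg]
  refine Finset.card_le_card_of_injOn (fun x => (fun _ => x : Fin 1 → W)) ?_ ?_
  · intro x hx
    rw [Finset.mem_coe, Set.Finite.mem_toFinset]
    refine ⟨fun _ => hx, fun i j h => ?_⟩
    exact absurd h (by
      have := Subsingleton.elim i j
      rw [this]
      exact lt_irrefl _)
  · intro x _ y _ h
    exact congrFun h 0

theorem claimA (r : ℕ) : ∀ (W : Type) [Fintype W] (C : SimpleGraph W) (n : ℕ) (ε μ η : ℝ),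
    1 ≤ n → 0 ≤ ε → 0 < μ → μ ≤ 1 → ε + r * μ ≤ 1 → 0 < η → Thin n C → ∀ S : Finset W,
    ((r : ℝ) + 1 - ε) * n ≤ S.card →
    (∃ A ⊆ S, (1 - ε - r * μ) * n ≤ A.card ∧ ∑ a ∈ A, (dg C a A : ℝ) ≤ η * (n : ℝ) ^ 2) ∨
      μ ^ r * η * (n : ℝ) ^ (r + 2) ≤ ((clq C (r + 2) S).ncard : ℝ) := by
  induction r with
  | zero =>
    intro W _ C n ε μ η hn hε hμ hμ1 hεμ hη hT S hS
    by_cases hA : ∑ a ∈ S, (dg C a S : ℝ) ≤ η * (n : ℝ) ^ 2
    · left
      refine ⟨S, Finset.Subset.refl _, ?_, hA⟩
      simpa using hS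
    · right
      push Not at hA
      have h1 := clq_cons C 1 S S (Finset.Subset.refl _)
      have h2 : ∑ a ∈ S, dg C a S ≤ ∑ v ∈ S, (clq C 1 (nb C v S)).ncard := by
        refine Finset.sum_le_sum fun v _ => ?_
        rw [← card_nb]
        exact clq_one C _
      have h3 : ((∑ a ∈ S, dg C a S : ℕ) : ℝ) ≤ ((clq C 2 S).ncard : ℝ) := by
        exact_mod_cast h2.trans h1
      push_cast at h3
      simp only [pow_zero, one_mul, zero_add]
      linarith
  | succ r ih =>
    intro W _ C n ε μ η hn hε hμ hμ1 hεμ hη hT S hS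
    classical
    push_cast at hS hεμ
    have hn' : (1 : ℝ) ≤ n := by exact_mod_cast hn
    have hn0 : (0 : ℝ) < n := by linarith
    have hr0 : (0 : ℝ) ≤ r := Nat.cast_nonneg r
    have hε1 : ε ≤ 1 := by nlinarith
    obtain ⟨L, hLdef⟩ : ∃ L : Finset W, L = S.filter (fun v => (nd C v S : ℝ) ≤ n - 1 + μ * n) :=
      ⟨_, rfl⟩
    have hLS : L ⊆ S := by
      rw [hLdef]
      exact Finset.filter_subset _ _
    have hLcard : μ * n ≤ (L.card : ℝ) := by
      rcases (S \ L).eq_empty_or_nonempty with h | h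
      · have h1 : S ⊆ L := Finset.sdiff_eq_empty_iff_subset.1 h
        have h2 : (S.card : ℝ) ≤ L.card := by exact_mod_cast Finset.card_le_card h1
        have h3 : (1 : ℝ) * n ≤ ((r : ℝ) + 1 + 1 - ε) * n :=
          mul_le_mul_of_nonneg_right (by linarith) hn0.le
        nlinarith
      · obtain ⟨v, hv, hv1⟩ := hT _ h
        rw [Finset.mem_sdiff] at hv
        have h1 : ¬ ((nd C v S : ℝ) ≤ n - 1 + μ * n) := by
          intro h2
          apply hv.2
          rw [hLdef, Finset.mem_filter]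
          exact ⟨hv.1, h2⟩
        push Not at h1
        have h2 : nd C v S ≤ nd C v (S \ L) + L.card := by
          unfold nd
          have h3 : S.filter (fun y => ¬ C.Adj v y) ⊆
              (S \ L).filter (fun y => ¬ C.Adj v y) ∪ L := by
            intro y hy
            rw [Finset.mem_filter] at hy
            rw [Finset.mem_union, Finset.mem_filter, Finset.mem_sdiff]
            by_cases hyL : y ∈ L
            · exact Or.inr hyL
            · exact Or.inl ⟨⟨hy.1, hyL⟩, hy.2⟩
          exact (Finset.card_le_card h3).trans (Finset.card_union_le _ _)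
        have h3 : nd C v S + 1 ≤ n + L.card := by omega
        have h4 : (nd C v S : ℝ) + 1 ≤ n + L.card := by exact_mod_cast h3
        linarith
    have hSv : ∀ v ∈ L, ((r : ℝ) + 1 - (ε + μ)) * n ≤ (nb C v S).card := by
      intro v hv
      rw [hLdef, Finset.mem_filter] at hv
      have h1 := dg_add_nd C v S
      have h2 : (dg C v S : ℝ) + nd C v S = S.card := by exact_mod_cast h1
      rw [card_nb]
      have h3 := hv.2
      nlinarith
    by_cases hex : ∃ v ∈ L, ∃ A ⊆ nb C v S, (1 - (ε + μ) - r * μ) * n ≤ (A.card : ℝ) ∧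
        ∑ a ∈ A, (dg C a A : ℝ) ≤ η * (n : ℝ) ^ 2
    · left
      obtain ⟨v, hv, A, hA, h1, h2⟩ := hex
      refine ⟨A, fun y hy => (mem_nb.1 (hA hy)).1, ?_, h2⟩
      have e : (1 - ε - ((r + 1 : ℕ) : ℝ) * μ) * n = (1 - (ε + μ) - r * μ) * n := by
        push_cast
        ring
      rw [e]
      exact h1
    · right
      have h1 : ∀ v ∈ L, μ ^ r * η * (n : ℝ) ^ (r + 2) ≤
          ((clq C (r + 2) (nb C v S)).ncard : ℝ) := by
        intro v hv
        rcases ih W C n (ε + μ) μ η hn (by linarith) hμ hμ1 (by linarith) hη hT (nb C v S)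
          (hSv v hv) with h | h
        · exact absurd ⟨v, hv, h⟩ hex
        · exact h
      have h2 := clq_cons C (r + 2) S L hLS
      have h3 : ((∑ v ∈ L, (clq C (r + 2) (nb C v S)).ncard : ℕ) : ℝ) ≤
          ((clq C (r + 2 + 1) S).ncard : ℝ) := by exact_mod_cast h2
      push_cast at h3
      have h4 : ∑ _v ∈ L, μ ^ r * η * (n : ℝ) ^ (r + 2) ≤
          ∑ v ∈ L, ((clq C (r + 2) (nb C v S)).ncard : ℝ) := Finset.sum_le_sum h1
      rw [Finset.sum_const, nsmul_eq_mul] at h4
      have h5 : 0 ≤ μ ^ r * η * (n : ℝ) ^ (r + 2) := by positivity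
      have h6 : μ * n * (μ ^ r * η * (n : ℝ) ^ (r + 2)) ≤
          L.card * (μ ^ r * η * (n : ℝ) ^ (r + 2)) := mul_le_mul_of_nonneg_right hLcard h5
      have h7 : μ ^ (r + 1) * η * (n : ℝ) ^ (r + 1 + 2) =
          μ * n * (μ ^ r * η * (n : ℝ) ^ (r + 2)) := by ring
      rw [h7]
      exact h6.trans (h4.trans h3)

end H67.SG
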