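import Pool.Agent.H67.SG.Pack

/-! # SG.Emb : three consequences of the packing lemma (about 250 lines)

General reduction (`H ⊆ W`, `n ≤ |H|`, red degrees inside `H` at most `ρ`): choose `H' ⊆ H` with `|H'| = n` (containing a prescribed vertex `x₀`) and a bijection
`Fin n ≃ H'`; the graph `C' ` on `Fin n` (comap) has all degrees `≤ ρ`, and a permutation `φ` as in `pack` gives an injective map `Fin n → W` sending edges of `T` to pairs of
different vertices which are not red: `T ⊑ Cᶜ`. `c` = a vertex of maximal degree of `T`.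
`emb_iso`: `H'` contains a vertex without red neighbours in `H`: `p` = this vertex, `deg C' p = 0`, `J = ∅`.
`emb_one`: `ρ = 1`, `T` has no vertex of degree `n - 1`. `p` any position. If `deg C' p = 0` take `J = ∅`. If it is `1` take `J = {z}` with `z` a vertex at maximal distance from `c`: the
distance is at least 2 because `deg c ≤ n - 2` and `T` is connected, so `z ≠ c` and `z` is not adjacent to `c`, and `z` is a leaf (a second neighbour of `z` would be farther from
`c`, use the tree property), `16 · 2 · 1 ≤ n`.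
`emb_low`: `K = 40 (ρ + 1) + 2`. The vertices `≠ c` not adjacent to `c` number `n - 1 - deg c ≥ K - 1`; remove those with `16 (ρ+1) deg z > n`, fewer than `32 (ρ + 1)` of them (`sum_deg`); the
rest has at least `8 (ρ+1)` elements, one colour class of `two_col` contains at least half of them, and this half is independent: take a subset `J` of it with `deg C' p ≤ ρ`
elements. -/

namespace H67.SG

open SimpleGraph Pool.Agent.H62.Decomp

/-- the vertices different from `c` and not adjacent to `c` -/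
private noncomputable def embM {n : ℕ} (T : SimpleGraph (Fin n)) (c : Fin n) : Finset (Fin n) := by
  classical
  exact Finset.univ.filter (fun y => y ≠ c ∧ ¬ T.Adj c y)

private theorem mem_embM {n : ℕ} {T : SimpleGraph (Fin n)} {c y : Fin n} :
    y ∈ embM T c ↔ y ≠ c ∧ ¬ T.Adj c y := by
  unfold embM
  simp

private theorem embM_split {n : ℕ} (T : SimpleGraph (Fin n)) (c : Fin n) (f : Fin n → ℕ) :
    ∃ N : Finset (Fin n), N.card = deg T c ∧ ∑ v, f v = ∑ v ∈ N, f v + f c + ∑ v ∈ embM T c, f v := by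
  classical
  refine ⟨Finset.univ.filter (fun y => T.Adj c y), ?_, ?_⟩
  · unfold deg dg
    congr
  · rw [← Finset.sum_filter_add_sum_filter_not Finset.univ (fun y => T.Adj c y), add_assoc]
    congr 1
    have h1 : Finset.univ.filter (fun y => ¬ T.Adj c y) = insert c (embM T c) := by
      ext y
      simp only [Finset.mem_filter, Finset.mem_univ, true_and, Finset.mem_insert, mem_embM]
      constructor
      · intro h
        by_cases hy : y = c
        · exact Or.inl hy
        · exact Or.inr ⟨hy, h⟩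
      · rintro (rfl | h)
        · exact T.irrefl
        · exact h.2
    rw [h1, Finset.sum_insert]
    rw [mem_embM]
    exact fun h => h.1 rfl

private theorem embM_card {n : ℕ} (T : SimpleGraph (Fin n)) (c : Fin n) :
    (embM T c).card + deg T c + 1 = n := by
  obtain ⟨N, h1, h2⟩ := embM_split T c (fun _ => 1)
  simp only [Finset.sum_const, smul_eq_mul, mul_one, Finset.card_univ, Fintype.card_fin] at h2
  omega

private theorem embM_sum {n : ℕ} (T : SimpleGraph (Fin n)) (hT : T.IsTree) (hn : 2 ≤ n) (c : Fin n) :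
    ∑ v ∈ embM T c, deg T v ≤ 2 * (embM T c).card := by
  obtain ⟨N, h1, h2⟩ := embM_split T c (fun v => deg T v)
  have h3 := sum_deg T hT
  have h4 := embM_card T c
  have h5 : N.card ≤ ∑ v ∈ N, deg T v := by
    calc N.card = ∑ _v ∈ N, 1 := by simp
      _ ≤ ∑ v ∈ N, deg T v := Finset.sum_le_sum fun v _ => deg_pos T hT hn v
  omega

/-- positions: an injective map of `Fin n` into `H` through a given vertex -/
private theorem emb_pos {n : ℕ} (hn : 1 ≤ n) {W : Type} (H : Finset W) (hH : n ≤ H.card) {x0 : W}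
    (hx0 : x0 ∈ H) : ∃ (e : Fin n → W) (p : Fin n), Function.Injective e ∧ (∀ i, e i ∈ H) ∧
      e p = x0 := by
  classical
  have hcard : n - 1 ≤ (H.erase x0).card := by
    rw [Finset.card_erase_of_mem hx0]
    omega
  obtain ⟨H', hH', hc⟩ := Finset.exists_subset_card_eq hcard
  have hx : x0 ∉ H' := fun h => (Finset.mem_erase.1 (hH' h)).1 rfl
  have hc' : (insert x0 H').card = n := by
    rw [Finset.card_insert_of_notMem hx, hc]
    omega
  let e := (Finset.equivFinOfCardEq hc').symm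
  refine ⟨fun i => (e i).1, e.symm ⟨x0, Finset.mem_insert_self _ _⟩, ?_, ?_, ?_⟩
  · intro i j hij
    exact e.injective (Subtype.ext hij)
  · intro i
    rcases Finset.mem_insert.1 (e i).2 with h | h
    · change (e i).1 ∈ H
      rw [h]
      exact hx0
    · exact (Finset.mem_erase.1 (hH' h)).2
  · simp

private theorem emb_deg {n : ℕ} {W : Type} (C : SimpleGraph W) (H : Finset W) (e : Fin n → W)
    (he : Function.Injective e) (heH : ∀ i, e i ∈ H) (a : Fin n) :
    deg (C.comap e) a ≤ dg C (e a) H := by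
  classical
  unfold deg dg
  refine Finset.card_le_card_of_injOn e ?_ (fun i _ j _ h => he h)
  intro y hy
  rw [Finset.mem_coe, Finset.mem_filter] at hy
  rw [Finset.mem_coe, Finset.mem_filter]
  exact ⟨heH y, hy.2⟩

/-- the reduction -/
private theorem emb_red (ρ n : ℕ) (T : SimpleGraph (Fin n)) (hT : T.IsTree)
    (hpack : ∀ T C : SimpleGraph (Fin n), T.IsTree → (∀ a, deg C a ≤ ρ) → ∀ c : Fin n,
      (∀ x, deg T x ≤ deg T c) → ∀ (p : Fin n) (J : Finset (Fin n)),
      (∀ z ∈ J, z ≠ c ∧ ¬ T.Adj c z) → (∀ y ∈ J, ∀ z ∈ J, ¬ T.Adj y z) →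
      (∀ z ∈ J, 16 * (ρ + 1) * deg T z ≤ n) → J.card = deg C p →
      ∃ φ : Equiv.Perm (Fin n), ∀ x y, T.Adj x y → ¬ C.Adj (φ x) (φ y))
    (hn : 1 ≤ n) {W : Type} (C : SimpleGraph W) (H : Finset W) (hH : n ≤ H.card)
    (hd : ∀ x ∈ H, dg C x H ≤ ρ) {x0 : W} (hx0 : x0 ∈ H)
    (hJ : ∀ c : Fin n, (∀ x, deg T x ≤ deg T c) → ∀ k ≤ dg C x0 H, ∃ J : Finset (Fin n),
      (∀ z ∈ J, z ≠ c ∧ ¬ T.Adj c z) ∧ (∀ y ∈ J, ∀ z ∈ J, ¬ T.Adj y z) ∧
      (∀ z ∈ J, 16 * (ρ + 1) * deg T z ≤ n) ∧ J.card = k) : T ⊑ Cᶜ := by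
  obtain ⟨e, p, he, heH, hp⟩ := emb_pos hn H hH hx0
  have hne : Nonempty (Fin n) := ⟨p⟩
  obtain ⟨c, hc⟩ := Finite.exists_max (fun x => deg T x)
  have hdp := emb_deg C H e he heH p
  rw [hp] at hdp
  obtain ⟨J, h1, h2, h3, h4⟩ := hJ c hc _ hdp
  obtain ⟨φ, hφ⟩ := hpack T (C.comap e) hT (fun a => (emb_deg C H e he heH a).trans (hd _ (heH a)))
    c hc p J h1 h2 h3 h4
  refine contained_of_map (fun x => e (φ x)) (he.comp φ.injective) ?_
  intro x y hxy
  rw [SimpleGraph.compl_adj]
  refine ⟨fun h => ?_, hφ x y hxy⟩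
  exact hxy.ne (φ.injective (he h))

theorem emb_iso (ρ : ℕ) : ∃ n₀ : ℕ, ∀ n : ℕ, n₀ ≤ n → ∀ T : SimpleGraph (Fin n), T.IsTree →
    ∀ (W : Type) (C : SimpleGraph W) (H : Finset W), n ≤ H.card → (∀ x ∈ H, dg C x H ≤ ρ) →
      (∃ x ∈ H, dg C x H = 0) → T ⊑ Cᶜ := by
  obtain ⟨n0, hpack⟩ := pack ρ
  refine ⟨max n0 1, ?_⟩
  intro n hn T hT W C H hH hd ⟨x, hx, hx0⟩
  refine emb_red ρ n T hT (hpack n ((le_max_left _ _).trans hn)) ((le_max_right _ _).trans hn) C H
    hH hd hx ?_
  intro c hc k hk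
  rw [hx0] at hk
  refine ⟨∅, by simp, by simp, by simp, ?_⟩
  rw [Finset.card_empty]
  omega

theorem emb_one : ∃ n₀ : ℕ, ∀ n : ℕ, n₀ ≤ n → ∀ T : SimpleGraph (Fin n), T.IsTree →
    (∀ x, deg T x < n - 1) → ∀ (W : Type) (C : SimpleGraph W) (H : Finset W), n ≤ H.card →
      (∀ x ∈ H, dg C x H ≤ 1) → T ⊑ Cᶜ := by
  obtain ⟨n0, hpack⟩ := pack 1
  refine ⟨max n0 64, ?_⟩
  intro n hn T hT hdeg W C H hH hd
  have hn64 : 64 ≤ n := (le_max_right _ _).trans hn
  obtain ⟨x, hx⟩ : H.Nonempty := by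
    rw [← Finset.card_pos]
    omega
  refine emb_red 1 n T hT (hpack n ((le_max_left _ _).trans hn)) (by omega) C H hH hd hx ?_
  intro c hc k hk
  have hk1 := hk.trans (hd x hx)
  rcases Nat.eq_zero_or_pos k with h0 | h0
  · exact ⟨∅, by simp, by simp, by simp, by rw [Finset.card_empty, h0]⟩
  have hk2 : k = 1 := by omega
  -- a vertex of degree at most two, not adjacent to `c`
  have h1 := embM_sum T hT (by omega) c
  have h2 := embM_card T c
  have h3 := hdeg c
  obtain ⟨z, hz, hz2⟩ : ∃ z ∈ embM T c, deg T z ≤ 2 := by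
    by_contra hcon
    push Not at hcon
    have h4 : ∑ _v ∈ embM T c, 3 ≤ ∑ v ∈ embM T c, deg T v :=
      Finset.sum_le_sum fun v hv => hcon v hv
    rw [Finset.sum_const, smul_eq_mul] at h4
    omega
  rw [mem_embM] at hz
  refine ⟨{z}, ?_, ?_, ?_, ?_⟩
  · intro y hy
    rw [Finset.mem_singleton] at hy
    rw [hy]
    exact hz
  · intro y hy y' hy'
    rw [Finset.mem_singleton] at hy hy'
    rw [hy, hy']
    exact T.irrefl
  · intro y hy
    rw [Finset.mem_singleton] at hy
    rw [hy]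
    omega
  · rw [Finset.card_singleton, hk2]

theorem emb_low (ρ : ℕ) : ∃ K n₀ : ℕ, ∀ n : ℕ, n₀ ≤ n → ∀ T : SimpleGraph (Fin n), T.IsTree →
    (∀ x, deg T x + K ≤ n) → ∀ (W : Type) (C : SimpleGraph W) (H : Finset W), n ≤ H.card →
      (∀ x ∈ H, dg C x H ≤ ρ) → T ⊑ Cᶜ := by
  classical
  obtain ⟨n0, hpack⟩ := pack ρ
  refine ⟨40 * (ρ + 1) + 2, max n0 1, ?_⟩
  intro n hn T hT hdeg W C H hH hd
  have hn1 : 1 ≤ n := (le_max_right _ _).trans hn
  obtain ⟨x, hx⟩ : H.Nonempty := by
    rw [← Finset.card_pos]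
    omega
  refine emb_red ρ n T hT (hpack n ((le_max_left _ _).trans hn)) hn1 C H hH hd hx ?_
  intro c hc k hk
  have hkρ := hk.trans (hd x hx)
  have h2 := embM_card T c
  have h3 := hdeg c
  have hsum := sum_deg T hT
  -- the vertices of large degree
  set B := (embM T c).filter (fun z => ¬ 16 * (ρ + 1) * deg T z ≤ n) with hB
  set M' := (embM T c).filter (fun z => 16 * (ρ + 1) * deg T z ≤ n) with hM'
  have hsplit : M'.card + B.card = (embM T c).card := by
    rw [hM', hB, Finset.card_filter_add_card_filter_not]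
  have hBc : B.card < 32 * (ρ + 1) := by
    have e1 : B.card * n ≤ 16 * (ρ + 1) * ∑ v, deg T v := by
      calc B.card * n = ∑ _v ∈ B, n := by rw [Finset.sum_const, smul_eq_mul]
        _ ≤ ∑ v ∈ B, 16 * (ρ + 1) * deg T v := by
            refine Finset.sum_le_sum fun v hv => ?_
            rw [hB, Finset.mem_filter] at hv
            omega
        _ = 16 * (ρ + 1) * ∑ v ∈ B, deg T v := by rw [Finset.mul_sum]
        _ ≤ 16 * (ρ + 1) * ∑ v, deg T v :=
            Nat.mul_le_mul_left _ (Finset.sum_le_sum_of_subset (Finset.subset_univ _))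
    by_contra hcon
    push Not at hcon
    have e2 : 32 * (ρ + 1) * n ≤ 16 * (ρ + 1) * ∑ v, deg T v :=
      (Nat.mul_le_mul_right n hcon).trans e1
    have e3 : ∑ v, deg T v < 2 * n := by omega
    have e4 : 16 * (ρ + 1) * ∑ v, deg T v < 16 * (ρ + 1) * (2 * n) :=
      Nat.mul_lt_mul_of_pos_left e3 (by positivity)
    have e5 : 16 * (ρ + 1) * (2 * n) = 32 * (ρ + 1) * n := by ring
    omega
  obtain ⟨f, hf⟩ := two_col T hT
  have hhalf : (M'.filter (fun z => f z = true)).card + (M'.filter (fun z => ¬ f z = true)).card =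
      M'.card := Finset.card_filter_add_card_filter_not _
  have hind : ∀ b : Bool, ∀ y z, f y = b → f z = b → ¬ T.Adj y z := fun b y z h4 h5 h6 =>
    hf y z h6 (h4.trans h5.symm)
  have hfin : ∀ b : Bool, ∀ S : Finset (Fin n), S ⊆ M' → (∀ z ∈ S, f z = b) → k ≤ S.card →
      ∃ J : Finset (Fin n), (∀ z ∈ J, z ≠ c ∧ ¬ T.Adj c z) ∧ (∀ y ∈ J, ∀ z ∈ J, ¬ T.Adj y z) ∧
        (∀ z ∈ J, 16 * (ρ + 1) * deg T z ≤ n) ∧ J.card = k := by
    intro b S hS hb hkS
    obtain ⟨J, hJS, hJc⟩ := Finset.exists_subset_card_eq hkS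
    refine ⟨J, fun z hz => ?_, fun y hy z hz => hind b y z (hb y (hJS hy)) (hb z (hJS hz)),
      fun z hz => ?_, hJc⟩
    · have h4 := hS (hJS hz)
      rw [hM', Finset.mem_filter] at h4
      exact mem_embM.1 h4.1
    · have h4 := hS (hJS hz)
      rw [hM', Finset.mem_filter] at h4
      exact h4.2
  rcases le_total k (M'.filter (fun z => f z = true)).card with h4 | h4
  · exact hfin true _ (Finset.filter_subset _ _) (fun z hz => (Finset.mem_filter.1 hz).2) h4
  · refine hfin false _ (Finset.filter_subset (fun z => ¬ f z = true) M')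
      (fun z hz => ?_) (by omega)
    have h5 := (Finset.mem_filter.1 hz).2
    simpa using h5

end H67.SG
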