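import Pool.Agent.H67.SG.Def

/-! # SG.K1 : a graph G with G - v q-colourable lies in K_(1,m,…,m) (complete, no sorry)

`m = card V`. `HasK1`: vertex `x₀`, sets `P i` with `m` elements. Colouring `f` of `G - v` with `Fin q`. Put `φ v = x₀`; for every `i` an injection of the class `f⁻¹(i)` (at most `m`
vertices) into `P i`: for instance with a bijection `e_i : Fin m ≃ P i` and a bijection `V ≃ Fin m`, `φ u = e_{f u} (number of u)`. Injective: `x₀ ∉ P i` (`C` has no loops), `P i`, `P j` disjoint for `i ≠ j`
(loops again). Edges: `v u` goes to `x₀ y`, `y ∈ P i`; `u u'` has different colours. -/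

namespace H67.SG

open SimpleGraph Pool.Agent.H62.Decomp

theorem contained_of_hasK1 {V : Type} [Fintype V] (G : SimpleGraph V) (q : ℕ) (v : V)
    (hv : (G.induce {x | x ≠ v}).Colorable q) {W : Type} (C : SimpleGraph W)
    (h : HasK1 q (Fintype.card V) C) : G ⊑ C := by
  classical
  obtain ⟨x0, P, hcard, hx, hP⟩ := h
  obtain ⟨f⟩ := hv
  have he : ∀ i, Nonempty (V ↪ P i) := fun i =>
    Function.Embedding.nonempty_of_card_le (by rw [Fintype.card_coe, hcard])
  have e : ∀ i, V ↪ P i := fun i => (he i).some
  have hφ : ∃ φ : V → W, φ v = x0 ∧ ∀ (u : V) (hu : u ≠ v), φ u = (e (f ⟨u, hu⟩) u : W) := by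
    refine ⟨fun u => if hu : u = v then x0 else (e (f ⟨u, hu⟩) u : W), ?_, ?_⟩
    · simp
    · intro u hu
      simp [hu]
  obtain ⟨φ, h0, h1⟩ := hφ
  have hmem : ∀ (u : V) (hu : u ≠ v), φ u ∈ P (f ⟨u, hu⟩) := by
    intro u hu
    rw [h1 u hu]
    exact (e _ u).2
  refine contained_of_map φ ?_ ?_
  · intro a b hab
    by_cases ha : a = v
    · by_cases hb : b = v
      · rw [ha, hb]
      · exfalso
        have h2 := hx _ _ (hmem b hb)
        rw [← hab, ha, h0] at h2
        exact C.loopless.irrefl _ h2
    · by_cases hb : b = v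
      · exfalso
        have h2 := hx _ _ (hmem a ha)
        rw [hab, hb, h0] at h2
        exact C.loopless.irrefl _ h2
      · by_cases hf : f ⟨a, ha⟩ = f ⟨b, hb⟩
        · rw [h1 a ha, h1 b hb, hf] at hab
          exact (e _).injective (Subtype.ext hab)
        · exfalso
          have h2 := hP _ _ hf _ (hmem a ha) _ (hmem b hb)
          rw [hab] at h2
          exact C.loopless.irrefl _ h2
  · intro a b hab
    by_cases ha : a = v
    · have hb : b ≠ v := fun hb => G.ne_of_adj hab (ha.trans hb.symm)
      rw [ha, h0]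
      exact hx _ _ (hmem b hb)
    · by_cases hb : b = v
      · rw [hb, h0]
        exact (hx _ _ (hmem a ha)).symm
      · refine hP _ _ ?_ _ (hmem a ha) _ (hmem b hb)
        refine f.valid ?_
        exact hab

end H67.SG
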