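import Pool.Agent.H67.SG.Crude
import Pool.Agent.H67.SG.K1
import Pool.Agent.H67.SG.Emb

/-! # SG.Core : the structure of a colouring without red G and blue T (about 120 lines)

`m = card V ≥ 1` (`v`). No `HasK1 q m C` (`contained_of_hasK1`). `crude` gives `card W < q (n-1) + q m`. `struct_thm` with `M = q m` and `K' = K + m + 1` (say): `c`, `g` with `K g ≤ n`, `Str C q m n g c`.
If a part `H = part c (c x)` has at least `n` elements then `dg C x H ≥ 1`: otherwise `emb_iso (m)` with `H` (all red degrees inside `H` are `< m`; every `y ∈ H` has `c y = c x`) gives `T ⊑ Cᶜ`. `n₀` = maximum of the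
thresholds. -/

namespace H67.SG

open SimpleGraph Pool.Agent.H62.Decomp

theorem core {V : Type} [Fintype V] (G : SimpleGraph V) (q : ℕ) (hq : 1 ≤ q) (v : V)
    (hv : (G.induce {x | x ≠ v}).Colorable q) (K : ℕ) : ∃ n₀ : ℕ, ∀ n : ℕ, n₀ ≤ n →
    ∀ T : SimpleGraph (Fin n), T.IsTree → ∀ (W : Type) [Fintype W] (C : SimpleGraph W), ¬ G ⊑ C →
      ¬ T ⊑ Cᶜ → q * (n - 1) + 1 ≤ Fintype.card W →
      ∃ (c : W → Fin q) (g : ℕ), K * g ≤ n ∧ Str C q (Fintype.card V) n g c ∧
        ∀ x, n ≤ (part c (c x)).card → 1 ≤ dg C x (part c (c x)) := by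
  classical
  have hm : 1 ≤ Fintype.card V := Fintype.card_pos_iff.2 ⟨v⟩
  obtain ⟨n1, h1⟩ := crude q (Fintype.card V) hq hm
  obtain ⟨n2, h2⟩ := struct_thm q (Fintype.card V) (q * Fintype.card V) (K + Fintype.card V + 1) hq hm
  obtain ⟨n3, h3⟩ := emb_iso (Fintype.card V)
  refine ⟨n1 + n2 + n3, ?_⟩
  intro n hn T hT W _ C hGC hTC hcard
  have hK1 : ¬ HasK1 q (Fintype.card V) C := fun h => hGC (contained_of_hasK1 G q v hv C h)
  have hcr : Fintype.card W ≤ q * (n - 1) + q * Fintype.card V := by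
    by_contra hcon
    push Not at hcon
    exact hTC (h1 n (by omega) T hT W C hcon.le hK1)
  obtain ⟨c, g, hg, hstr⟩ := h2 n (by omega) T hT W C hTC (by omega) hcr hK1
  refine ⟨c, g, ?_, hstr, fun x hx => ?_⟩
  · refine le_trans ?_ hg
    exact Nat.mul_le_mul_right g (by omega)
  · by_contra hcon
    have h0 : dg C x (part c (c x)) = 0 := by omega
    refine hTC (h3 n (by omega) T hT W C (part c (c x)) hx (fun y hy => ?_) ⟨x, ?_, h0⟩)
    · have hy' : c y = c x := by
        unfold part at hy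
        exact (Finset.mem_filter.1 hy).2
      have h4 := hstr.inner y
      rw [hy'] at h4
      exact h4.le
    · unfold part
      exact Finset.mem_filter.2 ⟨Finset.mem_univ x, rfl⟩

end H67.SG
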