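import Pool.Agent.H67.SG.Struct
import Pool.Agent.H67.SG.GMin

/-! # SG.Crude : at most q (n-1) + q m vertices (about 80 lines)

Choose a subset `W₀` of `W` with exactly `q (n-1) + q m` elements, `C₀` the induced graph (type of the elements of `W₀`). No `HasK1 q m C₀`, and `¬ T ⊑ C₀ᶜ`
(a copy in `C₀ᶜ` is a copy in `Cᶜ`). `struct_thm` with `M = q m`, `K = 1`: parts. Their sizes add up to `q (n - 1 + m)`, so some part `H` has at least
`n - 1 + m` elements; every vertex of `H` has fewer than `m` red neighbours in `H`, so at least `n - 1` blue neighbours in `H`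
(`dg Cᶜ x H = |H| - 1 - dg C x H`): `greedy_min`. -/

namespace H67.SG

open SimpleGraph Pool.Agent.H62.Decomp

private theorem Crude_sum {W : Type} [Fintype W] {q : ℕ} (c : W → Fin q) :
    ∑ j, (part c j).card = Fintype.card W := by
  classical
  rw [← Finset.card_univ]
  have h := Finset.card_eq_sum_card_fiberwise (f := c) (s := (Finset.univ : Finset W))
    (t := Finset.univ) (fun x _ => Finset.mem_univ _)
  rw [h]
  refine Finset.sum_congr rfl fun j _ => ?_
  unfold part
  congr 1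

theorem crude (q m : ℕ) (hq : 1 ≤ q) (hm : 1 ≤ m) : ∃ n₀ : ℕ, ∀ n : ℕ, n₀ ≤ n →
    ∀ T : SimpleGraph (Fin n), T.IsTree → ∀ (W : Type) [Fintype W] (C : SimpleGraph W),
      q * (n - 1) + q * m ≤ Fintype.card W → ¬ HasK1 q m C → T ⊑ Cᶜ := by
  classical
  obtain ⟨n₀, h⟩ := struct_thm q m (q * m) 1 hq hm
  refine ⟨n₀, fun n hn T hT W _ C hW hK => ?_⟩
  by_contra hcon
  obtain ⟨W₀, -, hW₀⟩ := Finset.exists_subset_card_eq (s := (Finset.univ : Finset W))
    (n := q * (n - 1) + q * m) (by rw [Finset.card_univ]; exact hW)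
  let C₀ : SimpleGraph W₀ := C.comap (fun x : W₀ => (x : W))
  have hadj : ∀ x y : W₀, C₀.Adj x y ↔ C.Adj x y := fun x y => Iff.rfl
  have h1 : ¬ T ⊑ C₀ᶜ := by
    rintro ⟨f⟩
    apply hcon
    refine contained_of_map (fun x => ((f x : W₀) : W))
      (fun a b hab => f.injective (Subtype.ext hab)) (fun x y hxy => ?_)
    have h2 := f.toHom.map_adj hxy
    rw [SimpleGraph.compl_adj] at h2 ⊢
    exact ⟨fun h3 => h2.1 (Subtype.ext h3), fun h3 => h2.2 ((hadj _ _).2 h3)⟩
  have h2 : ¬ HasK1 q m C₀ := by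
    rintro ⟨x, P, hP1, hP2, hP3⟩
    apply hK
    refine ⟨x, fun i => (P i).map ⟨Subtype.val, Subtype.val_injective⟩, fun i => ?_, ?_, ?_⟩
    · rw [Finset.card_map]
      exact hP1 i
    · intro i y hy
      obtain ⟨y', hy', rfl⟩ := Finset.mem_map.1 hy
      exact hP2 i y' hy'
    · intro i j hij y hy z hz
      obtain ⟨y', hy', rfl⟩ := Finset.mem_map.1 hy
      obtain ⟨z', hz', rfl⟩ := Finset.mem_map.1 hz
      exact hP3 i j hij y' hy' z' hz'
  have hcard : Fintype.card W₀ = q * (n - 1) + q * m := by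
    rw [Fintype.card_coe, hW₀]
  obtain ⟨c, g, -, hstr⟩ := h n hn T hT W₀ C₀ h1 (by rw [hcard]; omega) (by rw [hcard]) h2
  obtain ⟨j, hj⟩ : ∃ j, n - 1 + m ≤ (part c j).card := by
    by_contra hno
    push Not at hno
    have h3 : ∑ j, (part c j).card < ∑ _j : Fin q, (n - 1 + m) :=
      Finset.sum_lt_sum_of_nonempty ⟨⟨0, hq⟩, Finset.mem_univ _⟩ (fun j _ => hno j)
    rw [Crude_sum, hcard, Finset.sum_const, Finset.card_univ, Fintype.card_fin, smul_eq_mul,
      Nat.mul_add] at h3
    exact lt_irrefl _ h3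
  have hne : (part c j).Nonempty := Finset.card_pos.1 (by omega)
  apply h1
  refine greedy_min T hT C₀ᶜ (part c j) hne fun x hx => ?_
  have hcx : c x = j := by
    have h3 := hx
    unfold part at h3
    exact (Finset.mem_filter.1 h3).2
  have h3 := hstr.inner x
  rw [hcx] at h3
  have h4 := dg_add_nd C₀ x (part c j)
  have h5 := dg_compl_of_mem C₀ x (part c j) hx
  omega

end H67.SG
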