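import Pool.Agent.H67.SG.TDeg

/-! # SG.Far : few leaves give many vertices of degree at most 2, far apart (about 200 lines)

`ℓ` = number of leaves `< q`. Let `Z 0` = vertices of degree `≥ 3`, `Z (i+1) = Z i ∪ {x | deg x ≤ 2, x adjacent to some y ∈ Z i}`. By
`deg_bound` `|Z 1| ≤ |Z 0| + Σ_{Z 0} deg ≤ 4 ℓ`. For `i ≥ 1` a new element of `Z (i+1)` is adjacent to some `y ∈ Z i` outside `Z 0` (the
neighbours of degree `≤ 2` of `Z 0` are in `Z 1`), and such `y` has degree `≤ 2`: `|Z (i+1)| ≤ 3 |Z i|`. So `|Z 3| ≤ 36 ℓ`.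
If `x ∉ Z 3` then every `y` with `near T 3 x y` has degree `≤ 2` (walk from `x` to `y`: take the first vertex of degree `≥ 3` on it; the
vertices before it have degree `≤ 2`, so going back from it one sees `x ∈ Z 3`). So `|{y | near T (i+1) x y}| ≤ 3 |{y | near T i x y}|` for
`i ≤ 3` and `|{y | near T 4 x y}| ≤ 81`. Take `X` maximal among the subsets of the complement of `Z 3` with `¬ near T 4 x y` for `x ≠ y` in
`X` and at most `q` elements; if `|X| < q` every vertex outside `Z 3` is near (`near T 4`) some `x ∈ X` (`near T 4` is symmetric, prove it),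
so `n - 36 q ≤ 81 q`, against `200 q ≤ n` (`q ≥ 1`). -/

namespace H67.SG

open SimpleGraph Pool.Agent.H62.Decomp

private theorem Far_mono {n : ℕ} {T : SimpleGraph (Fin n)} {r : ℕ} {x y : Fin n}
    (h : near T r x y) : near T (r + 1) x y := ⟨y, h, Or.inl rfl⟩

private theorem Far_mono' {n : ℕ} {T : SimpleGraph (Fin n)} {r s : ℕ} (hrs : r ≤ s) {x y : Fin n}
    (h : near T r x y) : near T s x y := by
  induction hrs with
  | refl => exact h
  | step _ ih => exact Far_mono ih

private theorem Far_refl {n : ℕ} {T : SimpleGraph (Fin n)} (r : ℕ) (x : Fin n) : near T r x x :=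
  Far_mono' (Nat.zero_le r) (show near T 0 x x from rfl)

private theorem Far_cons {n : ℕ} {T : SimpleGraph (Fin n)} (r : ℕ) : ∀ {x z y : Fin n},
    (x = z ∨ T.Adj x z) → near T r z y → near T (r + 1) x y := by
  induction r with
  | zero =>
    intro x z y h h'
    have h1 : z = y := h'
    subst h1
    exact ⟨x, rfl, h⟩
  | succ r ih =>
    intro x z y h h'
    obtain ⟨w, hw, hwy⟩ := h'
    exact ⟨w, ih h hw, hwy⟩

private theorem Far_symm {n : ℕ} {T : SimpleGraph (Fin n)} (r : ℕ) : ∀ {x y : Fin n},
    near T r x y → near T r y x := by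
  induction r with
  | zero =>
    intro x y h
    exact Eq.symm h
  | succ r ih =>
    intro x y h
    obtain ⟨z, hz, hzy⟩ := h
    refine Far_cons r ?_ (ih hz)
    rcases hzy with h1 | h1
    · exact Or.inl h1.symm
    · exact Or.inr h1.symm

private theorem Far_left {n : ℕ} {T : SimpleGraph (Fin n)} (r : ℕ) {x y : Fin n}
    (h : near T (r + 1) x y) : ∃ z, (x = z ∨ T.Adj x z) ∧ near T r z y := by
  obtain ⟨z, hz, hzx⟩ := Far_symm _ h
  refine ⟨z, ?_, Far_symm _ hz⟩
  rcases hzx with h1 | h1
  · exact Or.inl h1.symm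
  · exact Or.inr h1.symm

private theorem Far_nb {n : ℕ} (T : SimpleGraph (Fin n)) : ∃ N : Fin n → Finset (Fin n),
    (∀ v, (N v).card = deg T v) ∧ ∀ v u, u ∈ N v ↔ T.Adj v u := by
  classical
  exact ⟨fun v => Finset.univ.filter (fun y => T.Adj v y), fun v => by
    unfold deg dg
    congr, fun v u => by simp⟩

open Classical in
/-- the vertices close to a vertex of degree at least three -/
private noncomputable def FarZ {n : ℕ} (T : SimpleGraph (Fin n)) : ℕ → Finset (Fin n)
  | 0 => Finset.univ.filter (fun v => 3 ≤ deg T v)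
  | i + 1 => FarZ T i ∪ Finset.univ.filter (fun x => deg T x ≤ 2 ∧ ∃ y ∈ FarZ T i, T.Adj x y)

private theorem FarZ_mono {n : ℕ} (T : SimpleGraph (Fin n)) {i j : ℕ} (h : i ≤ j) :
    FarZ T i ⊆ FarZ T j := by
  induction h with
  | refl => exact fun _ h => h
  | step _ ih => exact ih.trans Finset.subset_union_left

private theorem Far_mem {n : ℕ} (T : SimpleGraph (Fin n)) (r : ℕ) : ∀ {x y : Fin n},
    near T r x y → 3 ≤ deg T y → x ∈ FarZ T r := by
  classical
  induction r with
  | zero =>
    intro x y h hy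
    have h1 : x = y := h
    subst h1
    exact Finset.mem_filter.2 ⟨Finset.mem_univ _, hy⟩
  | succ r ih =>
    intro x y h hy
    obtain ⟨z, hxz, hz⟩ := Far_left r h
    have h1 := ih hz hy
    rcases hxz with rfl | hxz
    · exact FarZ_mono T (Nat.le_succ r) h1
    · by_cases hx : 3 ≤ deg T x
      · exact FarZ_mono T (Nat.zero_le _) (Finset.mem_filter.2 ⟨Finset.mem_univ _, hx⟩)
      · exact Finset.mem_union_right _ (Finset.mem_filter.2
          ⟨Finset.mem_univ _, by omega, z, h1, hxz⟩)

private theorem FarZ_card {n : ℕ} (T : SimpleGraph (Fin n)) (hT : T.IsTree) (hn : 2 ≤ n) (i : ℕ) :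
    (FarZ T (i + 1)).card ≤ 4 * (Finset.univ.filter (fun v => deg T v = 1)).card * 3 ^ i := by
  classical
  obtain ⟨N, hN, hm⟩ := Far_nb T
  induction i with
  | zero =>
    have h1 := deg_bound T hT hn
    have h2 : FarZ T 1 ⊆ FarZ T 0 ∪ (FarZ T 0).biUnion N := by
      intro x hx
      rcases Finset.mem_union.1 hx with hx | hx
      · exact Finset.mem_union_left _ hx
      · obtain ⟨-, -, y, hy, hxy⟩ := Finset.mem_filter.1 hx
        exact Finset.mem_union_right _ (Finset.mem_biUnion.2 ⟨y, hy, (hm y x).2 hxy.symm⟩)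
    have h3 := (Finset.card_le_card h2).trans (Finset.card_union_le _ _)
    have h4 : ((FarZ T 0).biUnion N).card ≤ ∑ v ∈ FarZ T 0, deg T v :=
      Finset.card_biUnion_le.trans (Finset.sum_le_sum fun v _ => (hN v).le)
    have h5 : FarZ T 0 = Finset.univ.filter (fun v => 3 ≤ deg T v) := by
      unfold FarZ
      congr
    rw [h5] at h3 h4
    rw [pow_zero, mul_one]
    change (FarZ T 1).card ≤ _
    omega
  | succ i ih =>
    have h2 : FarZ T (i + 1 + 1) ⊆ FarZ T (i + 1) ∪
        ((FarZ T (i + 1)).filter (fun v => deg T v ≤ 2)).biUnion N := by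
      intro x hx
      rcases Finset.mem_union.1 hx with hx | hx
      · exact Finset.mem_union_left _ hx
      · obtain ⟨-, hx2, y, hy, hxy⟩ := Finset.mem_filter.1 hx
        by_cases hy3 : 3 ≤ deg T y
        · refine Finset.mem_union_left _ (FarZ_mono T (Nat.le_add_left 1 i) ?_)
          exact Finset.mem_union_right _ (Finset.mem_filter.2 ⟨Finset.mem_univ _, hx2, y,
            Finset.mem_filter.2 ⟨Finset.mem_univ _, hy3⟩, hxy⟩)
        · exact Finset.mem_union_right _ (Finset.mem_biUnion.2 ⟨y,
            Finset.mem_filter.2 ⟨hy, by omega⟩, (hm y x).2 hxy.symm⟩)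
    have h3 := (Finset.card_le_card h2).trans (Finset.card_union_le _ _)
    have h4 : (((FarZ T (i + 1)).filter (fun v => deg T v ≤ 2)).biUnion N).card ≤
        ((FarZ T (i + 1)).filter (fun v => deg T v ≤ 2)).card * 2 := by
      refine Finset.card_biUnion_le_card_mul _ _ _ ?_
      intro v hv
      rw [hN]
      exact (Finset.mem_filter.1 hv).2
    have h5 := Finset.card_filter_le (FarZ T (i + 1)) (fun v => deg T v ≤ 2)
    rw [pow_succ]
    nlinarith

private theorem Far_ball {n : ℕ} (T : SimpleGraph (Fin n)) {x : Fin n} (hx : x ∉ FarZ T 3) :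
    ∃ B : Finset (Fin n), B.card ≤ 81 ∧ ∀ y, near T 4 x y → y ∈ B := by
  classical
  obtain ⟨N, hN, hm⟩ := Far_nb T
  have hdeg : ∀ r ≤ 3, ∀ y, near T r x y → deg T y ≤ 2 := by
    intro r hr y hy
    by_contra h
    exact hx (Far_mem T 3 (Far_mono' hr hy) (by omega))
  have key : ∀ r ≤ 4, (Finset.univ.filter (fun y => near T r x y)).card ≤ 3 ^ r := by
    intro r
    induction r with
    | zero =>
      intro _
      rw [pow_zero, Finset.card_le_one]
      intro a ha b hb
      have h1 : x = a := (Finset.mem_filter.1 ha).2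
      have h2 : x = b := (Finset.mem_filter.1 hb).2
      rw [← h1, ← h2]
    | succ r ih =>
      intro hr
      have h1 : Finset.univ.filter (fun y => near T (r + 1) x y) ⊆
          (Finset.univ.filter (fun y => near T r x y)).biUnion (fun z => insert z (N z)) := by
        intro y hy
        obtain ⟨z, hz, hzy⟩ := (Finset.mem_filter.1 hy).2
        refine Finset.mem_biUnion.2 ⟨z, Finset.mem_filter.2 ⟨Finset.mem_univ _, hz⟩, ?_⟩
        rcases hzy with rfl | hzy
        · exact Finset.mem_insert_self _ _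
        · exact Finset.mem_insert_of_mem ((hm z y).2 hzy)
      have h2 : ((Finset.univ.filter (fun y => near T r x y)).biUnion
          (fun z => insert z (N z))).card ≤ (Finset.univ.filter (fun y => near T r x y)).card * 3 := by
        refine Finset.card_biUnion_le_card_mul _ _ _ ?_
        intro z hz
        have h3 := Finset.card_insert_le z (N z)
        have h4 := hdeg r (by omega) z (Finset.mem_filter.1 hz).2
        rw [hN] at h3
        omega
      have h3 := ih (by omega)
      rw [pow_succ]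
      exact (Finset.card_le_card h1).trans (h2.trans (Nat.mul_le_mul_right 3 h3))
  exact ⟨_, key 4 le_rfl, fun y hy => Finset.mem_filter.2 ⟨Finset.mem_univ _, hy⟩⟩

theorem far_set {n : ℕ} (T : SimpleGraph (Fin n)) (hT : T.IsTree) (q : ℕ)
    (hq : (Finset.univ.filter (fun v => deg T v = 1)).card < q) (hn : 200 * q ≤ n) :
    ∃ X : Finset (Fin n), X.card = q ∧ (∀ x ∈ X, deg T x ≤ 2) ∧
      ∀ x ∈ X, ∀ y ∈ X, x ≠ y → ¬ near T 4 x y := by
  classical
  have hz := FarZ_card T hT (by omega) 2
  have key : ∀ k ≤ q, ∃ X : Finset (Fin n), X.card = k ∧ (∀ x ∈ X, x ∉ FarZ T 3) ∧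
      ∀ x ∈ X, ∀ y ∈ X, x ≠ y → ¬ near T 4 x y := by
    intro k
    induction k with
    | zero => exact fun _ => ⟨∅, rfl, by simp, by simp⟩
    | succ k ih =>
      intro hk
      obtain ⟨X, hX, hX3, hXn⟩ := ih (by omega)
      have hB : ∀ x : Fin n, ∃ B : Finset (Fin n), x ∈ X → B.card ≤ 81 ∧ ∀ y, near T 4 x y → y ∈ B := by
        intro x
        by_cases hx : x ∈ X
        · obtain ⟨B, hB⟩ := Far_ball T (hX3 x hx)
          exact ⟨B, fun _ => hB⟩
        · exact ⟨∅, fun h => absurd h hx⟩
      choose B hB using hB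
      have h1 : (X.biUnion B).card ≤ X.card * 81 :=
        Finset.card_biUnion_le_card_mul _ _ _ fun x hx => (hB x hx).1
      have h2 := Finset.card_union_le (FarZ T 3) (X.biUnion B)
      have h3 : (FarZ T 3 ∪ X.biUnion B).card < n := by
        have h4 : (FarZ T 3).card ≤ 4 * (Finset.univ.filter (fun v => deg T v = 1)).card * 3 ^ 2 := hz
        rw [hX] at h1
        omega
      obtain ⟨v, hv⟩ : ∃ v, v ∉ FarZ T 3 ∪ X.biUnion B := by
        by_contra hcon
        push Not at hcon
        have h5 : (Finset.univ : Finset (Fin n)) ⊆ FarZ T 3 ∪ X.biUnion B := fun v _ => hcon v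
        have h6 := Finset.card_le_card h5
        rw [Finset.card_univ, Fintype.card_fin] at h6
        omega
      rw [Finset.mem_union, not_or] at hv
      have hvn : ∀ x ∈ X, ¬ near T 4 x v := fun x hx h =>
        hv.2 (Finset.mem_biUnion.2 ⟨x, hx, (hB x hx).2 v h⟩)
      have hvX : v ∉ X := fun h => hvn v h (Far_refl 4 v)
      refine ⟨insert v X, by rw [Finset.card_insert_of_notMem hvX, hX], ?_, ?_⟩
      · intro x hx
        rcases Finset.mem_insert.1 hx with rfl | hx
        · exact hv.1
        · exact hX3 x hx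
      · intro x hx y hy hxy
        rcases Finset.mem_insert.1 hx with hx1 | hx1
        · rcases Finset.mem_insert.1 hy with hy1 | hy1
          · exact absurd (hx1.trans hy1.symm) hxy
          · rw [hx1]
            exact fun h => hvn y hy1 (Far_symm 4 h)
        · rcases Finset.mem_insert.1 hy with hy1 | hy1
          · rw [hy1]
            exact hvn x hx1
          · exact hXn x hx1 y hy1 hxy
  obtain ⟨X, hX, hX3, hXn⟩ := key q le_rfl
  refine ⟨X, hX, fun x hx => ?_, hXn⟩
  by_contra h
  refine hX3 x hx (FarZ_mono T (Nat.zero_le 3) (Finset.mem_filter.2 ⟨Finset.mem_univ _, by omega⟩))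

end H67.SG
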