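import Pool.Agent.H67.SG.Box
import Pool.Agent.H67.SG.Clq

/-! # SG.FindA : an almost blue set with almost n vertices (about 200 lines)

We may assume `ε' ≤ 1` (otherwise use `min ε' 1`). Put `η = ε'² / 16`, `μ = ε' / (4 p)`, `ε = ε' / 4`, `r = p - 1`. Choose `S₀ ⊆ S` with
`(p - ε) n ≤ |S₀| ≤ p n`. Let `W₀` be the type of the elements of `S₀`, `C₀` the induced graph (`C.comap Subtype.val`); `Thin n C₀` (map a set to
`W`). `claimA (p-1)` for `W₀`, `C₀`, `univ`. Second alternative: `clq C₀ (p+1) univ` has at least `μ^(p-1) η n^(p+1) ≥ c |W₀|^(p+1)` elements, with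
`c = μ^(p-1) η / p^(p+1)`, so for `n` large (then `|W₀| ≥ (p - ε) n` is large) `box (p+1) m c` gives sets `P i` in `W₀` with `m ≥ 1` elements such
that all `f` with `f i ∈ P i` are cliques; for `i < j` and `x ∈ P i`, `y ∈ P j` choose such an `f` through `x` and `y` (`m ≥ 1`): `C.Adj x y`. Images in `W`
give `HasK (p+1) m C S`, excluded. First alternative: `A₁ ⊆ S₀` with `|A₁| ≥ (1 - ε'/4 - ε'/4) n` and at most `η n²` ordered red pairs; choose
`A₂ ⊆ A₁` with `|A₂| = min (|A₁|) n`, and remove the vertices `a` with `dg C a A₂ > ε' n / 2`: their number `t` satisfies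
`t ε' n / 2 ≤ η n²`, `t ≤ ε' n / 8`. The rest `A` is as wanted. -/

namespace H67.SG

open SimpleGraph Pool.Agent.H62.Decomp

private theorem nd_map {W : Type} (C : SimpleGraph W) (S₀ : Finset W) (v : S₀) (T : Finset S₀) :
    nd (C.comap Subtype.val) v T = nd C v.1 (T.map (Function.Embedding.subtype _)) := by
  classical
  unfold nd
  rw [Finset.filter_map, Finset.card_map]
  rfl

private theorem dg_map {W : Type} (C : SimpleGraph W) (S₀ : Finset W) (v : S₀) (T : Finset S₀) :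
    dg (C.comap Subtype.val) v T = dg C v.1 (T.map (Function.Embedding.subtype _)) := by
  classical
  unfold dg
  rw [Finset.filter_map, Finset.card_map]
  rfl

private theorem thin_comap {W : Type} {C : SimpleGraph W} {n : ℕ} (h : Thin n C) (S₀ : Finset W) :
    Thin n (C.comap (Subtype.val : S₀ → W)) := by
  intro T hT
  obtain ⟨v, hv, h1⟩ := h (T.map (Function.Embedding.subtype _)) (hT.map)
  obtain ⟨v', hv', rfl⟩ := Finset.mem_map.1 hv
  exact ⟨v', hv', by rw [nd_map]; exact h1⟩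

/-- removing the vertices of large red degree -/
private theorem clean {W : Type} (C : SimpleGraph W) (n : ℕ) (hn : 1 ≤ n) (e : ℝ) (he : 0 < e)
    (A₁ : Finset W) (h1 : (1 - e / 2) * n ≤ A₁.card)
    (h2 : ∑ a ∈ A₁, (dg C a A₁ : ℝ) ≤ e ^ 2 / 16 * (n : ℝ) ^ 2) :
    ∃ A ⊆ A₁, (1 - e) * n ≤ A.card ∧ A.card ≤ n ∧ ∀ a ∈ A, (dg C a A : ℝ) ≤ e * n := by
  classical
  have hn' : (1 : ℝ) ≤ n := by exact_mod_cast hn
  obtain ⟨A₂, hA₂, hc⟩ := Finset.exists_subset_card_eq (min_le_left A₁.card n)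
  obtain ⟨B, hB⟩ : ∃ B : Finset W, B = A₂.filter (fun a => e * n / 2 < (dg C a A₂ : ℝ)) := ⟨_, rfl⟩
  have hBs : B ⊆ A₂ := by rw [hB]; exact Finset.filter_subset _ _
  have hBc : (B.card : ℝ) * (e * n / 2) ≤ e ^ 2 / 16 * (n : ℝ) ^ 2 := by
    calc (B.card : ℝ) * (e * n / 2) = ∑ _a ∈ B, (e * n / 2) := by
          rw [Finset.sum_const, nsmul_eq_mul]
      _ ≤ ∑ a ∈ B, (dg C a A₂ : ℝ) := by
          refine Finset.sum_le_sum fun a ha => ?_
          rw [hB, Finset.mem_filter] at ha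
          exact ha.2.le
      _ ≤ ∑ a ∈ A₁, (dg C a A₂ : ℝ) :=
          Finset.sum_le_sum_of_subset_of_nonneg (hBs.trans hA₂) (fun _ _ _ => Nat.cast_nonneg _)
      _ ≤ ∑ a ∈ A₁, (dg C a A₁ : ℝ) := by
          refine Finset.sum_le_sum fun a _ => ?_
          exact_mod_cast dg_mono C a hA₂
      _ ≤ _ := h2
  have hB8 : (B.card : ℝ) ≤ e * n / 8 := by
    have h3 : (B.card : ℝ) * (e * n / 2) ≤ (e * n / 8) * (e * n / 2) := by
      have e1 : (e * n / 8) * (e * n / 2) = e ^ 2 / 16 * (n : ℝ) ^ 2 := by ring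
      rw [e1]
      exact hBc
    exact le_of_mul_le_mul_right h3 (by positivity)
  refine ⟨A₂ \ B, Finset.sdiff_subset.trans hA₂, ?_, ?_, ?_⟩
  · have h3 : ((A₂ \ B).card : ℝ) = A₂.card - B.card := by
      rw [Finset.card_sdiff_of_subset hBs, Nat.cast_sub (Finset.card_le_card hBs)]
    have h4 : (1 - e / 2) * n ≤ (A₂.card : ℝ) := by
      rw [hc, Nat.cast_min]
      refine le_min h1 ?_
      nlinarith
    rw [h3]
    nlinarith
  · have h3 := Finset.card_le_card (Finset.sdiff_subset : A₂ \ B ⊆ A₂)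
    exact h3.trans (by rw [hc]; exact min_le_right _ _)
  · intro a ha
    rw [Finset.mem_sdiff] at ha
    have h3 : (dg C a (A₂ \ B) : ℝ) ≤ dg C a A₂ := by exact_mod_cast dg_mono C a Finset.sdiff_subset
    have h4 : (dg C a A₂ : ℝ) ≤ e * n / 2 := by
      by_contra h5
      push Not at h5
      exact ha.2 (by rw [hB, Finset.mem_filter]; exact ⟨ha.1, h5⟩)
    have h5 : 0 ≤ e * n := by positivity
    linarith

/-- boxes of cliques give the complete multipartite graph -/
private theorem hasK_of_box {W : Type} (C : SimpleGraph W) (S S₀ : Finset W) (hS : S₀ ⊆ S) (q m : ℕ)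
    (hm : 1 ≤ m) (P : Fin q → Finset S₀) (hP : ∀ i, (P i).card = m)
    (hf : ∀ f : Fin q → S₀, (∀ i, f i ∈ P i) →
      f ∈ clq (C.comap (Subtype.val : S₀ → W)) q Finset.univ) : HasK q m C S := by
  classical
  refine ⟨fun i => (P i).map (Function.Embedding.subtype _), ?_, ?_, ?_⟩
  · intro i x hx
    obtain ⟨x', -, rfl⟩ := Finset.mem_map.1 hx
    exact hS x'.2
  · intro i
    rw [Finset.card_map, hP]
  · intro i j hij x hx y hy
    obtain ⟨x', hx', rfl⟩ := Finset.mem_map.1 hx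
    obtain ⟨y', hy', rfl⟩ := Finset.mem_map.1 hy
    have hne : ∀ k, ∃ z, z ∈ P k := fun k => Finset.card_pos.1 (by rw [hP]; omega)
    choose g hg using hne
    have h1 := hf (fun k => if k = i then x' else if k = j then y' else g k) (by
      intro k
      by_cases h : k = i
      · subst h
        simpa using hx'
      · by_cases h' : k = j
        · subst h'
          simpa [h] using hy'
        · simpa [h, h'] using hg k)
    rcases lt_or_gt_of_ne hij with h | h
    · have h2 := h1.2 i j h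
      simp only [if_true, if_neg (Ne.symm hij), SimpleGraph.comap_adj] at h2
      exact h2
    · have h2 := h1.2 j i h
      simp only [if_true, if_neg (Ne.symm hij), SimpleGraph.comap_adj] at h2
      exact h2.symm

theorem findA (p m : ℕ) (hp : 1 ≤ p) (hm : 1 ≤ m) (ε' : ℝ) (h0 : 0 < ε') :
    ∃ ε : ℝ, 0 < ε ∧ ∃ n₀ : ℕ, ∀ n : ℕ, n₀ ≤ n → ∀ (W : Type) (C : SimpleGraph W) (S : Finset W),
      Thin n C → ((p : ℝ) - ε) * n ≤ S.card → ¬ HasK (p + 1) m C S →
      ∃ A ⊆ S, (1 - ε') * n ≤ A.card ∧ A.card ≤ n ∧ ∀ a ∈ A, (dg C a A : ℝ) ≤ ε' * n := by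
  classical
  obtain ⟨e, he⟩ : ∃ e : ℝ, e = min ε' 1 := ⟨_, rfl⟩
  have he0 : 0 < e := by rw [he]; exact lt_min h0 one_pos
  have he1 : e ≤ 1 := by rw [he]; exact min_le_right _ _
  have hee : e ≤ ε' := by rw [he]; exact min_le_left _ _
  have hpR : (1 : ℝ) ≤ p := by exact_mod_cast hp
  have hp0 : (0 : ℝ) < p := by linarith
  obtain ⟨μ, hμ⟩ : ∃ μ : ℝ, μ = e / (4 * p) := ⟨_, rfl⟩
  have hμ0 : 0 < μ := by rw [hμ]; positivity
  have hpμ : (p : ℝ) * μ = e / 4 := by rw [hμ]; field_simp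
  have hμ4 : μ ≤ e / 4 := by nlinarith
  obtain ⟨c, hc⟩ : ∃ c : ℝ, c = μ ^ (p - 1) * (e ^ 2 / 16) / (p : ℝ) ^ (p + 1) := ⟨_, rfl⟩
  have hc0 : 0 < c := by rw [hc]; positivity
  obtain ⟨N₀, hN₀⟩ := box (p + 1) m c hc0
  refine ⟨e / 4, by positivity, 2 * N₀ + 1, ?_⟩
  intro n hn W C S hT hS hK
  have hn1 : 1 ≤ n := by omega
  have hnR : (1 : ℝ) ≤ n := by exact_mod_cast hn1
  have hn2 : 2 * (N₀ : ℝ) + 1 ≤ n := by exact_mod_cast hn
  obtain ⟨S₀, hS₀, hS₀c⟩ := Finset.exists_subset_card_eq (min_le_left S.card (p * n))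
  have hlow : ((p : ℝ) - e / 4) * n ≤ S₀.card := by
    rw [hS₀c, Nat.cast_min]
    refine le_min hS ?_
    push_cast
    nlinarith
  have hup : (S₀.card : ℝ) ≤ p * n := by
    have h : S₀.card ≤ p * n := by rw [hS₀c]; exact min_le_right _ _
    exact_mod_cast h
  have hr : (((p - 1 : ℕ) : ℕ) : ℝ) = p - 1 := by
    rw [Nat.cast_sub hp]
    simp
  have hrμ : ((p - 1 : ℕ) : ℝ) * μ ≤ e / 4 := by
    rw [hr]
    nlinarith
  have hcl := claimA (p - 1) S₀ (C.comap Subtype.val) n (e / 4) μ (e ^ 2 / 16) hn1 (by positivity) hμ0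
    (by linarith) (by linarith) (by positivity) (thin_comap hT S₀) Finset.univ (by
      rw [hr, Finset.card_univ, Fintype.card_coe]
      have e1 : (p : ℝ) - 1 + 1 - e / 4 = p - e / 4 := by ring
      rw [e1]
      exact hlow)
  rcases hcl with ⟨A₁, -, h1, h2⟩ | h1
  · have h3 : (1 - e / 2) * (n : ℝ) ≤ ((A₁.map (Function.Embedding.subtype _) : Finset W).card : ℝ) := by
      rw [Finset.card_map]
      refine le_trans ?_ h1
      exact mul_le_mul_of_nonneg_right (by linarith) (by linarith)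
    have h4 : ∑ a ∈ (A₁.map (Function.Embedding.subtype _) : Finset W),
        (dg C a (A₁.map (Function.Embedding.subtype _)) : ℝ) ≤ e ^ 2 / 16 * (n : ℝ) ^ 2 := by
      rw [Finset.sum_map]
      refine le_trans (le_of_eq ?_) h2
      refine Finset.sum_congr rfl fun a _ => ?_
      rw [dg_map]
      rfl
    obtain ⟨A, hA, h5, h6, h7⟩ := clean C n hn1 e he0 _ h3 h4
    refine ⟨A, ?_, ?_, h6, ?_⟩
    · intro x hx
      obtain ⟨x', -, rfl⟩ := Finset.mem_map.1 (hA hx)
      exact hS₀ x'.2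
    · refine le_trans ?_ h5
      exact mul_le_mul_of_nonneg_right (by linarith) (by linarith)
    · intro a ha
      refine (h7 a ha).trans ?_
      exact mul_le_mul_of_nonneg_right hee (by linarith)
  · exfalso
    apply hK
    have hp1 : p - 1 + 2 = p + 1 := by omega
    rw [hp1] at h1
    obtain ⟨P, hP, hf⟩ := hN₀ S₀ (clq (C.comap Subtype.val) (p + 1) Finset.univ) (by
        rw [Fintype.card_coe]
        have h2 : (N₀ : ℝ) ≤ S₀.card := by
          refine le_trans ?_ hlow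
          nlinarith
        exact_mod_cast h2) (by
        rw [Fintype.card_coe]
        refine le_trans ?_ h1
        have h2 : (S₀.card : ℝ) ^ (p + 1) ≤ (p * n : ℝ) ^ (p + 1) :=
          pow_le_pow_left₀ (Nat.cast_nonneg _) hup _
        calc c * (S₀.card : ℝ) ^ (p + 1) ≤ c * (p * n : ℝ) ^ (p + 1) :=
              mul_le_mul_of_nonneg_left h2 hc0.le
          _ = μ ^ (p - 1) * (e ^ 2 / 16) * (n : ℝ) ^ (p + 1) := by
              rw [hc, mul_pow]
              field_simp)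
    exact hasK_of_box C S S₀ hS₀ (p + 1) m hm P hP hf

end H67.SG
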