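import Pool.Agent.H67.SG.Ram

/-! # SG.Join : lower bounds by red joins (about 250 lines)

`join_lower`: if `H` on `W` has no `ContainsPart G d` and `T ⋢ Hᶜ`, the graph on `(Fin d × Fin (n-1)) ⊕ W` in which two vertices of the first type are adjacent iff their first coordinates differ, vertices of
different type are adjacent, and vertices of `W` are adjacent as in `H`, contains no `G` (a copy gives `s` = preimage of `W`; the other vertices are coloured by the first coordinate; `G.induce s ⊑ H`) and
its complement contains no `T`: the complement has no edges between different blocks, `T` is connected, so the copy lies in one block; a block `Fin (n-1)` has too few vertices, the block `W` is excluded.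
So `d (n-1) + card W < ramsey G T` (`lt_ramsey`).
`part_lower`: `d (n-1) + partRamsey G d T ≤ ramsey G T`: if `partRamsey G d T = r + 1` there is a bad graph on `Fin r` (`Nat.notMem_of_lt_sInf`), `join_lower`; `partRamsey G d T = 0` is impossible when `χ(G) > d`: on
`Fin 0` neither `ContainsPart` nor `T ⊑` holds (`T` is a tree, so has a vertex; `ContainsPart` on the empty type means `s = ∅` and `G` is `d`-colourable).
`chi_lower`: if `G` is not `q`-colourable then `q (n-1) + 1 ≤ ramsey G T`: `join_lower` with `d = q` and `W = Fin 0`, or directly.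
`class_lower`: `n ≤ classRamsey G T` if `χ(G) ≥ 2`: the empty graph on `Fin (n-1)` contains no member (two classes `i ≠ j` of a surjective `χ`-colouring without an edge between them could be merged: `G` would be
`(χ - 1)`-colourable), and `T` has `n` vertices.
`mj_lower`: if `n` is even, `T` has a vertex of degree `n - 1`, `c ≤ q` and `¬ MJ G q c` then `q (n-1) + c + 1 ≤ ramsey G T`: red graph on `Fin q × Fin n` restricted to the pairs `(i, a)` with `i < c` or
`a < n - 1` (a subtype, `q (n-1) + c` elements): `(i, a)`, `(j, b)` adjacent iff `i ≠ j`, or `i = j`, `i < c`, `a ≠ b`, `a / 2 = b / 2`. A copy of `G` gives `lam` = first coordinate: `MJ G q c`. Every vertex has at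
most `n - 2` blue neighbours, so no blue `T`. -/

namespace H67.SG

open SimpleGraph Pool.Agent.H62.Decomp


private theorem join_pos {n : ℕ} {T : SimpleGraph (Fin n)} (hT : T.IsTree) : 0 < n := by
  obtain ⟨v⟩ := hT.connected.nonempty
  exact Fin.pos v

private theorem join_const {n : ℕ} {T : SimpleGraph (Fin n)} (hT : T.IsTree) {A : Type} (f : Fin n → A)
    (hf : ∀ x y, T.Adj x y → f x = f y) (x y : Fin n) : f x = f y := by
  obtain ⟨w⟩ := hT.connected.preconnected x y
  induction w with
  | nil => rfl
  | cons h _ ih => exact (hf _ _ h).trans ih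

/-- the red join -/
private def joinG (d n : ℕ) {W : Type} (H : SimpleGraph W) : SimpleGraph ((Fin d × Fin (n - 1)) ⊕ W) where
  Adj x y := match x, y with
    | Sum.inl a, Sum.inl b => a.1 ≠ b.1
    | Sum.inl _, Sum.inr _ => True
    | Sum.inr _, Sum.inl _ => True
    | Sum.inr a, Sum.inr b => H.Adj a b
  symm := ⟨by
    rintro (a | a) (b | b) h
    · exact Ne.symm h
    · exact trivial
    · exact trivial
    · exact H.adj_symm h⟩
  loopless := ⟨by
    rintro (a | a) h
    · exact h rfl
    · exact H.loopless.irrefl a h⟩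

theorem join_lower {V : Type} [Fintype V] (G : SimpleGraph V) (d : ℕ) {n : ℕ} (T : SimpleGraph (Fin n))
    (hT : T.IsTree) {W : Type} [Fintype W] (H : SimpleGraph W) (h1 : ¬ ContainsPart G d H)
    (h2 : ¬ T ⊑ Hᶜ) : d * (n - 1) + Fintype.card W < ramsey G T := by
  classical
  have hn := join_pos hT
  have key := lt_ramsey G T (joinG d n H) (by
    rintro ⟨φ⟩
    apply h1
    refine ⟨{v | ∃ w, φ v = Sum.inr w}, ?_, ?_⟩
    · have hc : ∀ v : ({v | ∃ w, φ v = Sum.inr w}ᶜ : Set V), ∃ a : Fin d × Fin (n - 1), φ v.1 = Sum.inl a := by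
        rintro ⟨v, hv⟩
        rcases h : φ v with a | w
        · exact ⟨a, rfl⟩
        · exact absurd ⟨w, h⟩ hv
      choose f hf using hc
      refine ⟨⟨fun v => (f v).1, ?_⟩⟩
      intro u v huv
      have h3 : (joinG d n H).Adj (φ u.1) (φ v.1) := φ.toHom.map_adj huv
      rw [hf u, hf v] at h3
      exact h3
    · have hc : ∀ v : ({v | ∃ w, φ v = Sum.inr w} : Set V), ∃ w : W, φ v.1 = Sum.inr w := fun v => v.2
      choose f hf using hc
      refine contained_of_map f ?_ ?_
      · intro u v huv
        have h3 := hf u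
        have h4 := hf v
        rw [huv, ← h4] at h3
        exact Subtype.ext (φ.injective h3)
      · intro u v huv
        have h3 : (joinG d n H).Adj (φ u.1) (φ v.1) := φ.toHom.map_adj huv
        rw [hf u, hf v] at h3
        exact h3) (by
    rintro ⟨ψ⟩
    have hlab : ∀ x y : Fin n, T.Adj x y →
        (Sum.elim (fun a => some a.1) (fun _ => none) (ψ x) : Option (Fin d)) =
          Sum.elim (fun a => some a.1) (fun _ => none) (ψ y) := by
      intro x y hxy
      have h3 : (joinG d n H)ᶜ.Adj (ψ x) (ψ y) := ψ.toHom.map_adj hxy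
      rw [SimpleGraph.compl_adj] at h3
      obtain ⟨-, h3⟩ := h3
      rcases hx : ψ x with a | a <;> rcases hy : ψ y with b | b
      · rw [hx, hy] at h3
        have h4 : a.1 = b.1 := by
          by_contra h5
          exact h3 h5
        change some a.1 = some b.1
        rw [h4]
      · rw [hx, hy] at h3
        exact absurd trivial h3
      · rw [hx, hy] at h3
        exact absurd trivial h3
      · rfl
    have hconst := join_const hT _ hlab
    rcases hx0 : ψ ⟨0, hn⟩ with a0 | w0
    · have h4 : ∀ x, ∃ b : Fin (n - 1), ψ x = Sum.inl (a0.1, b) := by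
        intro x
        have h5 := hconst x ⟨0, hn⟩
        rw [hx0] at h5
        rcases hx : ψ x with a | a
        · rw [hx] at h5
          have h6 : a.1 = a0.1 := Option.some.inj h5
          exact ⟨a.2, by rw [← h6]⟩
        · rw [hx] at h5
          exact absurd h5 (Option.some_ne_none _).symm
      choose b hb using h4
      have hbi : Function.Injective b := by
        intro x y hxy
        apply ψ.injective
        change ψ x = ψ y
        rw [hb x, hb y, hxy]
      have h7 := Fintype.card_le_of_injective b hbi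
      rw [Fintype.card_fin, Fintype.card_fin] at h7
      omega
    · have h4 : ∀ x, ∃ w : W, ψ x = Sum.inr w := by
        intro x
        have h5 := hconst x ⟨0, hn⟩
        rw [hx0] at h5
        rcases hx : ψ x with a | a
        · rw [hx] at h5
          exact absurd h5 (Option.some_ne_none _)
        · exact ⟨a, rfl⟩
      choose w hw using h4
      apply h2
      refine contained_of_map w ?_ ?_
      · intro x y hxy
        apply ψ.injective
        change ψ x = ψ y
        rw [hw x, hw y, hxy]
      · intro x y hxy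
        have h3 : (joinG d n H)ᶜ.Adj (ψ x) (ψ y) := ψ.toHom.map_adj hxy
        rw [SimpleGraph.compl_adj, hw x, hw y] at h3
        rw [SimpleGraph.compl_adj]
        exact ⟨fun h => h3.1 (by rw [h]), fun h => h3.2 h⟩)
  rw [Fintype.card_sum, Fintype.card_prod, Fintype.card_fin, Fintype.card_fin] at key
  exact key

private theorem join_zero {V : Type} [Fintype V] (G : SimpleGraph V) (d : ℕ) (hG : ¬ G.Colorable d) {n : ℕ}
    (T : SimpleGraph (Fin n)) (hT : T.IsTree) : d * (n - 1) < ramsey G T := by
  have h := join_lower G d T hT (W := Fin 0) ⊥ (by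
    rintro ⟨s, hs, ⟨φ⟩⟩
    apply hG
    have hs' : ∀ v, v ∉ s := fun v hv => (φ ⟨v, hv⟩).elim0
    obtain ⟨c⟩ := hs
    refine ⟨⟨fun v => c ⟨v, hs' v⟩, ?_⟩⟩
    intro u v huv
    exact c.valid (v := ⟨u, hs' u⟩) (w := ⟨v, hs' v⟩) huv) (by
    rintro ⟨ψ⟩
    exact (ψ ⟨0, join_pos hT⟩).elim0)
  rw [Fintype.card_fin, add_zero] at h
  exact h

theorem part_lower {V : Type} [Fintype V] (G : SimpleGraph V) (d : ℕ) (hG : ¬ G.Colorable d) {n : ℕ}
    (T : SimpleGraph (Fin n)) (hT : T.IsTree) : d * (n - 1) + partRamsey G d T ≤ ramsey G T := by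
  rcases Nat.eq_zero_or_pos (partRamsey G d T) with h0 | h0
  · rw [h0, add_zero]
    exact (join_zero G d hG T hT).le
  · obtain ⟨r, hr⟩ : ∃ r, partRamsey G d T = r + 1 := ⟨partRamsey G d T - 1, by omega⟩
    have h1 : r ∉ {r : ℕ | ∀ C : SimpleGraph (Fin r), ContainsPart G d C ∨ T ⊑ Cᶜ} := by
      refine Nat.notMem_of_lt_sInf ?_
      change r < partRamsey G d T
      omega
    rw [Set.mem_ofPred_eq, not_forall] at h1
    obtain ⟨C, hC⟩ := h1
    rw [not_or] at hC
    have h2 := join_lower G d T hT C hC.1 hC.2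
    rw [Fintype.card_fin] at h2
    omega

theorem chi_lower {V : Type} [Fintype V] (G : SimpleGraph V) (q : ℕ) (hG : ¬ G.Colorable q) {n : ℕ}
    (T : SimpleGraph (Fin n)) (hT : T.IsTree) : q * (n - 1) + 1 ≤ ramsey G T :=
  join_zero G q hG T hT

theorem class_lower {V : Type} [Fintype V] (G : SimpleGraph V) (hk : 2 ≤ G.chromaticNumber.toNat) {n : ℕ}
    (T : SimpleGraph (Fin n)) (hT : T.IsTree) : n ≤ classRamsey G T := by
  classical
  have hn := join_pos hT
  have h := lt_class G hk T (⊥ : SimpleGraph (Fin (n - 1))) (by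
    rintro ⟨c, i, j, -, hij, ⟨φ⟩⟩
    have hne : ∀ u v, G.Adj u v → (c u = i ∨ c u = j) → (c v = i ∨ c v = j) → False := by
      intro u v huv hu hv
      have h3 : (⊥ : SimpleGraph (Fin (n - 1))).Adj (φ ⟨u, hu⟩) (φ ⟨v, hv⟩) := φ.toHom.map_adj huv
      exact h3
    let f : V → {a : Fin G.chromaticNumber.toNat // a ≠ j} := fun v =>
      if h : c v = j then ⟨i, hij⟩ else ⟨c v, h⟩
    have hcol : G.Colorable (Fintype.card {a : Fin G.chromaticNumber.toNat // a ≠ j}) := by
      refine SimpleGraph.Coloring.colorable ⟨f, ?_⟩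
      intro u v huv hfe
      have hfe' : f u = f v := hfe
      simp only [f] at hfe'
      split_ifs at hfe' with h1 h2 h2
      · exact hne u v huv (Or.inr h1) (Or.inr h2)
      · exact hne u v huv (Or.inr h1) (Or.inl (congrArg Subtype.val hfe').symm)
      · exact hne u v huv (Or.inl (congrArg Subtype.val hfe')) (Or.inr h2)
      · exact c.valid huv (congrArg Subtype.val hfe')
    have h4 := hcol.chromaticNumber_le
    have h5 : Fintype.card {a : Fin G.chromaticNumber.toNat // a ≠ j} = G.chromaticNumber.toNat - 1 := by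
      rw [Fintype.card_subtype_compl, Fintype.card_fin, Fintype.card_subtype_eq]
    rw [h5] at h4
    have h6 : ((G.chromaticNumber.toNat : ℕ) : ℕ∞) = G.chromaticNumber :=
      ENat.natCast_toNat (SimpleGraph.chromaticNumber_ne_top_iff_exists.2 ⟨_, c.colorable⟩)
    rw [← h6, ENat.toNat_natCast] at h4
    have h7 : G.chromaticNumber.toNat ≤ G.chromaticNumber.toNat - 1 := by exact_mod_cast h4
    omega) (by
    rintro ⟨ψ⟩
    have h3 := Fintype.card_le_of_injective ψ ψ.injective
    rw [Fintype.card_fin, Fintype.card_fin] at h3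
    omega)
  rw [Fintype.card_fin] at h
  omega

theorem mj_lower {V : Type} [Fintype V] (G : SimpleGraph V) (q c : ℕ) (hc : c ≤ q) (hMJ : ¬ MJ G q c)
    {n : ℕ} (hn : Even n) (T : SimpleGraph (Fin n)) (hT : T.IsTree) (hstar : ∃ x, deg T x = n - 1)
    (hn2 : 2 ≤ n) : q * (n - 1) + c + 1 ≤ ramsey G T := by
  classical
  let X : Type := {p : Fin q × Fin n // (p.1 : ℕ) < c ∨ (p.2 : ℕ) < n - 1}
  let C : SimpleGraph X :=
    { Adj := fun x y => x.1.1 ≠ y.1.1 ∨ (x.1.1 = y.1.1 ∧ (x.1.1 : ℕ) < c ∧ x.1.2 ≠ y.1.2 ∧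
        (x.1.2 : ℕ) / 2 = (y.1.2 : ℕ) / 2)
      symm := ⟨by
        rintro x y (h | ⟨h1, h2, h3, h4⟩)
        · exact Or.inl (Ne.symm h)
        · exact Or.inr ⟨h1.symm, h1 ▸ h2, Ne.symm h3, h4.symm⟩⟩
      loopless := ⟨by
        rintro x (h | ⟨-, -, h, -⟩)
        · exact h rfl
        · exact h rfl⟩ }
  have h1 : ¬ G ⊑ C := by
    rintro ⟨φ⟩
    apply hMJ
    refine ⟨fun v => (φ v).1.1, ?_⟩
    intro x y hxy hadj
    have h2 : C.Adj (φ x) (φ y) := φ.toHom.map_adj hadj
    rcases h2 with h2 | ⟨h2, h3, h4, h5⟩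
    · exact absurd hxy h2
    · refine ⟨h3, fun z hz hxz => ?_⟩
      have h6 : C.Adj (φ x) (φ z) := φ.toHom.map_adj hxz
      rcases h6 with h6 | ⟨h6, h7, h8, h9⟩
      · exact absurd hz.symm h6
      · apply φ.injective
        apply Subtype.ext
        apply Prod.ext
        · exact hz.trans hxy
        · apply Fin.ext
          have h10 : ((φ x).1.2 : ℕ) ≠ (φ y).1.2 := fun h => h4 (Fin.ext h)
          have h11 : ((φ x).1.2 : ℕ) ≠ (φ z).1.2 := fun h => h8 (Fin.ext h)
          change ((φ z).1.2 : ℕ) = (φ y).1.2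
          omega
  have h2 : ¬ T ⊑ Cᶜ := by
    rintro ⟨ψ⟩
    obtain ⟨x, hx⟩ := hstar
    obtain ⟨m, hm⟩ := hn
    have hψ : ∀ y, T.Adj x y → (ψ x).1.1 = (ψ y).1.1 ∧ (ψ x).1.2 ≠ (ψ y).1.2 ∧
        (((ψ x).1.1 : ℕ) < c → ((ψ x).1.2 : ℕ) / 2 ≠ ((ψ y).1.2 : ℕ) / 2) := by
      intro y hy
      have h3 : Cᶜ.Adj (ψ x) (ψ y) := ψ.toHom.map_adj hy
      rw [SimpleGraph.compl_adj] at h3
      obtain ⟨h3, h4⟩ := h3
      have h5 : (ψ x).1.1 = (ψ y).1.1 := by
        by_contra h6
        exact h4 (Or.inl h6)
      have h6 : (ψ x).1.2 ≠ (ψ y).1.2 := fun h7 => h3 (Subtype.ext (Prod.ext h5 h7))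
      exact ⟨h5, h6, fun h7 h8 => h4 (Or.inr ⟨h5, h7, h6, h8⟩)⟩
    obtain ⟨a', ha1, ha2⟩ : ∃ a' : Fin n, a' ≠ (ψ x).1.2 ∧ ∀ y, T.Adj x y → (ψ y).1.2 ≠ a' := by
      by_cases hc' : ((ψ x).1.1 : ℕ) < c
      · have hlt : 2 * (((ψ x).1.2 : ℕ) / 2) + 1 - ((ψ x).1.2 : ℕ) % 2 < n := by
          have := (ψ x).1.2.isLt
          omega
        refine ⟨⟨_, hlt⟩, ?_, ?_⟩
        · intro h
          have h3 := congrArg Fin.val h
          change 2 * (((ψ x).1.2 : ℕ) / 2) + 1 - ((ψ x).1.2 : ℕ) % 2 = ((ψ x).1.2 : ℕ) at h3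
          omega
        · intro y hy h
          have h3 := congrArg Fin.val h
          change ((ψ y).1.2 : ℕ) = 2 * (((ψ x).1.2 : ℕ) / 2) + 1 - ((ψ x).1.2 : ℕ) % 2 at h3
          have h4 := (hψ y hy).2.2 hc'
          omega
      · refine ⟨⟨n - 1, by omega⟩, ?_, ?_⟩
        · intro h
          have h3 := congrArg Fin.val h
          change n - 1 = ((ψ x).1.2 : ℕ) at h3
          rcases (ψ x).2 with h4 | h4
          · exact hc' h4
          · omega
        · intro y hy h
          have h3 := congrArg Fin.val h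
          change ((ψ y).1.2 : ℕ) = n - 1 at h3
          rcases (ψ y).2 with h4 | h4
          · rw [← (hψ y hy).1] at h4
            exact hc' h4
          · omega
    have h3 : ((Finset.univ.filter (fun y => T.Adj x y)).image fun y => (ψ y).1.2) ⊆
        Finset.univ \ {(ψ x).1.2, a'} := by
      intro b hb
      rw [Finset.mem_image] at hb
      obtain ⟨y, hy, rfl⟩ := hb
      rw [Finset.mem_filter] at hy
      rw [Finset.mem_sdiff, Finset.mem_insert, Finset.mem_singleton, not_or]
      exact ⟨Finset.mem_univ _, (hψ y hy.2).2.1.symm, ha2 y hy.2⟩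
    have h4 := Finset.card_le_card h3
    rw [Finset.card_image_of_injOn, Finset.card_sdiff_of_subset (Finset.subset_univ _), Finset.card_univ,
      Fintype.card_fin, Finset.card_pair ha1.symm] at h4
    · have h5 : deg T x = (Finset.univ.filter (fun y => T.Adj x y)).card := by
        unfold deg dg
        congr
      rw [← h5, hx] at h4
      omega
    · intro y hy z hz hyz
      rw [Finset.mem_coe, Finset.mem_filter] at hy hz
      apply ψ.injective
      apply Subtype.ext
      apply Prod.ext
      · exact (hψ y hy.2).1.symm.trans (hψ z hz.2).1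
      · exact hyz
  have h3 := lt_ramsey G T C h1 h2
  have h4 : q * (n - 1) + c ≤ Fintype.card X := by
    let e : (Fin q × Fin (n - 1)) ⊕ Fin c → X := Sum.elim
      (fun p => ⟨(p.1, ⟨p.2.1, by have := p.2.2; omega⟩), Or.inr p.2.2⟩)
      (fun i => ⟨(⟨i.1, lt_of_lt_of_le i.2 hc⟩, ⟨n - 1, by omega⟩), Or.inl i.2⟩)
    have he : Function.Injective e := by
      rintro (p | i) (p' | i') h
      · have h5 := congrArg Subtype.val h
        have h6 := congrArg Prod.fst h5
        have h7 := congrArg (fun z => (Prod.snd z).val) h5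
        exact congrArg Sum.inl (Prod.ext h6 (Fin.ext h7))
      · have h5 := congrArg Subtype.val h
        have h7 := congrArg (fun z => (Prod.snd z).val) h5
        change (p.2 : ℕ) = n - 1 at h7
        have := p.2.2
        omega
      · have h5 := congrArg Subtype.val h
        have h7 := congrArg (fun z => (Prod.snd z).val) h5
        change n - 1 = (p'.2 : ℕ) at h7
        have := p'.2.2
        omega
      · have h5 := congrArg Subtype.val h
        have h7 := congrArg (fun z => (Prod.fst z).val) h5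
        exact congrArg Sum.inr (Fin.ext h7)
    have h5 := Fintype.card_le_of_injective e he
    rw [Fintype.card_sum, Fintype.card_prod, Fintype.card_fin, Fintype.card_fin, Fintype.card_fin] at h5
    exact h5
  omega

end H67.SG
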