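import Pool.Agent.H67.SG.Def

/-! # SG.Match : red matchings in several parts, completely joined (about 220 lines)

Induction over a subset `I'` of `I`. Step: `i ∈ I \ I'`. The chosen vertices number at most `2 h q`; each lies in another part and has at most `g` non-neighbours in `part c i`. Let
`R` = the vertices of `part c i` adjacent to all chosen vertices: `|part c i \ R| ≤ 2 h q g`. Every vertex `x` of `part c i` has between `1` and `m - 1` red neighbours in `part c i` (`hI`, `inner`). Call
`x ∈ R` good if it has a red neighbour in `R`. A vertex of `R` which is not good is a red neighbour of a vertex of `part c i \ R`: at most `2 h q g m` of them. So at least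
`n - g - 2 h q g (m + 1)` good vertices. Take a maximal family of pairwise disjoint red edges inside `R`, at most `h` of them; if there are fewer than `h`, every good vertex is one of the
at most `2 h` matched vertices or a red neighbour of one of them in the part: at most `2 h (m + 1)` good vertices, against `hn`. -/

namespace H67.SG

open SimpleGraph Pool.Agent.H62.Decomp

/-- a red edge outside a small set `B` -/
private theorem exists_edge {W : Type} (C : SimpleGraph W) (m : ℕ) (P B : Finset W)
    (h1 : ∀ x ∈ P, 1 ≤ dg C x P) (hm : ∀ x ∈ P, dg C x P < m) (hB : B ⊆ P)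
    (hc : B.card * (m + 1) < P.card) :
    ∃ x ∈ P, ∃ y ∈ P, x ∉ B ∧ y ∉ B ∧ C.Adj x y := by
  classical
  by_contra hcon
  push Not at hcon
  have hsub : P ⊆ B ∪ B.biUnion (fun y => P.filter (fun x => C.Adj y x)) := by
    intro x hx
    by_cases hxB : x ∈ B
    · exact Finset.mem_union_left _ hxB
    · refine Finset.mem_union_right _ ?_
      have hd := h1 x hx
      unfold dg at hd
      obtain ⟨y, hy⟩ := Finset.card_pos.1 hd
      rw [Finset.mem_filter] at hy
      have hyB : y ∈ B := by
        by_contra hyB
        exact hcon x hx y hy.1 hxB hyB hy.2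
      rw [Finset.mem_biUnion]
      exact ⟨y, hyB, Finset.mem_filter.2 ⟨hx, hy.2.symm⟩⟩
  have hcard := Finset.card_le_card hsub
  have h2 := Finset.card_union_le B (B.biUnion (fun y => P.filter (fun x => C.Adj y x)))
  have h3 : (B.biUnion (fun y => P.filter (fun x => C.Adj y x))).card ≤ B.card * m := by
    refine Finset.card_biUnion_le_card_mul _ _ _ fun y hy => ?_
    have := hm y (hB hy)
    unfold dg at this
    convert this.le
  rw [mul_add, mul_one] at hc
  omega

/-- `k` disjoint red edges outside a small set `B` -/
private theorem exists_matching {W : Type} (C : SimpleGraph W) (m : ℕ) (P B : Finset W)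
    (h1 : ∀ x ∈ P, 1 ≤ dg C x P) (hm : ∀ x ∈ P, dg C x P < m) (hB : B ⊆ P) :
    ∀ k : ℕ, (B.card + 2 * k) * (m + 1) < P.card →
      ∃ N : Fin k → Bool → W, (∀ a s, N a s ∈ P ∧ N a s ∉ B) ∧
        (∀ a, C.Adj (N a false) (N a true)) ∧
        (∀ a a' s s', N a s = N a' s' → a = a' ∧ s = s') := by
  classical
  intro k
  induction k with
  | zero =>
    intro _
    exact ⟨fun a => a.elim0, fun a => a.elim0, fun a => a.elim0, fun a => a.elim0⟩
  | succ k ih =>
    intro hk
    obtain ⟨N, hN1, hN2, hN3⟩ := ih (lt_of_le_of_lt (Nat.mul_le_mul_right _ (by omega)) hk)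
    set U : Finset W := Finset.univ.image (fun z : Fin k × Bool => N z.1 z.2) with hU
    have hUc : U.card ≤ 2 * k := by
      refine Finset.card_image_le.trans ?_
      simp only [Finset.card_univ, Fintype.card_prod, Fintype.card_fin, Fintype.card_bool]
      omega
    have hUP : U ⊆ P := by
      intro z hz
      rw [hU, Finset.mem_image] at hz
      obtain ⟨⟨a, s⟩, -, rfl⟩ := hz
      exact (hN1 a s).1
    have hmemU : ∀ a s, N a s ∈ U := fun a s =>
      Finset.mem_image.2 ⟨(a, s), Finset.mem_univ _, rfl⟩
    obtain ⟨x, hx, y, hy, hxB, hyB, hxy⟩ := exists_edge C m P (B ∪ U) h1 hm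
      (Finset.union_subset hB hUP) (lt_of_le_of_lt (Nat.mul_le_mul_right _
        ((Finset.card_union_le _ _).trans (by omega))) hk)
    rw [Finset.mem_union, not_or] at hxB hyB
    have hne : x ≠ y := hxy.ne
    refine ⟨Fin.cons (fun s => if s then y else x) N, ?_, ?_, ?_⟩
    · intro a s
      refine Fin.cases ?_ (fun a => ?_) a
      · rw [Fin.cons_zero]
        cases s
        · simpa using ⟨hx, hxB.1⟩
        · simpa using ⟨hy, hyB.1⟩
      · rw [Fin.cons_succ]
        exact hN1 a s
    · intro a
      refine Fin.cases ?_ (fun a => ?_) a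
      · rw [Fin.cons_zero]
        simpa using hxy
      · rw [Fin.cons_succ]
        exact hN2 a
    · intro a a' s s'
      refine Fin.cases ?_ (fun a => ?_) a <;> refine Fin.cases ?_ (fun a' => ?_) a'
      · rw [Fin.cons_zero]
        intro h
        refine ⟨rfl, ?_⟩
        cases s <;> cases s' <;> simp_all
      · rw [Fin.cons_zero, Fin.cons_succ]
        intro h
        exfalso
        have h' := hmemU a' s'
        rw [← h] at h'
        cases s
        · exact hxB.2 (by simpa using h')
        · exact hyB.2 (by simpa using h')
      · rw [Fin.cons_zero, Fin.cons_succ]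
        intro h
        exfalso
        have h' := hmemU a s
        rw [h] at h'
        cases s'
        · exact hxB.2 (by simpa using h')
        · exact hyB.2 (by simpa using h')
      · rw [Fin.cons_succ, Fin.cons_succ]
        intro h
        obtain ⟨h4, h5⟩ := hN3 a a' s s' h
        exact ⟨by rw [h4], h5⟩

theorem matchings {W : Type} [Fintype W] (C : SimpleGraph W) (q m n g : ℕ) (c : W → Fin q)
    (hs : Str C q m n g c) (h : ℕ) (I : Finset (Fin q))
    (hI : ∀ x, c x ∈ I → 1 ≤ dg C x (part c (c x)))
    (hn : (2 * h * q * (m + 1) + 2) * g + 2 * h * (m + 1) + 1 ≤ n) :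
    ∃ M : Fin q → Fin h → Bool → W, (∀ i ∈ I, ∀ a s, c (M i a s) = i) ∧
      (∀ i ∈ I, ∀ a, C.Adj (M i a false) (M i a true)) ∧
      (∀ i ∈ I, ∀ a a' s s', M i a s = M i a' s' → a = a' ∧ s = s') ∧
      (∀ i ∈ I, ∀ j ∈ I, i ≠ j → ∀ a s b t, C.Adj (M i a s) (M j b t)) := by
  classical
  have hsz : ∀ j, (2 * h * q * g + 2 * h) * (m + 1) < (part c j).card := by
    intro j
    have h1 := hs.size j
    have h2 : (2 * h * q * (m + 1) + 2) * g + 2 * h * (m + 1) + 1 =
        (2 * h * q * g + 2 * h) * (m + 1) + 2 * g + 1 := by ring
    omega
  revert hI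
  induction I using Finset.induction_on with
  | empty =>
    intro _
    have hne : ∀ j, (part c j).Nonempty := fun j =>
      Finset.card_pos.1 (lt_of_le_of_lt (Nat.zero_le _) (hsz j))
    refine ⟨fun i _ _ => (hne i).choose, ?_, ?_, ?_, ?_⟩ <;>
      · intro i hi
        exact absurd hi (Finset.notMem_empty i)
  | insert i I' hi ih =>
    intro hI
    obtain ⟨M, hM1, hM2, hM3, hM4⟩ := ih fun x hx => hI x (Finset.mem_insert_of_mem hx)
    set X : Finset W := (I' ×ˢ (Finset.univ : Finset (Fin h × Bool))).image
      (fun z => M z.1 z.2.1 z.2.2) with hX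
    have hXc : X.card ≤ 2 * h * q := by
      refine Finset.card_image_le.trans ?_
      rw [Finset.card_product]
      simp only [Finset.card_univ, Fintype.card_prod, Fintype.card_fin, Fintype.card_bool]
      have h1 : I'.card ≤ q := by
        have := Finset.card_le_univ I'
        simpa using this
      calc I'.card * (h * 2) ≤ q * (h * 2) := Nat.mul_le_mul_right _ h1
        _ = 2 * h * q := by ring
    have hXmem : ∀ j ∈ I', ∀ a s, M j a s ∈ X := fun j hj a s =>
      Finset.mem_image.2 ⟨(j, (a, s)), Finset.mem_product.2 ⟨hj, Finset.mem_univ _⟩, rfl⟩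
    have hXi : ∀ x ∈ X, c x ≠ i := by
      intro x hx
      rw [hX, Finset.mem_image] at hx
      obtain ⟨⟨j, a, s⟩, hz, rfl⟩ := hx
      rw [Finset.mem_product] at hz
      rw [hM1 j hz.1 a s]
      rintro rfl
      exact hi hz.1
    set B : Finset W := X.biUnion (fun x => (part c i).filter (fun y => ¬ C.Adj x y)) with hB
    have hBc : B.card ≤ 2 * h * q * g := by
      refine (Finset.card_biUnion_le_card_mul _ _ g fun x hx => ?_).trans
        (Nat.mul_le_mul_right _ hXc)
      have := hs.cross x i (hXi x hx).symm
      unfold nd at this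
      convert this
    have hBP : B ⊆ part c i := by
      intro y hy
      rw [hB, Finset.mem_biUnion] at hy
      obtain ⟨x, -, hy⟩ := hy
      exact (Finset.mem_filter.1 hy).1
    have hpart : ∀ x, x ∈ part c i ↔ c x = i := fun x => by
      unfold part
      simp
    obtain ⟨N, hN1, hN2, hN3⟩ := exists_matching C m (part c i) B
      (fun x hx => by
        have hx' := (hpart x).1 hx
        have := hI x (by rw [hx']; exact Finset.mem_insert_self _ _)
        rwa [hx'] at this)
      (fun x hx => by
        have hx' := (hpart x).1 hx
        have := hs.inner x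
        rwa [hx'] at this) hBP h
      (lt_of_le_of_lt (Nat.mul_le_mul_right _ (by omega)) (hsz i))
    have hNX : ∀ a s, ∀ x ∈ X, C.Adj x (N a s) := by
      intro a s x hx
      by_contra hcon
      exact (hN1 a s).2 (Finset.mem_biUnion.2 ⟨x, hx, Finset.mem_filter.2 ⟨(hN1 a s).1, hcon⟩⟩)
    have hne : ∀ j ∈ I', j ≠ i := by
      rintro j hj rfl
      exact hi hj
    refine ⟨Function.update M i N, ?_, ?_, ?_, ?_⟩
    · intro j hj a s
      rcases Finset.mem_insert.1 hj with rfl | hj
      · rw [Function.update_self]
        exact (hpart _).1 (hN1 a s).1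
      · rw [Function.update_of_ne (hne j hj)]
        exact hM1 j hj a s
    · intro j hj a
      rcases Finset.mem_insert.1 hj with rfl | hj
      · rw [Function.update_self]
        exact hN2 a
      · rw [Function.update_of_ne (hne j hj)]
        exact hM2 j hj a
    · intro j hj a a' s s'
      rcases Finset.mem_insert.1 hj with rfl | hj
      · rw [Function.update_self]
        exact hN3 a a' s s'
      · rw [Function.update_of_ne (hne j hj)]
        exact hM3 j hj a a' s s'
    · intro j hj k hk hjk a s b t
      rcases Finset.mem_insert.1 hj with hj' | hj'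
      · rcases Finset.mem_insert.1 hk with hk' | hk'
        · exact absurd (hj'.trans hk'.symm) hjk
        · subst hj'
          rw [Function.update_self, Function.update_of_ne (hne k hk')]
          exact (hNX a s _ (hXmem k hk' b t)).symm
      · rcases Finset.mem_insert.1 hk with hk' | hk'
        · subst hk'
          rw [Function.update_self, Function.update_of_ne (hne j hj')]
          exact hNX b t _ (hXmem j hj' a s)
        · rw [Function.update_of_ne (hne j hj'), Function.update_of_ne (hne k hk')]
          exact hM4 j hj' k hk' hjk a s b t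

end H67.SG
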