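import Pool.Agent.H67.SG.Realize
import Pool.Agent.H67.SG.Match

/-! # SG.MJE : MJ and matchings give a red G (about 150 lines)

Let `|I| = a`. Choose a permutation `σ` of `Fin q` mapping the indices `< a` onto `I` (`a ≤ q`). From `MJ G q a` with `lam` put `lam' = σ ∘ lam`: two adjacent vertices `x`, `y` with
`lam' x = lam' y` satisfy `lam' x ∈ I`, and `y` is the only neighbour of `x` in its class. Let `X` = set of vertices `x` which have a neighbour in their own class (then exactly one, the partner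
`x'`, and `x' ∈ X` has partner `x`). For every class `i ∈ I` number the pairs `{x, x'}` of the class by different elements of `Fin h`, `h = card V` (for instance by the smaller of the
numbers of `x` and `x'` under a bijection `V ≃ Fin (card V)`), and send `x`, `x'` to `M i a false`, `M i a true` (the one with the smaller number to `false`). `realize` with this `ψ`: injective; an edge
inside `X` with equal labels is a pair `x x'` (matching edge); with different labels: cross condition; `hz`: `z ∉ X` has no neighbour in its class. -/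

namespace H67.SG

open SimpleGraph Pool.Agent.H62.Decomp

theorem contained_of_matchings {V : Type} [Fintype V] (G : SimpleGraph V) {W : Type} [Fintype W]
    (C : SimpleGraph W) (q m n g : ℕ) (c : W → Fin q) (hs : Str C q m n g c) (I : Finset (Fin q))
    (hI : ∀ x, c x ∈ I → 1 ≤ dg C x (part c (c x))) (hMJ : MJ G q I.card)
    (hn : (2 * Fintype.card V * q * (m + 1) + 2) * g + 2 * Fintype.card V * (m + 1) + 1 ≤ n)
    (hn' : (Fintype.card V + 1) * g + Fintype.card V + 1 ≤ n) : G ⊑ C := by
  classical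
  obtain ⟨M, hM1, hM2, hM3, hM4⟩ := matchings C q m n g c hs (Fintype.card V) I hI hn
  obtain ⟨lam, hlam⟩ := hMJ
  -- a permutation of the indices sending the first ones onto `I`
  have haq : I.card ≤ q := by
    have h1 := Finset.card_le_univ I
    simpa using h1
  let e1 : {x : Fin q // (x : ℕ) < I.card} ≃ Fin I.card :=
    { toFun := fun x => ⟨x.1.1, x.2⟩
      invFun := fun y => ⟨⟨y.1, lt_of_lt_of_le y.2 haq⟩, y.2⟩
      left_inv := fun _ => rfl
      right_inv := fun _ => rfl }
  let e2 : {x : Fin q // (x : ℕ) < I.card} ≃ {x : Fin q // x ∈ I} := e1.trans I.equivFin.symm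
  let σ : Equiv.Perm (Fin q) := e2.extendSubtype
  have hσ : ∀ i : Fin q, (i : ℕ) < I.card → σ i ∈ I := fun i hi => e2.extendSubtype_mem i hi
  -- the partner
  let X : Finset V := Finset.univ.filter (fun x => ∃ y, G.Adj x y ∧ lam y = lam x)
  have hXdef : ∀ x, x ∈ X ↔ ∃ y, G.Adj x y ∧ lam y = lam x := fun x => by simp [X]
  have hp : ∀ x, ∃ y, x ∈ X → G.Adj x y ∧ lam y = lam x := by
    intro x
    by_cases hx : x ∈ X
    · obtain ⟨y, hy⟩ := (hXdef x).1 hx
      exact ⟨y, fun _ => hy⟩
    · exact ⟨x, fun h => absurd h hx⟩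
  choose p hpX using hp
  have huniq : ∀ x y, lam x = lam y → G.Adj x y → p x = y := by
    intro x y hxy hadj
    have hx : x ∈ X := (hXdef x).2 ⟨y, hadj, hxy.symm⟩
    exact (hlam x y hxy hadj).2 (p x) (hpX x hx).2 (hpX x hx).1
  have hpp : ∀ x ∈ X, p (p x) = x := fun x hx =>
    huniq (p x) x (hpX x hx).2 (hpX x hx).1.symm
  have hlt : ∀ x ∈ X, (lam x : ℕ) < I.card := fun x hx =>
    (hlam x (p x) (hpX x hx).2.symm (hpX x hx).1).1
  have hmemI : ∀ x ∈ X, σ (lam x) ∈ I := fun x hx => hσ _ (hlt x hx)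
  let N : V ≃ Fin (Fintype.card V) := Fintype.equivFin V
  let ψ : V → W := fun x => if N x < N (p x) then M (σ (lam x)) (N x) false else M (σ (lam x)) (N (p x)) true
  have hψ1 : ∀ x, N x < N (p x) → ψ x = M (σ (lam x)) (N x) false := fun x hx => if_pos hx
  have hψ2 : ∀ x, ¬ N x < N (p x) → ψ x = M (σ (lam x)) (N (p x)) true := fun x hx => if_neg hx
  have hψ : ∀ x, ∃ a s, ψ x = M (σ (lam x)) a s := by
    intro x
    by_cases hx : N x < N (p x)
    · exact ⟨_, _, hψ1 x hx⟩
    · exact ⟨_, _, hψ2 x hx⟩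
  have hcψ : ∀ x ∈ X, c (ψ x) = σ (lam x) := by
    intro x hx
    obtain ⟨a, s, h⟩ := hψ x
    rw [h]
    exact hM1 _ (hmemI x hx) a s
  refine realize G C q n g c hs.size hs.cross hn' (fun x => σ (lam x)) X ψ ?_ hcψ ?_ ?_
  · intro x hx y hy hxy
    rw [Finset.mem_coe] at hx hy
    have hl : σ (lam x) = σ (lam y) := by rw [← hcψ x hx, ← hcψ y hy, hxy]
    by_cases h1 : N x < N (p x)
    · by_cases h2 : N y < N (p y)
      · rw [hψ1 x h1, hψ1 y h2, ← hl] at hxy
        exact N.injective (hM3 _ (hmemI x hx) _ _ _ _ hxy).1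
      · rw [hψ1 x h1, hψ2 y h2, ← hl] at hxy
        exact absurd (hM3 _ (hmemI x hx) _ _ _ _ hxy).2 (by decide)
    · by_cases h2 : N y < N (p y)
      · rw [hψ2 x h1, hψ1 y h2, ← hl] at hxy
        exact absurd (hM3 _ (hmemI x hx) _ _ _ _ hxy).2 (by decide)
      · rw [hψ2 x h1, hψ2 y h2, ← hl] at hxy
        have h3 : p x = p y := N.injective (hM3 _ (hmemI x hx) _ _ _ _ hxy).1
        rw [← hpp x hx, ← hpp y hy, h3]
  · intro x hx y hy hadj
    by_cases hl : lam x = lam y
    · have h1 : p x = y := huniq x y hl hadj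
      have h2 : p y = x := huniq y x hl.symm hadj.symm
      have hne : N x ≠ N y := fun h => hadj.ne (N.injective h)
      rcases lt_or_gt_of_ne hne with h3 | h3
      · rw [hψ1 x (by rw [h1]; exact h3), hψ2 y (by rw [h2]; exact not_lt.2 h3.le), h2, ← hl]
        exact hM2 _ (hmemI x hx) _
      · rw [hψ2 x (by rw [h1]; exact not_lt.2 h3.le), hψ1 y (by rw [h2]; exact h3), h1, ← hl]
        exact (hM2 _ (hmemI x hx) _).symm
    · obtain ⟨a, s, h1⟩ := hψ x
      obtain ⟨b, t, h2⟩ := hψ y
      rw [h1, h2]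
      exact hM4 _ (hmemI x hx) _ (hmemI y hy) (fun h => hl (σ.injective h)) _ _ _ _
  · intro z hz u hadj hl
    exact hz ((hXdef z).2 ⟨u, hadj, (σ.injective hl).symm⟩)

end H67.SG
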