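import Pool.Agent.H67.SG.Core
import Pool.Agent.H67.SG.Join
import Pool.Agent.H67.SG.MJE

/-! # SG.PartB : the generalised decomposition formula under MJ (about 250 lines)

`q = k - 1`, `d = q - c ≥ 1`, `m = card V`. Lower bound: `part_lower` (`G` is not `d`-colourable). Upper bound (`ramsey_le`): let `N = d (n-1) + r'`, `r' = partRamsey G d T`, and let `C` on `Fin N` contain no `G` and no blue `T`. `r' ≥ c (n-1) + 1`:
the graph on `Fin c × Fin (n-1)` with two vertices adjacent iff the first coordinates differ contains no `G[s]` with `G - s` `d`-colourable (otherwise `G` is `c + d = q` colourable) and no blue `T` (as in `join_lower`), so `lt_part`. (Or: use `join_lower`-type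
argument in `Join`.) Hence `N ≥ q (n-1) + 1`. `core` with `K` large: `c₀`, `g`. Let `I` = set of indices `i` with `|part c₀ i| ≥ n`. If `|I| ≥ c + 1` take `I' ⊆ I` with `c + 1` elements: `contained_of_matchings` (`MJ G q (c+1)`) gives a red `G`. So `|I| ≤ c`;
choose `I' ⊇ I` with `|I'| = c` (`c ≤ q`). The union `S` of the parts in `I'` has at least `N - d (n-1) = r'` elements (the other `d` parts have at most `n - 1`). `part_spec_finset`: `s`, `ψ`, a colouring of `G - s` with `Fin d` (the other alternative is a blue `T`).
Define `lam`: on `s` it is `c₀ ∘ ψ` (in `I'`), outside `s` the colour transported by a bijection `Fin d ≃` complement of `I'`. `realize` with `X = s` (as finset): `hz`: a vertex outside `s` has a label outside `I'`, different from the labels in `s`, and adjacent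
vertices outside `s` have different colours. So `G ⊑ C`, contradiction. -/

namespace H67.SG

open SimpleGraph Pool.Agent.H62.Decomp

private theorem PartB_block {V : Type} [Fintype V] (G : SimpleGraph V) (k : ℕ)
    (hk : G.chromaticNumber = k) (c d : ℕ) (hcd : c + d < k) {n : ℕ} (T : SimpleGraph (Fin n))
    (hT : T.IsTree) : c * (n - 1) + 1 ≤ partRamsey G d T := by
  classical
  have hlt : Fintype.card (Fin c × Fin (n - 1)) < partRamsey G d T := by
    apply lt_part G d T ((⊤ : SimpleGraph (Fin c)).comap (Prod.fst : Fin c × Fin (n - 1) → Fin c))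
    · rintro ⟨s, ⟨f⟩, ⟨g⟩⟩
      have hG : G.Colorable (c + d) := by
        have h1 : G.Colorable (Fintype.card (Fin c ⊕ Fin d)) := by
          apply Coloring.colorable
          refine Coloring.mk (fun x => if h : x ∈ s then Sum.inl (g ⟨x, h⟩).1 else
            Sum.inr (f ⟨x, h⟩)) ?_
          intro x y hxy
          by_cases hx : x ∈ s <;> by_cases hy : y ∈ s
          · simp only [hx, hy, dif_pos]
            have h2 : (G.induce s).Adj ⟨x, hx⟩ ⟨y, hy⟩ := hxy
            have h3 := g.toHom.map_adj h2
            intro h4
            exact h3 (Sum.inl.inj h4)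
          · simp [hx, hy]
          · simp [hx, hy]
          · simp only [hx, hy, dif_neg, not_false_eq_true]
            have h2 : (G.induce sᶜ).Adj ⟨x, hx⟩ ⟨y, hy⟩ := hxy
            have h3 := f.valid h2
            intro h4
            exact h3 (Sum.inr.inj h4)
        simpa using h1
      have h5 := hG.chromaticNumber_le
      rw [hk] at h5
      have h6 : k ≤ c + d := by exact_mod_cast h5
      omega
    · rintro ⟨g⟩
      have hne : Nonempty (Fin n) := hT.connected.nonempty
      have hstep : ∀ a b, T.Adj a b → (g a).1 = (g b).1 := by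
        intro a b hab
        have h1 := g.toHom.map_adj hab
        rw [compl_adj] at h1
        by_contra h2
        exact h1.2 h2
      have hwalk : ∀ a b, T.Walk a b → (g a).1 = (g b).1 := by
        intro a b p
        induction p with
        | nil => rfl
        | cons h _ ih => exact (hstep _ _ h).trans ih
      have hinj : Function.Injective (fun a : Fin n => (g a).2) := by
        intro a b hab
        apply g.injective
        obtain ⟨p⟩ := hT.connected.preconnected a b
        exact Prod.ext (hwalk a b p) hab
      have hcard := Fintype.card_le_of_injective _ hinj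
      simp only [Fintype.card_fin] at hcard
      obtain ⟨a⟩ := hne
      have := a.isLt
      omega
  rw [Fintype.card_prod, Fintype.card_fin, Fintype.card_fin] at hlt
  omega

private theorem PartB_card_outside {N q : ℕ} (c₀ : Fin N → Fin q) (I : Finset (Fin q)) (b : ℕ)
    (hb : ∀ j, j ∉ I → (part c₀ j).card ≤ b) :
    N ≤ (q - I.card) * b + (Finset.univ.filter (fun x => c₀ x ∈ I)).card := by
  classical
  have h1 : (Finset.univ.filter (fun x => c₀ x ∈ I)).card +
      (Finset.univ.filter (fun x => ¬ c₀ x ∈ I)).card = N := by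
    rw [Finset.card_filter_add_card_filter_not, Finset.card_univ, Fintype.card_fin]
  have h2 : (Finset.univ.filter (fun x => ¬ c₀ x ∈ I)).card ≤ (Iᶜ).card * b := by
    have h3 : (Finset.univ.filter (fun x => ¬ c₀ x ∈ I)) ⊆ (Iᶜ).biUnion (fun j => part c₀ j) := by
      intro x hx
      rw [Finset.mem_filter] at hx
      rw [Finset.mem_biUnion]
      refine ⟨c₀ x, Finset.mem_compl.2 hx.2, ?_⟩
      unfold part
      simp
    refine (Finset.card_le_card h3).trans ?_
    apply Finset.card_biUnion_le_card_mul
    intro j hj
    exact hb j (Finset.mem_compl.1 hj)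
  rw [Finset.card_compl, Fintype.card_fin] at h2
  omega

theorem partB {V : Type} [Fintype V] (G : SimpleGraph V) (k : ℕ) (hk3 : 3 ≤ k) (hk : G.chromaticNumber = k)
    (v : V) (hv : (G.induce {x | x ≠ v}).Colorable (k - 1)) (c : ℕ) (hc1 : 1 ≤ c) (hc2 : c + 2 ≤ k)
    (hMJ : MJ G (k - 1) (c + 1)) :
    ∃ n₀ : ℕ, ∀ n : ℕ, n₀ ≤ n → ∀ T : SimpleGraph (Fin n), T.IsTree →
      ramsey G T = (k - 1 - c) * (n - 1) + partRamsey G (k - 1 - c) T := by
  classical
  set q := k - 1 with hqdef
  set m := Fintype.card V with hmdef
  have hq : 1 ≤ q := by omega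
  have hGd : ¬ G.Colorable (q - c) := by
    intro h
    have h1 := h.chromaticNumber_le
    rw [hk] at h1
    have h2 : k ≤ q - c := by exact_mod_cast h1
    omega
  obtain ⟨n₁, hn₁⟩ := core G q hq v hv (2 * ((2 * m * q * (m + 1) + 2) + (m + 1)))
  refine ⟨max n₁ (2 * ((2 * m * (m + 1) + 1) + (m + 1)) + 2), ?_⟩
  intro n hn T hT
  have hna : n₁ ≤ n := le_trans (le_max_left _ _) hn
  have hnb : 2 * ((2 * m * (m + 1) + 1) + (m + 1)) + 2 ≤ n := le_trans (le_max_right _ _) hn
  apply le_antisymm
  · apply ramsey_le
    intro C
    by_contra hcon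
    rw [not_or] at hcon
    obtain ⟨hGC, hTC⟩ := hcon
    have hblock : c * (n - 1) + 1 ≤ partRamsey G (q - c) T :=
      PartB_block G k hk c (q - c) (by omega) T hT
    have hNq : q * (n - 1) + 1 ≤ (q - c) * (n - 1) + partRamsey G (q - c) T := by
      have h1 : q * (n - 1) = (q - c) * (n - 1) + c * (n - 1) := by
        rw [← Nat.add_mul]
        congr 1
        omega
      omega
    obtain ⟨c₀, g, hKg, hs, hbig⟩ := hn₁ n hna T hT _ C hGC hTC (by
      rw [Fintype.card_fin]
      exact hNq)
    have hnum : 2 * ((2 * m * q * (m + 1) + 2) * g + (m + 1) * g) ≤ n := by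
      refine le_trans (le_of_eq ?_) hKg
      ring
    have hA1 : (2 * m * q * (m + 1) + 2) * g + 2 * m * (m + 1) + 1 ≤ n := by
      generalize (2 * m * q * (m + 1) + 2) * g = x at *
      generalize (m + 1) * g = y at *
      generalize 2 * m * (m + 1) = z at *
      omega
    have hA2 : (m + 1) * g + m + 1 ≤ n := by
      generalize (2 * m * q * (m + 1) + 2) * g = x at *
      generalize (m + 1) * g = y at *
      generalize 2 * m * (m + 1) = z at *
      omega
    -- the indices of the large parts
    set I := Finset.univ.filter (fun i : Fin q => n ≤ (part c₀ i).card) with hIdef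
    have hIc : I.card ≤ c := by
      by_contra hlt
      rw [not_le] at hlt
      obtain ⟨I', hI', hI'c⟩ := Finset.exists_subset_card_eq (show c + 1 ≤ I.card from hlt)
      apply hGC
      refine contained_of_matchings G C q m n g c₀ hs I' ?_ ?_ hA1 hA2
      · intro x hx
        apply hbig
        have h1 := hI' hx
        rw [hIdef, Finset.mem_filter] at h1
        exact h1.2
      · rw [hI'c]
        exact hMJ
    obtain ⟨I', hII', hI'c⟩ : ∃ I' : Finset (Fin q), I ⊆ I' ∧ I'.card = c := by
      obtain ⟨I', h1, _, h2⟩ := Finset.exists_subsuperset_card_eq (Finset.subset_univ I) hIc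
        (by rw [Finset.card_univ, Fintype.card_fin]; omega)
      exact ⟨I', h1, h2⟩
    have hout := PartB_card_outside c₀ I' (n - 1) (by
      intro j hj
      have h1 : j ∉ I := fun h => hj (hII' h)
      rw [hIdef, Finset.mem_filter] at h1
      have := not_le.1 (fun h => h1 ⟨Finset.mem_univ j, h⟩)
      omega)
    rw [hI'c] at hout
    have hne : Nonempty (Fin ((q - c) * (n - 1) + partRamsey G (q - c) T)) := ⟨⟨0, by omega⟩⟩
    rcases part_spec_finset G (q - c) T C (Finset.univ.filter (fun x => c₀ x ∈ I')) (by omega) with
      ⟨s, ψ, ⟨col⟩, hinj, hψ, hadj⟩ | h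
    · have hcompl : (I'ᶜ).card = q - c := by
        rw [Finset.card_compl, Fintype.card_fin, hI'c]
      let e : Fin (q - c) ≃ (I'ᶜ : Finset (Fin q)) := (Finset.equivFinOfCardEq hcompl).symm
      have hem : ∀ i, (e i : Fin q) ∉ I' := fun i => Finset.mem_compl.1 (e i).2
      apply hGC
      let lam : V → Fin q := fun x => if h : x ∈ s then c₀ (ψ x) else (e (col ⟨x, h⟩) : Fin q)
      have hlam1 : ∀ x, x ∈ s → lam x = c₀ (ψ x) := fun x hx => dif_pos hx
      have hlam2 : ∀ x (hx : x ∉ s), lam x = (e (col ⟨x, hx⟩) : Fin q) := fun x hx => dif_neg hx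
      refine realize G C q n g c₀ hs.size hs.cross hA2 lam (Finset.univ.filter (fun x => x ∈ s)) ψ
        ?_ ?_ ?_ ?_
      · intro x hx y hy hxy
        simp only [Finset.coe_filter, Finset.mem_univ, true_and, Set.mem_ofPred_eq] at hx hy
        exact hinj hx hy hxy
      · intro x hx
        exact (hlam1 x (Finset.mem_filter.1 hx).2).symm
      · intro x hx y hy hxy
        exact hadj x (Finset.mem_filter.1 hx).2 y (Finset.mem_filter.1 hy).2 hxy
      · intro z hz u hzu
        have hz' : z ∉ s := fun h => hz (Finset.mem_filter.2 ⟨Finset.mem_univ z, h⟩)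
        rw [hlam2 z hz']
        by_cases hu : u ∈ s
        · rw [hlam1 u hu]
          intro heq
          have h1 := hem (col ⟨z, hz'⟩)
          rw [heq] at h1
          exact h1 (Finset.mem_filter.1 (hψ u hu)).2
        · rw [hlam2 u hu]
          intro heq
          have h1 := e.injective (Subtype.ext heq)
          have h2 : (G.induce sᶜ).Adj ⟨z, hz'⟩ ⟨u, hu⟩ := hzu
          exact col.valid h2 h1
    · exact hTC h
  · exact part_lower G (q - c) hGd T hT

end H67.SG
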