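import Pool.Agent.H67.SG.GenQ
import Pool.Agent.H67.SG.PartB
import Pool.Agent.H67.SG.Join

/-! # SG.GenC : the classification when B(G) has a member inside `t P_3`

`(⇐)`: `partB` with `c = 1` and `part_eq_class`.  `(⇒)`: if `¬ MJ G (k-1) 2`, for even `n` and the star with `n` vertices
`mj_lower` gives `r(G,T) ≥ (k-1)(n-1) + 3`, while `r(B(G),T) ≤ n + 1`. -/

namespace H67.SG

open SimpleGraph Pool.Agent.H62.Decomp

theorem gen_iff {V : Type} [Fintype V] (G : SimpleGraph V) (k : ℕ) (hk3 : 3 ≤ k)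
    (hk : G.chromaticNumber = k) (v : V) (hv : (G.induce {x | x ≠ v}).Colorable (k - 1)) (t : ℕ)
    (hP : ContainsMember G (paths3 t)) : SatisfiesFormula G ↔ MJ G (k - 1) 2 := by
  classical
  have hkn : G.chromaticNumber.toNat = k := by rw [hk]; rfl
  obtain ⟨n₁, h₁⟩ := part_eq_class G k hk3 hk v hv t hP
  constructor
  · rintro ⟨n₀, h₀⟩
    by_contra hMJ
    -- an even number
    let n : ℕ := 2 * (n₀ + n₁ + 1)
    have hn0 : n₀ ≤ n := by omega
    have hn1 : n₁ ≤ n := by omega
    have hn2 : 2 ≤ n := by omega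
    let r : Fin n := ⟨0, by omega⟩
    have hT := isTree_starGraph r
    have hstar : ∃ x, deg (starGraph r) x = n - 1 := by
      refine ⟨r, ?_⟩
      have h8 := dg_add_nd (starGraph r) r Finset.univ
      rw [Finset.card_univ, Fintype.card_fin] at h8
      have h9 : nd (starGraph r) r Finset.univ = 1 := by
        unfold nd
        rw [Finset.card_eq_one]
        refine ⟨r, ?_⟩
        ext y
        simp only [Finset.mem_filter, Finset.mem_singleton, starGraph_adj]
        constructor
        · rintro ⟨-, h⟩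
          by_contra hy
          exact h ⟨fun h' => hy h'.symm, by simp⟩
        · rintro rfl
          exact ⟨Finset.mem_univ _, fun h => h.1 rfl⟩
      unfold deg
      omega
    have h2 := mj_lower G (k - 1) 2 (by omega) hMJ (n := n) ⟨n₀ + n₁ + 1, by omega⟩ (starGraph r) hT
      hstar hn2
    have h3 := h₀ n hn0 (starGraph r) hT
    have h4 := (h₁ n hn1 (starGraph r) hT).2
    rw [hkn] at h3
    obtain ⟨q, rfl⟩ : ∃ q, k = q + 3 := ⟨k - 3, by omega⟩
    have e1 : q + 3 - 1 = q + 2 := by omega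
    have e2 : q + 3 - 2 = q + 1 := by omega
    rw [e1] at h2
    rw [e2] at h3
    have h5 : (q + 2) * (n - 1) = (q + 1) * (n - 1) + (n - 1) := by ring
    omega
  · intro hMJ
    obtain ⟨n₂, h₂⟩ := partB G k hk3 hk v hv 1 le_rfl (by omega) hMJ
    refine ⟨n₁ + n₂, fun n hn T hT => ?_⟩
    have h3 := h₂ n (by omega) T hT
    have h4 := (h₁ n (by omega) T hT).1
    rw [hkn]
    have e : k - 1 - 1 = k - 2 := by omega
    rw [e] at h3
    rw [h3, h4]

/-- the same in the class `MJ G (k-1) 2` without the assumption on the members: the formula is equivalent to the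
equality of two Ramsey numbers of classes -/
theorem formula_iff_part {V : Type} [Fintype V] (G : SimpleGraph V) (k : ℕ) (hk3 : 3 ≤ k)
    (hk : G.chromaticNumber = k) (v : V) (hv : (G.induce {x | x ≠ v}).Colorable (k - 1))
    (hMJ : MJ G (k - 1) 2) : SatisfiesFormula G ↔
      ∃ n₀ : ℕ, ∀ n : ℕ, n₀ ≤ n → ∀ T : SimpleGraph (Fin n), T.IsTree →
        partRamsey G (k - 2) T = classRamsey G T := by
  have hkn : G.chromaticNumber.toNat = k := by rw [hk]; rfl
  obtain ⟨n₂, h₂⟩ := partB G k hk3 hk v hv 1 le_rfl (by omega) hMJ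
  have e : k - 1 - 1 = k - 2 := by omega
  constructor
  · rintro ⟨n₀, h₀⟩
    refine ⟨n₀ + n₂, fun n hn T hT => ?_⟩
    have h3 := h₂ n (by omega) T hT
    have h4 := h₀ n (by omega) T hT
    rw [hkn] at h4
    rw [e] at h3
    omega
  · rintro ⟨n₀, h₀⟩
    refine ⟨n₀ + n₂, fun n hn T hT => ?_⟩
    have h3 := h₂ n (by omega) T hT
    have h4 := h₀ n (by omega) T hT
    rw [hkn]
    rw [e] at h3
    omega

end H67.SG
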