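import Pool.Agent.H67.SG.Pack
import Pool.Agent.H67.SG.Root

/-! # SG.GenE : the packing lemma for a position of degree at most one

`T` is not a star, the red degrees inside of `H` are at most `ρ` and one vertex of `H` has red degree at most one: then
`T` is blue.  Choose `H' ⊆ H` with `n` elements containing that vertex and apply `pack` to the graph on `Fin n` pulled back
by a bijection; `J = ∅` or `J = {z}` with `z` a leaf which is not adjacent to the vertex `c` of maximum degree. -/

namespace H67.SG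

open SimpleGraph Pool.Agent.H62.Decomp

/-- a leaf which is not adjacent to `c` -/
theorem exists_far_leaf {n : ℕ} (T : SimpleGraph (Fin n)) (hT : T.IsTree) (c : Fin n)
    (hc : deg T c < n - 1) : ∃ z, z ≠ c ∧ ¬ T.Adj c z ∧ deg T z ≤ 1 := by
  classical
  obtain ⟨rk, par, hR⟩ := tree_root T hT c
  -- the set of the vertices different from c and not adjacent to c
  set J : Finset (Fin n) := Finset.univ.filter (fun z => z ≠ c ∧ ¬ T.Adj c z) with hJ
  have hne : J.Nonempty := by
    by_contra h
    rw [Finset.not_nonempty_iff_eq_empty] at h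
    have h1 : (Finset.univ.filter (fun y => T.Adj c y)).card = n - 1 := by
      have : Finset.univ.filter (fun y => T.Adj c y) = Finset.univ.erase c := by
        ext y
        simp only [Finset.mem_filter, Finset.mem_univ, true_and, Finset.mem_erase, and_true]
        constructor
        · intro hy
          exact hy.ne'
        · intro hy
          by_contra h2
          have : y ∈ J := by
            rw [hJ, Finset.mem_filter]
            exact ⟨Finset.mem_univ _, hy, h2⟩
          rw [h] at this
          simp at this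
      rw [this, Finset.card_erase_of_mem (Finset.mem_univ _), Finset.card_univ, Fintype.card_fin]
    have h2 : deg T c = (Finset.univ.filter (fun y => T.Adj c y)).card := by
      unfold deg dg
      congr
    omega
  obtain ⟨z, hz, hmax⟩ := J.exists_max_image rk hne
  rw [hJ, Finset.mem_filter] at hz
  refine ⟨z, hz.2.1, hz.2.2, ?_⟩
  unfold deg dg
  rw [Finset.card_le_one]
  intro a ha b hb
  rw [Finset.mem_filter] at ha hb
  -- all neighbours are the parent
  have key : ∀ a, T.Adj z a → a = par z := by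
    intro a ha
    rcases lt_trichotomy (rk a) (rk z) with h | h | h
    · exact (hR.uniq a z ha.symm h).2
    · exact absurd (hR.inj h) ha.ne'
    · exfalso
      obtain ⟨h1, h2⟩ := hR.uniq z a ha h
      have haJ : a ∈ J := by
        rw [hJ, Finset.mem_filter]
        refine ⟨Finset.mem_univ _, h1, fun hca => ?_⟩
        rcases lt_trichotomy (rk c) (rk a) with h3 | h3 | h3
        · have := (hR.uniq c a hca h3).2
          exact hz.2.1 (by rw [h2, ← this])
        · exact h1 (hR.inj h3).symm
        · exact (hR.uniq a c hca.symm h3).1 rfl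
      exact absurd (hmax a haJ) (by omega)
  rw [key a ha.2, key b hb.2]

theorem emb_one_gen (ρ : ℕ) : ∃ n₀ : ℕ, ∀ n : ℕ, n₀ ≤ n → ∀ T : SimpleGraph (Fin n), T.IsTree →
    (∀ x, deg T x < n - 1) → ∀ (W : Type) (C : SimpleGraph W) (H : Finset W), n ≤ H.card →
      (∀ x ∈ H, dg C x H ≤ ρ) → (∃ x ∈ H, dg C x H ≤ 1) → T ⊑ Cᶜ := by
  classical
  obtain ⟨n₀, h₀⟩ := pack ρ
  refine ⟨max n₀ (16 * (ρ + 1) + 1), fun n hn T hT hdeg W C H hH hρ ⟨x₀, hx₀, hx₁⟩ => ?_⟩
  have hn1 : n₀ ≤ n := le_trans (le_max_left _ _) hn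
  have hn2 : 16 * (ρ + 1) + 1 ≤ n := le_trans (le_max_right _ _) hn
  obtain ⟨H', hH1, hH2, hH3⟩ := Finset.exists_subsuperset_card_eq
    (s := {x₀}) (t := H) (n := n) (by simpa using hx₀) (by simp; omega) hH
  have hx₀' : x₀ ∈ H' := hH1 (by simp)
  let e : Fin n ≃ H' := (Fintype.equivOfCardEq (by rw [Fintype.card_fin, Fintype.card_coe, hH3]))
  let C' : SimpleGraph (Fin n) := C.comap (fun i => (e i : W))
  have hdC : ∀ a, deg C' a = dg C (e a) H' := by
    intro a
    unfold deg dg
    refine Finset.card_bij (fun b _ => (e b : W)) ?_ ?_ ?_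
    · intro b hb
      rw [Finset.mem_filter] at hb ⊢
      exact ⟨(e b).2, hb.2⟩
    · intro b _ b' _ h
      exact e.injective (Subtype.ext h)
    · intro w hw
      rw [Finset.mem_filter] at hw
      refine ⟨e.symm ⟨w, hw.1⟩, ?_, by simp⟩
      rw [Finset.mem_filter]
      refine ⟨Finset.mem_univ _, ?_⟩
      show C.Adj (e a) (e (e.symm ⟨w, hw.1⟩))
      rw [Equiv.apply_symm_apply]
      exact hw.2
  have hC' : ∀ a, deg C' a ≤ ρ := by
    intro a
    rw [hdC]
    exact (dg_mono C _ hH2).trans (hρ _ (hH2 (e a).2))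
  let p : Fin n := e.symm ⟨x₀, hx₀'⟩
  have hp : deg C' p ≤ 1 := by
    rw [hdC]
    have : ((e p : H') : W) = x₀ := by simp [p]
    rw [this]
    exact (dg_mono C _ hH2).trans hx₁
  have hnn : Nonempty (Fin n) := ⟨⟨0, by omega⟩⟩
  obtain ⟨c, -, hc⟩ := Finset.exists_max_image (Finset.univ : Finset (Fin n)) (deg T)
    ⟨hnn.some, Finset.mem_univ _⟩
  have hJ : ∃ J : Finset (Fin n), (∀ z ∈ J, z ≠ c ∧ ¬ T.Adj c z) ∧ (∀ y ∈ J, ∀ z ∈ J, ¬ T.Adj y z) ∧
      (∀ z ∈ J, 16 * (ρ + 1) * deg T z ≤ n) ∧ J.card = deg C' p := by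
    rcases Nat.lt_or_ge 0 (deg C' p) with h | h
    · obtain ⟨z, hz1, hz2, hz3⟩ := exists_far_leaf T hT c (hdeg c)
      refine ⟨{z}, ?_, ?_, ?_, ?_⟩
      · intro y hy
        rw [Finset.mem_singleton] at hy
        subst hy
        exact ⟨hz1, hz2⟩
      · intro y hy y' hy'
        rw [Finset.mem_singleton] at hy hy'
        subst hy
        subst hy'
        exact T.irrefl
      · intro y hy
        rw [Finset.mem_singleton] at hy
        subst hy
        calc 16 * (ρ + 1) * deg T y ≤ 16 * (ρ + 1) * 1 := by gcongr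
          _ ≤ n := by omega
      · rw [Finset.card_singleton]
        omega
    · refine ⟨∅, by simp, by simp, by simp, ?_⟩
      rw [Finset.card_empty]
      omega
  obtain ⟨J, hJ1, hJ2, hJ3, hJ4⟩ := hJ
  obtain ⟨φ, hφ⟩ := h₀ n hn1 T C' hT hC' c (fun x => hc x (Finset.mem_univ _)) p J hJ1 hJ2 hJ3 hJ4
  refine contained_of_map (fun x => (e (φ x) : W)) ?_ ?_
  · intro x y h
    exact φ.injective (e.injective (Subtype.ext h))
  · intro x y h
    rw [compl_adj]
    refine ⟨fun hh => ?_, hφ x y h⟩
    exact h.ne (φ.injective (e.injective (Subtype.ext hh)))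

end H67.SG
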