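import Pool.Agent.H67.SG.Def

/-! # SG.GenP : many vertices of degree at least two give `t` disjoint paths with three vertices

Induction over the number `j` of paths: the vertices which lie on the previous paths or have a neighbour on them are at most
`3 j (ρ + 1)` many, so some vertex of `D` is neither; it and two of its neighbours give the next path. -/

namespace H67.SG

open SimpleGraph Pool.Agent.H62.Decomp

/-- `m` disjoint paths with three vertices -/
def paths3 (m : ℕ) : SimpleGraph (Fin m × Fin 3) where
  Adj x y := x.1 = y.1 ∧ (x.2.val + 1 = y.2.val ∨ y.2.val + 1 = x.2.val)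
  symm := ⟨fun _ _ h => ⟨h.1.symm, h.2.symm⟩⟩
  loopless := ⟨fun x h => by have := h.2; omega⟩

theorem genP_aux {W : Type} [Fintype W] (C : SimpleGraph W) (ρ t : ℕ) (hρ : ∀ x, deg C x ≤ ρ)
    (D : Finset W) (hD : ∀ x ∈ D, 2 ≤ deg C x) (hcard : 3 * t * (ρ + 1) < D.card) (j : ℕ) (hj : j ≤ t) :
    ∃ f : Fin j × Fin 3 → W, Function.Injective f ∧
      ∀ i, C.Adj (f (i, 0)) (f (i, 1)) ∧ C.Adj (f (i, 1)) (f (i, 2)) := by
  classical
  induction j with
  | zero => exact ⟨fun x => x.1.elim0, fun x => x.1.elim0, fun i => i.elim0⟩
  | succ j ih =>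
    obtain ⟨f, hf, hadj⟩ := ih (by omega)
    set U : Finset W := Finset.univ.image f with hU
    have hUc : U.card ≤ 3 * j := by
      refine Finset.card_image_le.trans ?_
      simp [Fintype.card_prod]
      omega
    set B : Finset W := U ∪ U.biUnion (fun u => Finset.univ.filter (fun y => C.Adj u y)) with hB
    have hBc : B.card ≤ 3 * j * (ρ + 1) := by
      refine (Finset.card_union_le _ _).trans ?_
      have h1 : (U.biUnion (fun u => Finset.univ.filter (fun y => C.Adj u y))).card ≤ U.card * ρ := by
        refine Finset.card_biUnion_le_card_mul _ _ _ ?_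
        intro u _
        have := hρ u
        unfold deg dg at this
        convert this using 2
      calc U.card + _ ≤ U.card + U.card * ρ := by gcongr
        _ = U.card * (ρ + 1) := by ring
        _ ≤ 3 * j * (ρ + 1) := by gcongr
    have hlt : B.card < D.card := by
      refine lt_of_le_of_lt hBc (lt_of_le_of_lt ?_ hcard)
      gcongr
      omega
    obtain ⟨x, hxD, hxB⟩ := Finset.exists_mem_notMem_of_card_lt_card hlt
    have hx2 : 1 < (Finset.univ.filter (fun y => C.Adj x y)).card := by
      have := hD x hxD
      unfold deg dg at this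
      have h2 : (Finset.univ.filter (fun y => C.Adj x y)).card =
        (Finset.filter (fun y => C.Adj x y) Finset.univ).card := rfl
      convert Nat.lt_of_lt_of_le Nat.one_lt_two this using 2
    obtain ⟨y, hy, z, hz, hyz⟩ := Finset.one_lt_card.1 hx2
    have hxy : C.Adj x y := (Finset.mem_filter.1 hy).2
    have hxz : C.Adj x z := (Finset.mem_filter.1 hz).2
    have hnx : ∀ a, f a ≠ x := by
      intro a h
      exact hxB (Finset.mem_union_left _ (h ▸ Finset.mem_image_of_mem f (Finset.mem_univ a)))
    have hnn : ∀ a w, C.Adj x w → f a ≠ w := by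
      intro a w hw h
      apply hxB
      refine Finset.mem_union_right _ ?_
      rw [Finset.mem_biUnion]
      exact ⟨f a, Finset.mem_image_of_mem f (Finset.mem_univ a),
        Finset.mem_filter.2 ⟨Finset.mem_univ _, h ▸ hw.symm⟩⟩
    let g : Fin 3 → W := ![y, x, z]
    have hg : Function.Injective g := by
      intro a b hab
      fin_cases a <;> fin_cases b <;> simp [g] at hab ⊢
      · exact hxy.ne hab.symm
      · exact hyz hab
      · exact hxy.ne hab
      · exact hxz.ne hab
      · exact hyz hab.symm
      · exact hxz.ne hab.symm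
    have hfg : ∀ a b, f a ≠ g b := by
      intro a b
      fin_cases b
      · exact hnn a y hxy
      · exact hnx a
      · exact hnn a z hxz
    refine ⟨fun a => Fin.lastCases (motive := fun _ => Fin 3 → W) g (fun i b => f (i, b)) a.1 a.2, ?_, ?_⟩
    · rintro ⟨a, b⟩ ⟨a', b'⟩ h
      induction a using Fin.lastCases with
      | last =>
        induction a' using Fin.lastCases with
        | last =>
          simp only [Fin.lastCases_last] at h
          rw [hg h]
        | cast a' =>
          simp only [Fin.lastCases_last, Fin.lastCases_castSucc] at h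
          exact absurd h.symm (hfg _ _)
      | cast a =>
        induction a' using Fin.lastCases with
        | last =>
          simp only [Fin.lastCases_last, Fin.lastCases_castSucc] at h
          exact absurd h (hfg _ _)
        | cast a' =>
          simp only [Fin.lastCases_castSucc] at h
          have := hf h
          simp only [Prod.mk.injEq] at this ⊢
          exact ⟨congrArg _ this.1, this.2⟩
    · intro i
      induction i using Fin.lastCases with
      | last =>
        simp only [Fin.lastCases_last]
        exact ⟨hxy.symm, hxz⟩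
      | cast i =>
        simp only [Fin.lastCases_castSucc]
        exact hadj i

theorem paths_of_deg {W : Type} [Fintype W] (C : SimpleGraph W) (ρ t : ℕ) (hρ : ∀ x, deg C x ≤ ρ)
    (D : Finset W) (hD : ∀ x ∈ D, 2 ≤ deg C x) (hcard : 3 * t * (ρ + 1) < D.card) :
    paths3 t ⊑ C := by
  obtain ⟨f, hf, hadj⟩ := genP_aux C ρ t hρ D hD hcard t le_rfl
  refine contained_of_map f hf ?_
  rintro ⟨i, a⟩ ⟨j, b⟩ ⟨h1, h2⟩
  simp only at h1 h2
  subst h1
  have h3 : (a = 0 ∧ b = 1) ∨ (a = 1 ∧ b = 0) ∨ (a = 1 ∧ b = 2) ∨ (a = 2 ∧ b = 1) := by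
    revert a b
    decide
  rcases h3 with ⟨rfl, rfl⟩ | ⟨rfl, rfl⟩ | ⟨rfl, rfl⟩ | ⟨rfl, rfl⟩
  · exact (hadj i).1
  · exact (hadj i).1.symm
  · exact (hadj i).2
  · exact (hadj i).2.symm

end H67.SG
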