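import Pool.Agent.H67.SG.Def

/-! # SG.StarMem : a vertex of large degree gives a member of B(G) (about 150 lines)

`hcol`: a proper colouring `f` of `G` with `k = χ(G)` colours, `f x = f v` only for `x = v`. Let `i ≠ f v` and `N = {x | G.Adj v x ∧ f x = i}`. Claim: if `C` on `W` has a vertex `x₀` with at least `|N|` neighbours and `card W ≥ card V`, then
`ContainsMember G C`. The colouring uses all `k` colours (otherwise `G` would be `(k-1)`-colourable; as in `exists_surj_coloring`: `card_le_chromaticNumber_iff_forall_surjective`). The graph `G.induce {x | f x = f v ∨ f x = i}` has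
vertices `v`, `N` and vertices of colour `i` not adjacent to `v`; its edges are the pairs `v x`, `x ∈ N`. Map `v ↦ x₀`, `N` injectively to neighbours of `x₀`, the remaining (at most `card V - 1 - |N|`) vertices injectively to
other vertices. `star_member` is this; `f` is stated with `Fin k` and `hk : G.chromaticNumber = k` (`subst`/cast: `G.chromaticNumber.toNat = k`).
`col_of_sing`: from a colouring of `G - v` with `Fin q` and `χ(G) = q + 1` build such an `f` (colour `v` with the last colour). -/

namespace H67.SG

open SimpleGraph Pool.Agent.H62.Decomp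

private theorem sm_inj {V : Type} [Fintype V] (G : SimpleGraph V) (v : V)
    {W : Type} [Fintype W] (C : SimpleGraph W) (x₀ : W) (P : V → Prop)
    (hx : {x | G.Adj v x ∧ P x}.ncard ≤ deg C x₀) (hW : Fintype.card V ≤ Fintype.card W) :
    ∃ g : V → W, Function.Injective g ∧ g v = x₀ ∧ ∀ x, G.Adj v x → P x → C.Adj x₀ (g x) := by
  classical
  set Nf : Finset V := Finset.univ.filter (fun x => G.Adj v x ∧ P x) with hNf
  set NC : Finset W := Finset.univ.filter (fun y => C.Adj x₀ y) with hNC
  have hcard : Fintype.card Nf ≤ Fintype.card NC := by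
    rw [Fintype.card_coe, Fintype.card_coe]
    have h1 : {x | G.Adj v x ∧ P x}.ncard = Nf.card := by
      rw [← Set.ncard_coe_finset]
      congr 1
      ext x
      simp [hNf]
    have h2 : deg C x₀ = NC.card := by
      rw [hNC]
      unfold deg dg
      congr 1
    omega
  obtain ⟨e⟩ := Function.Embedding.nonempty_of_card_le hcard
  set f0 : V → W := fun x => if h : x ∈ Nf then (e ⟨x, h⟩ : W) else x₀ with hf0
  have hvN : v ∉ Nf := by
    simp [hNf]
  have hf0v : f0 v = x₀ := by
    rw [hf0]
    exact dif_neg hvN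
  have hf0N : ∀ x (h : x ∈ Nf), f0 x = (e ⟨x, h⟩ : W) := by
    intro x h
    rw [hf0]
    exact dif_pos h
  have hadj : ∀ x (h : x ∈ Nf), C.Adj x₀ (f0 x) := by
    intro x h
    rw [hf0N x h]
    exact (Finset.mem_filter.1 (e ⟨x, h⟩).2).2
  have hinj : Set.InjOn f0 (insert v Nf : Finset V) := by
    intro x hx y hy hxy
    rw [Finset.mem_coe, Finset.mem_insert] at hx hy
    rcases hx with hx | hx
    · rcases hy with hy | hy
      · rw [hx, hy]
      · have h1 := hadj y hy
        rw [← hxy, hx, hf0v] at h1
        exact absurd rfl h1.ne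
    · rcases hy with hy | hy
      · have h1 := hadj x hx
        rw [hxy, hy, hf0v] at h1
        exact absurd rfl h1.ne
      · rw [hf0N x hx, hf0N y hy] at hxy
        have h1 := e.injective (Subtype.ext hxy)
        exact congrArg Subtype.val h1
  have hle : ((insert v Nf).image f0).card ≤ Fintype.card V :=
    Finset.card_image_le.trans (Finset.card_le_univ _)
  obtain ⟨t, ht1, -, ht2⟩ := Finset.exists_subsuperset_card_eq
    (Finset.subset_univ ((insert v Nf).image f0)) hle (by rw [Finset.card_univ]; exact hW)
  obtain ⟨g, hg⟩ := Finset.exists_equiv_extend_of_card_eq (ht2.symm) ht1 hinj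
  refine ⟨fun x => (g x : W), fun x y h => g.injective (Subtype.ext h), ?_, ?_⟩
  · show (g v : W) = x₀
    rw [hg v (Finset.mem_insert_self _ _), hf0v]
  · intro x h1 h2
    have hxN : x ∈ Nf := by
      rw [hNf, Finset.mem_filter]
      exact ⟨Finset.mem_univ _, h1, h2⟩
    show C.Adj x₀ (g x : W)
    rw [hg x (Finset.mem_insert_of_mem hxN)]
    exact hadj x hxN

theorem star_member {V : Type} [Fintype V] (G : SimpleGraph V) (k : ℕ) (hk : G.chromaticNumber = k)
    (f : G.Coloring (Fin k)) (v : V) (hf : ∀ x, f x = f v → x = v) (i : Fin k) (hi : i ≠ f v)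
    {W : Type} [Fintype W] (C : SimpleGraph W) (x₀ : W)
    (hx : {x | G.Adj v x ∧ f x = i}.ncard ≤ deg C x₀) (hW : Fintype.card V ≤ Fintype.card W) :
    ContainsMember G C := by
  classical
  have hk' : G.chromaticNumber.toNat = k := by rw [hk]; rfl
  subst hk'
  have hsurj : Function.Surjective f := by
    have h2 := (card_le_chromaticNumber_iff_forall_surjective (G := G)
      (α := Fin G.chromaticNumber.toNat)).mp
    exact h2 (by rw [Fintype.card_fin, ← hk]) f
  refine ⟨f, f v, i, hsurj, hi.symm, ?_⟩
  obtain ⟨g, hgi, hgv, hgn⟩ := sm_inj G v C x₀ (fun x => f x = i) hx hW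
  refine contained_of_map (fun x => g x.1) (fun x y h => Subtype.ext (hgi h)) ?_
  rintro ⟨x, hx1⟩ ⟨y, hy1⟩ hxy
  have hadj : G.Adj x y := hxy
  have hne : f x ≠ f y := f.valid hadj
  rcases hx1 with h1 | h1
  · have hxv : x = v := hf x h1
    subst hxv
    rcases hy1 with h2 | h2
    · exact absurd h2.symm hne
    · have h3 := hgn y hadj h2
      show C.Adj (g x) (g y)
      rw [hgv]
      exact h3
  · rcases hy1 with h2 | h2
    · have hyv : y = v := hf y h2
      subst hyv
      have h3 := hgn x hadj.symm h1
      show C.Adj (g x) (g y)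
      rw [hgv]
      exact h3.symm
    · exact absurd (h1.trans h2.symm) hne

theorem col_of_sing {V : Type} [Fintype V] (G : SimpleGraph V) (q : ℕ) (v : V)
    (hv : (G.induce {x | x ≠ v}).Colorable q) :
    ∃ f : G.Coloring (Fin (q + 1)), (∀ x, f x = f v → x = v) ∧ f v = Fin.last q := by
  classical
  obtain ⟨c⟩ := hv
  have key : ∀ {x y : V}, G.Adj x y →
      (if h : x = v then Fin.last q else (c ⟨x, h⟩).castSucc) ≠
        (if h : y = v then Fin.last q else (c ⟨y, h⟩).castSucc) := by
    intro x y hxy
    by_cases hx : x = v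
    · have hy : y ≠ v := by
        rintro rfl
        exact hxy.ne hx
      rw [dif_pos hx, dif_neg hy]
      exact (Fin.castSucc_lt_last _).ne'
    · by_cases hy : y = v
      · rw [dif_neg hx, dif_pos hy]
        exact (Fin.castSucc_lt_last _).ne
      · rw [dif_neg hx, dif_neg hy]
        intro h
        have h1 := Fin.castSucc_injective q h
        have h2 : (G.induce {x | x ≠ v}).Adj ⟨x, hx⟩ ⟨y, hy⟩ := hxy
        exact c.valid h2 h1
  refine ⟨Coloring.mk (fun x => if h : x = v then Fin.last q else (c ⟨x, h⟩).castSucc) key, ?_, ?_⟩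
  · intro x hx
    by_contra hne
    have h1 : (if h : x = v then Fin.last q else (c ⟨x, h⟩).castSucc) =
      (if h : v = v then Fin.last q else (c ⟨v, h⟩).castSucc) := hx
    rw [dif_neg hne, dif_pos rfl] at h1
    exact (Fin.castSucc_lt_last _).ne h1
  · show (if h : v = v then Fin.last q else (c ⟨v, h⟩).castSucc) = Fin.last q
    rw [dif_pos rfl]

theorem sing_of_col {V : Type} [Fintype V] (G : SimpleGraph V) (q : ℕ) (v : V)
    (f : G.Coloring (Fin (q + 1))) (hf : ∀ x, f x = f v → x = v) :
    (G.induce {x | x ≠ v}).Colorable q := by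
  refine ⟨Coloring.mk (fun x => (finSuccAboveEquiv (f v)).symm
    ⟨f x.1, fun h => x.2 (hf _ h)⟩) ?_⟩
  intro x y hxy h
  have h1 := (finSuccAboveEquiv (f v)).symm.injective h
  have h2 : f x.1 = f y.1 := congrArg Subtype.val h1
  have h3 : G.Adj x.1 y.1 := hxy
  exact f.valid h3 h2

end H67.SG
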