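import Pool.Agent.H67.SG.GenE
import Pool.Agent.H67.SG.GenP
import Pool.Agent.H67.SG.StarMem
import Pool.Agent.H67.SG.Ram

/-! # SG.GenN : upper bounds for r(B(G),T) when B(G) has a member inside `t P_3`

A graph without a member of `B(G)` has bounded degrees (`star_member`) and only boundedly many vertices of degree at least two
(`paths_of_deg`), so it has a vertex of degree at most one. -/

namespace H67.SG

open SimpleGraph Pool.Agent.H62.Decomp

theorem star_center {n : ℕ} (T : SimpleGraph (Fin n)) (c : Fin n) (hc : deg T c = n - 1) :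
    ∀ v, v ≠ c → T.Adj c v := by
  classical
  have h1 : Finset.univ.filter (fun y => T.Adj c y) ⊆ Finset.univ.erase c := by
    intro y hy
    rw [Finset.mem_filter] at hy
    exact Finset.mem_erase.2 ⟨hy.2.ne', Finset.mem_univ _⟩
  have h2 : (Finset.univ.filter (fun y => T.Adj c y)).card = n - 1 := by
    rw [← hc]
    unfold deg dg
    congr
  have h3 : Finset.univ.filter (fun y => T.Adj c y) = Finset.univ.erase c := by
    refine Finset.eq_of_subset_of_card_le h1 ?_
    rw [Finset.card_erase_of_mem (Finset.mem_univ _), Finset.card_univ, Fintype.card_fin, h2]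
  intro v hv
  have : v ∈ Finset.univ.filter (fun y => T.Adj c y) := by
    rw [h3]
    exact Finset.mem_erase.2 ⟨hv, Finset.mem_univ _⟩
  exact (Finset.mem_filter.1 this).2

theorem star_edges {n : ℕ} (T : SimpleGraph (Fin n)) (hT : T.IsTree) (c : Fin n)
    (hc : deg T c = n - 1) (u v : Fin n) (h : T.Adj u v) : u = c ∨ v = c := by
  obtain ⟨rk, par, hR⟩ := tree_root T hT c
  have hpar : ∀ v, v ≠ c → par v = c := by
    intro v hv
    have hcv := star_center T c hc v hv
    rcases lt_trichotomy (rk c) (rk v) with h1 | h1 | h1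
    · exact (hR.uniq c v hcv h1).2.symm
    · exact absurd (hR.inj h1).symm hv
    · exact absurd rfl (hR.uniq v c hcv.symm h1).1
  by_contra hn
  rw [not_or] at hn
  rcases lt_trichotomy (rk u) (rk v) with h1 | h1 | h1
  · have := (hR.uniq u v h h1).2
    rw [hpar v hn.2] at this
    exact hn.1 this
  · exact h.ne (hR.inj h1)
  · have := (hR.uniq v u h.symm h1).2
    rw [hpar u hn.1] at this
    exact hn.2 this

/-- a star is contained in a graph with a vertex of degree `n - 1` -/
theorem star_sub {n : ℕ} (T : SimpleGraph (Fin n)) (hT : T.IsTree) (c : Fin n)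
    (hc : deg T c = n - 1) {W : Type} (F : SimpleGraph W) (S : Finset W) (x₀ : W)
    (h : n - 1 ≤ dg F x₀ S) : T ⊑ F := by
  classical
  have hcard : Fintype.card {v : Fin n // v ≠ c} ≤
      Fintype.card (S.filter (fun y => F.Adj x₀ y) : Finset W) := by
    rw [Fintype.card_coe, Fintype.card_subtype_compl, Fintype.card_fin]
    simp only [Fintype.card_unique]
    refine h.trans (le_of_eq ?_)
    unfold dg
    congr
  obtain ⟨g⟩ := Function.Embedding.nonempty_of_card_le hcard
  refine contained_of_map (fun v => if hv : v = c then x₀ else (g ⟨v, hv⟩ : W)) ?_ ?_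
  · intro a b hab
    by_cases ha : a = c <;> by_cases hb : b = c
    · rw [ha, hb]
    · exfalso
      simp only [ha, hb, dif_pos, dif_neg, not_false_eq_true] at hab
      have := (Finset.mem_filter.1 (g ⟨b, hb⟩).2).2
      rw [← hab] at this
      exact F.irrefl this
    · exfalso
      simp only [ha, hb, dif_pos, dif_neg, not_false_eq_true] at hab
      have := (Finset.mem_filter.1 (g ⟨a, ha⟩).2).2
      rw [hab] at this
      exact F.irrefl this
    · simp only [ha, hb, dif_neg, not_false_eq_true] at hab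
      have := g.injective (Subtype.ext hab)
      exact congrArg Subtype.val this
  · intro a b hab
    rcases star_edges T hT c hc a b hab with ha | hb
    · have hb : b ≠ c := fun hb => hab.ne (ha.trans hb.symm)
      simp only [ha, hb, dif_pos, dif_neg, not_false_eq_true]
      exact (Finset.mem_filter.1 (g ⟨b, hb⟩).2).2
    · have ha : a ≠ c := fun ha => hab.ne (ha.trans hb.symm)
      simp only [ha, hb, dif_pos, dif_neg, not_false_eq_true]
      exact ((Finset.mem_filter.1 (g ⟨a, ha⟩).2).2).symm

theorem containsMember_mono {V : Type} (G : SimpleGraph V) {W W' : Type} (C : SimpleGraph W)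
    (C' : SimpleGraph W') (h : C ⊑ C') (hC : ContainsMember G C) : ContainsMember G C' := by
  obtain ⟨c, i, j, h1, h2, h3⟩ := hC
  exact ⟨c, i, j, h1, h2, h3.trans h⟩

/-- a graph without member has a vertex of degree at most one -/
theorem exists_deg_le_one {V : Type} [Fintype V] (G : SimpleGraph V) (k : ℕ) (hk3 : 3 ≤ k)
    (hk : G.chromaticNumber = k) (v : V) (hv : (G.induce {x | x ≠ v}).Colorable (k - 1)) (t : ℕ)
    (hP : ContainsMember G (paths3 t)) {W : Type} [Fintype W] (C : SimpleGraph W)
    (hW : Fintype.card V ≤ Fintype.card W) (hW' : 3 * t * (Fintype.card V + 1) < Fintype.card W)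
    (hC : ¬ ContainsMember G C) : (∀ x, deg C x ≤ Fintype.card V) ∧ ∃ x, deg C x ≤ 1 := by
  classical
  obtain ⟨q, rfl⟩ : ∃ q, k = q + 1 := ⟨k - 1, by omega⟩
  rw [Nat.add_sub_cancel] at hv
  obtain ⟨f, hf, hfl⟩ := col_of_sing G q v hv
  have hdeg : ∀ x, deg C x ≤ Fintype.card V := by
    intro x
    by_contra hx
    apply hC
    have hi : (0 : Fin (q + 1)) ≠ f v := by
      rw [hfl]
      intro h
      have := congrArg Fin.val h
      simp at this
      omega
    refine star_member G (q + 1) hk f v hf 0 hi C x ?_ hW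
    refine le_trans ?_ (not_le.1 hx).le
    refine (Set.ncard_le_card _).trans ?_
    rw [Nat.card_eq_fintype_card]
  refine ⟨hdeg, ?_⟩
  by_contra hno
  push Not at hno
  apply hC
  refine containsMember_mono G (paths3 t) C ?_ hP
  refine paths_of_deg C (Fintype.card V) t hdeg Finset.univ (fun x _ => hno x) ?_
  rw [Finset.card_univ]
  exact hW'

theorem class_le_other {V : Type} [Fintype V] (G : SimpleGraph V) (k : ℕ) (hk3 : 3 ≤ k)
    (hk : G.chromaticNumber = k) (v : V) (hv : (G.induce {x | x ≠ v}).Colorable (k - 1)) (t : ℕ)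
    (hP : ContainsMember G (paths3 t)) :
    ∃ n₀ : ℕ, ∀ n : ℕ, n₀ ≤ n → ∀ T : SimpleGraph (Fin n), T.IsTree → (∀ x, deg T x < n - 1) →
      classRamsey G T ≤ n := by
  obtain ⟨n₁, h₁⟩ := emb_one_gen (Fintype.card V)
  refine ⟨n₁ + Fintype.card V + 3 * t * (Fintype.card V + 1) + 1, fun n hn T hT hdeg => ?_⟩
  refine class_le G T n (fun C => ?_)
  by_contra hcon
  rw [not_or] at hcon
  obtain ⟨h2, x, hx⟩ := exists_deg_le_one G k hk3 hk v hv t hP C
    (by rw [Fintype.card_fin]; omega) (by rw [Fintype.card_fin]; omega) hcon.1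
  refine hcon.2 (h₁ n (by omega) T hT hdeg (Fin n) C Finset.univ ?_ (fun x _ => h2 x)
    ⟨x, Finset.mem_univ _, hx⟩)
  rw [Finset.card_univ, Fintype.card_fin]

theorem class_le_star {V : Type} [Fintype V] (G : SimpleGraph V) (k : ℕ) (hk3 : 3 ≤ k)
    (hk : G.chromaticNumber = k) (v : V) (hv : (G.induce {x | x ≠ v}).Colorable (k - 1)) (t : ℕ)
    (hP : ContainsMember G (paths3 t)) :
    ∃ n₀ : ℕ, ∀ n : ℕ, n₀ ≤ n → ∀ T : SimpleGraph (Fin n), T.IsTree → (∃ x, deg T x = n - 1) →
      classRamsey G T ≤ n + 1 := by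
  refine ⟨Fintype.card V + 3 * t * (Fintype.card V + 1) + 1, fun n hn T hT ⟨c, hc⟩ => ?_⟩
  refine class_le G T (n + 1) (fun C => ?_)
  by_contra hcon
  rw [not_or] at hcon
  obtain ⟨h2, x, hx⟩ := exists_deg_le_one G k hk3 hk v hv t hP C
    (by rw [Fintype.card_fin]; omega) (by rw [Fintype.card_fin]; omega) hcon.1
  refine hcon.2 (star_sub T hT c hc Cᶜ Finset.univ x ?_)
  have h3 := dg_compl_of_mem C x Finset.univ (Finset.mem_univ _)
  have h4 := dg_add_nd C x Finset.univ
  rw [Finset.card_univ, Fintype.card_fin] at h4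
  unfold deg at hx
  omega

end H67.SG
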