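import Pool.Agent.H67.SG.GenN

/-! # SG.GenQ : r(B'(G),T) = r(B(G),T) when B(G) has a member inside `t P_3`

`k = χ(G)`.  Members of `B(G)` are parts `G[s]` with `G - s` `(k-2)`-colourable; in a bipartite graph the converse is true.
For a star `T` both numbers are `n` or `n + 1`; if `r(B(G),T) = n + 1`, there is a red graph on `n` vertices without a member
and without isolated vertices, and a spanning bipartite subgraph without isolated vertices (maximal cut) shows
`r(B'(G),T) = n + 1`. -/

namespace H67.SG

open SimpleGraph Pool.Agent.H62.Decomp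

theorem part_of_member {V : Type} [Fintype V] (G : SimpleGraph V) {W : Type} (C : SimpleGraph W)
    (h : ContainsMember G C) : ContainsPart G (G.chromaticNumber.toNat - 2) C := by
  classical
  obtain ⟨c, i, j, h1, h2, h3⟩ := h
  refine ⟨{x | c x = i ∨ c x = j}, ?_, h3⟩
  have hcard : Fintype.card {a : Fin G.chromaticNumber.toNat // a ≠ i ∧ a ≠ j} =
      G.chromaticNumber.toNat - 2 := by
    rw [Fintype.card_subtype]
    have : Finset.univ.filter (fun a : Fin G.chromaticNumber.toNat => a ≠ i ∧ a ≠ j) =
        (Finset.univ.erase i).erase j := by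
      ext a
      simp [and_comm]
    rw [this, Finset.card_erase_of_mem (by simp [h2.symm]), Finset.card_erase_of_mem (by simp),
      Finset.card_univ, Fintype.card_fin]
    rfl
  rw [← hcard]
  let g : (G.induce {x | c x = i ∨ c x = j}ᶜ).Coloring
      {a : Fin G.chromaticNumber.toNat // a ≠ i ∧ a ≠ j} :=
    Coloring.mk (fun x => ⟨c x.1, by
      have := x.2
      rw [Set.mem_compl_iff, Set.mem_ofPred_eq, not_or] at this
      exact this⟩) (by
      intro x y hxy heq
      exact c.valid hxy (congrArg Subtype.val heq))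
  exact g.colorable

theorem surj_of_chi {V : Type} [Fintype V] (G : SimpleGraph V)
    (c : G.Coloring (Fin G.chromaticNumber.toNat)) : Function.Surjective c := by
  have hne : G.chromaticNumber ≠ ⊤ := by
    rw [chromaticNumber_ne_top_iff_exists]
    exact ⟨_, G.colorable_of_fintype⟩
  have h1 : ((G.chromaticNumber.toNat : ℕ) : ℕ∞) = G.chromaticNumber := ENat.natCast_toNat hne
  have h2 := (card_le_chromaticNumber_iff_forall_surjective (G := G)
    (α := Fin G.chromaticNumber.toNat)).mp
  exact h2 (by rw [Fintype.card_fin, h1]) c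

theorem member_of_part_bip {V : Type} [Fintype V] (G : SimpleGraph V)
    (hk : 2 ≤ G.chromaticNumber.toNat) {W : Type} (C : SimpleGraph W) (b : W → Bool)
    (hb : ∀ x y, C.Adj x y → b x ≠ b y) (h : ContainsPart G (G.chromaticNumber.toNat - 2) C) :
    ContainsMember G C := by
  classical
  obtain ⟨s, ⟨g⟩, ⟨f⟩⟩ := h
  have hcard : Fintype.card (Bool ⊕ Fin (G.chromaticNumber.toNat - 2)) =
      Fintype.card (Fin G.chromaticNumber.toNat) := by
    simp
    omega
  let e : Bool ⊕ Fin (G.chromaticNumber.toNat - 2) ≃ Fin G.chromaticNumber.toNat :=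
    Fintype.equivOfCardEq hcard
  let col : V → Bool ⊕ Fin (G.chromaticNumber.toNat - 2) := fun x =>
    if hx : x ∈ s then Sum.inl (b (f ⟨x, hx⟩)) else Sum.inr (g ⟨x, hx⟩)
  have hcol : ∀ x y, G.Adj x y → col x ≠ col y := by
    intro x y hxy
    by_cases hx : x ∈ s <;> by_cases hy : y ∈ s
    · simp only [col, hx, hy, dif_pos, ne_eq, Sum.inl.injEq]
      have hadj : (G.induce s).Adj ⟨x, hx⟩ ⟨y, hy⟩ := hxy
      exact hb _ _ (f.toHom.map_rel hadj)
    · simp [col, hx, hy]
    · simp [col, hx, hy]
    · simp only [col, hx, hy, dif_neg, not_false_eq_true, ne_eq, Sum.inr.injEq]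
      have hadj : (G.induce sᶜ).Adj ⟨x, hx⟩ ⟨y, hy⟩ := hxy
      exact g.valid hadj
  let c : G.Coloring (Fin G.chromaticNumber.toNat) :=
    Coloring.mk (fun x => e (col x)) (fun {x y} hxy heq => hcol x y hxy (e.injective heq))
  have hset : {x | c x = e (Sum.inl false) ∨ c x = e (Sum.inl true)} = s := by
    ext x
    have hc : c x = e (col x) := rfl
    rw [Set.mem_ofPred_eq, hc, e.injective.eq_iff, e.injective.eq_iff]
    by_cases hx : x ∈ s
    · simp only [col, hx, dif_pos, Sum.inl.injEq, iff_true]
      cases b (f ⟨x, hx⟩) <;> simp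
    · simp [col, hx]
  refine ⟨c, e (Sum.inl false), e (Sum.inl true), surj_of_chi G c, ?_, ?_⟩
  · intro h
    have := e.injective h
    simp at this
  · rw [hset]
    exact ⟨f⟩

theorem not_part_bot {V : Type} [Fintype V] (G : SimpleGraph V)
    (hk : 2 ≤ G.chromaticNumber.toNat) (W : Type) :
    ¬ ContainsPart G (G.chromaticNumber.toNat - 2) (⊥ : SimpleGraph W) := by
  classical
  rintro ⟨s, ⟨g⟩, ⟨f⟩⟩
  let col : V → Option (Fin (G.chromaticNumber.toNat - 2)) := fun x =>
    if hx : x ∈ s then none else some (g ⟨x, hx⟩)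
  have hcol : ∀ x y, G.Adj x y → col x ≠ col y := by
    intro x y hxy
    by_cases hx : x ∈ s <;> by_cases hy : y ∈ s
    · have hadj : (G.induce s).Adj ⟨x, hx⟩ ⟨y, hy⟩ := hxy
      exact absurd (f.toHom.map_rel hadj) (by simp)
    · simp [col, hx, hy]
    · simp [col, hx, hy]
    · simp only [col, hx, hy, dif_neg, not_false_eq_true, ne_eq, Option.some.injEq]
      have hadj : (G.induce sᶜ).Adj ⟨x, hx⟩ ⟨y, hy⟩ := hxy
      exact g.valid hadj
  let c : G.Coloring (Option (Fin (G.chromaticNumber.toNat - 2))) :=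
    Coloring.mk col (fun {x y} hxy => hcol x y hxy)
  have h1 := c.colorable
  have h2 : Fintype.card (Option (Fin (G.chromaticNumber.toNat - 2))) =
      G.chromaticNumber.toNat - 1 := by
    rw [Fintype.card_option, Fintype.card_fin]
    omega
  rw [h2] at h1
  have h3 := chromaticNumber_le_iff_colorable.2 h1
  have hne : G.chromaticNumber ≠ ⊤ := by
    rw [chromaticNumber_ne_top_iff_exists]
    exact ⟨_, G.colorable_of_fintype⟩
  have h4 : ((G.chromaticNumber.toNat : ℕ) : ℕ∞) = G.chromaticNumber := ENat.natCast_toNat hne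
  rw [← h4] at h3
  have h5 : G.chromaticNumber.toNat ≤ G.chromaticNumber.toNat - 1 := by exact_mod_cast h3
  omega

theorem le_partRamsey {V : Type} [Fintype V] (G : SimpleGraph V)
    (hk : 2 ≤ G.chromaticNumber.toNat) {n : ℕ} (T : SimpleGraph (Fin n)) :
    n ≤ partRamsey G (G.chromaticNumber.toNat - 2) T := by
  rcases Nat.eq_zero_or_pos n with rfl | hn
  · exact Nat.zero_le _
  · have h := lt_part G (G.chromaticNumber.toNat - 2) T (⊥ : SimpleGraph (Fin (n - 1)))
      (not_part_bot G hk _) (by
        rintro ⟨f⟩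
        have := Fintype.card_le_of_injective f f.injective
        rw [Fintype.card_fin, Fintype.card_fin] at this
        omega)
    rw [Fintype.card_fin] at h
    omega

theorem partRamsey_le_class {V : Type} [Fintype V] (G : SimpleGraph V)
    (hk : 2 ≤ G.chromaticNumber.toNat) {n : ℕ} (T : SimpleGraph (Fin n)) :
    partRamsey G (G.chromaticNumber.toNat - 2) T ≤ classRamsey G T := by
  refine part_le G _ T _ (fun C => ?_)
  rcases class_spec G hk T C (by rw [Fintype.card_fin]) with h | h
  · exact Or.inl (part_of_member G C h)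
  · exact Or.inr h

theorem exists_cut {W : Type} [Fintype W] (H : SimpleGraph W) (h : ∀ x, ∃ y, H.Adj x y) :
    ∃ b : W → Bool, ∀ x, ∃ y, H.Adj x y ∧ b x ≠ b y := by
  classical
  let w : (W → Bool) → ℕ := fun b =>
    (Finset.univ.filter (fun p : W × W => H.Adj p.1 p.2 ∧ b p.1 ≠ b p.2)).card
  obtain ⟨b, -, hb⟩ := Finset.exists_max_image (Finset.univ : Finset (W → Bool)) w
    ⟨fun _ => false, Finset.mem_univ _⟩
  refine ⟨b, fun x => ?_⟩
  by_contra hno
  push Not at hno
  obtain ⟨y₀, hy₀⟩ := h x
  let b' : W → Bool := Function.update b x (!b x)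
  have h1 : w b < w b' := by
    refine Finset.card_lt_card ?_
    rw [Finset.ssubset_iff_of_subset]
    · refine ⟨(x, y₀), ?_, ?_⟩
      · rw [Finset.mem_filter]
        refine ⟨Finset.mem_univ _, hy₀, ?_⟩
        show b' x ≠ b' y₀
        have hne : y₀ ≠ x := hy₀.ne'
        simp only [b', Function.update_self, Function.update_of_ne hne]
        rw [hno y₀ hy₀]
        cases b y₀ <;> simp
      · rw [Finset.mem_filter]
        rintro ⟨-, -, h3⟩
        exact h3 (hno y₀ hy₀)
    · rintro ⟨u, v⟩ huv
      rw [Finset.mem_filter] at huv ⊢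
      obtain ⟨-, h2, h3⟩ := huv
      simp only at h2 h3 ⊢
      refine ⟨Finset.mem_univ _, h2, ?_⟩
      have hu : u ≠ x := by
        rintro rfl
        exact h3 (hno v h2)
      have hv : v ≠ x := by
        rintro rfl
        exact h3 (hno u h2.symm).symm
      simp only [b', Function.update_of_ne hu, Function.update_of_ne hv]
      exact h3
  exact absurd (hb b' (Finset.mem_univ _)) (not_le.2 h1)

/-- the key step for stars -/
theorem lt_partRamsey_star {V : Type} [Fintype V] (G : SimpleGraph V)
    (hk : 2 ≤ G.chromaticNumber.toNat) {n : ℕ} (hn : 1 ≤ n) (T : SimpleGraph (Fin n)) (hT : T.IsTree)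
    (c : Fin n) (hc : deg T c = n - 1) (h : n < classRamsey G T) :
    n < partRamsey G (G.chromaticNumber.toNat - 2) T := by
  classical
  have h1 : ∃ C : SimpleGraph (Fin n), ¬ ContainsMember G C ∧ ¬ T ⊑ Cᶜ := by
    by_contra hno
    push Not at hno
    have : classRamsey G T ≤ n := class_le G T n (fun C => by
      by_cases hm : ContainsMember G C
      · exact Or.inl hm
      · exact Or.inr (hno C hm))
    omega
  obtain ⟨C, hC1, hC2⟩ := h1
  have hnb : ∀ x, ∃ y, C.Adj x y := by
    intro x
    by_contra hx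
    push Not at hx
    apply hC2
    refine star_sub T hT c hc Cᶜ Finset.univ x ?_
    have h3 := dg_compl_of_mem C x Finset.univ (Finset.mem_univ _)
    have h4 := dg_add_nd C x Finset.univ
    have h5 : dg C x Finset.univ = 0 := by
      unfold dg
      rw [Finset.card_eq_zero, Finset.filter_eq_empty_iff]
      intro y _
      exact hx y
    rw [Finset.card_univ, Fintype.card_fin] at h4
    omega
  obtain ⟨b, hb⟩ := exists_cut C hnb
  let C' : SimpleGraph (Fin n) :=
    { Adj := fun x y => C.Adj x y ∧ b x ≠ b y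
      symm := ⟨fun x y h => ⟨h.1.symm, h.2.symm⟩⟩
      loopless := ⟨fun x h => C.irrefl h.1⟩ }
  have hC'C : C' ⊑ C := contained_of_map id Function.injective_id (fun x y h => h.1)
  have h2 := lt_part G (G.chromaticNumber.toNat - 2) T C' (fun hp => hC1
      (containsMember_mono G C' C hC'C (member_of_part_bip G hk C' b (fun x y h => h.2) hp))) (by
    rintro ⟨f⟩
    have hbij : Function.Bijective f := (Finite.injective_iff_bijective).1 f.injective
    obtain ⟨y, hy1, hy2⟩ := hb (f c)
    obtain ⟨z, rfl⟩ := hbij.2 y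
    have hzc : z ≠ c := by
      rintro rfl
      exact C.irrefl hy1
    have := f.toHom.map_rel (star_center T c hc z hzc)
    rw [compl_adj] at this
    exact this.2 ⟨hy1, hy2⟩)
  rwa [Fintype.card_fin] at h2

theorem part_eq_class {V : Type} [Fintype V] (G : SimpleGraph V) (k : ℕ) (hk3 : 3 ≤ k)
    (hk : G.chromaticNumber = k) (v : V) (hv : (G.induce {x | x ≠ v}).Colorable (k - 1)) (t : ℕ)
    (hP : ContainsMember G (paths3 t)) :
    ∃ n₀ : ℕ, ∀ n : ℕ, n₀ ≤ n → ∀ T : SimpleGraph (Fin n), T.IsTree →
      partRamsey G (k - 2) T = classRamsey G T ∧ classRamsey G T ≤ n + 1 := by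
  have hkn : G.chromaticNumber.toNat = k := by rw [hk]; rfl
  obtain ⟨n₁, h₁⟩ := class_le_other G k hk3 hk v hv t hP
  obtain ⟨n₂, h₂⟩ := class_le_star G k hk3 hk v hv t hP
  refine ⟨n₁ + n₂ + 1, fun n hn T hT => ?_⟩
  have h3 := le_partRamsey G (by omega) T
  have h4 := partRamsey_le_class G (by omega) T
  by_cases hs : ∃ x, deg T x = n - 1
  · have h5 := h₂ n (by omega) T hT hs
    obtain ⟨c, hc⟩ := hs
    have h6 := lt_partRamsey_star G (by omega) (by omega) T hT c hc
    rw [hkn] at h3 h4 h6
    refine ⟨?_, h5⟩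
    by_cases h7 : n < classRamsey G T
    · have := h6 h7
      omega
    · omega
  · have hdeg : ∀ x, deg T x < n - 1 := by
      intro x
      have h7 : deg T x ≤ n - 1 := by
        have h8 := dg_add_nd T x Finset.univ
        have h9 := dg_compl_of_mem T x Finset.univ (Finset.mem_univ _)
        rw [Finset.card_univ, Fintype.card_fin] at h8
        unfold deg
        omega
      push Not at hs
      exact lt_of_le_of_ne h7 (hs x)
    have h5 := h₁ n (by omega) T hT hdeg
    rw [hkn] at h3 h4
    omega

end H67.SG
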