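import Pool.Agent.H67.SG.TwoNb
import Pool.Agent.H67.SG.MJE
import Pool.Agent.H67.SG.Join

/-! # SG.PartC : exact values when v has at most two neighbours in another class (about 250 lines)

`q = k - 1`. Let `C` on `W`, `card W ≥ q (n-1) + 1`, contain no `G` and no blue `T`; `core` with large `K`: `c₀`, `g`; `inner_le_one`: red degrees inside the parts are `≤ 1`. If `|part c₀ i| ≥ n` then all inner red degrees are exactly `1` (core), and
`|part c₀ i| ≤ n`: otherwise every vertex has at least `n + 1 - 1 - 1 = n - 1` blue neighbours in the part, `greedy_min`. So `|part c₀ i| = n`, `n` is even (a graph with all degrees `1` on `n` vertices: `Σ deg = n` is even, or the partner is a fixed point free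
involution), and `T` has a vertex of degree `n - 1` (otherwise `emb_one`). Hence `upper_other`: for `n` odd or `T` not a star all parts have at most `n - 1` elements, contradiction with `card W ≥ q (n-1) + 1`; with `chi_lower` the value is `q (n-1) + 1`. `upper_star`: `n` even, `T` a star,
`MJ G q (c+1)`, `c < q`: at least `c + 1` parts have `n` elements if `card W ≥ q (n-1) + c + 1`: `contained_of_matchings` for `c + 1` of them, contradiction; if `c = q`: `card W ≥ q (n-1) + q + 1` is impossible. With `mj_lower`: the value `q (n-1) + 1 + c`. -/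

namespace H67.SG

open SimpleGraph Pool.Agent.H62.Decomp

private theorem PartC_sum {W : Type} [Fintype W] {q : ℕ} (c : W → Fin q) :
    ∑ j, (part c j).card = Fintype.card W := by
  classical
  have h := Finset.card_eq_sum_card_fiberwise (f := c) (s := (Finset.univ : Finset W))
    (t := (Finset.univ : Finset (Fin q))) (fun _ _ => Finset.mem_coe.2 (Finset.mem_univ _))
  rw [Finset.card_univ] at h
  rw [h]
  refine Finset.sum_congr rfl fun j _ => ?_
  unfold part
  congr 1

private theorem PartC_mem {W : Type} [Fintype W] {q : ℕ} (c : W → Fin q) (j : Fin q) (x : W) :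
    x ∈ part c j ↔ c x = j := by
  classical
  unfold part
  simp

/-- a graph all whose degrees inside `S` are one: `S` has an even number of elements -/
private theorem PartC_even {W : Type} (C : SimpleGraph W) (S : Finset W)
    (h : ∀ x ∈ S, dg C x S = 1) : Even S.card := by
  classical
  let G' : SimpleGraph {x // x ∈ S} := C.comap Subtype.val
  have hdeg : ∀ x : {x // x ∈ S}, G'.degree x = 1 := by
    intro x
    rw [← h x.1 x.2]
    unfold dg
    rw [← SimpleGraph.card_neighborFinset_eq_degree]
    refine Finset.card_bij (fun y _ => y.1) ?_ ?_ ?_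
    · intro y hy
      rw [SimpleGraph.mem_neighborFinset] at hy
      rw [Finset.mem_filter]
      exact ⟨y.2, hy⟩
    · intro y _ z _ hyz
      exact Subtype.ext hyz
    · intro y hy
      rw [Finset.mem_filter] at hy
      exact ⟨⟨y, hy.1⟩, by rw [SimpleGraph.mem_neighborFinset]; exact hy.2, rfl⟩
  have h1 := G'.even_card_odd_degree_vertices
  have h2 : (Finset.univ.filter fun x : {x // x ∈ S} => Odd (G'.degree x)) = Finset.univ := by
    ext x
    simp [hdeg x]
  rw [h2, Finset.card_univ, Fintype.card_coe] at h1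
  exact h1

/-- the structure of a colouring without red `G` and blue `T` -/
private theorem PartC_struct {V : Type} [Fintype V] (G : SimpleGraph V) (q : ℕ) (hq : 1 ≤ q) (v : V)
    (f : G.Coloring (Fin (q + 1))) (hf : ∀ x, f x = f v → x = v) (i : Fin (q + 1)) (hi : i ≠ f v)
    (h2 : {x | G.Adj v x ∧ f x = i}.ncard ≤ 2) :
    ∃ n₀ : ℕ, ∀ n : ℕ, n₀ ≤ n → ∀ T : SimpleGraph (Fin n), T.IsTree →
      ∀ (W : Type) [Fintype W] (C : SimpleGraph W), ¬ G ⊑ C → ¬ T ⊑ Cᶜ →
        q * (n - 1) + 1 ≤ Fintype.card W →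
        ∃ (c : W → Fin q) (g : ℕ), Str C q (Fintype.card V) n g c ∧
          (2 * Fintype.card V * q * (Fintype.card V + 1) + 2) * g +
            2 * Fintype.card V * (Fintype.card V + 1) + 1 ≤ n ∧
          (Fintype.card V + 1) * g + Fintype.card V + 1 ≤ n ∧
          ∀ j, n ≤ (part c j).card → (part c j).card = n ∧ Even n ∧
            (¬ ∀ x, deg T x < n - 1) ∧ ∀ x, c x = j → 1 ≤ dg C x (part c (c x)) := by
  classical
  have hv := sing_of_col G q v f hf
  obtain ⟨n₁, hn₁⟩ := core G q hq v hv
    (2 * (2 * Fintype.card V * q * (Fintype.card V + 1) + 2) + 2 * (Fintype.card V + 1))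
  obtain ⟨n₂, hn₂⟩ := emb_one
  refine ⟨max (max n₁ n₂) (2 * (2 * Fintype.card V * (Fintype.card V + 1) + 1) +
    2 * (Fintype.card V + 1) + 2), ?_⟩
  intro n hn T hT W _ C hG hTC hW
  have hnn₁ : n₁ ≤ n := ((le_max_left _ _).trans (le_max_left _ _)).trans hn
  have hnn₂ : n₂ ≤ n := ((le_max_right _ _).trans (le_max_left _ _)).trans hn
  have hnn₃ := (le_max_right (max n₁ n₂) (2 * (2 * Fintype.card V * (Fintype.card V + 1) + 1) +
    2 * (Fintype.card V + 1) + 2)).trans hn
  obtain ⟨c, g, hKg, hs, h1⟩ := hn₁ n hnn₁ T hT W C hG hTC hW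
  have hA : (2 * Fintype.card V * q * (Fintype.card V + 1) + 2) * g +
      2 * Fintype.card V * (Fintype.card V + 1) + 1 ≤ n := by
    rw [add_mul, mul_assoc 2 _ g, mul_assoc 2 _ g] at hKg
    omega
  have hB : (Fintype.card V + 1) * g + Fintype.card V + 1 ≤ n := by
    rw [add_mul, mul_assoc 2 _ g, mul_assoc 2 _ g] at hKg
    omega
  have hin : ∀ x, dg C x (part c (c x)) ≤ 1 := fun x =>
    inner_le_one G q v f hf i hi h2 C n g c hs.size hs.cross hB hG x
  refine ⟨c, g, hs, hA, hB, ?_⟩
  intro j hj
  have hone : ∀ x ∈ part c j, dg C x (part c j) = 1 := by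
    intro x hx
    have hcx : c x = j := (PartC_mem c j x).1 hx
    have h3 := hin x
    have h4 := h1 x (by rw [hcx]; exact hj)
    rw [hcx] at h3 h4
    omega
  have hcard : (part c j).card = n := by
    by_contra hne
    have hlt : n + 1 ≤ (part c j).card := by omega
    apply hTC
    refine greedy_min T hT Cᶜ (part c j) ?_ ?_
    · rw [← Finset.card_pos]
      omega
    · intro x hx
      have h3 := dg_compl_of_mem C x (part c j) hx
      have h4 := dg_add_nd C x (part c j)
      have h5 := hone x hx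
      omega
  refine ⟨hcard, ?_, ?_, ?_⟩
  · rw [← hcard]
    exact PartC_even C _ hone
  · intro hall
    exact hTC (hn₂ n hnn₂ T hT hall W C (part c j) hj (fun x hx => (hone x hx).le))
  · intro x hx
    exact h1 x (by rw [hx]; exact hj)

private theorem PartC_notCol {V : Type} [Fintype V] (G : SimpleGraph V) (q : ℕ)
    (hk : G.chromaticNumber = ((q + 1 : ℕ) : ℕ∞)) : ¬ G.Colorable q := by
  intro h
  have h1 := h.chromaticNumber_le
  rw [hk] at h1
  have h2 : q + 1 ≤ q := by exact_mod_cast h1
  omega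

theorem value_other {V : Type} [Fintype V] (G : SimpleGraph V) (k : ℕ) (hk3 : 3 ≤ k)
    (hk : G.chromaticNumber = k) (v : V) (f : G.Coloring (Fin k)) (hf : ∀ x, f x = f v → x = v)
    (i : Fin k) (hi : i ≠ f v) (h2 : {x | G.Adj v x ∧ f x = i}.ncard ≤ 2) :
    ∃ n₀ : ℕ, ∀ n : ℕ, n₀ ≤ n → ∀ T : SimpleGraph (Fin n), T.IsTree →
      (Odd n ∨ ∀ x, deg T x < n - 1) → ramsey G T = (k - 1) * (n - 1) + 1 := by
  classical
  obtain ⟨q, rfl⟩ : ∃ q, k = q + 1 := ⟨k - 1, by omega⟩
  obtain ⟨n₀, h₀⟩ := PartC_struct G q (by omega) v f hf i hi h2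
  refine ⟨n₀, fun n hn T hT hor => ?_⟩
  rw [Nat.add_sub_cancel]
  apply le_antisymm
  · apply ramsey_le
    intro C
    by_contra hcon
    rw [not_or] at hcon
    obtain ⟨c, g, hs, hA, hB, hp⟩ := h₀ n hn T hT (Fin (q * (n - 1) + 1)) C hcon.1 hcon.2
      (by rw [Fintype.card_fin])
    have hsm : ∀ j ∈ (Finset.univ : Finset (Fin q)), (part c j).card ≤ n - 1 := by
      intro j _
      by_contra hj
      obtain ⟨_, hev, hst, _⟩ := hp j (by omega)
      rcases hor with ho | ho
      · exact (Nat.not_even_iff_odd.2 ho) hev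
      · exact hst ho
    have h1 := Finset.sum_le_card_nsmul _ _ _ hsm
    rw [PartC_sum, Fintype.card_fin, Finset.card_univ, Fintype.card_fin, smul_eq_mul] at h1
    omega
  · exact chi_lower G q (PartC_notCol G q hk) T hT

theorem value_star {V : Type} [Fintype V] (G : SimpleGraph V) (k : ℕ) (hk3 : 3 ≤ k)
    (hk : G.chromaticNumber = k) (v : V) (f : G.Coloring (Fin k)) (hf : ∀ x, f x = f v → x = v)
    (i : Fin k) (hi : i ≠ f v) (h2 : {x | G.Adj v x ∧ f x = i}.ncard ≤ 2) :
    ∃ n₀ : ℕ, ∀ n : ℕ, n₀ ≤ n → Even n → ∀ T : SimpleGraph (Fin n), T.IsTree →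
      (∃ x, deg T x = n - 1) → ∀ c, c ≤ k - 1 → ¬ MJ G (k - 1) c →
      (c < k - 1 → MJ G (k - 1) (c + 1)) → ramsey G T = (k - 1) * (n - 1) + 1 + c := by
  classical
  obtain ⟨q, rfl⟩ : ∃ q, k = q + 1 := ⟨k - 1, by omega⟩
  obtain ⟨n₀, h₀⟩ := PartC_struct G q (by omega) v f hf i hi h2
  refine ⟨max n₀ 2, fun n hn hev T hT hstar a ha hMJ hMJ' => ?_⟩
  have hnn : n₀ ≤ n := (le_max_left _ _).trans hn
  have hn2 : 2 ≤ n := (le_max_right _ _).trans hn
  rw [Nat.add_sub_cancel] at ha hMJ hMJ' ⊢
  apply le_antisymm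
  · apply ramsey_le
    intro C
    by_contra hcon
    rw [not_or] at hcon
    obtain ⟨c, g, hs, hA, hB, hp⟩ := h₀ n hnn T hT (Fin (q * (n - 1) + 1 + a)) C hcon.1 hcon.2
      (by rw [Fintype.card_fin]; omega)
    let I : Finset (Fin q) := Finset.univ.filter fun j => n ≤ (part c j).card
    have hle : ∀ j ∈ (Finset.univ : Finset (Fin q)),
        (part c j).card ≤ (n - 1) + if n ≤ (part c j).card then 1 else 0 := by
      intro j _
      split_ifs with hj
      · have := (hp j hj).1
        omega
      · omega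
    have hsum := Finset.sum_le_sum hle
    rw [PartC_sum, Fintype.card_fin, Finset.sum_add_distrib, Finset.sum_const, Finset.card_univ,
      Fintype.card_fin, smul_eq_mul, ← Finset.card_filter] at hsum
    have hIc : a + 1 ≤ I.card := by
      show a + 1 ≤ (Finset.univ.filter fun j => n ≤ (part c j).card).card
      omega
    have hIq : I.card ≤ q := by
      have := Finset.card_le_univ I
      rwa [Fintype.card_fin] at this
    obtain ⟨J, hJI, hJc⟩ := Finset.exists_subset_card_eq hIc
    apply hcon.1
    refine contained_of_matchings G C q (Fintype.card V) n g c hs J ?_ ?_ hA hB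
    · intro x hx
      have h3 := hJI hx
      have h4 : n ≤ (part c (c x)).card := (Finset.mem_filter.1 h3).2
      exact (hp (c x) h4).2.2.2 x rfl
    · rw [hJc]
      exact hMJ' (by omega)
  · have h := mj_lower G q a ha hMJ hev T hT hstar hn2
    omega

end H67.SG
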