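import Pool.Agent.H67.SG.PartB
import Pool.Agent.H67.SG.PartC

/-! # SG.Iff : the classification (about 200 lines)

`k = χ(G)`, so `G.chromaticNumber.toNat = k`. `(⇐)` `MJ G (k-1) 2`: `partB` with `c = 1`: `ramsey G T = (k-2)(n-1) + partRamsey G (k-2) T`. Claim: for `n ≥ card V` `partRamsey G (k-2) T = classRamsey G T`. Both are `≥ n` (`class_lower`; for `partRamsey`: the empty graph on `Fin (n-1)` has no
`ContainsPart G (k-2)`: `G[s]` without edges and `G - s` `(k-2)`-colourable would give `χ(G) ≤ k - 1`). For a graph `C` on `Fin r`, `r ≥ card V`: `ContainsMember G C → ContainsPart G (k-2) C` (`s` = union of the two classes, the rest is coloured by the other `k - 2` colours). Conversely let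
`ContainsPart G (k-2) C` with `s`; if some vertex of `C` has degree `≥ 2`: `star_member`. If all degrees of `C` are `≤ 1`, `G.induce s ⊑ C` has all degrees `≤ 1`, so it is `2`-colourable; together with the colouring of `G - s` this is a colouring of `G` with `k` colours, all used
(`χ(G) = k`), and `s` is the union of two classes: `ContainsMember G C`. Hence the two sets of numbers `r ≥ card V` agree and the infima (both `≥ n ≥ card V`) are equal.
`(⇒)` if `¬ MJ G (k-1) 2`: for even `n` and the star `T` (`starGraph`, a tree) `mj_lower` with `c = 2` (`2 ≤ k - 1`): `ramsey G T ≥ (k-1)(n-1) + 3`, while `classRamsey G T ≤ n + 1`: a graph `C` on `Fin (n+1)` with a vertex of degree `≥ 2` has a member (`star_member`), otherwise every vertex has at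
least `n - 1` blue neighbours and `greedy_min`. So the formula fails for all large even `n`. -/

namespace H67.SG

open SimpleGraph Pool.Agent.H62.Decomp

private theorem iff_join {V : Type} (G : SimpleGraph V) (s : Set V) {α β : Type} (c1 : (G.induce sᶜ).Coloring α)
    (c2 : (G.induce s).Coloring β) : ∃ c : G.Coloring (α ⊕ β), ∀ x, x ∈ s ↔ ∃ b, c x = Sum.inr b := by
  classical
  refine ⟨⟨fun x => if h : x ∈ s then Sum.inr (c2 ⟨x, h⟩) else Sum.inl (c1 ⟨x, h⟩), ?_⟩, ?_⟩
  · intro x y hxy
    change (if h : x ∈ s then Sum.inr (c2 ⟨x, h⟩) else Sum.inl (c1 ⟨x, h⟩) : α ⊕ β) ≠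
      (if h : y ∈ s then Sum.inr (c2 ⟨y, h⟩) else Sum.inl (c1 ⟨y, h⟩) : α ⊕ β)
    by_cases hx : x ∈ s <;> by_cases hy : y ∈ s
    · rw [dif_pos hx, dif_pos hy]
      intro h
      exact c2.valid (show (G.induce s).Adj ⟨x, hx⟩ ⟨y, hy⟩ from hxy) (Sum.inr_injective h)
    · rw [dif_pos hx, dif_neg hy]
      exact fun h => Sum.inr_ne_inl h
    · rw [dif_neg hx, dif_pos hy]
      exact fun h => Sum.inl_ne_inr h
    · rw [dif_neg hx, dif_neg hy]
      intro h
      exact c1.valid (show (G.induce sᶜ).Adj ⟨x, hx⟩ ⟨y, hy⟩ from hxy) (Sum.inl_injective h)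
  · intro x
    change x ∈ s ↔ ∃ b, (if h : x ∈ s then Sum.inr (c2 ⟨x, h⟩) else Sum.inl (c1 ⟨x, h⟩) : α ⊕ β) = Sum.inr b
    by_cases hx : x ∈ s
    · rw [dif_pos hx]
      exact ⟨fun _ => ⟨_, rfl⟩, fun _ => hx⟩
    · rw [dif_neg hx]
      exact ⟨fun h => absurd h hx, fun ⟨b, hb⟩ => absurd hb Sum.inl_ne_inr⟩

/-- a graph whose degrees are at most one has a proper colouring with two colours -/
private theorem iff_two {W : Type} [Fintype W] (C : SimpleGraph W) (h : ∀ x, deg C x < 2) :
    Nonempty (C.Coloring (Fin 2)) := by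
  classical
  have huniq : ∀ x y z, C.Adj x y → C.Adj x z → y = z := by
    intro x y z hy hz
    have h1 := h x
    unfold deg dg at h1
    have h2 := Finset.card_le_one.1 (Nat.le_of_lt_succ h1)
    exact h2 y (Finset.mem_filter.2 ⟨Finset.mem_univ _, hy⟩) z (Finset.mem_filter.2 ⟨Finset.mem_univ _, hz⟩)
  let e := Fintype.equivFin W
  have key : ∀ x y, C.Adj x y → e x < e y →
      (if ∃ z, C.Adj x z ∧ e z < e x then (1 : Fin 2) else 0) ≠ (if ∃ z, C.Adj y z ∧ e z < e y then (1 : Fin 2) else 0) := by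
    intro x y hxy hlt
    have hneg : ¬ ∃ z, C.Adj x z ∧ e z < e x := by
      rintro ⟨z, hz, hzx⟩
      have h1 := huniq x y z hxy hz
      rw [← h1] at hzx
      exact absurd hzx (not_lt.2 hlt.le)
    rw [if_neg hneg, if_pos ⟨x, hxy.symm, hlt⟩]
    exact zero_ne_one
  refine ⟨⟨fun x => if ∃ z, C.Adj x z ∧ e z < e x then 1 else 0, ?_⟩⟩
  intro x y hxy
  rcases lt_trichotomy (e x) (e y) with h1 | h1 | h1
  · exact key x y hxy h1
  · exact absurd (e.injective h1) hxy.ne
  · exact (key y x hxy.symm h1).symm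

private theorem iff_not_part {V : Type} [Fintype V] (G : SimpleGraph V) (k : ℕ) (hk3 : 3 ≤ k)
    (hk : G.chromaticNumber = k) {W : Type} : ¬ ContainsPart G (k - 2) (⊥ : SimpleGraph W) := by
  rintro ⟨s, ⟨c1⟩, ⟨f⟩⟩
  have c2 : (G.induce s).Coloring (Fin 1) := ⟨fun _ => 0, fun {a b} hab => by
    exact absurd (f.toHom.map_adj hab) (by simp)⟩
  obtain ⟨c, -⟩ := iff_join G s c1 c2
  have h1 := c.colorable.chromaticNumber_le
  rw [hk, Fintype.card_sum, Fintype.card_fin, Fintype.card_fin] at h1
  have h2 : k ≤ k - 2 + 1 := by exact_mod_cast h1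
  omega

private theorem iff_mem_part {V : Type} [Fintype V] (G : SimpleGraph V) (k : ℕ)
    (hk : G.chromaticNumber = k) {W : Type} (C : SimpleGraph W) (h : ContainsMember G C) : ContainsPart G (k - 2) C := by
  classical
  obtain ⟨c, i, j, -, hij, hC⟩ := h
  refine ⟨{x | c x = i ∨ c x = j}, ?_, hC⟩
  have c' : (G.induce {x | c x = i ∨ c x = j}ᶜ).Coloring {l : Fin G.chromaticNumber.toNat // l ≠ i ∧ l ≠ j} :=
    ⟨fun x => ⟨c x.1, fun h => x.2 (Or.inl h), fun h => x.2 (Or.inr h)⟩, fun {a b} hab h => by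
      exact c.valid (show G.Adj a.1 b.1 from hab) (congrArg (fun u : {l : Fin G.chromaticNumber.toNat // l ≠ i ∧ l ≠ j} => u.1) h)⟩
  have h1 := c'.colorable
  have h2 : Fintype.card {l : Fin G.chromaticNumber.toNat // l ≠ i ∧ l ≠ j} = k - 2 := by
    have h3 : (Finset.univ.filter fun l : Fin G.chromaticNumber.toNat => l ≠ i ∧ l ≠ j) = (Finset.univ.erase i).erase j := by
      ext l
      simp only [Finset.mem_filter, Finset.mem_univ, true_and, Finset.mem_erase, and_true]
      exact and_comm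
    rw [Fintype.card_subtype, h3, Finset.card_erase_of_mem, Finset.card_erase_of_mem (Finset.mem_univ _), Finset.card_univ,
      Fintype.card_fin, hk, ENat.toNat_natCast]
    · omega
    · exact Finset.mem_erase.2 ⟨hij.symm, Finset.mem_univ _⟩
  rw [h2] at h1
  exact h1

private theorem iff_part_mem {V : Type} [Fintype V] (G : SimpleGraph V) (k : ℕ) (hk3 : 3 ≤ k)
    (hk : G.chromaticNumber = k) (v : V) (f : G.Coloring (Fin k)) (hf : ∀ x, f x = f v → x = v)
    (i : Fin k) (hi : i ≠ f v) (h2 : {x | G.Adj v x ∧ f x = i}.ncard ≤ 2) {W : Type} [Fintype W] (C : SimpleGraph W)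
    (hW : Fintype.card V ≤ Fintype.card W) (h : ContainsPart G (k - 2) C) : ContainsMember G C := by
  classical
  by_cases hd : ∃ x₀, 2 ≤ deg C x₀
  · obtain ⟨x₀, hx₀⟩ := hd
    exact star_member G k hk f v hf i hi C x₀ (h2.trans hx₀) hW
  have hd' : ∀ x, deg C x < 2 := fun x => not_le.1 fun h' => hd ⟨x, h'⟩
  obtain ⟨cC⟩ := iff_two C hd'
  obtain ⟨s, ⟨c1⟩, ⟨g⟩⟩ := h
  have c2 : (G.induce s).Coloring (Fin 2) := cC.comp g.toHom
  obtain ⟨c, hc⟩ := iff_join G s c1 c2
  have hcard : Fintype.card (Fin (k - 2) ⊕ Fin 2) = Fintype.card (Fin G.chromaticNumber.toNat) := by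
    rw [Fintype.card_sum, Fintype.card_fin, Fintype.card_fin, Fintype.card_fin, hk, ENat.toNat_natCast]
    omega
  let e : (Fin (k - 2) ⊕ Fin 2) ≃ Fin G.chromaticNumber.toNat := Fintype.equivOfCardEq hcard
  let c' : G.Coloring (Fin G.chromaticNumber.toNat) := ⟨fun x => e (c x), fun {a b} hab h => by
    exact c.valid hab (e.injective h)⟩
  have hsurj : Function.Surjective c' := by
    have h3 := (card_le_chromaticNumber_iff_forall_surjective (G := G) (α := Fin G.chromaticNumber.toNat)).mp
    refine h3 ?_ c'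
    rw [Fintype.card_fin, hk, ENat.toNat_natCast]
  refine ⟨c', e (Sum.inr 0), e (Sum.inr 1), hsurj, ?_, ?_⟩
  · intro h
    have h3 := Sum.inr_injective (e.injective h)
    exact absurd h3 zero_ne_one
  · have hs : {x | c' x = e (Sum.inr 0) ∨ c' x = e (Sum.inr 1)} = s := by
      ext x
      rw [hc x]
      constructor
      · rintro (h | h)
        · exact ⟨0, e.injective h⟩
        · exact ⟨1, e.injective h⟩
      · rintro ⟨b, hb⟩
        have h4 : b = 0 ∨ b = 1 := by omega
        rcases h4 with rfl | rfl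
        · exact Or.inl (congrArg e hb)
        · exact Or.inr (congrArg e hb)
    rw [hs]
    exact ⟨g⟩

private theorem iff_adj_deg {n : ℕ} (G : SimpleGraph (Fin n)) (r : Fin n) (hr : ∀ y, G.Adj r y ↔ r ≠ y) :
    deg G r = n - 1 := by
  classical
  unfold deg dg
  trans (Finset.univ.erase r).card
  · refine congrArg Finset.card ?_
    ext y
    constructor
    · intro h
      exact Finset.mem_erase.2 ⟨Ne.symm ((hr y).1 (Finset.mem_filter.1 h).2), Finset.mem_univ _⟩
    · intro h
      exact Finset.mem_filter.2 ⟨Finset.mem_univ _, (hr y).2 (Ne.symm (Finset.mem_erase.1 h).1)⟩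
  · rw [Finset.card_erase_of_mem (Finset.mem_univ _), Finset.card_univ, Fintype.card_fin]

private theorem iff_star_deg {n : ℕ} (r : Fin n) : deg (SimpleGraph.starGraph r) r = n - 1 :=
  iff_adj_deg _ r fun _ => starGraph_adj_center_iff

private theorem iff_class_le {V : Type} [Fintype V] (G : SimpleGraph V) (k : ℕ)
    (hk : G.chromaticNumber = k) (v : V) (f : G.Coloring (Fin k)) (hf : ∀ x, f x = f v → x = v)
    (i : Fin k) (hi : i ≠ f v) (h2 : {x | G.Adj v x ∧ f x = i}.ncard ≤ 2) {n : ℕ} (hn : Fintype.card V ≤ n + 1)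
    (T : SimpleGraph (Fin n)) (hT : T.IsTree) : classRamsey G T ≤ n + 1 := by
  classical
  refine class_le G T (n + 1) fun C => ?_
  by_cases hd : ∃ x₀, 2 ≤ deg C x₀
  · obtain ⟨x₀, hx₀⟩ := hd
    exact Or.inl (star_member G k hk f v hf i hi C x₀ (h2.trans hx₀) (by rw [Fintype.card_fin]; exact hn))
  · right
    refine greedy_min T hT Cᶜ Finset.univ ⟨0, Finset.mem_univ _⟩ fun a _ => ?_
    have h3 : deg C a < 2 := not_le.1 fun h' => hd ⟨a, h'⟩
    unfold deg at h3
    have h4 := dg_compl_of_mem C a Finset.univ (Finset.mem_univ _)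
    have h5 := dg_add_nd C a Finset.univ
    rw [Finset.card_univ, Fintype.card_fin] at h5
    omega

theorem formula_iff {V : Type} [Fintype V] (G : SimpleGraph V) (k : ℕ) (hk3 : 3 ≤ k)
    (hk : G.chromaticNumber = k) (v : V) (f : G.Coloring (Fin k)) (hf : ∀ x, f x = f v → x = v)
    (i : Fin k) (hi : i ≠ f v) (h2 : {x | G.Adj v x ∧ f x = i}.ncard ≤ 2) :
    SatisfiesFormula G ↔ MJ G (k - 1) 2 := by
  classical
  have hkn : G.chromaticNumber.toNat = k := by rw [hk, ENat.toNat_natCast]
  constructor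
  · rintro ⟨n₀, h⟩
    by_contra hMJ
    set n : ℕ := 2 * (n₀ + Fintype.card V + 1) with hn
    let r : Fin n := ⟨0, by omega⟩
    have : Nonempty (Fin n) := ⟨r⟩
    have hT : (SimpleGraph.starGraph r).IsTree := isTree_starGraph r
    have h1 := mj_lower G (k - 1) 2 (by omega) hMJ (n := n) ⟨n₀ + Fintype.card V + 1, by omega⟩ (SimpleGraph.starGraph r) hT
      ⟨r, iff_star_deg r⟩ (by omega)
    have h3 := iff_class_le G k hk v f hf i hi h2 (n := n) (by omega) (SimpleGraph.starGraph r) hT
    have h4 := h n (by omega) (SimpleGraph.starGraph r) hT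
    rw [hkn] at h4
    obtain ⟨a, ha⟩ : ∃ a, k = a + 2 := ⟨k - 2, by omega⟩
    rw [ha] at h1 h4
    have h5 : a + 2 - 1 = a + 1 := by omega
    have h6 : a + 2 - 2 = a := by omega
    rw [h5, Nat.succ_mul] at h1
    rw [h6] at h4
    omega
  · intro hMJ
    have hv : (G.induce {x | x ≠ v}).Colorable (k - 1) := by
      obtain ⟨a, rfl⟩ : ∃ a, k = a + 1 := ⟨k - 1, by omega⟩
      exact sing_of_col G a v f hf
    obtain ⟨n₀, h⟩ := partB G k hk3 hk v hv 1 le_rfl (by omega) hMJ
    refine ⟨n₀ + Fintype.card V + 1, fun n hn T hT => ?_⟩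
    have h1 := h n (by omega) T hT
    have h5 : k - 1 - 1 = k - 2 := by omega
    rw [h5] at h1
    rw [hkn, h1]
    congr 1
    have hlow : n ≤ partRamsey G (k - 2) T := by
      have h6 := lt_part G (k - 2) T (⊥ : SimpleGraph (Fin (n - 1))) (iff_not_part G k hk3 hk) (by
        rintro ⟨g⟩
        have h7 := Fintype.card_le_of_injective g g.injective
        rw [Fintype.card_fin, Fintype.card_fin] at h7
        omega)
      rw [Fintype.card_fin] at h6
      omega
    apply le_antisymm
    · refine part_le G (k - 2) T _ fun C => ?_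
      rcases class_spec G (by omega) T C (by rw [Fintype.card_fin]) with h6 | h6
      · exact Or.inl (iff_mem_part G k hk C h6)
      · exact Or.inr h6
    · refine class_le G T _ fun C => ?_
      rcases part_spec G (k - 2) T C (by rw [Fintype.card_fin]) with h6 | h6
      · exact Or.inl (iff_part_mem G k hk3 hk v f hf i hi h2 C (by rw [Fintype.card_fin]; omega) h6)
      · exact Or.inr h6

end H67.SG
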