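import Pool.Agent.H67.SG.Def

/-! # SG.Inner : bounded red degree inside the parts (about 120 lines)

Suppose `dg C x (part c i) ≥ m` with `i = c x`. Choose `S_i` among the red neighbours of `x` in the part `i`, `|S_i| = m`. For the other indices `j`, one
after the other, choose `S_j ⊆ part c j` with `|S_j| = m`, all its elements adjacent to `x`, to the elements of `S_i` and of the `S_l` already chosen:
each of these at most `q m + 1` vertices lies in another part and has at most `g` non-neighbours in `part c j`, so at least
`n - g - (q m + 1) g ≥ m` elements are available. This is `HasK1 q m C`. (Formally: induction over a finset of indices containing `i`.) -/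

namespace H67.SG

open SimpleGraph Pool.Agent.H62.Decomp

theorem inner_lt {W : Type} [Fintype W] (C : SimpleGraph W) (q m n g : ℕ) (c : W → Fin q)
    (hK : ¬ HasK1 q m C) (hsz : ∀ j, n ≤ (part c j).card + g)
    (hcr : ∀ x j, j ≠ c x → nd C x (part c j) ≤ g) (hn : (q * m + 2) * g + m ≤ n) (x : W) :
    dg C x (part c (c x)) < m := by
  classical
  by_contra hcon
  push Not at hcon
  have hdg : m ≤ ((part c (c x)).filter (fun y => C.Adj x y)).card := by
    have h : dg C x (part c (c x)) = ((part c (c x)).filter (fun y => C.Adj x y)).card := by
      unfold dg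
      congr
    rw [← h]
    exact hcon
  obtain ⟨Si, hSi, hSic⟩ := Finset.exists_subset_card_eq hdg
  have hpart : ∀ {y : W} {j : Fin q}, y ∈ part c j ↔ c y = j := by
    intro y j
    simp [part]
  have hndle : ∀ (y : W) (j : Fin q), j ≠ c y → ((part c j).filter (fun z => ¬ C.Adj y z)).card ≤ g := by
    intro y j hj
    have h := hcr y j hj
    have h2 : nd C y (part c j) = ((part c j).filter (fun z => ¬ C.Adj y z)).card := by
      unfold nd
      congr
    rw [← h2]
    exact h
  have key : ∀ J : Finset (Fin q), c x ∉ J → ∃ P : Fin q → Finset W,
      (∀ j ∈ insert (c x) J, (P j).card = m ∧ P j ⊆ part c j ∧ ∀ y ∈ P j, C.Adj x y) ∧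
      (∀ j ∈ insert (c x) J, ∀ k ∈ insert (c x) J, j ≠ k → ∀ y ∈ P j, ∀ z ∈ P k, C.Adj y z) := by
    intro J
    induction J using Finset.induction_on with
    | empty =>
      intro _
      refine ⟨fun _ => Si, ?_, ?_⟩
      · intro j hj
        have hj' : j = c x := by simpa using hj
        subst hj'
        refine ⟨hSic, fun y hy => (Finset.mem_filter.1 (hSi hy)).1, fun y hy => (Finset.mem_filter.1 (hSi hy)).2⟩
      · intro j hj k hk hjk
        have hj' : j = c x := by simpa using hj
        have hk' : k = c x := by simpa using hk
        exact absurd (hj'.trans hk'.symm) hjk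
    | insert a J ha ih =>
      intro hx
      have hxa : c x ≠ a := fun h => hx (by rw [h]; exact Finset.mem_insert_self _ _)
      have hxJ : c x ∉ J := fun h => hx (Finset.mem_insert_of_mem h)
      obtain ⟨P, hP1, hP2⟩ := ih hxJ
      -- the vertices to be joined
      set U : Finset W := (insert (c x) J).biUnion P with hU
      have haI : a ∉ insert (c x) J := by
        rw [Finset.mem_insert]
        rintro (h | h)
        · exact hxa h.symm
        · exact ha h
      have hUcard : U.card ≤ q * m := by
        have h1 : U.card ≤ (insert (c x) J).card * m :=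
          Finset.card_biUnion_le_card_mul _ _ _ (fun j hj => (hP1 j hj).1.le)
        have h2 : (insert (c x) J).card ≤ q := by
          have := Finset.card_le_univ (insert (c x) J)
          simpa using this
        exact h1.trans (Nat.mul_le_mul_right _ h2)
      set Bad : Finset W := ((part c a).filter (fun z => ¬ C.Adj x z)) ∪
        U.biUnion (fun y => (part c a).filter (fun z => ¬ C.Adj y z)) with hBad
      have hBadcard : Bad.card ≤ g + (q * m) * g := by
        have h1 : ((part c a).filter (fun z => ¬ C.Adj x z)).card ≤ g := hndle x a (fun h => hxa h.symm)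
        have h2 : (U.biUnion (fun y => (part c a).filter (fun z => ¬ C.Adj y z))).card ≤ U.card * g := by
          apply Finset.card_biUnion_le_card_mul
          intro y hy
          obtain ⟨j, hj, hyj⟩ := Finset.mem_biUnion.1 hy
          have hcy : c y = j := hpart.1 ((hP1 j hj).2.1 hyj)
          apply hndle y a
          rintro rfl
          rw [hcy] at haI
          exact haI hj
        calc Bad.card ≤ _ := Finset.card_union_le _ _
          _ ≤ g + U.card * g := Nat.add_le_add h1 h2
          _ ≤ g + (q * m) * g := Nat.add_le_add_left (Nat.mul_le_mul_right _ hUcard) _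
      have hav : m ≤ ((part c a) \ Bad).card := by
        have h1 : (part c a).card ≤ ((part c a) \ Bad).card + Bad.card := by
          exact Finset.card_le_card_sdiff_add_card
        have h2 := hsz a
        have h3 : (q * m + 2) * g = q * m * g + 2 * g := by ring
        rw [h3] at hn
        omega
      obtain ⟨Sa, hSa, hSac⟩ := Finset.exists_subset_card_eq hav
      have hSx : ∀ y ∈ Sa, C.Adj x y := by
        intro y hy
        have h := Finset.mem_sdiff.1 (hSa hy)
        by_contra hne
        exact h.2 (Finset.mem_union_left _ (Finset.mem_filter.2 ⟨h.1, hne⟩))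
      have hSU : ∀ j ∈ insert (c x) J, ∀ y ∈ P j, ∀ z ∈ Sa, C.Adj y z := by
        intro j hj y hy z hz
        have h := Finset.mem_sdiff.1 (hSa hz)
        by_contra hne
        exact h.2 (Finset.mem_union_right _ (Finset.mem_biUnion.2
          ⟨y, Finset.mem_biUnion.2 ⟨j, hj, hy⟩, Finset.mem_filter.2 ⟨h.1, hne⟩⟩))
      have hmem : ∀ j, j ∈ insert (c x) (insert a J) → j ≠ a → j ∈ insert (c x) J := by
        intro j hj hja
        rw [Finset.mem_insert, Finset.mem_insert] at hj
        rw [Finset.mem_insert]
        rcases hj with h | h | h
        · exact Or.inl h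
        · exact absurd h hja
        · exact Or.inr h
      refine ⟨Function.update P a Sa, ?_, ?_⟩
      · intro j hj
        by_cases hja : j = a
        · subst hja
          rw [Function.update_self]
          exact ⟨hSac, fun y hy => (Finset.mem_sdiff.1 (hSa hy)).1, hSx⟩
        · rw [Function.update_of_ne hja]
          exact hP1 j (hmem j hj hja)
      · intro j hj k hk hjk y hy z hz
        by_cases hja : j = a
        · subst hja
          have hkj : k ≠ j := fun h => hjk h.symm
          rw [Function.update_self] at hy
          rw [Function.update_of_ne hkj] at hz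
          exact (hSU k (hmem k hk hkj) z hz y hy).symm
        · rw [Function.update_of_ne hja] at hy
          by_cases hka : k = a
          · subst hka
            rw [Function.update_self] at hz
            exact hSU j (hmem j hj hja) y hy z hz
          · rw [Function.update_of_ne hka] at hz
            exact hP2 j (hmem j hj hja) k (hmem k hk hka) hjk y hy z hz
  obtain ⟨P, hP1, hP2⟩ := key (Finset.univ.erase (c x)) (Finset.notMem_erase _ _)
  have hall : ∀ j, j ∈ insert (c x) (Finset.univ.erase (c x)) := by
    intro j
    rw [Finset.mem_insert, Finset.mem_erase]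
    by_cases h : j = c x
    · exact Or.inl h
    · exact Or.inr ⟨h, Finset.mem_univ _⟩
  exact hK ⟨x, P, fun i => (hP1 i (hall i)).1, fun i => (hP1 i (hall i)).2.2,
    fun i j hij y hy z hz => hP2 i (hall i) j (hall j) hij y hy z hz⟩

end H67.SG
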