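import Pool.Agent.H67.SG.PartA
import Pool.Agent.H67.SG.PartB
import Pool.Agent.H67.SG.PartC
import Pool.Agent.H67.SG.Iff

/-! # SG.Main : assembly -/

namespace H67.SG

open SimpleGraph Pool.Agent.H62.Decomp

/-- all statements together -/
theorem main {V : Type} [Fintype V] (G : SimpleGraph V) (k : ℕ) (hk3 : 3 ≤ k) (hk : G.chromaticNumber = k)
    (v : V) (hv : (G.induce {x | x ≠ v}).Colorable (k - 1)) :
    (∃ K n₀ : ℕ, ∀ n : ℕ, n₀ ≤ n → ∀ T : SimpleGraph (Fin n), T.IsTree → (∀ x, deg T x + K ≤ n) →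
      ramsey G T = (k - 1) * (n - 1) + 1 ∧ classRamsey G T = n) ∧
    (∀ c : ℕ, 1 ≤ c → c + 2 ≤ k → MJ G (k - 1) (c + 1) → ∃ n₀ : ℕ, ∀ n : ℕ, n₀ ≤ n →
      ∀ T : SimpleGraph (Fin n), T.IsTree →
      ramsey G T = (k - 1 - c) * (n - 1) + partRamsey G (k - 1 - c) T) ∧
    (∀ (f : G.Coloring (Fin k)) (i : Fin k), (∀ x, f x = f v → x = v) → i ≠ f v →
      {x | G.Adj v x ∧ f x = i}.ncard ≤ 2 →
      (SatisfiesFormula G ↔ MJ G (k - 1) 2) ∧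
      ∃ n₀ : ℕ, ∀ n : ℕ, n₀ ≤ n → ∀ T : SimpleGraph (Fin n), T.IsTree →
        ((Odd n ∨ ∀ x, deg T x < n - 1) → ramsey G T = (k - 1) * (n - 1) + 1) ∧
        (Even n → (∃ x, deg T x = n - 1) → ∀ c, c ≤ k - 1 → ¬ MJ G (k - 1) c →
          (c < k - 1 → MJ G (k - 1) (c + 1)) → ramsey G T = (k - 1) * (n - 1) + 1 + c)) := by
  refine ⟨partA G k hk3 hk v hv, fun c h1 h2 h3 => partB G k hk3 hk v hv c h1 h2 h3, ?_⟩
  intro f i hf hi h2
  obtain ⟨n₁, h₁⟩ := value_other G k hk3 hk v f hf i hi h2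
  obtain ⟨n₂, h₂⟩ := value_star G k hk3 hk v f hf i hi h2
  refine ⟨formula_iff G k hk3 hk v f hf i hi h2, max n₁ n₂, fun n hn T hT => ⟨fun h => ?_, ?_⟩⟩
  · exact h₁ n (le_trans (le_max_left _ _) hn) T hT h
  · intro he hs c hc hm hm'
    exact h₂ n (le_trans (le_max_right _ _) hn) he T hT hs c hc hm hm'

end H67.SG
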