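import Pool.Agent.H67.SG.Pre

/-! # SG.PreAll : placing all big vertices (about 150 lines)

Induction over a subset `B'` of `B \ {c₁}`: there are `S ⊇ S₀`, `ψ` extending `ψ₀`, injective on `S`, without conflicts, `|S| ≤ |S₀| + |B'| (1 + ρ)`, `B' ⊆ S`,
every `x ∈ B' ∪ {c₁}` has all `C`-neighbours of `ψ x` in `ψ(S)`, and `S ∩ B ⊆ B' ∪ {c₁}`. Step: add `c ∈ B`, `c ∉ B' ∪ {c₁}`: `c ∉ S`, `pre_step` (the new vertices other than `c`
are not in `B`; `hn1`, `hn2` for the bound `|S₀| + β (1 + ρ)`). At the end (`B' = B \ {c₁}`) extend `ψ` from `S` to a permutation `φ₀` of `Fin n` (complements of `S` and `ψ(S)` have equal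
cardinality; e.g. `Equiv.extendSubtype` or `Finset.equivOfCardEq` on complements). -/

namespace H67.SG

open SimpleGraph Pool.Agent.H62.Decomp

theorem pre_all {n : ℕ} (T C : SimpleGraph (Fin n)) (ρ τ β : ℕ) (hC : ∀ a, deg C a ≤ ρ)
    (B : Finset (Fin n)) (hB : ∀ x, x ∉ B → deg T x ≤ τ) (hBc : B.card ≤ β) (c₁ : Fin n)
    (hdeg : ∀ x ∈ B, x ≠ c₁ → 2 * deg T x ≤ n) (S₀ : Finset (Fin n)) (hS₀B : ∀ x ∈ S₀, x ∈ B → x = c₁)
    (ψ₀ : Fin n → Fin n) (hinj : Set.InjOn ψ₀ (S₀ : Set (Fin n)))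
    (hS₀ : ∀ x ∈ S₀, ∀ y ∈ S₀, T.Adj x y → ¬ C.Adj (ψ₀ x) (ψ₀ y)) (hc₁ : c₁ ∈ S₀)
    (hcl : ∀ b, C.Adj (ψ₀ c₁) b → ∃ x ∈ S₀, ψ₀ x = b)
    (hn1 : 2 * (S₀.card + β * (1 + ρ) + β + 2 + ρ * (τ + 1)) ≤ n)
    (hn2 : (S₀.card + β * (1 + ρ)) * (1 + ρ + ρ ^ 2) < n) :
    ∃ (S : Finset (Fin n)) (φ₀ : Equiv.Perm (Fin n)), B ⊆ S ∧ S.card ≤ S₀.card + β * (1 + ρ) ∧
      (∀ x ∈ S, ∀ y ∈ S, T.Adj x y → ¬ C.Adj (φ₀ x) (φ₀ y)) ∧
      ∀ x ∈ B, ∀ b, C.Adj (φ₀ x) b → φ₀.symm b ∈ S := by
  classical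
  have key : ∀ B' : Finset (Fin n), B' ⊆ B.erase c₁ → ∃ (S : Finset (Fin n)) (ψ : Fin n → Fin n),
      S₀ ⊆ S ∧ Set.InjOn ψ (S : Set (Fin n)) ∧
      (∀ x ∈ S, ∀ y ∈ S, T.Adj x y → ¬ C.Adj (ψ x) (ψ y)) ∧
      S.card ≤ S₀.card + B'.card * (1 + ρ) ∧ B' ⊆ S ∧
      (∀ x ∈ insert c₁ B', ∀ b, C.Adj (ψ x) b → ∃ y ∈ S, ψ y = b) ∧
      ∀ x ∈ S, x ∈ B → x ∈ insert c₁ B' := by
    intro B'
    induction B' using Finset.induction_on with
    | empty =>
      intro _
      refine ⟨S₀, ψ₀, Finset.Subset.refl _, hinj, hS₀, by simp, Finset.empty_subset _, ?_, ?_⟩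
      · intro x hx b hb
        rw [Finset.mem_insert] at hx
        rcases hx with rfl | hx
        · exact hcl b hb
        · exact absurd hx (Finset.notMem_empty _)
      · intro x hx hxB
        rw [hS₀B x hx hxB]
        exact Finset.mem_insert_self _ _
    | insert c B' hc ih =>
      intro hsub
      have hcB : c ∈ B.erase c₁ := hsub (Finset.mem_insert_self _ _)
      have hsub' : B' ⊆ B.erase c₁ := fun x hx => hsub (Finset.mem_insert_of_mem hx)
      have hcne : c ≠ c₁ := Finset.ne_of_mem_erase hcB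
      have hcB' : c ∈ B := Finset.mem_of_mem_erase hcB
      obtain ⟨S, ψ, h1, h2, h3, h4, h5, h6, h7⟩ := ih hsub'
      have hcS : c ∉ S := by
        intro h
        have := h7 c h hcB'
        rw [Finset.mem_insert] at this
        rcases this with h | h
        · exact hcne h
        · exact hc h
      have hcard : B'.card ≤ β :=
        (Finset.card_le_card (hsub'.trans (Finset.erase_subset _ _))).trans hBc
      have hScard : S.card ≤ S₀.card + β * (1 + ρ) :=
        h4.trans (Nat.add_le_add_left (Nat.mul_le_mul_right _ hcard) _)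
      have hn1' : 2 * (S.card + β + 2 + ρ * (τ + 1)) ≤ n := by omega
      have hn2' : S.card * (1 + ρ + ρ ^ 2) < n :=
        lt_of_le_of_lt (Nat.mul_le_mul_right _ hScard) hn2
      obtain ⟨S', ψ', g1, g2, g3, g4, g5, g6, g7, g8⟩ :=
        pre_step T C ρ τ β hC B hB hBc S ψ h2 h3 c hcS (hdeg c hcB' hcne) hn1' hn2'
      refine ⟨S', ψ', h1.trans g1, g3, g4, ?_, ?_, ?_, ?_⟩
      · rw [Finset.card_insert_of_notMem hc]
        have : (B'.card + 1) * (1 + ρ) = B'.card * (1 + ρ) + (1 + ρ) := by ring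
        rw [this]
        omega
      · intro x hx
        rw [Finset.mem_insert] at hx
        rcases hx with rfl | hx
        · exact g5
        · exact g1 (h5 hx)
      · intro x hx b hb
        rw [Finset.mem_insert, Finset.mem_insert] at hx
        have hold : x ∈ insert c₁ B' → ∃ y ∈ S', ψ' y = b := by
          intro hx'
          have hxS : x ∈ S := by
            rw [Finset.mem_insert] at hx'
            rcases hx' with rfl | hx'
            · exact h1 hc₁
            · exact h5 hx'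
          rw [g2 x hxS] at hb
          obtain ⟨y, hy, hyb⟩ := h6 x hx' b hb
          exact ⟨y, g1 hy, by rw [g2 y hy]; exact hyb⟩
        rcases hx with hx | hx | hx
        · exact hold (by rw [hx]; exact Finset.mem_insert_self _ _)
        · subst hx
          exact g6 b hb
        · exact hold (Finset.mem_insert_of_mem hx)
      · intro x hx hxB
        by_cases hxS : x ∈ S
        · have := h7 x hxS hxB
          rw [Finset.mem_insert] at this
          rw [Finset.mem_insert, Finset.mem_insert]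
          rcases this with h | h
          · exact Or.inl h
          · exact Or.inr (Or.inr h)
        · by_cases hxc : x = c
          · rw [Finset.mem_insert, Finset.mem_insert]
            exact Or.inr (Or.inl hxc)
          · exact absurd hxB (g8 x hx hxS hxc)
  obtain ⟨S, ψ, h1, h2, h3, h4, h5, h6, h7⟩ := key (B.erase c₁) (Finset.Subset.refl _)
  have hcard : (B.erase c₁).card ≤ β := (Finset.card_le_card (Finset.erase_subset _ _)).trans hBc
  let e : {x // x ∈ (S : Set (Fin n))} ≃ {x // x ∈ ψ '' (S : Set (Fin n))} :=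
    Equiv.Set.imageOfInjOn ψ (S : Set (Fin n)) h2
  have hφ : ∀ x ∈ S, e.extendSubtype x = ψ x := by
    intro x hx
    rw [Equiv.extendSubtype_apply_of_mem e x (Finset.mem_coe.2 hx)]
    rfl
  have hBS : B ⊆ S := by
    intro x hx
    by_cases hxc : x = c₁
    · rw [hxc]
      exact h1 hc₁
    · exact h5 (Finset.mem_erase.2 ⟨hxc, hx⟩)
  refine ⟨S, e.extendSubtype, hBS, h4.trans (Nat.add_le_add_left (Nat.mul_le_mul_right _ hcard) _),
    ?_, ?_⟩
  · intro x hx y hy hxy
    rw [hφ x hx, hφ y hy]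
    exact h3 x hx y hy hxy
  · intro x hx b hb
    rw [hφ x (hBS hx)] at hb
    have hx' : x ∈ insert c₁ (B.erase c₁) := by
      by_cases hxc : x = c₁
      · rw [hxc]
        exact Finset.mem_insert_self _ _
      · exact Finset.mem_insert_of_mem (Finset.mem_erase.2 ⟨hxc, hx⟩)
    obtain ⟨y, hy, hyb⟩ := h6 x hx' b hb
    have : e.extendSubtype.symm b = y := by
      rw [Equiv.symm_apply_eq, hφ y hy, hyb]
    rw [this]
    exact hy

end H67.SG
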