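import Pool.Agent.H67.SG.Def

/-! # SG.Switch : removing conflicts by transpositions (about 250 lines)

Among the permutations `φ` which agree with `φ₀` on `S` choose one with the least number of conflicts (ordered pairs `(x, y)` with `T.Adj x y` and
`C.Adj (φ x) (φ y)`). Suppose `(x, y)` is a conflict. Not both are in `S` (`hS`), by symmetry `x ∉ S`, so `deg T x ≤ τ`. Let `a = φ x`. `a ∉ φ(S)`. For a neighbour `b` of `a` in `C`
let `y_b = φ⁻¹ b`; `deg T y_b ≤ τ`: otherwise `y_b ∈ S`, `φ y_b = φ₀ y_b = b` and `C.Adj (φ₀ y_b) a`, so `φ₀.symm a ∈ S` (`hbig`), then `φ (φ₀.symm a) = a`, so `x = φ₀.symm a ∈ S`,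
contradiction. Choose `z` outside: `S` (`|S|` elements), `{x}`, the neighbours of `x` in `T` (`≤ τ`), the `z` with `C.Adj (φ u) (φ z)` for some `T`-neighbour `u` of `x`
(`≤ τ ρ`), the `T`-neighbours of the `y_b` (`≤ ρ τ`); possible by `hn`. `φ' = φ ∘ swap x z` agrees with `φ₀` on `S`. Conflicts of `φ'`: an edge `x u` (`u ≠ z`): `φ' x = φ z`,
`φ' u = φ u`, not a conflict. An edge `z u` (`u ≠ x`): `φ' z = a`; a conflict would mean `u = y_b`, `z` a neighbour of `y_b`, excluded. Other edges: unchanged. So the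
conflicts of `φ'` are conflicts of `φ`, and `(x, y)` is lost: fewer conflicts, contradiction. -/

namespace H67.SG

open SimpleGraph Pool.Agent.H62.Decomp

open Classical in
private noncomputable def switchConf {n : ℕ} (T C : SimpleGraph (Fin n)) (φ : Equiv.Perm (Fin n)) :
    Finset (Fin n × Fin n) :=
  Finset.univ.filter (fun p => T.Adj p.1 p.2 ∧ C.Adj (φ p.1) (φ p.2))

open Classical in
private noncomputable def switchNb {n : ℕ} (T : SimpleGraph (Fin n)) (x : Fin n) : Finset (Fin n) :=
  Finset.univ.filter (fun y => T.Adj x y)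

private theorem switch_mem_nb {n : ℕ} (T : SimpleGraph (Fin n)) (x y : Fin n) :
    y ∈ switchNb T x ↔ T.Adj x y := by
  classical
  simp [switchNb]

private theorem switch_card_nb {n : ℕ} (T : SimpleGraph (Fin n)) (x : Fin n) :
    (switchNb T x).card = deg T x := by
  classical
  unfold switchNb deg dg
  congr 2

private theorem switch_step {n : ℕ} (T C : SimpleGraph (Fin n)) (S : Finset (Fin n)) (φ₀ φ : Equiv.Perm (Fin n))
    (ρ τ : ℕ) (hC : ∀ a, deg C a ≤ ρ) (hτ : ∀ x, x ∉ S → deg T x ≤ τ)
    (hbig : ∀ x b, τ < deg T x → C.Adj (φ₀ x) b → φ₀.symm b ∈ S)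
    (hn : S.card + 1 + τ + 2 * (ρ * τ) < n) (hφ : ∀ x ∈ S, φ x = φ₀ x) (x y : Fin n) (hx : x ∉ S)
    (hT : T.Adj x y) (hCxy : C.Adj (φ x) (φ y)) :
    ∃ φ' : Equiv.Perm (Fin n), (∀ x ∈ S, φ' x = φ₀ x) ∧
      (switchConf T C φ').card < (switchConf T C φ).card := by
  classical
  -- the vertices u with C.Adj (φ u) (φ x) have small T-degree
  have hu : ∀ u, C.Adj (φ u) (φ x) → deg T u ≤ τ := by
    intro u hu
    by_contra hlt
    push Not at hlt
    have huS : u ∈ S := by
      by_contra huS
      exact absurd (hτ u huS) (not_le.mpr hlt)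
    rw [hφ u huS] at hu
    have h1 := hbig u (φ x) hlt hu
    have h2 := hφ _ h1
    rw [Equiv.apply_symm_apply] at h2
    have h3 := φ.injective h2
    exact hx (h3 ▸ h1)
  -- forbidden sets
  let F1 : Finset (Fin n) := (switchNb T x).biUnion (fun u => (switchNb C (φ u)).image φ.symm)
  let F2 : Finset (Fin n) := ((switchNb C (φ x)).image φ.symm).biUnion (fun u => switchNb T u)
  have hF1 : F1.card ≤ τ * ρ := by
    have h1 : F1.card ≤ (switchNb T x).card * ρ := by
      apply Finset.card_biUnion_le_card_mul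
      intro u _
      refine Finset.card_image_le.trans ?_
      rw [switch_card_nb]
      exact hC _
    refine h1.trans ?_
    apply Nat.mul_le_mul_right
    rw [switch_card_nb]
    exact hτ x hx
  have hF2 : F2.card ≤ ρ * τ := by
    have h1 : F2.card ≤ ((switchNb C (φ x)).image φ.symm).card * τ := by
      apply Finset.card_biUnion_le_card_mul
      intro u hu'
      rw [Finset.mem_image] at hu'
      obtain ⟨b, hb, rfl⟩ := hu'
      rw [switch_card_nb]
      apply hu
      rw [Equiv.apply_symm_apply]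
      exact ((switch_mem_nb C _ _).mp hb).symm
    refine h1.trans ?_
    apply Nat.mul_le_mul_right
    refine Finset.card_image_le.trans ?_
    rw [switch_card_nb]
    exact hC _
  have hT1 : (switchNb T x).card ≤ τ := by
    rw [switch_card_nb]
    exact hτ x hx
  let B : Finset (Fin n) := S ∪ ({x} ∪ (switchNb T x ∪ (F1 ∪ F2)))
  have hB : B.card < n := by
    have h1 : B.card ≤ S.card + (1 + (τ + (τ * ρ + ρ * τ))) := by
      refine (Finset.card_union_le _ _).trans ?_
      apply Nat.add_le_add_left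
      refine (Finset.card_union_le _ _).trans ?_
      rw [Finset.card_singleton]
      apply Nat.add_le_add_left
      refine (Finset.card_union_le _ _).trans ?_
      refine Nat.add_le_add hT1 ?_
      refine (Finset.card_union_le _ _).trans ?_
      exact Nat.add_le_add hF1 hF2
    have h2 : τ * ρ = ρ * τ := Nat.mul_comm _ _
    omega
  obtain ⟨z, hz⟩ : ∃ z, z ∉ B := by
    by_contra hcon
    push Not at hcon
    have h1 : B = Finset.univ := Finset.eq_univ_iff_forall.mpr hcon
    rw [h1, Finset.card_univ, Fintype.card_fin] at hB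
    exact lt_irrefl _ hB
  have hzS : z ∉ S := fun h => hz (Finset.mem_union_left _ h)
  have hzx : z ≠ x := by
    intro h
    apply hz
    apply Finset.mem_union_right
    apply Finset.mem_union_left
    simp [h]
  have hzT : ¬ T.Adj x z := by
    intro h
    apply hz
    apply Finset.mem_union_right
    apply Finset.mem_union_right
    apply Finset.mem_union_left
    exact (switch_mem_nb T x z).mpr h
  have hzF1 : ∀ u, T.Adj x u → ¬ C.Adj (φ u) (φ z) := by
    intro u h1 h2
    apply hz
    apply Finset.mem_union_right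
    apply Finset.mem_union_right
    apply Finset.mem_union_right
    apply Finset.mem_union_left
    refine Finset.mem_biUnion.mpr ⟨u, (switch_mem_nb T x u).mpr h1, ?_⟩
    exact Finset.mem_image.mpr ⟨φ z, (switch_mem_nb C _ _).mpr h2, Equiv.symm_apply_apply _ _⟩
  have hzF2 : ∀ u, C.Adj (φ x) (φ u) → ¬ T.Adj u z := by
    intro u h1 h2
    apply hz
    apply Finset.mem_union_right
    apply Finset.mem_union_right
    apply Finset.mem_union_right
    apply Finset.mem_union_right
    refine Finset.mem_biUnion.mpr ⟨u, ?_, (switch_mem_nb T u z).mpr h2⟩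
    exact Finset.mem_image.mpr ⟨φ u, (switch_mem_nb C _ _).mpr h1, Equiv.symm_apply_apply _ _⟩
  refine ⟨(Equiv.swap x z).trans φ, ?_, ?_⟩
  · intro s hs
    have hsx : s ≠ x := fun h => hx (h ▸ hs)
    have hsz : s ≠ z := fun h => hzS (h ▸ hs)
    rw [Equiv.trans_apply, Equiv.swap_apply_of_ne_of_ne hsx hsz]
    exact hφ s hs
  · -- no conflict at x or z
    have hxx : ∀ v, T.Adj x v → ¬ C.Adj (((Equiv.swap x z).trans φ) x) (((Equiv.swap x z).trans φ) v) := by
      intro v hv
      have hvx : v ≠ x := hv.ne'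
      have hvz : v ≠ z := fun h => hzT (h ▸ hv)
      rw [Equiv.trans_apply, Equiv.trans_apply, Equiv.swap_apply_left, Equiv.swap_apply_of_ne_of_ne hvx hvz]
      intro h
      exact hzF1 v hv h.symm
    have hzz : ∀ v, T.Adj z v → ¬ C.Adj (((Equiv.swap x z).trans φ) z) (((Equiv.swap x z).trans φ) v) := by
      intro v hv
      have hvz : v ≠ z := hv.ne'
      have hvx : v ≠ x := fun h => hzT ((h ▸ hv).symm)
      rw [Equiv.trans_apply, Equiv.trans_apply, Equiv.swap_apply_right, Equiv.swap_apply_of_ne_of_ne hvx hvz]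
      intro h
      exact hzF2 v h hv.symm
    apply Finset.card_lt_card
    rw [Finset.ssubset_iff_of_subset]
    · refine ⟨(x, y), ?_, ?_⟩
      · simp [switchConf, hT, hCxy]
      · intro h
        simp only [switchConf, Finset.mem_filter, Finset.mem_univ, true_and] at h
        exact hxx y h.1 h.2
    · rintro ⟨u, v⟩ huv
      simp only [switchConf, Finset.mem_filter, Finset.mem_univ, true_and] at huv ⊢
      obtain ⟨h1, h2⟩ := huv
      have hux : u ≠ x := by
        rintro rfl
        exact hxx v h1 h2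
      have huz : u ≠ z := by
        rintro rfl
        exact hzz v h1 h2
      have hvx : v ≠ x := by
        rintro rfl
        exact hxx u h1.symm h2.symm
      have hvz : v ≠ z := by
        rintro rfl
        exact hzz u h1.symm h2.symm
      rw [Equiv.trans_apply, Equiv.trans_apply, Equiv.swap_apply_of_ne_of_ne hux huz,
        Equiv.swap_apply_of_ne_of_ne hvx hvz] at h2
      exact ⟨h1, h2⟩

theorem switch {n : ℕ} (T C : SimpleGraph (Fin n)) (S : Finset (Fin n)) (φ₀ : Equiv.Perm (Fin n)) (ρ τ : ℕ)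
    (hC : ∀ a, deg C a ≤ ρ) (hτ : ∀ x, x ∉ S → deg T x ≤ τ)
    (hS : ∀ x ∈ S, ∀ y ∈ S, T.Adj x y → ¬ C.Adj (φ₀ x) (φ₀ y))
    (hbig : ∀ x b, τ < deg T x → C.Adj (φ₀ x) b → φ₀.symm b ∈ S)
    (hn : S.card + 1 + τ + 2 * (ρ * τ) < n) :
    ∃ φ : Equiv.Perm (Fin n), ∀ x y, T.Adj x y → ¬ C.Adj (φ x) (φ y) := by
  classical
  have key : ∀ m : ℕ, ∀ φ : Equiv.Perm (Fin n), (switchConf T C φ).card = m → (∀ x ∈ S, φ x = φ₀ x) →
      ∃ φ : Equiv.Perm (Fin n), ∀ x y, T.Adj x y → ¬ C.Adj (φ x) (φ y) := by
    intro m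
    induction m using Nat.strong_induction_on with
    | _ m ih =>
      intro φ hm hφ
      by_cases hcon : ∀ x y, T.Adj x y → ¬ C.Adj (φ x) (φ y)
      · exact ⟨φ, hcon⟩
      · push Not at hcon
        obtain ⟨x, y, hT, hCxy⟩ := hcon
        by_cases hx : x ∈ S
        · have hy : y ∉ S := by
            intro hy
            have := hS x hx y hy hT
            rw [hφ x hx, hφ y hy] at hCxy
            exact this hCxy
          obtain ⟨φ', h1, h2⟩ := switch_step T C S φ₀ φ ρ τ hC hτ hbig hn hφ y x hy hT.symm hCxy.symm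
          exact ih _ (hm ▸ h2) φ' rfl h1
        · obtain ⟨φ', h1, h2⟩ := switch_step T C S φ₀ φ ρ τ hC hτ hbig hn hφ x y hx hT hCxy
          exact ih _ (hm ▸ h2) φ' rfl h1
  exact key _ φ₀ rfl (fun _ _ => rfl)

end H67.SG
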