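import Pool.Agent.H67.SG.TDeg
import Pool.Agent.H67.SG.PreAll
import Pool.Agent.H67.SG.Switch

/-! # SG.Pack : the packing lemma (about 180 lines)

`τ = n / (16 (ρ + 1))` (natural division), `B = {x | τ < deg T x}`, `β = 32 (ρ + 1)`: `|B| (τ + 1) ≤ Σ deg = 2 (n - 1)` (`sum_deg`) and `16 (ρ+1) (τ+1) > n` give `|B| ≤ β`. For
`x ∈ B`, `x ≠ c`: `deg x + deg c ≤ n` (`deg_add_deg`), `deg x ≤ deg c`, so `2 deg x ≤ n`. `S₀ = {c} ∪ J`, `ψ₀ c = p`, `ψ₀` a bijection of `J` onto the `C`-neighbours of `p`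
(`J.card = deg C p`); injective on `S₀` (`p` is not its own neighbour). No conflicts: `c` is not adjacent to `J` in `T`, `J` is independent. `J ∩ B = ∅` since `16 (ρ+1) deg z ≤ n` means
`deg z ≤ τ`. `pre_all` with `c₁ = c`, then `switch` with this `S`: `|S| ≤ 1 + ρ + β (1 + ρ)` is bounded, `τ + 2 ρ τ ≤ n / 8`, `2 ρ (τ + 1) ≤ n/8 + 2 ρ`: all the size conditions hold for large `n`. -/

namespace H67.SG

open SimpleGraph Pool.Agent.H62.Decomp

/-- a degree bound with the factor `16 (ρ + 1)` -/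
private lemma le_div_aux (ρ n d : ℕ) (h : 16 * (ρ + 1) * d ≤ n) : d ≤ n / (16 * (ρ + 1)) := by
  rw [Nat.le_div_iff_mul_le (by positivity)]
  calc d * (16 * (ρ + 1)) = 16 * (ρ + 1) * d := by ring
    _ ≤ n := h

/-- the number of vertices of large degree is bounded -/
private lemma big_card {n : ℕ} (ρ : ℕ) (T : SimpleGraph (Fin n)) (hT : T.IsTree)
    (B : Finset (Fin n)) (hB : ∀ x ∈ B, n / (16 * (ρ + 1)) < deg T x) : B.card ≤ 32 * (ρ + 1) := by
  classical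
  set τ := n / (16 * (ρ + 1)) with hτ
  have h1 : B.card * (τ + 1) ≤ ∑ x ∈ B, deg T x := by
    rw [← smul_eq_mul]
    exact Finset.card_nsmul_le_sum B (fun x => deg T x) (τ + 1) (fun x hx => hB x hx)
  have h2 : ∑ x ∈ B, deg T x ≤ ∑ x, deg T x :=
    Finset.sum_le_sum_of_subset (Finset.subset_univ B)
  have h3 := sum_deg T hT
  have h4 : n < 16 * (ρ + 1) * (τ + 1) := Nat.lt_mul_div_succ n (by positivity)
  have h5 : B.card * (τ + 1) < 32 * (ρ + 1) * (τ + 1) := by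
    have : 32 * (ρ + 1) * (τ + 1) = 2 * (16 * (ρ + 1) * (τ + 1)) := by ring
    omega
  exact (Nat.lt_of_mul_lt_mul_right h5).le

/-- the start configuration: `c` goes to `p`, `J` to the neighbours of `p` -/
private lemma start_map {n : ℕ} (T C : SimpleGraph (Fin n)) (c p : Fin n) (J : Finset (Fin n))
    (hJc : ∀ z ∈ J, z ≠ c ∧ ¬ T.Adj c z) (hJ : ∀ y ∈ J, ∀ z ∈ J, ¬ T.Adj y z) (hcard : J.card = deg C p) :
    ∃ ψ₀ : Fin n → Fin n, ψ₀ c = p ∧ Set.InjOn ψ₀ ((insert c J : Finset (Fin n)) : Set (Fin n)) ∧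
      (∀ x ∈ insert c J, ∀ y ∈ insert c J, T.Adj x y → ¬ C.Adj (ψ₀ x) (ψ₀ y)) ∧
      (∀ b, C.Adj (ψ₀ c) b → ∃ x ∈ insert c J, ψ₀ x = b) := by
  classical
  have hcd : J.card = (Finset.univ.filter (fun y => C.Adj p y)).card := hcard
  let e : J ≃ (Finset.univ.filter (fun y => C.Adj p y) : Finset (Fin n)) := Finset.equivOfCardEq hcd
  let ψ : Fin n → Fin n := fun x => if h : x ∈ J then (e ⟨x, h⟩ : Fin n) else p
  have hcJ : c ∉ J := fun h => (hJc c h).1 rfl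
  have hψc : ψ c = p := by simp only [ψ, dif_neg hcJ]
  have hψJ : ∀ x (h : x ∈ J), ψ x = (e ⟨x, h⟩ : Fin n) := fun x h => by simp only [ψ, dif_pos h]
  have hadj : ∀ x, x ∈ J → C.Adj p (ψ x) := by
    intro x h
    rw [hψJ x h]
    exact (Finset.mem_filter.1 (e ⟨x, h⟩).2).2
  refine ⟨ψ, hψc, ?_, ?_, ?_⟩
  · intro x hx y hy hxy
    simp only [Finset.coe_insert, Set.mem_insert_iff, Finset.mem_coe] at hx hy
    rcases hx with rfl | hx
    · rcases hy with rfl | hy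
      · rfl
      · exfalso
        have := hadj y hy
        rw [← hxy, hψc] at this
        exact C.loopless.irrefl _ this
    · rcases hy with rfl | hy
      · exfalso
        have := hadj x hx
        rw [hxy, hψc] at this
        exact C.loopless.irrefl _ this
      · rw [hψJ x hx, hψJ y hy] at hxy
        have h1 := e.injective (Subtype.ext hxy)
        exact congrArg Subtype.val h1
  · intro x hx y hy hxy
    exfalso
    rw [Finset.mem_insert] at hx hy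
    rcases hx with rfl | hx
    · rcases hy with rfl | hy
      · exact hxy.ne rfl
      · exact (hJc y hy).2 hxy
    · rcases hy with rfl | hy
      · exact (hJc x hx).2 hxy.symm
      · exact hJ x hx y hy hxy
  · intro b hb
    rw [hψc] at hb
    have hbm : b ∈ (Finset.univ.filter (fun y => C.Adj p y) : Finset (Fin n)) := by simpa using hb
    refine ⟨(e.symm ⟨b, hbm⟩ : Fin n), Finset.mem_insert_of_mem (e.symm ⟨b, hbm⟩).2, ?_⟩
    rw [hψJ _ (e.symm ⟨b, hbm⟩).2]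
    simp

theorem pack (ρ : ℕ) : ∃ n₀ : ℕ, ∀ n : ℕ, n₀ ≤ n → ∀ T C : SimpleGraph (Fin n), T.IsTree →
    (∀ a, deg C a ≤ ρ) → ∀ c : Fin n, (∀ x, deg T x ≤ deg T c) → ∀ (p : Fin n) (J : Finset (Fin n)),
      (∀ z ∈ J, z ≠ c ∧ ¬ T.Adj c z) → (∀ y ∈ J, ∀ z ∈ J, ¬ T.Adj y z) →
      (∀ z ∈ J, 16 * (ρ + 1) * deg T z ≤ n) → J.card = deg C p →
      ∃ φ : Equiv.Perm (Fin n), ∀ x y, T.Adj x y → ¬ C.Adj (φ x) (φ y) := by
  classical
  -- the constant
  obtain ⟨K, hK⟩ : ∃ K : ℕ, K = 1 + ρ + 32 * (ρ + 1) * (1 + ρ) := ⟨_, rfl⟩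
  refine ⟨4 * (K + 32 * (ρ + 1) + 2 + ρ) + K * (1 + ρ + ρ ^ 2) + 1, ?_⟩
  intro n hn T C hT hC c hmax p J hJc hJ hJd hcard
  obtain ⟨τ, hτ⟩ : ∃ τ : ℕ, τ = n / (16 * (ρ + 1)) := ⟨_, rfl⟩
  have hτn : 16 * (ρ + 1) * τ ≤ n := by rw [hτ]; exact Nat.mul_div_le n _
  have hρτ : 16 * (ρ * τ) + 16 * τ ≤ n := by
    calc 16 * (ρ * τ) + 16 * τ = 16 * (ρ + 1) * τ := by ring
      _ ≤ n := hτn
  let B : Finset (Fin n) := Finset.univ.filter (fun x => τ < deg T x)
  have hBmem : ∀ x, x ∈ B ↔ τ < deg T x := fun x => by simp [B]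
  have hBc : B.card ≤ 32 * (ρ + 1) := by
    apply big_card ρ T hT B
    intro x hx
    rw [← hτ]
    exact (hBmem x).1 hx
  have hBn : ∀ x, x ∉ B → deg T x ≤ τ := fun x hx => by
    rw [hBmem] at hx
    omega
  have hdeg : ∀ x ∈ B, x ≠ c → 2 * deg T x ≤ n := by
    intro x _ hxc
    have h1 := deg_add_deg T hT x c hxc
    have h2 := hmax x
    omega
  obtain ⟨ψ₀, hψc, hinj, hS₀, hcl⟩ := start_map T C c p J hJc hJ hcard
  have hS₀B : ∀ x ∈ insert c J, x ∈ B → x = c := by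
    intro x hx hxB
    rw [Finset.mem_insert] at hx
    rcases hx with h | h
    · exact h
    · exfalso
      have h1 := le_div_aux ρ n _ (hJd x h)
      rw [← hτ] at h1
      have h2 := (hBmem x).1 hxB
      omega
  have hS₀c : (insert c J).card ≤ 1 + ρ := by
    have h1 := Finset.card_insert_le c J
    have h2 := hC p
    omega
  have hSK : (insert c J).card + 32 * (ρ + 1) * (1 + ρ) ≤ K := by omega
  have hmul : ((insert c J).card + 32 * (ρ + 1) * (1 + ρ)) * (1 + ρ + ρ ^ 2) ≤ K * (1 + ρ + ρ ^ 2) :=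
    Nat.mul_le_mul_right _ hSK
  have hmulτ : ρ * (τ + 1) = ρ * τ + ρ := by ring
  obtain ⟨S, φ₀, hBS, hSc, hSconf, hSbig⟩ := pre_all T C ρ τ (32 * (ρ + 1)) hC B hBn hBc c hdeg
    (insert c J) hS₀B ψ₀ hinj hS₀ (Finset.mem_insert_self c J) hcl (by omega) (by omega)
  refine switch T C S φ₀ ρ τ hC ?_ hSconf ?_ ?_
  · intro x hx
    exact hBn x (fun h => hx (hBS h))
  · intro x b hx hb
    exact hSbig x ((hBmem x).2 hx) b hb
  · omega

end H67.SG
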