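import Pool.Agent.H67.SG.Core
import Pool.Agent.H67.SG.Join
import Pool.Agent.H67.SG.StarMem

/-! # SG.PartA : trees which are not near-stars (about 150 lines)

`q = k - 1 ≥ 1`, `m = card V`. `emb_low m` gives `K`, `n₁`. `core` with `K = 1`. Let `T` be a tree with `deg T x + K ≤ n` for all `x`. Lower bounds: `chi_lower` (`G` is not `q`-colourable) and `class_lower`. Upper bound for `ramsey`: let `C` be a
graph on `Fin (q (n-1) + 1)` without `G`, `T`; `core`; by pigeonhole some part `H` has at least `n` elements, all red degrees inside are `< m`: `emb_low` gives `T ⊑ Cᶜ`. Upper bound for `classRamsey`: `C` on `Fin n`; if some vertex has degree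
`≥ m` then `ContainsMember` (`col_of_sing`, `star_member` with any `i ≠ f v`, `|N| ≤ m`, `n ≥ m`); otherwise `emb_low` for `H = univ`. -/

namespace H67.SG

open SimpleGraph Pool.Agent.H62.Decomp

theorem partA {V : Type} [Fintype V] (G : SimpleGraph V) (k : ℕ) (hk3 : 3 ≤ k) (hk : G.chromaticNumber = k)
    (v : V) (hv : (G.induce {x | x ≠ v}).Colorable (k - 1)) :
    ∃ K n₀ : ℕ, ∀ n : ℕ, n₀ ≤ n → ∀ T : SimpleGraph (Fin n), T.IsTree → (∀ x, deg T x + K ≤ n) →
      ramsey G T = (k - 1) * (n - 1) + 1 ∧ classRamsey G T = n := by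
  classical
  obtain ⟨K, n1, hlow⟩ := emb_low (Fintype.card V)
  obtain ⟨n2, hcore⟩ := core G (k - 1) (by omega) v hv 1
  have hk2 : G.chromaticNumber.toNat = k := by rw [hk]; rfl
  have hnc : ¬ G.Colorable (k - 1) := by
    intro h
    have h1 := h.chromaticNumber_le
    rw [hk] at h1
    have h2 : k ≤ k - 1 := by exact_mod_cast h1
    omega
  refine ⟨K, n1 + n2 + Fintype.card V + 1, ?_⟩
  intro n hn T hT hdeg
  refine ⟨le_antisymm ?_ (chi_lower G (k - 1) hnc T hT), le_antisymm ?_ (class_lower G (by omega) T hT)⟩
  · refine ramsey_le G T _ (fun C => ?_)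
    by_contra hcon
    rw [not_or] at hcon
    obtain ⟨c, g, hg, hstr, hc1⟩ := hcore n (by omega) T hT (Fin ((k - 1) * (n - 1) + 1)) C hcon.1 hcon.2
      (by rw [Fintype.card_fin])
    obtain ⟨j, hj⟩ : ∃ j, n ≤ (part c j).card := by
      by_contra hall
      push Not at hall
      have h1 : (Finset.univ : Finset (Fin ((k - 1) * (n - 1) + 1))).card = ∑ j : Fin (k - 1), (part c j).card := by
        have h2 := Finset.card_eq_sum_card_fiberwise (f := c)
          (s := (Finset.univ : Finset (Fin ((k - 1) * (n - 1) + 1)))) (t := (Finset.univ : Finset (Fin (k - 1))))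
          (fun x _ => Finset.mem_coe.2 (Finset.mem_univ _))
        rw [h2]
        refine Finset.sum_congr rfl (fun j _ => ?_)
        unfold part
        congr 1
      have h3 : ∑ j : Fin (k - 1), (part c j).card ≤ ∑ _j : Fin (k - 1), (n - 1) :=
        Finset.sum_le_sum (fun j _ => by have := hall j; omega)
      rw [Finset.card_univ, Fintype.card_fin] at h1
      rw [Finset.sum_const, Finset.card_univ, Fintype.card_fin, smul_eq_mul] at h3
      omega
    refine hcon.2 (hlow n (by omega) T hT hdeg _ C (part c j) hj (fun x hx => ?_))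
    have h4 : c x = j := by
      unfold part at hx
      exact (Finset.mem_filter.1 hx).2
    have h5 := hstr.inner x
    rw [h4] at h5
    exact h5.le
  · refine class_le G T n (fun C => ?_)
    by_cases hall : ∀ x, deg C x ≤ Fintype.card V
    · exact Or.inr (hlow n (by omega) T hT hdeg _ C Finset.univ (by rw [Finset.card_univ, Fintype.card_fin])
        (fun x _ => hall x))
    · push Not at hall
      obtain ⟨x₀, hx₀⟩ := hall
      obtain ⟨q, rfl⟩ : ∃ q, k = q + 1 := ⟨k - 1, by omega⟩
      rw [Nat.add_sub_cancel] at hv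
      obtain ⟨f, hf, hf2⟩ := col_of_sing G q v hv
      refine Or.inl (star_member G (q + 1) hk f v hf 0 ?_ C x₀ ?_ ?_)
      · rw [hf2]
        intro h0
        have h1 := congrArg Fin.val h0
        rw [Fin.val_zero, Fin.val_last] at h1
        omega
      · refine le_trans ?_ hx₀.le
        rw [← Nat.card_eq_fintype_card, ← Set.ncard_univ]
        exact Set.ncard_le_ncard (Set.subset_univ _) Set.finite_univ
      · rw [Fintype.card_fin]
        omega

end H67.SG
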