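import Pool.Agent.H67.SG.Def

/-! # SG.Pre : placing one more big vertex together with its forbidden positions (about 250 lines)

Positions `ψ(S)` are used. Choose a position `p` at `C`-distance at least 3 from all used positions: the positions at distance `≤ 2` from a given one number at most
`1 + ρ + ρ²`, so `|S| (1 + ρ + ρ²) < n` suffices (`hn2`). So `p` is unused, the `k ≤ ρ` neighbours `b_1, …, b_k` of `p` in `C` are unused, and neither `p` nor any `b_i` is
adjacent (in `C`) to a used position. Choose pairwise different, pairwise non-adjacent (in `T`) vertices `z_1, …, z_k` outside `S`, outside `B`, different from `c` and not adjacent to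
`c`: one after the other, the excluded vertices number at most `|S| + β + 1 + deg T c + (ρ - 1)(τ + 1)`, and `2 deg T c ≤ n`, so `hn1` gives room. Put `S' = S ∪ {c, z_1, …, z_k}`,
`ψ' c = p`, `ψ' z_i = b_i`, `ψ' = ψ` on `S`. Conflicts: inside `S` none; between `S` and a new vertex none since the new positions are not adjacent to used ones; `c` and
`z_i` are not adjacent in `T`; the `z_i` are pairwise not adjacent in `T`. -/

namespace H67.SG

open SimpleGraph Pool.Agent.H62.Decomp

open Classical in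
private theorem pre_choose {n : ℕ} (T : SimpleGraph (Fin n)) (X : Finset (Fin n)) (τ : ℕ)
    (hτ : ∀ x, x ∉ X → deg T x ≤ τ) (N : Finset (Fin n)) (hn : X.card + N.card * (τ + 1) < n) :
    ∃ z : Fin n → Fin n, Set.InjOn z (N : Set (Fin n)) ∧ (∀ b ∈ N, z b ∉ X) ∧
      ∀ b ∈ N, ∀ b' ∈ N, ¬ T.Adj (z b) (z b') := by
  induction N using Finset.induction_on with
  | empty =>
    exact ⟨id, fun a ha => by simp at ha, fun b hb => by simp at hb, fun b hb => by simp at hb⟩
  | insert b0 N hb0 ih =>
    rw [Finset.card_insert_of_notMem hb0] at hn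
    obtain ⟨z, hz1, hz2, hz3⟩ := ih (by nlinarith)
    let Y : Finset (Fin n) := X ∪ (N.image z ∪ N.biUnion fun b => Finset.univ.filter fun y => T.Adj (z b) y)
    have hY : Y.card < n := by
      have h1 : (N.image z).card ≤ N.card := Finset.card_image_le
      have h2 : (N.biUnion fun b => Finset.univ.filter fun y => T.Adj (z b) y).card ≤ N.card * τ := by
        refine Finset.card_biUnion_le_card_mul _ _ _ fun b hb => ?_
        exact hτ (z b) (hz2 b hb)
      have h3 : Y.card ≤ X.card + (N.card + N.card * τ) := by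
        refine (Finset.card_union_le _ _).trans (Nat.add_le_add_left ?_ _)
        exact (Finset.card_union_le _ _).trans (Nat.add_le_add h1 h2)
      nlinarith
    obtain ⟨w, hw⟩ : ∃ w, w ∉ Y := by
      by_contra hc
      push Not at hc
      have h1 : Y = Finset.univ := Finset.eq_univ_iff_forall.2 hc
      rw [h1, Finset.card_univ, Fintype.card_fin] at hY
      exact lt_irrefl _ hY
    simp only [Y, Finset.mem_union, not_or, Finset.mem_image, Finset.mem_biUnion, Finset.mem_filter,
      Finset.mem_univ, true_and, not_exists, not_and] at hw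
    obtain ⟨hwX, hwN, hwT⟩ := hw
    have hne : ∀ b ∈ N, b ≠ b0 := fun b hb h => hb0 (h ▸ hb)
    have hz0 : Function.update z b0 w b0 = w := Function.update_self _ _ _
    have hzN : ∀ b ∈ N, Function.update z b0 w b = z b := fun b hb => Function.update_of_ne (hne b hb) _ _
    refine ⟨Function.update z b0 w, ?_, ?_, ?_⟩
    · intro a ha b hb hab
      rw [Finset.mem_coe, Finset.mem_insert] at ha hb
      rcases ha with rfl | ha <;> rcases hb with rfl | hb
      · rfl
      · rw [hz0, hzN b hb] at hab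
        exact absurd hab.symm (hwN b hb)
      · rw [hz0, hzN a ha] at hab
        exact absurd hab (hwN a ha)
      · rw [hzN a ha, hzN b hb] at hab
        exact hz1 ha hb hab
    · intro b hb
      rcases Finset.mem_insert.1 hb with rfl | hb
      · rw [hz0]
        exact hwX
      · rw [hzN b hb]
        exact hz2 b hb
    · intro a ha b hb
      rcases Finset.mem_insert.1 ha with rfl | ha' <;> rcases Finset.mem_insert.1 hb with rfl | hb'
      · exact T.loopless.irrefl _
      · rw [hz0, hzN b hb']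
        exact fun h => hwT b hb' h.symm
      · rw [hz0, hzN a ha']
        exact hwT a ha'
      · rw [hzN a ha', hzN b hb']
        exact hz3 a ha' b hb'

theorem pre_step {n : ℕ} (T C : SimpleGraph (Fin n)) (ρ τ β : ℕ) (hC : ∀ a, deg C a ≤ ρ)
    (B : Finset (Fin n)) (hB : ∀ x, x ∉ B → deg T x ≤ τ) (hBc : B.card ≤ β) (S : Finset (Fin n))
    (ψ : Fin n → Fin n) (hinj : Set.InjOn ψ (S : Set (Fin n)))
    (hS : ∀ x ∈ S, ∀ y ∈ S, T.Adj x y → ¬ C.Adj (ψ x) (ψ y)) (c : Fin n) (hc : c ∉ S)
    (hdeg : 2 * deg T c ≤ n) (hn1 : 2 * (S.card + β + 2 + ρ * (τ + 1)) ≤ n)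
    (hn2 : S.card * (1 + ρ + ρ ^ 2) < n) :
    ∃ (S' : Finset (Fin n)) (ψ' : Fin n → Fin n), S ⊆ S' ∧ (∀ x ∈ S, ψ' x = ψ x) ∧
      Set.InjOn ψ' (S' : Set (Fin n)) ∧ (∀ x ∈ S', ∀ y ∈ S', T.Adj x y → ¬ C.Adj (ψ' x) (ψ' y)) ∧
      c ∈ S' ∧ (∀ b, C.Adj (ψ' c) b → ∃ x ∈ S', ψ' x = b) ∧ S'.card ≤ S.card + 1 + ρ ∧
      ∀ x ∈ S', x ∉ S → x ≠ c → x ∉ B := by
  classical
  -- the position `p`
  let bad : Fin n → Finset (Fin n) := fun u =>
    insert u ((Finset.univ.filter fun y => C.Adj u y) ∪
      (Finset.univ.filter fun y => C.Adj u y).biUnion fun w => Finset.univ.filter fun y => C.Adj w y)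
  have hbad : ∀ u, (bad u).card ≤ 1 + ρ + ρ ^ 2 := by
    intro u
    have h1 : (Finset.univ.filter fun y => C.Adj u y).card ≤ ρ := hC u
    have h2 : ((Finset.univ.filter fun y => C.Adj u y).biUnion fun w =>
        Finset.univ.filter fun y => C.Adj w y).card ≤ (Finset.univ.filter fun y => C.Adj u y).card * ρ :=
      Finset.card_biUnion_le_card_mul _ _ _ fun w _ => hC w
    have h3 : (Finset.univ.filter fun y => C.Adj u y).card * ρ ≤ ρ * ρ := Nat.mul_le_mul_right _ h1
    have h4 := Finset.card_insert_le u ((Finset.univ.filter fun y => C.Adj u y) ∪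
      (Finset.univ.filter fun y => C.Adj u y).biUnion fun w => Finset.univ.filter fun y => C.Adj w y)
    have h5 := Finset.card_union_le (Finset.univ.filter fun y => C.Adj u y)
      ((Finset.univ.filter fun y => C.Adj u y).biUnion fun w => Finset.univ.filter fun y => C.Adj w y)
    change (insert u _ : Finset (Fin n)).card ≤ _
    rw [pow_two]
    omega
  have hall : (S.biUnion fun x => bad (ψ x)).card < n :=
    lt_of_le_of_lt (Finset.card_biUnion_le_card_mul _ _ _ fun x _ => hbad (ψ x)) hn2
  obtain ⟨p, hp⟩ : ∃ p, p ∉ S.biUnion fun x => bad (ψ x) := by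
    by_contra hc
    push Not at hc
    have h1 : (S.biUnion fun x => bad (ψ x)) = Finset.univ := Finset.eq_univ_iff_forall.2 hc
    rw [h1, Finset.card_univ, Fintype.card_fin] at hall
    exact lt_irrefl _ hall
  simp only [bad, Finset.mem_biUnion, Finset.mem_insert, Finset.mem_union, Finset.mem_filter,
    Finset.mem_univ, true_and, not_exists, not_and, not_or] at hp
  have hp1 : ∀ x ∈ S, ψ x ≠ p := fun x hx h => (hp x hx).1 h.symm
  have hp2 : ∀ x ∈ S, ¬ C.Adj (ψ x) p := fun x hx => (hp x hx).2.1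
  have hp3 : ∀ x ∈ S, ∀ b, C.Adj p b → ¬ C.Adj (ψ x) b := fun x hx b hb h =>
    (hp x hx).2.2 b h hb.symm
  -- the new vertices
  let N : Finset (Fin n) := Finset.univ.filter fun y => C.Adj p y
  have hN : ∀ b, b ∈ N ↔ C.Adj p b := fun b => by simp [N]
  have hNc : N.card ≤ ρ := hC p
  let X : Finset (Fin n) := (S ∪ B) ∪ insert c (Finset.univ.filter fun y => T.Adj c y)
  have hXc : X.card ≤ S.card + β + (1 + deg T c) := by
    have h1 : (insert c (Finset.univ.filter fun y => T.Adj c y)).card ≤ deg T c + 1 :=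
      Finset.card_insert_le _ _
    have h2 := Finset.card_union_le S B
    have h3 := Finset.card_union_le (S ∪ B) (insert c (Finset.univ.filter fun y => T.Adj c y))
    change ((S ∪ B) ∪ insert c (Finset.univ.filter fun y => T.Adj c y)).card ≤ _
    omega
  have hX : ∀ x, x ∉ X → x ∉ S ∧ x ∉ B ∧ x ≠ c ∧ ¬ T.Adj c x := by
    intro x hx
    simp only [X, Finset.mem_union, Finset.mem_insert, Finset.mem_filter, Finset.mem_univ, true_and,
      not_or] at hx
    exact ⟨hx.1.1, hx.1.2, hx.2.1, hx.2.2⟩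
  obtain ⟨z, hz1, hz2, hz3⟩ := pre_choose T X τ (fun x hx => hB x (hX x hx).2.1) N (by
    have h1 : N.card * (τ + 1) ≤ ρ * (τ + 1) := Nat.mul_le_mul_right _ hNc
    omega)
  let ψ' : Fin n → Fin n := fun x =>
    if x ∈ S then ψ x else if x = c then p else if h : ∃ b, b ∈ N ∧ z b = x then h.choose else x
  have e1 : ∀ x ∈ S, ψ' x = ψ x := fun x hx => if_pos hx
  have e2 : ψ' c = p := by
    change (if c ∈ S then ψ c else if c = c then p else _) = p
    rw [if_neg hc, if_pos rfl]
  have e3 : ∀ b ∈ N, ψ' (z b) = b := by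
    intro b hb
    have hzb := hX _ (hz2 b hb)
    have hex : ∃ b', b' ∈ N ∧ z b' = z b := ⟨b, hb, rfl⟩
    change (if z b ∈ S then ψ (z b) else if z b = c then p else
      if h : ∃ b', b' ∈ N ∧ z b' = z b then h.choose else z b) = b
    rw [if_neg hzb.1, if_neg hzb.2.2.1, dif_pos hex]
    exact hz1 (Finset.mem_coe.2 hex.choose_spec.1) (Finset.mem_coe.2 hb) hex.choose_spec.2
  have hmem : ∀ x ∈ S ∪ insert c (N.image z), x ∈ S ∨ x = c ∨ ∃ b ∈ N, z b = x := by
    intro x hx
    rw [Finset.mem_union, Finset.mem_insert, Finset.mem_image] at hx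
    exact hx
  have hpb : ∀ b ∈ N, p ≠ b := fun b hb => ((hN b).1 hb).ne
  have hSb : ∀ x ∈ S, ∀ b ∈ N, ψ x ≠ b := fun x hx b hb h => hp2 x hx (h ▸ ((hN b).1 hb).symm)
  refine ⟨S ∪ insert c (N.image z), ψ', Finset.subset_union_left, e1, ?_, ?_, ?_, ?_, ?_, ?_⟩
  · intro x hx y hy hxy
    have hx0 := hmem x (Finset.mem_coe.1 hx)
    have hy0 := hmem y (Finset.mem_coe.1 hy)
    clear hx hy
    rcases hx0 with hx | rfl | ⟨b, hb, rfl⟩ <;>
      rcases hy0 with hy | rfl | ⟨b', hb', rfl⟩
    · rw [e1 x hx, e1 y hy] at hxy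
      exact hinj (Finset.mem_coe.2 hx) (Finset.mem_coe.2 hy) hxy
    · rw [e1 x hx, e2] at hxy
      exact absurd hxy (hp1 x hx)
    · rw [e1 x hx, e3 b' hb'] at hxy
      exact absurd hxy (hSb x hx b' hb')
    · rw [e1 y hy, e2] at hxy
      exact absurd hxy.symm (hp1 y hy)
    · rfl
    · rw [e2, e3 b' hb'] at hxy
      exact absurd hxy (hpb b' hb')
    · rw [e1 y hy, e3 b hb] at hxy
      exact absurd hxy.symm (hSb y hy b hb)
    · rw [e2, e3 b hb] at hxy
      exact absurd hxy.symm (hpb b hb)
    · rw [e3 b hb, e3 b' hb'] at hxy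
      rw [hxy]
  · intro x hx y hy hxy
    have hx0 := hmem x hx
    have hy0 := hmem y hy
    clear hx hy
    rcases hx0 with hx | rfl | ⟨b, hb, rfl⟩ <;>
      rcases hy0 with hy | rfl | ⟨b', hb', rfl⟩
    · rw [e1 x hx, e1 y hy]
      exact hS x hx y hy hxy
    · rw [e1 x hx, e2]
      exact hp2 x hx
    · rw [e1 x hx, e3 b' hb']
      exact hp3 x hx b' ((hN b').1 hb')
    · rw [e1 y hy, e2]
      exact fun h => hp2 y hy h.symm
    · exact absurd hxy (T.loopless.irrefl _)
    · exact absurd hxy (hX _ (hz2 b' hb')).2.2.2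
    · rw [e1 y hy, e3 b hb]
      exact fun h => hp3 y hy b ((hN b).1 hb) h.symm
    · exact absurd hxy.symm (hX _ (hz2 b hb)).2.2.2
    · exact absurd hxy (hz3 b hb b' hb')
  · exact Finset.mem_union_right _ (Finset.mem_insert_self _ _)
  · intro b hb
    rw [e2] at hb
    have hb' := (hN b).2 hb
    exact ⟨z b, Finset.mem_union_right _ (Finset.mem_insert_of_mem (Finset.mem_image_of_mem z hb')), e3 b hb'⟩
  · have h1 : (N.image z).card ≤ N.card := Finset.card_image_le
    have h2 := Finset.card_insert_le c (N.image z)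
    have h3 := Finset.card_union_le S (insert c (N.image z))
    omega
  · intro x hx hxS hxc
    rcases hmem x hx with h | h | ⟨b, hb, rfl⟩
    · exact absurd h hxS
    · exact absurd h hxc
    · exact (hX _ (hz2 b hb)).2.1

end H67.SG
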