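import Pool.Agent.H67.SG.Def

/-! # SG.Realize : completing a partial embedding of G (about 150 lines)

Order the vertices `z ∉ X` arbitrarily and place them one after the other (induction over a finset `Y` with `X ⊆ Y ⊆ univ`: there is `φ : V → W` with
`φ = ψ` on `X`, injective on `Y`, `c (φ y) = lam y` on `Y`, and `C.Adj (φ y) (φ y')` for all `y, y' ∈ Y`, not both in `X`, with `lam y ≠ lam y'`). Step for `z ∉ Y`: wanted an element of
`part c (lam z)` which is unused (at most `|Y|` used) and adjacent to all `φ y`, `y ∈ Y` with `lam y ≠ lam z`; each of these has `c (φ y) = lam y ≠ lam z`, so at most `g` non-neighbours in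
`part c (lam z)` (`hcr`). Available: at least `n - g - |Y| g - |Y| > 0` by `hn`. At the end `φ : V → W` is injective; for an edge `x y` of `G`: both in `X`: `hX`; otherwise, say `x ∉ X`: `lam x ≠ lam y` by
`hz`, so `C.Adj (φ x) (φ y)`. `contained_of_map`. -/

namespace H67.SG

open SimpleGraph Pool.Agent.H62.Decomp

private theorem rz_step {V : Type} [Fintype V] [DecidableEq V] {W : Type} [Fintype W] (C : SimpleGraph W)
    (q n g : ℕ) (c : W → Fin q) (hsz : ∀ j, n ≤ (part c j).card + g)
    (hcr : ∀ x j, j ≠ c x → nd C x (part c j) ≤ g)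
    (hn : (Fintype.card V + 1) * g + Fintype.card V + 1 ≤ n) (lam : V → Fin q) (Y : Finset V) (z : V) (φ : V → W)
    (hc : ∀ y ∈ Y, c (φ y) = lam y) :
    ∃ w : W, c w = lam z ∧ (∀ y ∈ Y, φ y ≠ w) ∧ ∀ y ∈ Y, lam y ≠ lam z → C.Adj (φ y) w := by
  classical
  let B1 : Finset W := Y.image φ
  let B2 : Finset W := (Y.filter (fun y => lam y ≠ lam z)).biUnion (fun y => (part c (lam z)).filter (fun w => ¬ C.Adj (φ y) w))
  have hB1 : B1.card ≤ Y.card := Finset.card_image_le
  have hB2 : B2.card ≤ Y.card * g := by
    refine le_trans (Finset.card_biUnion_le_card_mul _ _ g fun y hy => ?_) (Nat.mul_le_mul_right g (Finset.card_filter_le _ _))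
    rw [Finset.mem_filter] at hy
    have h1 := hcr (φ y) (lam z) (by rw [hc y hy.1]; exact fun h => hy.2 h.symm)
    unfold nd at h1
    exact h1
  have hY : Y.card ≤ Fintype.card V := Finset.card_le_univ Y
  have hlt : (B1 ∪ B2).card < (part c (lam z)).card := by
    have h1 := Finset.card_union_le B1 B2
    have h2 := hsz (lam z)
    have h3 : Y.card * g ≤ Fintype.card V * g := Nat.mul_le_mul_right g hY
    have h4 : (Fintype.card V + 1) * g = Fintype.card V * g + g := by ring
    omega
  obtain ⟨w, hw, hwB⟩ := Finset.exists_mem_notMem_of_card_lt_card hlt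
  rw [Finset.mem_union, not_or] at hwB
  refine ⟨w, ?_, fun y hy h => hwB.1 (Finset.mem_image.2 ⟨y, hy, h⟩), fun y hy hne => ?_⟩
  · unfold part at hw
    exact (Finset.mem_filter.1 hw).2
  · by_contra hcon
    exact hwB.2 (Finset.mem_biUnion.2 ⟨y, Finset.mem_filter.2 ⟨hy, hne⟩, Finset.mem_filter.2 ⟨hw, hcon⟩⟩)

theorem realize {V : Type} [Fintype V] (G : SimpleGraph V) {W : Type} [Fintype W] (C : SimpleGraph W)
    (q n g : ℕ) (c : W → Fin q) (hsz : ∀ j, n ≤ (part c j).card + g)
    (hcr : ∀ x j, j ≠ c x → nd C x (part c j) ≤ g)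
    (hn : (Fintype.card V + 1) * g + Fintype.card V + 1 ≤ n) (lam : V → Fin q) (X : Finset V) (ψ : V → W)
    (hinj : Set.InjOn ψ (X : Set V)) (hc : ∀ x ∈ X, c (ψ x) = lam x)
    (hX : ∀ x ∈ X, ∀ y ∈ X, G.Adj x y → C.Adj (ψ x) (ψ y))
    (hz : ∀ z, z ∉ X → ∀ u, G.Adj z u → lam z ≠ lam u) : G ⊑ C := by
  classical
  have key : ∀ Z : Finset V, ∃ φ : V → W, (∀ x ∈ X, φ x = ψ x) ∧ Set.InjOn φ ((X ∪ Z : Finset V) : Set V) ∧
      (∀ y ∈ X ∪ Z, c (φ y) = lam y) ∧
      ∀ y ∈ X ∪ Z, ∀ y' ∈ X ∪ Z, ¬ (y ∈ X ∧ y' ∈ X) → lam y ≠ lam y' → C.Adj (φ y) (φ y') := by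
    intro Z
    induction Z using Finset.induction_on with
    | empty =>
      refine ⟨ψ, fun x _ => rfl, ?_, ?_, ?_⟩
      · rw [Finset.union_empty]; exact hinj
      · rw [Finset.union_empty]; exact hc
      · rw [Finset.union_empty]
        intro y hy y' hy' h
        exact absurd ⟨hy, hy'⟩ h
    | insert z Z _ ih =>
      obtain ⟨φ, h1, h2, h3, h4⟩ := ih
      by_cases hzY : z ∈ X ∪ Z
      · have e : X ∪ insert z Z = X ∪ Z := by
          rw [Finset.union_insert, Finset.insert_eq_of_mem hzY]
        rw [e]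
        exact ⟨φ, h1, h2, h3, h4⟩
      · have e : X ∪ insert z Z = insert z (X ∪ Z) := Finset.union_insert _ _ _
        rw [e]
        obtain ⟨w, hw1, hw2, hw3⟩ := rz_step C q n g c hsz hcr hn lam (X ∪ Z) z φ h3
        have hu : ∀ y ∈ X ∪ Z, Function.update φ z w y = φ y := fun y hy =>
          Function.update_of_ne (show y ≠ z from fun h => hzY (by rw [← h]; exact hy)) _ _
        have hz' : Function.update φ z w z = w := Function.update_self _ _ _
        refine ⟨Function.update φ z w, ?_, ?_, ?_, ?_⟩
        · intro x hx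
          rw [hu x (Finset.mem_union_left _ hx)]
          exact h1 x hx
        · intro a ha b hb hab
          rw [Finset.mem_coe, Finset.mem_insert] at ha hb
          rcases ha with rfl | ha
          · rcases hb with rfl | hb
            · rfl
            · rw [hz', hu b hb] at hab
              exact absurd hab.symm (hw2 b hb)
          · rcases hb with rfl | hb
            · rw [hz', hu a ha] at hab
              exact absurd hab (hw2 a ha)
            · rw [hu a ha, hu b hb] at hab
              exact h2 (Finset.mem_coe.2 ha) (Finset.mem_coe.2 hb) hab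
        · intro y hy
          rw [Finset.mem_insert] at hy
          rcases hy with rfl | hy
          · rw [hz']; exact hw1
          · rw [hu y hy]; exact h3 y hy
        · intro y hy y' hy' hX' hne
          rw [Finset.mem_insert] at hy hy'
          rcases hy with rfl | hy
          · rcases hy' with rfl | hy'
            · exact absurd rfl hne
            · rw [hz', hu y' hy']
              exact (hw3 y' hy' (Ne.symm hne)).symm
          · rcases hy' with rfl | hy'
            · rw [hz', hu y hy]
              exact hw3 y hy hne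
            · rw [hu y hy, hu y' hy']
              exact h4 y hy y' hy' hX' hne
  obtain ⟨φ, h1, h2, h3, h4⟩ := key Finset.univ
  have hmem : ∀ x : V, x ∈ X ∪ Finset.univ := fun x => Finset.mem_union_right _ (Finset.mem_univ x)
  refine contained_of_map φ (fun a b hab => h2 (Finset.mem_coe.2 (hmem a)) (Finset.mem_coe.2 (hmem b)) hab) ?_
  intro x y hxy
  by_cases hx : x ∈ X
  · by_cases hy : y ∈ X
    · rw [h1 x hx, h1 y hy]
      exact hX x hx y hy hxy
    · exact h4 x (hmem x) y (hmem y) (fun h => hy h.2) (fun h => hz y hy x hxy.symm h.symm)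
  · exact h4 x (hmem x) y (hmem y) (fun h => hx h.1) (hz x hx y hxy)

end H67.SG
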