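import Pool.Agent.H67.SG.Root

/-! # SG.Split : a vertex c and a union K of components of T - c with s ≤ |K| ≤ 2 s (about 200 lines)

Root the tree anywhere (`tree_root`, root `r`). `desc i` = set of all `j` such that some iterate of `par` (with `par r` replaced by
`r`, i.e. use `p v = if v = r then r else par v`) maps `j` to `i`. `desc r = univ` (ranks decrease, so every vertex reaches `r`),
`n ≥ s + 1`. Choose `c` with `|desc c| ≥ s + 1` and `rk c` maximal. The children `i` of `c` (`i ≠ r`, `par i = c`) have larger rank, so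
`|desc i| ≤ s`. `desc c` minus `c` is the disjoint union of the `desc i` over the children (disjoint because ranks strictly
decrease along `p`), of total size `≥ s`. Choose a set `Q` of children with `Σ_{i ∈ Q} |desc i| ≥ s` of minimal cardinality (nonempty since
`s ≥ 1`); removing one element gives a sum `< s`, so the sum is `< s + s`. `K = ⋃_{i ∈ Q} desc i`. `c ∉ K` (ranks). An edge between
`x ∈ K` and `y ∉ K`: if `rk y < rk x` then `y = par x`; `x ∈ desc i`; if `x ≠ i` then `par x ∈ desc i ⊆ K`, contradiction, so `x = i` and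
`y = c`. If `rk x < rk y` then `x = par y`, so `y ∈ desc i ⊆ K`, contradiction. -/

namespace H67.SG

open SimpleGraph Pool.Agent.H62.Decomp

theorem split {n : ℕ} (T : SimpleGraph (Fin n)) (hT : T.IsTree) (s : ℕ) (hs1 : 1 ≤ s) (hs : s + 1 ≤ n) :
    ∃ (c : Fin n) (K : Finset (Fin n)), c ∉ K ∧ s ≤ K.card ∧ K.card ≤ 2 * s ∧
      ∀ x ∈ K, ∀ y, y ∉ K → T.Adj x y → y = c := by
  classical
  obtain ⟨r⟩ := hT.connected.nonempty
  obtain ⟨rk, par, hR⟩ := tree_root T hT r
  let p : Fin n → Fin n := fun v => if v = r then r else par v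
  have hpr : p r = r := if_pos rfl
  have hpn : ∀ v, v ≠ r → p v = par v := fun v hv => if_neg hv
  have hprk : ∀ v, rk (p v) ≤ rk v := by
    intro v
    by_cases hv : v = r
    · rw [hv, hpr]
    · rw [hpn v hv]
      exact (hR.lt v hv).le
  have hprkn : ∀ k v, rk (p^[k] v) ≤ rk v := by
    intro k
    induction k with
    | zero => intro v; exact le_rfl
    | succ k ih =>
      intro v
      rw [Function.iterate_succ_apply]
      exact (ih (p v)).trans (hprk v)
  let desc : Fin n → Finset (Fin n) := fun i => Finset.univ.filter (fun j => ∃ k, p^[k] j = i)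
  have hdesc : ∀ i j, j ∈ desc i ↔ ∃ k, p^[k] j = i := by
    intro i j
    simp only [desc, Finset.mem_filter, Finset.mem_univ, true_and]
  have hroot : ∀ m j, rk j = m → j ∈ desc r := by
    intro m
    induction m using Nat.strong_induction_on with
    | _ m ih =>
      intro j hj
      rw [hdesc]
      by_cases hjr : j = r
      · exact ⟨0, hjr⟩
      · have h1 := hR.lt j hjr
        have h2 := ih (rk (par j)) (by omega) (par j) rfl
        rw [hdesc] at h2
        obtain ⟨k, hk⟩ := h2
        refine ⟨k + 1, ?_⟩
        rw [Function.iterate_succ_apply, hpn j hjr]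
        exact hk
  have hrcard : s + 1 ≤ (desc r).card := by
    have h1 : desc r = Finset.univ := by
      ext j
      exact ⟨fun _ => Finset.mem_univ _, fun _ => hroot _ j rfl⟩
    rw [h1, Finset.card_univ, Fintype.card_fin]
    exact hs
  have hne : (Finset.univ.filter (fun i => s + 1 ≤ (desc i).card)).Nonempty :=
    ⟨r, Finset.mem_filter.mpr ⟨Finset.mem_univ _, hrcard⟩⟩
  obtain ⟨c, hc, hmax⟩ := Finset.exists_max_image _ rk hne
  rw [Finset.mem_filter] at hc
  have hcc : s + 1 ≤ (desc c).card := hc.2
  let Ch : Finset (Fin n) := Finset.univ.filter (fun i => i ≠ r ∧ par i = c)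
  have hCh : ∀ i, i ∈ Ch ↔ (i ≠ r ∧ par i = c) := by
    intro i
    simp only [Ch, Finset.mem_filter, Finset.mem_univ, true_and]
  have hChs : ∀ i ∈ Ch, (desc i).card ≤ s := by
    intro i hi
    rw [hCh] at hi
    by_contra hlt
    have h1 := hmax i (Finset.mem_filter.mpr ⟨Finset.mem_univ _, by omega⟩)
    have h2 := hR.lt i hi.1
    rw [hi.2] at h2
    omega
  have hcn : ∀ i ∈ Ch, c ∉ desc i := by
    intro i hi hci
    rw [hCh] at hi
    rw [hdesc] at hci
    obtain ⟨k, hk⟩ := hci
    have h1 := hprkn k c
    have h2 := hR.lt i hi.1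
    rw [hk] at h1
    rw [hi.2] at h2
    omega
  have hcov : desc c ⊆ insert c (Ch.biUnion desc) := by
    intro j hj
    rw [hdesc] at hj
    obtain ⟨k, hk⟩ := hj
    have gen : ∀ k j, p^[k] j = c → j ∈ insert c (Ch.biUnion desc) := by
      intro k
      induction k with
      | zero =>
        intro j hj
        have h1 : j = c := hj
        rw [h1]
        exact Finset.mem_insert_self _ _
      | succ k ih =>
        intro j hj
        rw [Function.iterate_succ_apply] at hj
        have h1 := ih (p j) hj
        rw [Finset.mem_insert] at h1 ⊢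
        by_cases hjc : j = c
        · exact Or.inl hjc
        · right
          rw [Finset.mem_biUnion]
          by_cases hjr : j = r
          · rw [hjr, hpr] at h1
            rcases h1 with h1 | h1
            · exact absurd (hjr.trans h1) hjc
            · rw [Finset.mem_biUnion] at h1
              rw [hjr]
              exact h1
          · rcases h1 with h1 | h1
            · refine ⟨j, ?_, ?_⟩
              · rw [hCh]
                exact ⟨hjr, by rw [← hpn j hjr]; exact h1⟩
              · rw [hdesc]
                exact ⟨0, rfl⟩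
            · rw [Finset.mem_biUnion] at h1
              obtain ⟨i, hi, hji⟩ := h1
              refine ⟨i, hi, ?_⟩
              rw [hdesc] at hji ⊢
              obtain ⟨l, hl⟩ := hji
              exact ⟨l + 1, by rw [Function.iterate_succ_apply]; exact hl⟩
    exact gen k j hk
  have hChb : s ≤ (Ch.biUnion desc).card := by
    have h1 := Finset.card_le_card hcov
    have h2 := Finset.card_insert_le c (Ch.biUnion desc)
    omega
  have hne2 : (Ch.powerset.filter (fun Q => s ≤ (Q.biUnion desc).card)).Nonempty :=
    ⟨Ch, Finset.mem_filter.mpr ⟨Finset.mem_powerset.mpr (Finset.Subset.refl _), hChb⟩⟩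
  obtain ⟨Q, hQ, hmin⟩ := Finset.exists_min_image _ (fun Q : Finset (Fin n) => Q.card) hne2
  rw [Finset.mem_filter, Finset.mem_powerset] at hQ
  obtain ⟨hQC, hQs⟩ := hQ
  have hQn : Q.Nonempty := by
    rw [Finset.nonempty_iff_ne_empty]
    rintro rfl
    rw [Finset.biUnion_empty, Finset.card_empty] at hQs
    omega
  obtain ⟨i, hi⟩ := hQn
  have hsmall : ((Q.erase i).biUnion desc).card < s := by
    by_contra hcon
    have h1 := hmin (Q.erase i) (Finset.mem_filter.mpr
      ⟨Finset.mem_powerset.mpr ((Finset.erase_subset _ _).trans hQC), by omega⟩)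
    have h2 := Finset.card_erase_of_mem hi
    have h3 : 0 < Q.card := Finset.card_pos.mpr ⟨i, hi⟩
    have h4 : Q.card ≤ (Q.erase i).card := h1
    omega
  refine ⟨c, Q.biUnion desc, ?_, hQs, ?_, ?_⟩
  · intro hmem
    rw [Finset.mem_biUnion] at hmem
    obtain ⟨j, hj, hcj⟩ := hmem
    exact hcn j (hQC hj) hcj
  · have h1 : Q.biUnion desc = desc i ∪ (Q.erase i).biUnion desc := by
      rw [← Finset.biUnion_insert, Finset.insert_erase hi]
    rw [h1]
    have h2 := Finset.card_union_le (desc i) ((Q.erase i).biUnion desc)
    have h3 := hChs i (hQC hi)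
    omega
  · intro x hx y hy hxy
    rw [Finset.mem_biUnion] at hx
    obtain ⟨j, hj, hxj⟩ := hx
    have hyj : y ∉ desc j := fun hh => hy (Finset.mem_biUnion.mpr ⟨j, hj, hh⟩)
    rw [hdesc] at hxj hyj
    obtain ⟨k, hk⟩ := hxj
    have hrne : rk x ≠ rk y := fun hh => hxy.ne (hR.inj hh)
    rcases Nat.lt_or_gt_of_ne hrne with hlt | hlt
    · obtain ⟨hyr, hxp⟩ := hR.uniq x y hxy hlt
      exfalso
      apply hyj
      refine ⟨k + 1, ?_⟩
      rw [Function.iterate_succ_apply, hpn y hyr, ← hxp]
      exact hk
    · obtain ⟨hxr, hyp⟩ := hR.uniq y x hxy.symm hlt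
      cases k with
      | zero =>
        have h1 : x = j := hk
        have h2 := (hCh j).mp (hQC hj)
        rw [hyp, h1]
        exact h2.2
      | succ k =>
        exfalso
        apply hyj
        rw [Function.iterate_succ_apply, hpn x hxr, ← hyp] at hk
        exact ⟨k, hk⟩

end H67.SG
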