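import Pool.Agent.H67.SG.Stab
import Pool.Agent.H67.SG.Assign
import Pool.Agent.H67.SG.Inner

/-! # SG.Struct : the structure theorem (about 200 lines)

No `HasK1 q m C` implies no `HasK (q+1) m C univ` (take any element `x` of the last set, `m ≥ 1`). `q (n-1) ≥ (q - ε) n` for large `n`. Choose `δ > 0` small
depending on `q`, `m`, `K` only; `stab q` gives `P`. Put `e = ⌊δ n⌋₊ + 1`, so `n ≤ |P i| + e`, `dg C x (P i) ≤ e`, `nd C x (P j) ≤ e`. `t = q m e + m`. `assign` gives `c`.
`part c j ⊇ P j`, and the vertices in no `P i` number at most `q (n-1) + M - q (n - e) ≤ M + q e` (`P i` disjoint). So with `g = 2 (t + 2 e + 1) + M + q e` one has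
`n ≤ |part c j| + g` and `nd C x (part c j) ≤ nd C x (P j) + |part c j \ P j| ≤ g` for `j ≠ c x`. `g ≤ (2 q m + q + 4) (δ n + 1) + 2 m + 2 + M` is at most
`n / K'` with `K' = K + q m + 3` when `δ` is small and `n` large (then `4 (t + 3 e + 3) ≤ n` too), and `inner_lt` applies. -/

namespace H67.SG

open SimpleGraph Pool.Agent.H62.Decomp

private theorem struct_hasK {W : Type} (C : SimpleGraph W) (q m : ℕ) (hm : 1 ≤ m) (S : Finset W)
    (h : HasK (q + 1) m C S) : HasK1 q m C := by
  obtain ⟨P, -, hcard, hadj⟩ := h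
  have hne : (P (Fin.last q)).Nonempty := by
    rw [← Finset.card_pos, hcard]
    omega
  obtain ⟨x, hx⟩ := hne
  refine ⟨x, fun i => P i.castSucc, fun i => hcard _, fun i y hy => ?_, fun i j hij y hy z hz => ?_⟩
  · exact hadj (Fin.last q) i.castSucc (Fin.castSucc_lt_last i).ne' x hx y hy
  · exact hadj i.castSucc j.castSucc (fun h => hij (Fin.castSucc_injective _ h)) y hy z hz

private theorem struct_nd_le {W : Type} [DecidableEq W] (C : SimpleGraph W) (x : W) (S S' : Finset W) :
    nd C x S ≤ nd C x S' + (S \ S').card := by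
  classical
  unfold nd
  calc (S.filter (fun y => ¬ C.Adj x y)).card
      ≤ (S'.filter (fun y => ¬ C.Adj x y) ∪ (S \ S')).card := by
        apply Finset.card_le_card
        intro y hy
        simp only [Finset.mem_filter, Finset.mem_union, Finset.mem_sdiff] at hy ⊢
        by_cases h : y ∈ S'
        · exact Or.inl ⟨h, hy.2⟩
        · exact Or.inr ⟨hy.1, h⟩
    _ ≤ _ := Finset.card_union_le _ _

theorem struct_thm (q m M K : ℕ) (hq : 1 ≤ q) (hm : 1 ≤ m) : ∃ n₀ : ℕ, ∀ n : ℕ, n₀ ≤ n →
    ∀ T : SimpleGraph (Fin n), T.IsTree → ∀ (W : Type) [Fintype W] (C : SimpleGraph W), ¬ T ⊑ Cᶜ →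
      q * (n - 1) ≤ Fintype.card W → Fintype.card W ≤ q * (n - 1) + M → ¬ HasK1 q m C →
      ∃ (c : W → Fin q) (g : ℕ), K * g ≤ n ∧ Str C q m n g c := by
  classical
  -- constants
  set K' : ℕ := K + q * m + 8 with hK'
  set L : ℕ := 2 * q * m + q + 4 with hL
  have hK'pos : (0 : ℝ) < K' := by
    have : 0 < K' := by omega
    exact_mod_cast this
  have hLpos : (0 : ℝ) < L := by
    have : 0 < L := by omega
    exact_mod_cast this
  set δ : ℝ := 1 / (2 * K' * L) with hδ
  have hδpos : 0 < δ := by positivity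
  obtain ⟨ε, hε, n₁, hstab⟩ := stab q hq m hm δ hδpos
  obtain ⟨n₂, hn₂⟩ := exists_nat_ge ((q : ℝ) / ε)
  refine ⟨n₁ + n₂ + 2 * (K' * (L + 2 * m + 2 + M)) + 1, fun n hn T hT W _ C hfree hW1 hW2 hK1 => ?_⟩
  have hS : ((q : ℝ) - ε) * n ≤ ((Finset.univ : Finset W).card : ℝ) := by
    have h1 : ((q * (n - 1) : ℕ) : ℝ) ≤ (Fintype.card W : ℝ) := by exact_mod_cast hW1
    rw [Finset.card_univ]
    have h2 : ((q * (n - 1) : ℕ) : ℝ) = q * n - q := by
      rw [Nat.cast_mul, Nat.cast_sub (by omega)]
      push_cast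
      ring
    have h3 : (q : ℝ) ≤ ε * n := by
      have h4 : (q : ℝ) / ε ≤ n := le_trans hn₂ (by exact_mod_cast (by omega : n₂ ≤ n))
      rw [div_le_iff₀ hε] at h4
      linarith
    rw [h2] at h1
    nlinarith
  have hnoK : ¬ HasK (q + 1) m C (Finset.univ : Finset W) := fun h => hK1 (struct_hasK C q m hm _ h)
  obtain ⟨P, -, hdis, hsz, -, hin, hcr⟩ := hstab n (by omega) T hT W C Finset.univ hfree hS hnoK
  -- e
  set e : ℕ := ⌊δ * n⌋₊ + 1 with he
  have he1 : δ * n < e := by
    rw [he]
    push_cast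
    exact Nat.lt_floor_add_one _
  have he2 : (e : ℝ) ≤ δ * n + 1 := by
    rw [he]
    push_cast
    have := Nat.floor_le (by positivity : (0 : ℝ) ≤ δ * n)
    linarith
  have hsz' : ∀ i, n ≤ (P i).card + e := by
    intro i
    have h1 := hsz i
    have h2 : (n : ℝ) ≤ (P i).card + e := by nlinarith
    exact_mod_cast h2
  have hin' : ∀ i, ∀ x ∈ P i, dg C x (P i) ≤ e := by
    intro i x hx
    have h1 := hin i x hx
    have h2 : (dg C x (P i) : ℝ) ≤ e := by linarith
    exact_mod_cast h2
  have hcr' : ∀ i j, i ≠ j → ∀ x ∈ P i, nd C x (P j) ≤ e := by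
    intro i j hij x hx
    have h1 := hcr i j hij x hx
    have h2 : (nd C x (P j) : ℝ) ≤ e := by linarith
    exact_mod_cast h2
  set t : ℕ := q * m * e + m with ht
  set g : ℕ := 2 * (t + 2 * e + 1) + (q * e + M) with hg
  have hgL : g = L * e + (2 * m + 2 + M) := by
    rw [hg, ht, hL]
    ring
  have hbig : K' * g ≤ n := by
    have h1 : ((K' * g : ℕ) : ℝ) ≤ n := by
      rw [hgL]
      push_cast
      have h2 : (K' : ℝ) * (L * δ * n) = n / 2 := by
        rw [hδ]
        field_simp
      have h3 : ((2 * (K' * (L + 2 * m + 2 + M)) : ℕ) : ℝ) ≤ n := by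
        exact_mod_cast (by omega : 2 * (K' * (L + 2 * m + 2 + M)) ≤ n)
      push_cast at h3
      have h4 : (L : ℝ) * e ≤ L * (δ * n + 1) := mul_le_mul_of_nonneg_left he2 hLpos.le
      have h5 : (K' : ℝ) * (L * e + (2 * m + 2 + M)) ≤ K' * (L * (δ * n + 1) + (2 * m + 2 + M)) :=
        mul_le_mul_of_nonneg_left (by linarith) hK'pos.le
      have h6 : (K' : ℝ) * (L * (δ * n + 1) + (2 * m + 2 + M)) =
          K' * (L * δ * n) + K' * (L + 2 * m + 2 + M) := by ring
      rw [h6, h2] at h5
      linarith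
    exact_mod_cast h1
  have hgm : m ≤ g := by
    rw [hgL]
    omega
  have hgte : 4 * (t + 3 * e + 3) ≤ 8 * g := by
    rw [hg]
    have : 0 ≤ q * e := Nat.zero_le _
    omega
  have hn4 : 4 * (t + 3 * e + 3) ≤ n := by
    have h8 : 8 * g ≤ K' * g := Nat.mul_le_mul_right g (by omega)
    omega
  obtain ⟨c, hc1, hc2⟩ := assign T hT C hfree q m e t hK1 P hdis hsz' hin' hcr' le_rfl hn4
  -- the rest
  have hsub : ∀ j, P j ⊆ part c j := by
    intro j x hx
    unfold part
    simp only [Finset.mem_filter, Finset.mem_univ, true_and]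
    exact hc1 j x hx
  set R : Finset W := Finset.univ \ (Finset.univ.biUnion P) with hR
  have hRcard : R.card ≤ q * e + M := by
    have h1 : R.card + (Finset.univ.biUnion P).card = Fintype.card W := by
      rw [hR, Finset.card_sdiff_add_card_eq_card (Finset.subset_univ _), Finset.card_univ]
    have h2 : (Finset.univ.biUnion P).card = ∑ i, (P i).card := by
      apply Finset.card_biUnion
      intro i _ j _ hij
      exact hdis i j hij
    have h3 : q * n ≤ (∑ i, (P i).card) + q * e := by
      have h4 : ∑ _i : Fin q, n ≤ ∑ i : Fin q, ((P i).card + e) := Finset.sum_le_sum (fun i _ => hsz' i)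
      rw [Finset.sum_add_distrib] at h4
      simpa using h4
    have h5 : q * (n - 1) ≤ q * n := Nat.mul_le_mul_left q (by omega)
    omega
  have hdiff : ∀ j, part c j \ P j ⊆ R := by
    intro j x hx
    rw [Finset.mem_sdiff] at hx
    rw [hR, Finset.mem_sdiff]
    refine ⟨Finset.mem_univ _, fun hmem => ?_⟩
    rw [Finset.mem_biUnion] at hmem
    obtain ⟨i, -, hi⟩ := hmem
    have h1 := hc1 i x hi
    have h2 : c x = j := by
      have := hx.1
      unfold part at this
      simpa using this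
    rw [h1] at h2
    exact hx.2 (h2 ▸ hi)
  have hcross : ∀ x j, j ≠ c x → nd C x (part c j) ≤ g := by
    intro x j hj
    have h1 := struct_nd_le C x (part c j) (P j)
    have h2 := Finset.card_le_card (hdiff j)
    have h3 := hc2 x j hj
    rw [hg]
    omega
  have hsize : ∀ j, n ≤ (part c j).card + g := by
    intro j
    have h1 := Finset.card_le_card (hsub j)
    have h2 := hsz' j
    rw [hg]
    omega
  have hKg : K * g ≤ n := le_trans (Nat.mul_le_mul_right g (by omega)) hbig
  have hinn : (q * m + 2) * g + m ≤ n := by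
    have h1 : (q * m + 2) * g + m ≤ (q * m + 3) * g := by
      have : (q * m + 3) * g = (q * m + 2) * g + g := by ring
      omega
    exact le_trans h1 (le_trans (Nat.mul_le_mul_right g (by omega)) hbig)
  exact ⟨c, g, hKg, hsize, hcross, fun x => inner_lt C q m n g c hK1 hsize hcross hinn x⟩

end H67.SG
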