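import Pool.Agent.H67.SG.Core
import Pool.Agent.H67.SG.Realize
import Pool.Agent.H67.SG.StarMem

/-! # SG.TwoNb : if v has at most two neighbours in another class, red degrees inside the parts are at most 1 (about 150 lines)

`q + 1 = k`. Suppose some `x₀` has two red neighbours `y₁ ≠ y₂` in `part c (c x₀)`. Colouring `f` with singleton class `{v}` and a class `i ≠ f v` containing at most two neighbours of `v`. Labels: `lam u` for `u ≠ v`: the colours `≠ f v` are `q` colours, choose a
bijection `β` of them with `Fin q` sending `i` to `c x₀`; `lam u = β (f u)`, `lam v = c x₀`. `X` = `{v}` together with the at most two vertices `x` with `G.Adj v x`, `f x = i`; `ψ v = x₀`, `ψ` of these is `y₁`, `y₂`. `realize`: inside `X` the only edges are `v x` (two vertices of colour `i` are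
not adjacent); `hz`: `z ∉ X` adjacent to `u` with `lam z = lam u`: if `u = v` then `f z = i` and `z` is a neighbour of `v`, so `z ∈ X`; if `z, u ≠ v` then `f z = f u`, impossible. So `G ⊑ C`. -/

namespace H67.SG

open SimpleGraph Pool.Agent.H62.Decomp

theorem inner_le_one {V : Type} [Fintype V] (G : SimpleGraph V) (q : ℕ) (v : V)
    (f : G.Coloring (Fin (q + 1))) (hf : ∀ x, f x = f v → x = v) (i : Fin (q + 1)) (hi : i ≠ f v)
    (h2 : {x | G.Adj v x ∧ f x = i}.ncard ≤ 2) {W : Type} [Fintype W] (C : SimpleGraph W) (n g : ℕ)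
    (c : W → Fin q) (hsz : ∀ j, n ≤ (part c j).card + g)
    (hcr : ∀ x j, j ≠ c x → nd C x (part c j) ≤ g)
    (hn : (Fintype.card V + 1) * g + Fintype.card V + 1 ≤ n) (hG : ¬ G ⊑ C) (x : W) :
    dg C x (part c (c x)) ≤ 1 := by
  classical
  by_contra hcon
  have hlt : 1 < dg C x (part c (c x)) := by omega
  unfold dg at hlt
  obtain ⟨y₁, hy₁, y₂, hy₂, hne⟩ := Finset.one_lt_card.mp hlt
  rw [Finset.mem_filter] at hy₁ hy₂
  have hcy₁ : c y₁ = c x := by
    have := hy₁.1
    unfold part at this
    exact (Finset.mem_filter.mp this).2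
  have hcy₂ : c y₂ = c x := by
    have := hy₂.1
    unfold part at this
    exact (Finset.mem_filter.mp this).2
  -- the at most two neighbours of `v` with colour `i`
  set N : Finset V := Finset.univ.filter (fun u => G.Adj v u ∧ f u = i) with hN
  have hNcard : N.card ≤ 2 := by
    have h : ({u | G.Adj v u ∧ f u = i} : Set V) = (N : Set V) := by
      ext u; simp [hN]
    rw [h, Set.ncard_coe_finset] at h2
    exact h2
  have hNmem : ∀ u, u ∈ N ↔ G.Adj v u ∧ f u = i := by
    intro u; simp [hN]
  have hvN : v ∉ N := fun h => G.loopless.irrefl v ((hNmem v).1 h).1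
  have hYcard : ({y₁, y₂} : Finset W).card = 2 := Finset.card_pair hne
  have hemb : Nonempty (↥N ↪ ↥({y₁, y₂} : Finset W)) := by
    apply Function.Embedding.nonempty_of_card_le
    rw [Fintype.card_coe, Fintype.card_coe, hYcard]
    exact hNcard
  obtain ⟨e⟩ := hemb
  have heY : ∀ u : ↥N, (e u : W) = y₁ ∨ (e u : W) = y₂ := by
    intro u
    have h := (e u).2
    rw [Finset.mem_insert, Finset.mem_singleton] at h
    exact h
  have headj : ∀ u : ↥N, C.Adj x (e u : W) := by
    intro u
    rcases heY u with h | h
    · rw [h]; exact hy₁.2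
    · rw [h]; exact hy₂.2
  have hec : ∀ u : ↥N, c (e u : W) = c x := by
    intro u
    rcases heY u with h | h
    · rw [h]; exact hcy₁
    · rw [h]; exact hcy₂
  -- the labels
  let β₀ : {y : Fin (q + 1) // y ≠ f v} ≃ Fin q := (finSuccAboveEquiv (f v)).symm
  let β : {y : Fin (q + 1) // y ≠ f v} ≃ Fin q := β₀.trans (Equiv.swap (β₀ ⟨i, hi⟩) (c x))
  have hβi : β ⟨i, hi⟩ = c x := by
    simp only [β, Equiv.trans_apply, Equiv.swap_apply_left]
  let lam : V → Fin q := fun u => if h : f u ≠ f v then β ⟨f u, h⟩ else c x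
  have hfne : ∀ u, u ≠ v → f u ≠ f v := fun u hu h => hu (hf u h)
  have hlamv : lam v = c x := by simp [lam]
  have hlam : ∀ u (hu : u ≠ v), lam u = β ⟨f u, hfne u hu⟩ := by
    intro u hu
    simp only [lam]
    rw [dif_pos (hfne u hu)]
  have hlami : ∀ u, u ≠ v → (lam u = c x ↔ f u = i) := by
    intro u hu
    rw [hlam u hu, ← hβi, β.injective.eq_iff, Subtype.mk.injEq]
  have hlaminj : ∀ u w, u ≠ v → w ≠ v → lam u = lam w → f u = f w := by
    intro u w hu hw h
    rw [hlam u hu, hlam w hw, β.injective.eq_iff, Subtype.mk.injEq] at h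
    exact h
  -- the partial embedding
  let ψ : V → W := fun u => if h : u ∈ N then (e ⟨u, h⟩ : W) else x
  have hψv : ψ v = x := by
    simp only [ψ]
    rw [dif_neg hvN]
  have hψN : ∀ u (hu : u ∈ N), ψ u = (e ⟨u, hu⟩ : W) := by
    intro u hu
    simp only [ψ]
    rw [dif_pos hu]
  apply hG
  refine realize G C q n g c hsz hcr hn lam (insert v N) ψ ?_ ?_ ?_ ?_
  · intro a ha b hb hab
    rw [Finset.mem_coe, Finset.mem_insert] at ha hb
    rcases ha with rfl | ha
    · rcases hb with rfl | hb
      · rfl
      · exfalso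
        rw [hψv, hψN b hb] at hab
        have := headj ⟨b, hb⟩
        rw [← hab] at this
        exact C.loopless.irrefl _ this
    · rcases hb with rfl | hb
      · exfalso
        rw [hψv, hψN a ha] at hab
        have := headj ⟨a, ha⟩
        rw [hab] at this
        exact C.loopless.irrefl _ this
      · rw [hψN a ha, hψN b hb] at hab
        have := e.injective (Subtype.ext hab)
        exact congrArg Subtype.val this
  · intro u hu
    rw [Finset.mem_insert] at hu
    rcases hu with rfl | hu
    · rw [hψv, hlamv]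
    · rw [hψN u hu, hec]
      have huv : u ≠ v := fun h => hvN (h ▸ hu)
      exact ((hlami u huv).2 ((hNmem u).1 hu).2).symm
  · intro a ha b hb hab
    rw [Finset.mem_insert] at ha hb
    rcases ha with rfl | ha
    · rcases hb with rfl | hb
      · exact absurd hab (G.loopless.irrefl _)
      · rw [hψv, hψN b hb]; exact headj ⟨b, hb⟩
    · rcases hb with rfl | hb
      · rw [hψv, hψN a ha]; exact (headj ⟨a, ha⟩).symm
      · exfalso
        have h1 := ((hNmem a).1 ha).2
        have h2' := ((hNmem b).1 hb).2
        exact f.valid hab (h1.trans h2'.symm)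
  · intro z hz u hzu hl
    rw [Finset.mem_insert, not_or] at hz
    by_cases huv : u = v
    · subst huv
      rw [hlamv] at hl
      exact hz.2 ((hNmem z).2 ⟨hzu.symm, (hlami z hz.1).1 hl⟩)
    · exact f.valid hzu (hlaminj z u hz.1 huv hl)

end H67.SG
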