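import Pool.Agent.H67.SG.Split
import Pool.Agent.H67.SG.GL

/-! # SG.TwoPart : a vertex joined in blue to two almost blue sets (about 150 lines)

`split T s` gives `c`, `K`. Root `c` (`tree_root`). Lists: `L c = {w}`; for `v ∈ K`: the neighbours of `w` in `Q` if `T.Adj c v`, otherwise `Q`; for
`v ∉ K`, `v ≠ c`: the neighbours of `w` in `P` if `T.Adj c v`, otherwise `P`. `P`, `Q`, `{w}` are pairwise disjoint. A neighbour `v` of `c` has `par v = c`
(`rk v < rk c` would give, by `uniq`, `c ≠ c`). Conditions of `greedy_lists`, `v ≠ c`: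
* `v ∈ K`, `par v = c`: `a = w`; the vertices `u` with `L u ∩ L v ≠ ∅` are in `K`, `u ≠ v`: at most `2 s - 1 < 2 s + 1 ≤ dg F w Q`
  (`dg F w` of the set of neighbours of `w` in `Q` is `dg F w Q`; `v` is adjacent to `c`).
* `v ∈ K`, `par v ≠ c`: then `par v ∈ K` (an edge leaving `K` goes to `c`), `a ∈ L (par v) ⊆ Q`, `v` is not adjacent to `c`, `L v = Q`,
  `dg F a Q ≥ |Q| - e ≥ 2 s + 1`.
* `v ∉ K`, `par v = c`: at most `n - 1 - |K| - 1 < n - s ≤ dg F w P` vertices count (not in `K`, not `c`, not `v`).
* `v ∉ K`, `par v ≠ c`: `par v ∉ K` (otherwise the edge leaves `K` and `v = c`), `a ∈ P`, `dg F a P ≥ |P| - e ≥ n - s`. -/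

namespace H67.SG

open SimpleGraph Pool.Agent.H62.Decomp

theorem two_part {n : ℕ} (T : SimpleGraph (Fin n)) (hT : T.IsTree) {W : Type} (F : SimpleGraph W)
    (P Q : Finset W) (w : W) (e s : ℕ) (hPQ : Disjoint P Q) (hwP : w ∉ P) (hwQ : w ∉ Q)
    (hs1 : 1 ≤ s) (hs : s + 1 ≤ n) (hP : ∀ a ∈ P, nd F a P ≤ e) (hQ : ∀ a ∈ Q, nd F a Q ≤ e)
    (hQ1 : 2 * s + 1 ≤ dg F w Q) (hQ2 : 2 * s + e + 1 ≤ Q.card)
    (hP1 : n ≤ dg F w P + s) (hP2 : n + e ≤ P.card + s) : T ⊑ F := by
  classical
  obtain ⟨c, K, hcK, hK1, hK2, hedge⟩ := split T hT s hs1 hs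
  obtain ⟨rk, par, h⟩ := tree_root T hT c
  -- the lists
  obtain ⟨L, hLdef⟩ : ∃ L : Fin n → Finset W, ∀ v, L v = if v = c then {w} else
      if v ∈ K then (if T.Adj c v then Q.filter (fun y => F.Adj w y) else Q)
      else (if T.Adj c v then P.filter (fun y => F.Adj w y) else P) := ⟨_, fun v => rfl⟩
  have hLc : L c = {w} := by rw [hLdef]; simp
  have hLK : ∀ v ∈ K, L v ⊆ Q := by
    intro v hv
    have hvc : v ≠ c := fun h => hcK (h ▸ hv)
    rw [hLdef, if_neg hvc, if_pos hv]
    split_ifs
    · exact Finset.filter_subset _ _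
    · exact Finset.Subset.refl _
  have hLP : ∀ v, v ∉ K → v ≠ c → L v ⊆ P := by
    intro v hv hvc
    rw [hLdef, if_neg hvc, if_neg hv]
    split_ifs
    · exact Finset.filter_subset _ _
    · exact Finset.Subset.refl _
  have hwPd : Disjoint ({w} : Finset W) P := Finset.disjoint_singleton_left.2 hwP
  have hwQd : Disjoint ({w} : Finset W) Q := Finset.disjoint_singleton_left.2 hwQ
  have hmeetK : ∀ u v, v ∈ K → ¬ Disjoint (L u) (L v) → u ∈ K := by
    intro u v hv hd
    by_contra hu
    apply hd
    by_cases huc : u = c
    · subst huc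
      rw [hLc]
      exact Finset.disjoint_of_subset_right (hLK v hv) hwQd
    · exact Finset.disjoint_of_subset_left (hLP u hu huc)
        (Finset.disjoint_of_subset_right (hLK v hv) hPQ)
  have hmeetP : ∀ u v, v ∉ K → v ≠ c → ¬ Disjoint (L u) (L v) → u ∉ K ∧ u ≠ c := by
    intro u v hv hvc hd
    constructor
    · intro hu
      exact hd (Finset.disjoint_of_subset_left (hLK u hu)
        (Finset.disjoint_of_subset_right (hLP v hv hvc) hPQ.symm))
    · intro huc
      subst huc
      apply hd
      rw [hLc]
      exact Finset.disjoint_of_subset_right (hLP v hv hvc) hwPd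
  have hnadj : ∀ v, v ≠ c → par v ≠ c → ¬ T.Adj c v := by
    intro v hvc hpc hadj
    rcases lt_trichotomy (rk c) (rk v) with hlt | heq | hgt
    · exact hpc ((h.uniq c v hadj hlt).2).symm
    · exact hvc (h.inj heq).symm
    · exact (h.uniq v c hadj.symm hgt).1 rfl
  have hdgf : ∀ S : Finset W, dg F w (S.filter (fun y => F.Adj w y)) = dg F w S := by
    intro S
    unfold dg
    rw [Finset.filter_filter]
    congr 1
    ext y
    simp
  obtain ⟨φ, hinj, -, hadj⟩ := greedy_lists h F L (by rw [hLc]; exact Finset.singleton_nonempty w) (by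
    intro v hv a ha
    by_cases hvK : v ∈ K
    · have hS : (Finset.univ.filter
          (fun u => rk u < rk v ∧ u ≠ par v ∧ ¬ Disjoint (L u) (L v))).card ≤ (K.erase v).card := by
        apply Finset.card_le_card
        intro u hu
        have hu' := (Finset.mem_filter.1 hu).2
        refine Finset.mem_erase.2 ⟨?_, hmeetK u v hvK hu'.2.2⟩
        rintro rfl
        exact lt_irrefl _ hu'.1
      have hKe : (K.erase v).card + 1 = K.card := Finset.card_erase_add_one hvK
      refine lt_of_le_of_lt hS ?_
      by_cases hpc : par v = c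
      · have hadj : T.Adj c v := hpc ▸ h.adj v hv
        rw [hpc, hLc, Finset.mem_singleton] at ha
        subst ha
        have hLv : L v = Q.filter (fun y => F.Adj a y) := by
          rw [hLdef, if_neg hv, if_pos hvK, if_pos hadj]
        rw [hLv, hdgf]
        omega
      · have hpK : par v ∈ K := by
          by_contra hnot
          exact hpc (hedge v hvK (par v) hnot (h.adj v hv).symm)
        have haQ : a ∈ Q := hLK _ hpK ha
        have hLv : L v = Q := by
          rw [hLdef, if_neg hv, if_pos hvK, if_neg (hnadj v hv hpc)]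
        rw [hLv]
        have h1 := dg_add_nd F a Q
        have h2 := hQ a haQ
        omega
    · have hS : (Finset.univ.filter
          (fun u => rk u < rk v ∧ u ≠ par v ∧ ¬ Disjoint (L u) (L v))).card ≤
          ((Finset.univ \ (insert v (insert c K))) : Finset (Fin n)).card := by
        apply Finset.card_le_card
        intro u hu
        have hu' := (Finset.mem_filter.1 hu).2
        obtain ⟨h1, h2⟩ := hmeetP u v hvK hv hu'.2.2
        rw [Finset.mem_sdiff]
        refine ⟨Finset.mem_univ _, ?_⟩
        intro hmem
        rcases Finset.mem_insert.1 hmem with rfl | hmem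
        · exact lt_irrefl _ hu'.1
        · rcases Finset.mem_insert.1 hmem with rfl | hmem
          · exact h2 rfl
          · exact h1 hmem
      have hcard : (insert v (insert c K)).card = K.card + 2 := by
        rw [Finset.card_insert_of_notMem, Finset.card_insert_of_notMem hcK]
        intro hmem
        rcases Finset.mem_insert.1 hmem with rfl | hmem
        · exact hv rfl
        · exact hvK hmem
      have hle : (insert v (insert c K)).card ≤ n := by
        calc (insert v (insert c K)).card ≤ (Finset.univ : Finset (Fin n)).card :=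
              Finset.card_le_card (Finset.subset_univ _)
          _ = n := by rw [Finset.card_univ, Fintype.card_fin]
      have hsd : ((Finset.univ \ (insert v (insert c K))) : Finset (Fin n)).card + (K.card + 2) = n := by
        rw [Finset.card_sdiff_of_subset (Finset.subset_univ _), Finset.card_univ, Fintype.card_fin, hcard]
        omega
      refine lt_of_le_of_lt hS ?_
      by_cases hpc : par v = c
      · have hadj : T.Adj c v := hpc ▸ h.adj v hv
        rw [hpc, hLc, Finset.mem_singleton] at ha
        subst ha
        have hLv : L v = P.filter (fun y => F.Adj a y) := by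
          rw [hLdef, if_neg hv, if_neg hvK, if_pos hadj]
        rw [hLv, hdgf]
        omega
      · have hpK : par v ∉ K := by
          intro hin
          exact hv (hedge (par v) hin v hvK (h.adj v hv))
        have haP : a ∈ P := hLP _ hpK hpc ha
        have hLv : L v = P := by
          rw [hLdef, if_neg hv, if_neg hvK, if_neg (hnadj v hv hpc)]
        rw [hLv]
        have h1 := dg_add_nd F a P
        have h2 := hP a haP
        omega)
  exact contained_of_map φ hinj hadj

end H67.SG
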